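import Mathlib

/-!
An algorithm of Euclidean type.
-/

set_option autoImplicit false

namespace Pool.Agent.Helper434.Sp

/-- insert `t` into a decreasing list -/
def ins (t : ℕ) : List ℕ → List ℕ
  | [] => [t]
  | a :: L => if t < a then a :: ins t L else t :: a :: L

lemma ins_sum (t : ℕ) (L : List ℕ) : (ins t L).sum = t + L.sum := by
  induction L with
  | nil => simp [ins]
  | cons a L ih =>
    unfold ins
    split_ifs
    · simp only [List.sum_cons, ih]; omega
    · simp only [List.sum_cons]

/-- The Euclid type algorithm, applied to decreasing lists of positive integers. -/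
def numCl : List ℕ → ℕ
  | [] => 0
  | [a] => a
  | c :: b :: L =>
    if b < c then
      if 2 * b ≤ c then numCl (b :: L) + (c - 2 * b)
      else if 2 * b - c ∈ L then numCl (b :: L)
      else numCl (ins (2 * b - c) (b :: L))
    else 0
termination_by L => L.sum
decreasing_by
  all_goals simp only [List.sum_cons, ins_sum]
  all_goals omega

/-- the list `[s j, ..., s 0]` -/
def init (s : ℕ → ℕ) : ℕ → List ℕ
  | 0 => [s 0]
  | j + 1 => s (j + 1) :: init s j

end Pool.Agent.Helper434.Sp
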