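import Mathlib
import Pool.Agent.Helper434.SpNum

/-!
The sparse class described by an algorithm of Euclidean type.
-/

set_option autoImplicit false

namespace Pool.Agent.Helper434.Alg

open Pool.Agent.Helper434.Sp (numCl init)

/-- A free step: `numCl (s_0, ..., s_{j+1}) = numCl (s_0, ..., s_j) + s_{j+1} - 2 s_j`, where `numCl`
is computed by an algorithm of Euclidean type: `numCl (a) = a`; for the two largest elements `b < c`,
`numCl (..., b, c) = numCl (..., b) + (c - 2b)` if `c ≥ 2b`, and if `c < 2b` then `c` may be replaced by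
`2b - c` (deleted, if `2b - c` is already there). -/
def FreeStep (s : ℕ → ℕ) (j : ℕ) : Prop :=
  numCl (init s (j + 1)) + 2 * s j = numCl (init s j) + s (j + 1)

/-- A progression step: `s_i, s_J, s_{J+1}, ..., s_j, s_{j+1}` is an arithmetic progression with
difference `s_J - s_i ≥ s_{J-1}`; no difference `s_k - s_i`, `k ≤ J`, `k ≠ i, J`, occurs at another place
in `{s_0, ..., s_J}`; and, if `J < j`, the step from `s_{J-1}` to `s_J` is free. -/
def ProgStep (s : ℕ → ℕ) (j : ℕ) : Prop :=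
  ∃ i J, i < J ∧ J ≤ j ∧ (∀ l, J ≤ l → l ≤ j → s (l + 1) + s i = s l + s J) ∧
    s i + s (J - 1) ≤ s J ∧
    (∀ k l m, k ≤ J → l ≤ J → m ≤ J → k ≠ i → k ≠ J → l ≠ i → s m + s i ≠ s k + s l) ∧
    (J < j → FreeStep s (J - 1))

/-- Sparse words: the ones of `f` are at the places `s_0 < s_1 < s_2 < ...`, the gaps
`s_{j+1} - s_j` tend to infinity, and each step from `s_j` to `s_{j+1}` is free or a progression
step. -/
def SparseWord (f : ℕ+ → Bool) : Prop :=
  ∃ s : ℕ → ℕ, StrictMono s ∧ 1 ≤ s 0 ∧ (∀ n : ℕ+, f n = true ↔ ∃ j, s j = n) ∧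
    (∀ g : ℕ, ∃ J, ∀ j, J ≤ j → s j + g ≤ s (j + 1)) ∧ ∀ j, FreeStep s j ∨ ProgStep s j

end Pool.Agent.Helper434.Alg
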