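import Mathlib

set_option autoImplicit false

namespace Pool.Agent.Helper434.PCDefs

open Filter Topology

/-- same pattern on the window `F` -/
def Eqv (y : ℤ → Bool) (F : Finset ℤ) (m m' : ℤ) : Prop := ∀ i ∈ F, y (m + i) = y (m' + i)

/-- the positions in `T` are pairwise distinguished by the window `F` -/
def Indep (y : ℤ → Bool) (F T : Finset ℤ) : Prop := ∀ m ∈ T, ∀ m' ∈ T, Eqv y F m m' → m = m'

/-- at most `2 |F|` patterns on each window `F` -/
def Bdd (y : ℤ → Bool) : Prop := ∀ F T : Finset ℤ, F.Nonempty → Indep y F T → T.card ≤ 2 * F.card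

/-- every block occurs infinitely often to the right -/
def RecR (y : ℤ → Bool) : Prop :=
  ∀ F : Finset ℤ, ∀ m N : ℤ, ∃ m' > N, Eqv y F m' m

/-- uniformly recurrent: patterns recur with bounded gaps -/
def URec (y : ℤ → Bool) : Prop :=
  ∀ F : Finset ℤ, ∀ m : ℤ, ∃ G : ℕ, ∀ n : ℤ, ∃ m', n ≤ m' ∧ m' < n + G ∧ Eqv y F m' m

/-- a bounded function -/
def BddF (f : ℤ → ℝ) : Prop := ∃ C : ℝ, ∀ n, |f n| ≤ C

/-- invariant mean on bounded functions -/
structure IsMean (M : (ℤ → ℝ) → ℝ) : Prop where
  add : ∀ f g, BddF f → BddF g → M (fun n => f n + g n) = M f + M g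
  smul : ∀ (c : ℝ) f, BddF f → M (fun n => c * f n) = c * M f
  mono : ∀ f g, BddF f → BddF g → (∀ n, f n ≤ g n) → M f ≤ M g
  shift : ∀ f, BddF f → ∀ k : ℤ, M (fun n => f (n + k)) = M f
  one : M (fun _ => 1) = 1

/-- averages over `[0,N)` -/
noncomputable def avg (f : ℤ → ℝ) (N : ℕ) : ℝ := (∑ n ∈ Finset.range N, f n) / N

/-- the mean -/
noncomputable def mean (f : ℤ → ℝ) : ℝ := limUnder (hyperfilter ℕ : Filter ℕ) (avg f)

lemma avg_le {f : ℤ → ℝ} {C : ℝ} (hC : ∀ n, |f n| ≤ C) (N : ℕ) : |avg f N| ≤ C := by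
  unfold avg
  have hC0 : 0 ≤ C := (abs_nonneg _).trans (hC 0)
  rcases Nat.eq_zero_or_pos N with h | h
  · simp [h, hC0]
  · have hN : (0 : ℝ) < N := by exact_mod_cast h
    rw [abs_div, abs_of_pos hN, div_le_iff₀ hN]
    calc |∑ n ∈ Finset.range N, f n| ≤ ∑ n ∈ Finset.range N, |f n| :=
          Finset.abs_sum_le_sum_abs _ _
      _ ≤ ∑ _n ∈ Finset.range N, C := Finset.sum_le_sum fun n _ => hC n
      _ = C * N := by rw [Finset.sum_const, Finset.card_range, nsmul_eq_mul]; ring

lemma mean_tendsto {f : ℤ → ℝ} (hf : BddF f) :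
    Tendsto (avg f) (hyperfilter ℕ : Filter ℕ) (𝓝 (mean f)) := by
  obtain ⟨C, hC⟩ := hf
  have h1 : (((hyperfilter ℕ).map (avg f) : Ultrafilter ℝ) : Filter ℝ) ≤
      𝓟 (Set.Icc (-C) C) := by
    rw [le_principal_iff]
    show avg f ⁻¹' Set.Icc (-C) C ∈ (hyperfilter ℕ : Filter ℕ)
    apply univ_mem'
    intro N
    exact abs_le.mp (avg_le hC N)
  obtain ⟨x, -, hx⟩ := (isCompact_Icc (a := -C) (b := C)).ultrafilter_le_nhds _ h1
  have h2 : Tendsto (avg f) (hyperfilter ℕ : Filter ℕ) (𝓝 x) := hx
  unfold mean
  rw [h2.limUnder_eq]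
  exact h2

lemma mean_eq {f : ℤ → ℝ} {x : ℝ} (h : Tendsto (avg f) (hyperfilter ℕ : Filter ℕ) (𝓝 x)) :
    mean f = x := h.limUnder_eq

theorem isMean_mean : IsMean mean where
  add f g hf hg := by
    apply mean_eq
    have h := (mean_tendsto hf).add (mean_tendsto hg)
    refine h.congr fun N => ?_
    unfold avg
    rw [Finset.sum_add_distrib, add_div]
  smul c f hf := by
    apply mean_eq
    have h := (mean_tendsto hf).const_mul c
    refine h.congr fun N => ?_
    unfold avg
    rw [← Finset.mul_sum, mul_div_assoc]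
  mono f g hf hg h := by
    refine le_of_tendsto_of_tendsto (mean_tendsto hf) (mean_tendsto hg)
      (Eventually.of_forall fun N => ?_)
    unfold avg
    apply div_le_div_of_nonneg_right _ (Nat.cast_nonneg N)
    exact Finset.sum_le_sum fun n _ => h n
  shift f hf := by
    have key : ∀ f : ℤ → ℝ, BddF f → mean (fun n => f (n + 1)) = mean f := by
      intro f hf
      apply mean_eq
      obtain ⟨C, hC⟩ := id hf
      have h1 : Tendsto (fun N : ℕ => (f N - f 0) / N) atTop (𝓝 0) := by
        apply squeeze_zero_norm (a := fun N : ℕ => (2 * C) / N)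
        · intro N
          rw [norm_div, Real.norm_natCast]
          apply div_le_div_of_nonneg_right _ (Nat.cast_nonneg N)
          rw [Real.norm_eq_abs]
          have h1 := hC N
          have h2 := hC 0
          have h3 := abs_sub (f N) (f 0)
          linarith
        · exact tendsto_const_div_atTop_nhds_zero_nat _
      have h2 := h1.mono_left (Nat.hyperfilter_le_atTop)
      have h3 := (mean_tendsto hf).add h2
      rw [add_zero] at h3
      refine h3.congr fun N => ?_
      unfold avg
      rw [← add_div]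
      congr 1
      have h4 := Finset.sum_range_succ (fun n : ℕ => f n) N
      have h5 := Finset.sum_range_succ' (fun n : ℕ => f n) N
      rw [h4] at h5
      push_cast at h5
      linarith
    intro k
    induction k using Int.induction_on with
    | zero => simp
    | succ i ih =>
      rw [← ih]
      have h1 := key (fun n => f (n + i)) (by
        obtain ⟨C, hC⟩ := hf
        exact ⟨C, fun n => hC _⟩)
      rw [← h1]
      congr 1
      ext n
      congr 1
      ring
    | pred i ih =>
      rw [← ih]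
      have h1 := key (fun n => f (n + (-i - 1))) (by
        obtain ⟨C, hC⟩ := hf
        exact ⟨C, fun n => hC _⟩)
      rw [← h1]
      congr 1
      ext n
      congr 1
      ring
  one := by
    apply mean_eq
    apply (tendsto_const_nhds (x := (1 : ℝ))).congr'
    have : ∀ᶠ N : ℕ in atTop, (1 : ℝ) = avg (fun _ => 1) N := by
      filter_upwards [eventually_gt_atTop 0] with N hN
      unfold avg
      have : (N : ℝ) ≠ 0 := by positivity
      simp [this]
    exact this.filter_mono Nat.hyperfilter_le_atTop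

open Classical in
/-- indicator of a set of integers, as a real function -/
noncomputable def ind (S : Set ℤ) : ℤ → ℝ := fun n => if n ∈ S then 1 else 0

lemma ind_bdd (S : Set ℤ) : BddF (ind S) := ⟨1, fun n => by unfold ind; split_ifs <;> simp⟩

/-- positions where the letters at distance `h` differ -/
def R (y : ℤ → Bool) (h : ℤ) : Set ℤ := {n | y n ≠ y (n + h)}

/-- the pseudometric -/
noncomputable def dd (y : ℤ → Bool) (h : ℤ) : ℝ := mean (ind (R y h))

end Pool.Agent.Helper434.PCDefs
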