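import Mathlib
import Pool.Agent.Helper434.PCDefs

set_option autoImplicit false

namespace Pool.Agent.Helper434.PCBasic

open Pool.Agent.Helper434.PCDefs

/-- positions of `01` at distance `h` -/
def R01 (y : ℤ → Bool) (h : ℤ) : Set ℤ := {n | y n = false ∧ y (n + h) = true}

/-- positions of `10` at distance `h` -/
def R10 (y : ℤ → Bool) (h : ℤ) : Set ℤ := {n | y n = true ∧ y (n + h) = false}

lemma bddF_add {f g : ℤ → ℝ} (hf : BddF f) (hg : BddF g) : BddF (fun n => f n + g n) := by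
  obtain ⟨C, hC⟩ := hf
  obtain ⟨D, hD⟩ := hg
  exact ⟨C + D, fun n => (abs_add_le _ _).trans (add_le_add (hC n) (hD n))⟩

lemma bddF_smul {f : ℤ → ℝ} (c : ℝ) (hf : BddF f) : BddF (fun n => c * f n) := by
  obtain ⟨C, hC⟩ := hf
  exact ⟨|c| * C, fun n => by rw [abs_mul]; exact mul_le_mul_of_nonneg_left (hC n) (abs_nonneg _)⟩

lemma bddF_shift {f : ℤ → ℝ} (k : ℤ) (hf : BddF f) : BddF (fun n => f (n + k)) := by
  obtain ⟨C, hC⟩ := hf
  exact ⟨C, fun n => hC _⟩

lemma bddF_mul {f g : ℤ → ℝ} (hf : BddF f) (hg : BddF g) : BddF (fun n => f n * g n) := by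
  obtain ⟨C, hC⟩ := hf
  obtain ⟨D, hD⟩ := hg
  exact ⟨C * D, fun n => by
    rw [abs_mul]
    exact mul_le_mul (hC n) (hD n) (abs_nonneg _) ((abs_nonneg _).trans (hC n))⟩

lemma mean_sub {f g : ℤ → ℝ} (hf : BddF f) (hg : BddF g) :
    mean (fun n => f n - g n) = mean f - mean g := by
  have h1 := isMean_mean.add f (fun n => (-1) * g n) hf (bddF_smul _ hg)
  rw [isMean_mean.smul _ _ hg] at h1
  have e : (fun n => f n - g n) = fun n => f n + (-1) * g n := by ext n; ring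
  rw [e, h1]; ring

lemma mean_zero : mean (fun _ => (0 : ℝ)) = 0 := by
  have h := isMean_mean.smul 0 (fun _ => 1) ⟨1, fun n => by simp⟩
  simpa using h

lemma mean_nonneg {f : ℤ → ℝ} (hf : BddF f) (h : ∀ n, 0 ≤ f n) : 0 ≤ mean f := by
  have h1 := isMean_mean.mono (fun _ => 0) f ⟨0, fun n => by simp⟩ hf h
  rwa [mean_zero] at h1

lemma mean_ind_nonneg (S : Set ℤ) : 0 ≤ mean (ind S) :=
  mean_nonneg (ind_bdd S) fun n => by unfold ind; split_ifs <;> norm_num

lemma mean_ind_mono {S T : Set ℤ} (h : S ⊆ T) : mean (ind S) ≤ mean (ind T) :=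
  isMean_mean.mono _ _ (ind_bdd S) (ind_bdd T) fun n => by
    unfold ind
    by_cases h1 : n ∈ S
    · rw [if_pos h1, if_pos (h h1)]
    · rw [if_neg h1]; split_ifs <;> norm_num

/-- numerical value of a letter -/
def F (y : ℤ → Bool) (n : ℤ) : ℝ := if y n then 1 else 0

lemma F_bdd (y : ℤ → Bool) : BddF (F y) := ⟨1, fun n => by unfold F; split_ifs <;> simp⟩

lemma ind_of_mem {S : Set ℤ} {n : ℤ} (h : n ∈ S) : ind S n = 1 := by unfold ind; rw [if_pos h]

lemma ind_of_not_mem {S : Set ℤ} {n : ℤ} (h : n ∉ S) : ind S n = 0 := by unfold ind; rw [if_neg h]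

lemma ind_R_eq (y : ℤ → Bool) (h n : ℤ) :
    ind (R y h) n = if y n = y (n + h) then (0 : ℝ) else 1 := by
  by_cases h1 : y n = y (n + h)
  · rw [if_pos h1, ind_of_not_mem]; exact fun h2 => h2 h1
  · rw [if_neg h1, ind_of_mem]; exact h1

lemma ind_R01_eq (y : ℤ → Bool) (h n : ℤ) :
    ind (R01 y h) n = if y n = false ∧ y (n + h) = true then (1 : ℝ) else 0 := by
  by_cases h1 : y n = false ∧ y (n + h) = true
  · rw [if_pos h1, ind_of_mem]; exact h1
  · rw [if_neg h1, ind_of_not_mem]; exact h1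

lemma ind_R10_eq (y : ℤ → Bool) (h n : ℤ) :
    ind (R10 y h) n = if y n = true ∧ y (n + h) = false then (1 : ℝ) else 0 := by
  by_cases h1 : y n = true ∧ y (n + h) = false
  · rw [if_pos h1, ind_of_mem]; exact h1
  · rw [if_neg h1, ind_of_not_mem]; exact h1

lemma ind_R (y : ℤ → Bool) (h n : ℤ) : ind (R y h) n = ind (R01 y h) n + ind (R10 y h) n := by
  rw [ind_R_eq, ind_R01_eq, ind_R10_eq]
  cases h1 : y n <;> cases h2 : y (n + h) <;> simp

lemma F_sub (y : ℤ → Bool) (h n : ℤ) : F y (n + h) - F y n = ind (R01 y h) n - ind (R10 y h) n := by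
  rw [ind_R01_eq, ind_R10_eq]
  unfold F
  cases h1 : y n <;> cases h2 : y (n + h) <;> simp

lemma half01 (y : ℤ → Bool) (h : ℤ) : mean (ind (R01 y h)) = dd y h / 2 := by
  have h1 : mean (ind (R y h)) = mean (ind (R01 y h)) + mean (ind (R10 y h)) := by
    rw [← isMean_mean.add _ _ (ind_bdd _) (ind_bdd _)]
    congr 1; ext n; exact ind_R y h n
  have h2 : mean (fun n => F y (n + h) - F y n) = mean (ind (R01 y h)) - mean (ind (R10 y h)) := by
    rw [← mean_sub (ind_bdd _) (ind_bdd _)]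
    congr 1; ext n; exact F_sub y h n
  rw [mean_sub (bddF_shift h (F_bdd y)) (F_bdd y), isMean_mean.shift _ (F_bdd y)] at h2
  unfold dd
  linarith

lemma half10 (y : ℤ → Bool) (h : ℤ) : mean (ind (R10 y h)) = dd y h / 2 := by
  have h1 : mean (ind (R y h)) = mean (ind (R01 y h)) + mean (ind (R10 y h)) := by
    rw [← isMean_mean.add _ _ (ind_bdd _) (ind_bdd _)]
    congr 1; ext n; exact ind_R y h n
  have h2 := half01 y h
  unfold dd at h2 ⊢
  linarith

lemma dd_zero (y : ℤ → Bool) : dd y 0 = 0 := by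
  unfold dd
  have : ind (R y 0) = fun _ => (0 : ℝ) := by
    ext n; rw [ind_R_eq]; simp
  rw [this, mean_zero]

lemma dd_nonneg (y : ℤ → Bool) (h : ℤ) : 0 ≤ dd y h := mean_ind_nonneg _

lemma dd_neg (y : ℤ → Bool) (h : ℤ) : dd y (-h) = dd y h := by
  unfold dd
  rw [← isMean_mean.shift _ (ind_bdd (R y (-h))) h]
  congr 1; ext n
  rw [ind_R_eq, ind_R_eq, show n + h + -h = n by ring]
  by_cases h1 : y n = y (n + h)
  · rw [if_pos h1.symm, if_pos h1]
  · rw [if_neg (fun h => h1 h.symm), if_neg h1]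

lemma dd_add (y : ℤ → Bool) (h k : ℤ) : dd y (h + k) ≤ dd y h + dd y k := by
  unfold dd
  have e : mean (ind (R y k)) = mean (fun n => ind (R y k) (n + h)) :=
    (isMean_mean.shift _ (ind_bdd _) h).symm
  rw [e, ← isMean_mean.add _ _ (ind_bdd _) (bddF_shift h (ind_bdd _))]
  apply isMean_mean.mono _ _ (ind_bdd _) (bddF_add (ind_bdd _) (bddF_shift h (ind_bdd _)))
  intro n
  rw [ind_R_eq, ind_R_eq, ind_R_eq, show n + (h + k) = n + h + k by ring]
  cases h1 : y n <;> cases h2 : y (n + h) <;> cases h3 : y (n + h + k) <;> simp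

lemma dd_sub (y : ℤ → Bool) (h k : ℤ) : dd y (h - k) ≤ dd y h + dd y k := by
  have := dd_add y h (-k)
  rwa [dd_neg, ← sub_eq_add_neg] at this

lemma dd_comm (y : ℤ → Bool) (h k : ℤ) : dd y (h - k) = dd y (k - h) := by
  rw [← dd_neg]; congr 1; ring

/-- triangle inequality -/
lemma dd_tri (y : ℤ → Bool) (a b c : ℤ) : dd y (a - c) ≤ dd y (a - b) + dd y (b - c) := by
  have := dd_add y (a - b) (b - c)
  rwa [show a - b + (b - c) = a - c by ring] at this

/-- everything that follows from uniform recurrence, aperiodicity and the complexity bound -/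
structure Core (y : ℤ → Bool) : Prop where
  urec : URec y
  bdd : Bdd y
  pos : ∀ h, h ≠ 0 → 0 < dd y h
  inf : ∀ ε : ℝ, 0 < ε → ∃ h, 0 < dd y h ∧ dd y h < ε
  flips : ∀ η : ℝ, 0 < η → ∃ ε : ℝ, 0 < ε ∧ ∀ h, 0 < dd y h → dd y h < ε → ∀ n n',
    (n ∈ R01 y h → n' ∈ R01 y h → dd y (n - n') < η) ∧
      (n ∈ R10 y h → n' ∈ R10 y h → dd y (n - n') < η)
  two : ∀ η : ℝ, 0 < η → ∃ ε : ℝ, 0 < ε ∧ ∃ c₁ c₂ : ℤ, ∀ h, 0 < dd y h → dd y h < ε →
    ∀ n ∈ R y h, dd y (n - c₁) < η ∨ dd y (n - c₂) < η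
  sep : ∀ η : ℝ, 0 < η → ∃ W : Finset ℤ, ∀ n n', Eqv y W n n' → dd y (n - n') < η

lemma R01_nonempty {y : ℤ → Bool} {h : ℤ} (hh : 0 < dd y h) : (R01 y h).Nonempty := by
  by_contra hc
  rw [Set.not_nonempty_iff_eq_empty] at hc
  have h1 := half01 y h
  rw [hc] at h1
  have : ind (∅ : Set ℤ) = fun _ => (0 : ℝ) := by ext n; unfold ind; simp
  rw [this, mean_zero] at h1
  linarith

lemma R10_nonempty {y : ℤ → Bool} {h : ℤ} (hh : 0 < dd y h) : (R10 y h).Nonempty := by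
  by_contra hc
  rw [Set.not_nonempty_iff_eq_empty] at hc
  have h1 := half10 y h
  rw [hc] at h1
  have : ind (∅ : Set ℤ) = fun _ => (0 : ℝ) := by ext n; unfold ind; simp
  rw [this, mean_zero] at h1
  linarith

lemma R01_sub (y : ℤ → Bool) (h : ℤ) : R01 y h ⊆ R y h := by
  intro n hn; unfold R; simp only [Set.mem_ofPred_eq]; rw [hn.1, hn.2]; decide

lemma R10_sub (y : ℤ → Bool) (h : ℤ) : R10 y h ⊆ R y h := by
  intro n hn; unfold R; simp only [Set.mem_ofPred_eq]; rw [hn.1, hn.2]; decide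

lemma R_cases {y : ℤ → Bool} {h n : ℤ} (hn : n ∈ R y h) : n ∈ R01 y h ∨ n ∈ R10 y h := by
  unfold R at hn
  simp only [Set.mem_ofPred_eq] at hn
  unfold R01 R10
  simp only [Set.mem_ofPred_eq]
  cases h1 : y n <;> cases h2 : y (n + h) <;> simp_all

end Pool.Agent.Helper434.PCBasic
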