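import Mathlib
import Pool.Agent.PatSturm.NRDefs

/-!
Definitions for the explicit description of the sparse words: `x = 1_S`,
`S = {s 0 < s 1 < ...}`.
-/

set_option autoImplicit false

namespace Pool.Agent.Helper434.Sp

/-- The labelled edge `(i, u)`, `i ≤ j`, `0 ≤ u < s i`, joins `u` and `u + (s (i+1) - s i)`; the
edge `(j, y)` is left out. -/
def Edge (s : ℕ → ℤ) (j : ℕ) (y u v : ℤ) : Prop :=
  ∃ i, i ≤ j ∧ 0 ≤ u ∧ u < s i ∧ v = u + (s (i + 1) - s i) ∧ ¬ (i = j ∧ u = y)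

/-- every edge `(j, y)`, `0 ≤ y < s j`, is a bridge -/
def FreeStep (s : ℕ → ℤ) (j : ℕ) : Prop :=
  ∀ y, 0 ≤ y → y < s j → ¬ Relation.EqvGen (Edge s j y) y (y + (s (j + 1) - s j))

/-- the step from `s j` to `s (j+1)` continues an arithmetic progression
`s i, s J, s (J+1), ..., s j` -/
def ProgStep (s : ℕ → ℤ) (j : ℕ) : Prop :=
  ∃ i J, i < J ∧ J ≤ j ∧ (∀ l, J ≤ l → l ≤ j → s (l + 1) = s l + (s J - s i)) ∧
    s i + s (J - 1) ≤ s J ∧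
    (∀ k l m, k ≤ J → l ≤ J → m ≤ J → k ≠ i → k ≠ J → l ≠ i → s m - s l ≠ s k - s i) ∧
    (J < j → FreeStep s (J - 1))

/-- the rule describing the sparse class -/
def Rule (s : ℕ → ℤ) : Prop := ∀ j, FreeStep s j ∨ ProgStep s j

/-- `s` enumerates the ones of `x` at the places `n ≥ 1` -/
def Enum (s : ℕ → ℤ) (x : ℤ → Bool) : Prop :=
  StrictMono s ∧ 1 ≤ s 0 ∧ ∀ n, 1 ≤ n → (x n = true ↔ ∃ i, s i = n)

/-! ### Auxiliary notions -/

/-- the set `{s 0, ..., s j}` -/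
def A (s : ℕ → ℤ) (j : ℕ) (n : ℤ) : Prop := ∃ i, i ≤ j ∧ n = s i

/-- the edges `(i, u)`, `i < j` -/
def G (s : ℕ → ℤ) (j : ℕ) (u v : ℤ) : Prop :=
  ∃ i, i < j ∧ 0 ≤ u ∧ u < s i ∧ v = u + (s (i + 1) - s i)

end Pool.Agent.Helper434.Sp
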