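import Mathlib
import Pool.Agent.Helper434.SpDefs

set_option autoImplicit false

namespace Pool.Agent.Helper434.Sp

/-- number of classes met by `K` -/
noncomputable def lam (r : ℤ → ℤ → Prop) (K : Finset ℤ) : ℕ := by
  classical exact (K.image (Quot.mk r)).card

lemma quot_eq {r : ℤ → ℤ → Prop} {u v : ℤ} :
    Quot.mk r u = Quot.mk r v ↔ Relation.EqvGen r u v :=
  ⟨Quot.eqvGen_exact, Quot.eqvGen_sound⟩

lemma card_merge {α β : Type} [DecidableEq α] [DecidableEq β] (f : α → β) (I : Finset α) {a b : α}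
    (ha : a ∈ I) (hb : b ∈ I) (hab : a ≠ b) (h : f a = f b) : (I.image f).card + 1 ≤ I.card := by
  have h1 : I.image f ⊆ (I.erase a).image f := by
    intro y hy
    obtain ⟨c, hc, rfl⟩ := Finset.mem_image.mp hy
    by_cases hca : c = a
    · subst hca
      rw [h]
      exact Finset.mem_image_of_mem _ (Finset.mem_erase.mpr ⟨hab.symm, hb⟩)
    · exact Finset.mem_image_of_mem _ (Finset.mem_erase.mpr ⟨hca, hc⟩)
  have h2 := Finset.card_le_card h1
  have h3 : ((I.erase a).image f).card ≤ (I.erase a).card := Finset.card_image_le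
  rw [Finset.card_erase_of_mem ha] at h3
  have h4 : 1 ≤ I.card := Finset.card_pos.mpr ⟨a, ha⟩
  omega

lemma lam_mono {r r' : ℤ → ℤ → Prop} (h : ∀ u v, r u v → Relation.EqvGen r' u v) (K : Finset ℤ) :
    lam r' K ≤ lam r K := by
  classical
  unfold lam
  have h1 : K.image (Quot.mk r') =
      (K.image (Quot.mk r)).image (Quot.lift (Quot.mk r') fun u v huv => quot_eq.mpr (h u v huv)) := by
    rw [Finset.image_image]
    rfl
  rw [h1]
  exact Finset.card_image_le

lemma lam_sub {r : ℤ → ℤ → Prop} {K K' : Finset ℤ}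
    (h : ∀ k ∈ K, ∃ k' ∈ K', Relation.EqvGen r k k') : lam r K ≤ lam r K' := by
  classical
  unfold lam
  apply Finset.card_le_card
  intro c hc
  obtain ⟨k, hk, rfl⟩ := Finset.mem_image.mp hc
  obtain ⟨k', hk', h'⟩ := h k hk
  rw [quot_eq.mpr h']
  exact Finset.mem_image_of_mem _ hk'

lemma lam_union {r : ℤ → ℤ → Prop} (K K' : Finset ℤ) : lam r (K ∪ K') ≤ lam r K + K'.card := by
  classical
  unfold lam
  rw [Finset.image_union]
  refine (Finset.card_union_le _ _).trans ?_
  exact Nat.add_le_add_left Finset.card_image_le _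

/-- adding an edge between two different classes met by `K` -/
lemma lam_merge {r r' : ℤ → ℤ → Prop} {K : Finset ℤ} {u v : ℤ} (hr : ∀ a b, r a b → r' a b)
    (huv : Relation.EqvGen r' u v) (hn : ¬ Relation.EqvGen r u v)
    (hu : ∃ k ∈ K, Relation.EqvGen r k u) (hv : ∃ k ∈ K, Relation.EqvGen r k v) :
    lam r' K + 1 ≤ lam r K := by
  classical
  unfold lam
  have h1 : K.image (Quot.mk r') =
      (K.image (Quot.mk r)).image (Quot.lift (Quot.mk r') fun u v huv => quot_eq.mpr
        (Relation.EqvGen.rel _ _ (hr u v huv))) := by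
    rw [Finset.image_image]
    rfl
  rw [h1]
  obtain ⟨k, hk, hku⟩ := hu
  obtain ⟨l, hl, hlv⟩ := hv
  refine card_merge _ _ (a := Quot.mk r u) (b := Quot.mk r v) ?_ ?_ ?_ ?_
  · rw [← quot_eq.mpr hku]; exact Finset.mem_image_of_mem _ hk
  · rw [← quot_eq.mpr hlv]; exact Finset.mem_image_of_mem _ hl
  · intro h
    exact hn (quot_eq.mp h)
  · exact quot_eq.mpr huv

/-- traces of `{s 0, ..., s j}` -/
structure Valid (s : ℕ → ℤ) (j : ℕ) (K T : Finset ℤ) : Prop where
  pos : ∀ m ∈ T, 1 ≤ m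
  dist : ∀ m ∈ T, ∀ n ∈ T, (∀ k ∈ K, (A s j (m + k) ↔ A s j (n + k))) → m = n
  two : ∀ m ∈ T, ∃ k ∈ K, ∃ l ∈ K, k ≠ l ∧ A s j (m + k) ∧ A s j (m + l)

def W (s : ℕ → ℤ) (j : ℕ) : Prop :=
  ∀ K T : Finset ℤ, (∀ k ∈ K, 0 ≤ k) → Valid s j K T → T.card + lam (G s j) K ≤ K.card

variable {s : ℕ → ℤ}

lemma conn_aux (hs : StrictMono s) {j α β : ℕ} {m : ℤ} (hm : 1 ≤ m) (hα : m ≤ s α) (h : α ≤ β)
    (hβ : β ≤ j) : Relation.EqvGen (G s j) (s α - m) (s β - m) := by
  induction β, h using Nat.le_induction with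
  | base => exact Relation.EqvGen.refl _
  | succ n hn ih =>
    refine Relation.EqvGen.trans _ _ _ (ih (by omega)) (Relation.EqvGen.rel _ _ ?_)
    have h1 : s α ≤ s n := hs.monotone hn
    exact ⟨n, by omega, by omega, by omega, by ring⟩

lemma conn (hs : StrictMono s) {j : ℕ} {m k l : ℤ} (hm : 1 ≤ m) (hk : 0 ≤ k) (hl : 0 ≤ l)
    (h1 : A s j (m + k)) (h2 : A s j (m + l)) : Relation.EqvGen (G s j) k l := by
  obtain ⟨α, hα, e1⟩ := h1
  obtain ⟨β, hβ, e2⟩ := h2
  have e3 : k = s α - m := by omega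
  have e4 : l = s β - m := by omega
  rcases le_total α β with h | h
  · rw [e3, e4]; exact conn_aux hs hm (by omega) h hβ
  · rw [e3, e4]; exact Relation.EqvGen.symm _ _ (conn_aux hs hm (by omega) h hα)

lemma G_mono {j : ℕ} {u v : ℤ} (h : G s j u v) : G s (j + 1) u v := by
  obtain ⟨i, h1, h2⟩ := h
  exact ⟨i, by omega, h2⟩

lemma eqv_mono {r r' : ℤ → ℤ → Prop} (h : ∀ a b, r a b → r' a b) {u v : ℤ}
    (h1 : Relation.EqvGen r u v) : Relation.EqvGen r' u v := by
  induction h1 with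
  | rel a b hab => exact Relation.EqvGen.rel _ _ (h a b hab)
  | refl a => exact Relation.EqvGen.refl _
  | symm a b _ ih => exact Relation.EqvGen.symm _ _ ih
  | trans a b c _ _ ih1 ih2 => exact Relation.EqvGen.trans _ _ _ ih1 ih2

/-- the edges of level `< j` and the edges `(j, y)`, `y ∈ Y` -/
def GY (s : ℕ → ℤ) (j : ℕ) (Y : Finset ℤ) (u v : ℤ) : Prop :=
  G s j u v ∨ (u ∈ Y ∧ 0 ≤ u ∧ u < s j ∧ v = u + (s (j + 1) - s j))

lemma free_merge {j : ℕ} (hf : FreeStep s j) {K : Finset ℤ} (Y : Finset ℤ)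
    (hY : ∀ y ∈ Y, 0 ≤ y ∧ y < s j ∧ (∃ k ∈ K, Relation.EqvGen (G s j) k y) ∧
      y + (s (j + 1) - s j) ∈ K) :
    lam (GY s j Y) K + Y.card ≤ lam (G s j) K := by
  classical
  induction Y using Finset.induction_on with
  | empty =>
    simp only [Finset.card_empty, add_zero]
    exact lam_mono (fun u v h => Relation.EqvGen.rel _ _ (Or.inl h)) K
  | insert y Y hy ih =>
    have ih' := ih fun z hz => hY z (Finset.mem_insert_of_mem hz)
    obtain ⟨h0, h1, ⟨k, hk, hky⟩, h3⟩ := hY y (Finset.mem_insert_self _ _)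
    rw [Finset.card_insert_of_notMem hy]
    have h4 : lam (GY s j (insert y Y)) K + 1 ≤ lam (GY s j Y) K := by
      refine lam_merge (u := y) (v := y + (s (j + 1) - s j)) ?_ ?_ ?_ ⟨k, hk, ?_⟩
        ⟨_, h3, Relation.EqvGen.refl _⟩
      · rintro a b (h | ⟨h, h'⟩)
        · exact Or.inl h
        · exact Or.inr ⟨Finset.mem_insert_of_mem h, h'⟩
      · exact Relation.EqvGen.rel _ _ (Or.inr ⟨Finset.mem_insert_self _ _, h0, h1, rfl⟩)
      · intro h
        refine hf y h0 h1 (eqv_mono ?_ h)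
        rintro a b (⟨i, h5, h6, h7, h8⟩ | ⟨h5, h6, h7, h8⟩)
        · exact ⟨i, h5.le, h6, h7, h8, fun h => by omega⟩
        · exact ⟨j, le_rfl, h6, h7, h8, fun h => hy (h.2 ▸ h5)⟩
      · exact eqv_mono (fun a b h => Or.inl h) hky
    omega

theorem W_free (hs : StrictMono s) {j : ℕ} (hf : FreeStep s j) (hW : W s j) : W s (j + 1) := by
  classical
  intro K T hK hT
  set c := s (j + 1) with hc
  have hbc : s j < c := hs (Nat.lt_succ_self j)
  set T1 := T.filter fun m => c - m ∈ K with hT1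
  set T0 := T.filter fun m => ¬ (c - m ∈ K) with hT0
  have hcard : T.card = T1.card + T0.card :=
    (Finset.card_filter_add_card_filter_not (fun m => c - m ∈ K)).symm
  have hA : ∀ n, A s (j + 1) n ↔ A s j n ∨ n = c := by
    intro n
    constructor
    · rintro ⟨i, hi, rfl⟩
      rcases Nat.lt_or_ge i (j + 1) with h | h
      · exact Or.inl ⟨i, by omega, rfl⟩
      · right; rw [show i = j + 1 by omega]
    · rintro (⟨i, hi, rfl⟩ | rfl)
      · exact ⟨i, by omega, rfl⟩
      · exact ⟨j + 1, le_rfl, rfl⟩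
  have hle : ∀ n, A s j n → n ≤ s j := by
    rintro n ⟨i, hi, rfl⟩
    exact hs.monotone hi
  have hV : Valid s j K T0 := by
    have key : ∀ m ∈ T0, ∀ k ∈ K, (A s (j + 1) (m + k) ↔ A s j (m + k)) := by
      intro m hm k hk
      rw [hA]
      constructor
      · rintro (h | h)
        · exact h
        · exact absurd (by rw [show c - m = k by omega]; exact hk) (Finset.mem_filter.mp hm).2
      · exact Or.inl
    refine ⟨fun m hm => hT.pos m (Finset.mem_filter.mp hm).1, fun m hm n hn h => ?_, fun m hm => ?_⟩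
    · refine hT.dist m (Finset.mem_filter.mp hm).1 n (Finset.mem_filter.mp hn).1 fun k hk => ?_
      rw [key m hm k hk, key n hn k hk]
      exact h k hk
    · obtain ⟨k, hk, l, hl, h1, h2, h3⟩ := hT.two m (Finset.mem_filter.mp hm).1
      exact ⟨k, hk, l, hl, h1, (key m hm k hk).mp h2, (key m hm l hl).mp h3⟩
  have h1 := hW K T0 hK hV
  -- the new edges
  have hY : ∀ y ∈ T1.image (fun m => s j - m), 0 ≤ y ∧ y < s j ∧
      (∃ k ∈ K, Relation.EqvGen (G s j) k y) ∧ y + (s (j + 1) - s j) ∈ K := by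
    intro y hy
    obtain ⟨m, hm, rfl⟩ := Finset.mem_image.mp hy
    obtain ⟨hm1, hm2⟩ := Finset.mem_filter.mp hm
    have hp := hT.pos m hm1
    obtain ⟨k, hk, l, hl, hkl, h2, h3⟩ := hT.two m hm1
    rw [hA] at h2 h3
    have h4 : ∃ k ∈ K, A s j (m + k) := by
      rcases h2 with h2 | h2
      · exact ⟨k, hk, h2⟩
      · rcases h3 with h3 | h3
        · exact ⟨l, hl, h3⟩
        · exact absurd (show k = l by omega) hkl
    obtain ⟨k', hk', h5⟩ := h4
    have h6 := hle _ h5
    have h7 := hK k' hk'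
    refine ⟨by omega, by omega, ⟨k', hk', ?_⟩, ?_⟩
    · exact conn hs hp h7 (by omega) h5 ⟨j, le_rfl, by ring⟩
    · rw [show s j - m + (s (j + 1) - s j) = c - m by rw [hc]; ring]
      exact hm2
  have h2 := free_merge hf _ hY
  have h3 : (T1.image (fun m => s j - m)).card = T1.card :=
    Finset.card_image_of_injective _ (sub_right_injective)
  have h4 : lam (G s (j + 1)) K ≤ lam (GY s j (T1.image (fun m => s j - m))) K := by
    apply lam_mono
    rintro u v (h | ⟨h5, h6, h7, h8⟩)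
    · exact Relation.EqvGen.rel _ _ (G_mono h)
    · exact Relation.EqvGen.rel _ _ ⟨j, by omega, h6, h7, h8⟩
  omega

lemma W_zero : W s 0 := by
  classical
  intro K T hK hT
  have h1 : T = ∅ := by
    rw [Finset.eq_empty_iff_forall_notMem]
    intro m hm
    obtain ⟨k, hk, l, hl, h1, ⟨i, hi, h2⟩, ⟨i', hi', h3⟩⟩ := hT.two m hm
    have e1 : i = 0 := by omega
    have e2 : i' = 0 := by omega
    subst e1 e2
    omega
  rw [h1]
  simp only [Finset.card_empty, zero_add]
  unfold lam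
  exact Finset.card_image_le

end Pool.Agent.Helper434.Sp
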