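import Mathlib
import Pool.Agent.Helper434.SpA

set_option autoImplicit false

namespace Pool.Agent.Helper434.Sp

variable {s : ℕ → ℤ}

lemma A_succ {j : ℕ} {n : ℤ} : A s (j + 1) n ↔ A s j n ∨ n = s (j + 1) := by
  constructor
  · rintro ⟨i, hi, rfl⟩
    rcases Nat.lt_or_ge i (j + 1) with h | h
    · exact Or.inl ⟨i, by omega, rfl⟩
    · right; rw [show i = j + 1 by omega]
  · rintro (⟨i, hi, rfl⟩ | rfl)
    · exact ⟨i, by omega, rfl⟩
    · exact ⟨j + 1, le_rfl, rfl⟩

lemma A_le (hs : StrictMono s) {j : ℕ} {n : ℤ} (h : A s j n) : n ≤ s j := by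
  obtain ⟨i, hi, rfl⟩ := h
  exact hs.monotone hi

lemma A_pos (hs : StrictMono s) (h0 : 1 ≤ s 0) {j : ℕ} {n : ℤ} (h : A s j n) : 1 ≤ n := by
  obtain ⟨i, hi, rfl⟩ := h
  exact h0.trans (hs.monotone (Nat.zero_le i))

lemma free_no4 (hs : StrictMono s) (h0 : 1 ≤ s 0) {j : ℕ} (hf : FreeStep s j) {u v w : ℤ}
    (hu : A s j u) (hv : A s j v) (hw : A s j w) : s (j + 1) ≠ u + v - w := by
  intro hc
  have h1 := A_le hs hu
  have h2 := A_le hs hv
  have h3 := A_pos hs h0 hu
  have h4 := A_pos hs h0 hw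
  have h5 : s j < s (j + 1) := hs (Nat.lt_succ_self j)
  refine hf (s j - u) (by omega) (by omega) ?_
  have e1 : Relation.EqvGen (G s j) (s j - u) 0 :=
    conn hs h3 (by omega) le_rfl ⟨j, le_rfl, by ring⟩ (by rw [add_zero]; exact hu)
  have e2 : Relation.EqvGen (G s j) 0 (v - w) :=
    conn hs h4 le_rfl (by omega) (by rw [add_zero]; exact hw)
      (by rw [show w + (v - w) = v by ring]; exact hv)
  have e3 := Relation.EqvGen.trans _ _ _ e1 e2
  rw [show v - w = s j - u + (s (j + 1) - s j) by omega] at e3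
  refine eqv_mono ?_ e3
  rintro a b ⟨i, h5, h6, h7, h8⟩
  exact ⟨i, h5.le, h6, h7, h8, fun h => by omega⟩

/-- the data of a progression step -/
structure Run (s : ℕ → ℤ) (j i J : ℕ) (p : ℤ) : Prop where
  iJ : i < J
  Jj : J ≤ j
  hp : p = s J - s i
  p1 : ∀ l, J ≤ l → l ≤ j → s (l + 1) = s l + p
  p2 : s i + s (J - 1) ≤ s J
  p3 : ∀ k l m, k ≤ J → l ≤ J → m ≤ J → k ≠ i → k ≠ J → l ≠ i → s m - s l ≠ s k - s i
  p4 : J < j → ∀ u v w, A s (J - 1) u → A s (J - 1) v → A s (J - 1) w → s J ≠ u + v - w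

lemma Run.of_prog (hs : StrictMono s) (h0 : 1 ≤ s 0) {j : ℕ} (h : ProgStep s j) :
    ∃ i J p, Run s j i J p := by
  obtain ⟨i, J, h1, h2, h3, h4, h5, h6⟩ := h
  refine ⟨i, J, s J - s i, h1, h2, rfl, h3, h4, h5, fun h u v w hu hv hw => ?_⟩
  have h7 := free_no4 hs h0 (h6 h) hu hv hw
  rwa [show J - 1 + 1 = J by omega] at h7

section run

variable {j i J : ℕ} {p : ℤ}

lemma Run.val (h : Run s j i J p) {l : ℕ} (h1 : J ≤ l) (h2 : l ≤ j + 1) :
    s l = s i + ((l : ℤ) - J + 1) * p := by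
  induction l, h1 using Nat.le_induction with
  | base => rw [h.hp]; ring
  | succ n hn ih =>
    rw [h.p1 n hn (by omega), ih (by omega)]
    push_cast
    ring

lemma Run.ppos (hs : StrictMono s) (h0 : 1 ≤ s 0) (h : Run s j i J p) : 1 ≤ s i ∧ s i ≤ p ∧
    ∀ l, l < J → s l ≤ p := by
  have h1 : s (J - 1) ≤ p := by have := h.p2; have := h.hp; omega
  have h2 : s i ≤ s (J - 1) := hs.monotone (by have := h.iJ; omega)
  exact ⟨h0.trans (hs.monotone (Nat.zero_le _)), h2.trans h1,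
    fun l hl => (hs.monotone (by omega : l ≤ J - 1)).trans h1⟩

/-- big elements are in the progression -/
lemma Run.big (hs : StrictMono s) (h0 : 1 ≤ s 0) (h : Run s j i J p) {n : ℤ} (hn : p < n)
    (hA : A s (j + 1) n) : ∃ l, J ≤ l ∧ l ≤ j + 1 ∧ n = s l := by
  obtain ⟨l, hl, rfl⟩ := hA
  refine ⟨l, ?_, hl, rfl⟩
  by_contra hcon
  have := (h.ppos hs h0).2.2 l (by omega)
  omega

lemma Run.uniq (hs : StrictMono s) (h0 : 1 ≤ s 0) (h : Run s j i J p) {q q' y w : ℤ}
    (hq1 : 1 ≤ q) (hqp : q ≤ p) (hq' : 1 ≤ q')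
    (h1 : q + y = s i ∨ ∃ l, J ≤ l ∧ l < j ∧ q + y = s l)
    (h2 : ∃ l, l < J ∧ l ≠ i ∧ q + w = s l) (h3 : A s j (q' + y)) (h4 : A s j (q' + w))
    (hw : 0 ≤ w) (hy : 0 ≤ y) : q' = q := by
  obtain ⟨g1, g2, g3⟩ := h.ppos hs h0
  obtain ⟨l, hl, hli, hσ⟩ := h2
  have hσ1 : 1 ≤ s l := h0.trans (hs.monotone (Nat.zero_le _))
  have hσ2 := g3 l hl
  have hσ3 : s l ≠ s i := fun h => hli (hs.injective h)
  -- the parameter of `y`
  obtain ⟨t, ht0, ht1, hty⟩ : ∃ t : ℤ, 0 ≤ t ∧ (1 ≤ t → J < j) ∧ q + y = s i + t * p := by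
    rcases h1 with h1 | ⟨l', h5, h6, h7⟩
    · exact ⟨0, le_rfl, fun h => absurd h (by norm_num), by rw [h1]; ring⟩
    · refine ⟨(l' : ℤ) - J + 1, by omega, fun _ => by omega, ?_⟩
      rw [h7]; exact h.val h5 (by omega)
  have hdvd : ∀ z : ℤ, |z| < p → p ∣ z → z = 0 := fun z h5 h6 =>
    Int.eq_zero_of_abs_lt_dvd h6 h5
  have hp1 : 1 ≤ p := g1.trans g2
  have hA1 : ∀ {n}, A s j n → A s (j + 1) n := fun h => A_succ.mpr (Or.inl h)
  rcases lt_or_ge p q' with hq | hq
  · obtain ⟨α, ha1, ha2, ha3⟩ := h.big hs h0 (by omega) (hA1 h3)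
    obtain ⟨β, hb1, hb2, hb3⟩ := h.big hs h0 (by omega) (hA1 h4)
    rw [h.val ha1 ha2] at ha3
    rw [h.val hb1 hb2] at hb3
    exfalso
    apply hσ3
    have : s l - s i = 0 := by
      apply hdvd
      · rw [abs_lt]; constructor <;> omega
      · refine ⟨t - ((α : ℤ) - β), ?_⟩
        have e1 : y - w = ((α : ℤ) - β) * p := by linarith
        have e2 : y - w = s i + t * p - s l := by linarith
        linarith
    omega
  · -- `f` lies in `A_J`
    have hf : ∃ m, m ≤ J ∧ q' + w = s m := by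
      obtain ⟨m, hm, hm'⟩ := h4
      refine ⟨m, ?_, hm'⟩
      by_contra hcon
      have h5 := h.val (l := m) (by omega) (by omega)
      have h6 : (2 : ℤ) ≤ (m : ℤ) - J + 1 := by omega
      have h7 : 2 * p ≤ ((m : ℤ) - J + 1) * p := by nlinarith
      omega
    obtain ⟨m, hm, hf⟩ := hf
    obtain ⟨r, hr, he⟩ := h3
    have habs : |q' - q| < p := by rw [abs_lt]; constructor <;> omega
    rcases Nat.lt_or_ge r J with hrJ | hrJ
    · by_cases hri : r = i
      · subst hri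
        have : q' - q = 0 := by
          apply hdvd _ habs
          refine ⟨-t, ?_⟩
          linarith
        omega
      · exfalso
        have h5 := g3 r hrJ
        have h6 : t * p < 2 * p := by omega
        have h7 : t < 2 := lt_of_mul_lt_mul_right h6 (by omega)
        rcases (by omega : t = 0 ∨ t = 1) with rfl | rfl
        · exact h.p3 l r m hl.le hrJ.le hm hli (by omega) hri (by linarith)
        · have h8 : s J = s r + s l - s m := by rw [h.hp] at hty; linarith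
          have h9 : s m < s J := by
            have := h.hp
            have : s l < s J := hs hl
            have : s r < s J := hs hrJ
            omega
          have h10 : m < J := hs.lt_iff_lt.mp h9
          exact h.p4 (ht1 le_rfl) (s r) (s l) (s m) ⟨r, by omega, rfl⟩ ⟨l, by omega, rfl⟩
            ⟨m, by omega, rfl⟩ h8
    · have h5 := h.val hrJ (by omega)
      rw [h5] at he
      have : q' - q = 0 := by
        apply hdvd _ habs
        refine ⟨(r : ℤ) - J + 1 - t, ?_⟩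
        linarith
      omega

end run

end Pool.Agent.Helper434.Sp
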