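import Mathlib
import Pool.Agent.Helper434.SpB

set_option autoImplicit false

namespace Pool.Agent.Helper434.Sp

variable {s : ℕ → ℤ} {j i J : ℕ} {p : ℤ}

lemma Run.c_eq (h : Run s j i J p) : s (j + 1) = s j + p := h.p1 j h.Jj le_rfl

/-- near places: the new trace of `m` and the old trace of `m - p` -/
lemma Run.near (hs : StrictMono s) (h0 : 1 ≤ s 0) (h : Run s j i J p) {m k : ℤ} (hm : p < m)
    (hk : 0 ≤ k) : A s (j + 1) (m + k) ↔ (m - p + k = s i ∨ ∃ l, J ≤ l ∧ l ≤ j ∧ m - p + k = s l) := by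
  have hJ := h.Jj
  have hhp := h.hp
  constructor
  · intro hA
    obtain ⟨l, h1, h2, h3⟩ := h.big hs h0 (by omega) hA
    rcases Nat.eq_or_lt_of_le h1 with rfl | h4
    · left; omega
    · right
      refine ⟨l - 1, by omega, by omega, ?_⟩
      have := h.p1 (l - 1) (by omega) (by omega)
      rw [show l - 1 + 1 = l by omega] at this
      omega
  · rintro (h1 | ⟨l, h1, h2, h3⟩)
    · exact ⟨J, by omega, by omega⟩
    · exact ⟨l + 1, by omega, by rw [h.p1 l h1 h2]; omega⟩

lemma Run.sub (hs : StrictMono s) (h0 : 1 ≤ s 0) (h : Run s j i J p) {m k : ℤ} (hm : p < m)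
    (hk : 0 ≤ k) (hA : A s (j + 1) (m + k)) : A s j (m - p + k) := by
  rcases (h.near hs h0 hm hk).mp hA with h1 | ⟨l, h1, h2, h3⟩
  · exact ⟨i, by have := h.iJ; have := h.Jj; omega, h1⟩
  · exact ⟨l, h2, h3⟩

lemma Run.far (hs : StrictMono s) (h0 : 1 ≤ s 0) (h : Run s j i J p) {m k : ℤ} (hm : 2 * p < m)
    (hk : 0 ≤ k) : A s (j + 1) (m + k) ↔ A s j (m - p + k) := by
  obtain ⟨g1, g2, g3⟩ := h.ppos hs h0
  refine ⟨h.sub hs h0 (by omega) hk, fun hA => ?_⟩
  rw [h.near hs h0 (by omega) hk]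
  obtain ⟨l, h1, h2, h3⟩ := h.big hs h0 (by omega : p < m - p + k) (A_succ.mpr (Or.inl hA))
  obtain ⟨l', h4, h5⟩ := hA
  refine Or.inr ⟨l, h1, ?_, h3⟩
  have : l = l' := hs.injective (by omega)
  omega

theorem stage1 (hs : StrictMono s) (h0 : 1 ≤ s 0) (h : Run s j i J p) (hW : W s j)
    {K T : Finset ℤ} (hK : ∀ k ∈ K, 0 ≤ k) (hKb : ∀ k ∈ K, k < s j) (hT : Valid s (j + 1) K T) :
    T.card + lam (G s (j + 1)) K ≤ K.card := by
  classical
  obtain ⟨g1, g2, g3⟩ := h.ppos hs h0
  have hp1 : 1 ≤ p := g1.trans g2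
  have hJ := h.Jj
  have hc := h.c_eq
  set c := s (j + 1) with hcdef
  set Y := T.filter fun m => p < m ∧ m ≤ 2 * p ∧ c - m ∈ K with hYdef
  set Z := T.filter fun m => ¬ (p < m ∧ m ≤ 2 * p ∧ c - m ∈ K) with hZdef
  have hYZ : T.card = Y.card + Z.card :=
    (Finset.card_filter_add_card_filter_not (fun m => p < m ∧ m ≤ 2 * p ∧ c - m ∈ K)).symm
  set φ : ℤ → ℤ := fun m => if 2 * p < m then m - p else m with hφ
  -- the traces of `m` and `φ m`
  have htr : ∀ m ∈ Z, ∀ k ∈ K, (A s (j + 1) (m + k) ↔ A s j (φ m + k)) := by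
    intro m hm k hk
    obtain ⟨hm1, hm2⟩ := Finset.mem_filter.mp hm
    simp only [hφ]
    split_ifs with h1
    · exact h.far hs h0 h1 (hK k hk)
    · rw [A_succ]
      constructor
      · rintro (h2 | h2)
        · exact h2
        · exfalso
          have h3 := hKb k hk
          apply hm2
          refine ⟨by omega, by omega, ?_⟩
          rw [show c - m = k by omega]
          exact hk
      · exact Or.inl
  have hinj : ∀ m ∈ Z, ∀ n ∈ Z, (∀ k ∈ K, (A s j (φ m + k) ↔ A s j (φ n + k))) → m = n := by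
    intro m hm n hn h1
    refine hT.dist m (Finset.mem_filter.mp hm).1 n (Finset.mem_filter.mp hn).1 fun k hk => ?_
    rw [htr m hm k hk, htr n hn k hk]
    exact h1 k hk
  -- elements of `Y`
  have hYb : ∀ m ∈ Y, m ≤ s j ∧ ∃ y ∈ K, y ≠ c - m ∧
      (m - p + y = s i ∨ ∃ l, J ≤ l ∧ l < j ∧ m - p + y = s l) := by
    intro m hm
    obtain ⟨hm1, hm2, hm3, hm4⟩ := Finset.mem_filter.mp hm
    obtain ⟨k, hk, l, hl, hkl, e1, e2⟩ := hT.two m hm1
    obtain ⟨y, hy, hyc, hyA⟩ : ∃ y ∈ K, y ≠ c - m ∧ A s (j + 1) (m + y) := by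
      by_cases e3 : k = c - m
      · exact ⟨l, hl, fun e4 => hkl (by omega), e2⟩
      · exact ⟨k, hk, e3, e1⟩
    have h1 := (h.near hs h0 hm2 (hK y hy)).mp hyA
    have h2 : m + y ≤ s j := by
      rcases A_succ.mp hyA with h2 | h2
      · exact A_le hs h2
      · omega
    refine ⟨by have := hK y hy; omega, y, hy, hyc, ?_⟩
    rcases h1 with h1 | ⟨l, h3, h4, h5⟩
    · exact Or.inl h1
    · refine Or.inr ⟨l, h3, ?_, h5⟩
      rcases Nat.eq_or_lt_of_le h4 with rfl | h6
      · omega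
      · exact h6
  -- removed points
  set R := Y.image (fun m => c - m) with hR
  have hRK : R ⊆ K := by
    intro r hr
    obtain ⟨m, hm, rfl⟩ := Finset.mem_image.mp hr
    exact (Finset.mem_filter.mp hm).2.2.2
  have hRcard : R.card = Y.card := Finset.card_image_of_injective _ sub_right_injective
  have hrem : ∀ q, 1 ≤ q → ∀ m ∈ Y, A s j (q + (c - m)) → q = m - p := by
    intro q hq m hm hA
    obtain ⟨hm1, hm2, hm3, hm4⟩ := Finset.mem_filter.mp hm
    have h1 := (hYb m hm).1
    have h2 : p < q + (c - m) := by omega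
    obtain ⟨l, h3, h4, h5⟩ := h.big hs h0 h2 (A_succ.mpr (Or.inl hA))
    obtain ⟨l', h6, h7⟩ := hA
    have h8 : l = l' := hs.injective (by omega)
    subst h8
    rcases Nat.eq_or_lt_of_le h6 with rfl | h9
    · omega
    · exfalso
      have h10 := h.p1 (j - 1) (by omega) (by omega)
      rw [show j - 1 + 1 = j by omega] at h10
      have h11 : s l ≤ s (j - 1) := hs.monotone (by omega)
      omega
  set K' := K \ R with hK'
  set T' := Z.image φ with hT'
  have hφinj : Set.InjOn φ Z := by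
    intro m hm n hn hmn
    refine hinj m hm n hn fun k hk => ?_
    rw [hmn]
  have hT'card : T'.card = Z.card := Finset.card_image_of_injOn hφinj
  have hφpos : ∀ m ∈ Z, 1 ≤ φ m := by
    intro m hm
    have := hT.pos m (Finset.mem_filter.mp hm).1
    simp only [hφ]
    split_ifs <;> omega
  -- affected places
  have haff : ∀ m ∈ Z, ∀ m0 ∈ Y, φ m = m0 - p →
      (∃ y ∈ K', φ m + y = s i ∨ ∃ l, J ≤ l ∧ l < j ∧ φ m + y = s l) ∧
      (∃ w ∈ K', ∃ l, l < J ∧ l ≠ i ∧ φ m + w = s l) := by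
    intro m hm m0 hm0 hφm
    obtain ⟨ha1, ha2, ha3, ha4⟩ := Finset.mem_filter.mp hm0
    obtain ⟨hmT, hm2⟩ := Finset.mem_filter.mp hm
    have hmpos := hφpos m hm
    have hmm : φ m = m := by
      simp only [hφ] at hφm ⊢
      split_ifs with h1
      · rw [if_pos h1] at hφm; omega
      · rfl
    constructor
    · obtain ⟨-, y, hy, hyc, h1⟩ := hYb m0 hm0
      rw [hφm]
      refine ⟨y, ?_, h1⟩
      rw [hK', Finset.mem_sdiff]
      refine ⟨hy, fun hyR => ?_⟩
      obtain ⟨m1, hm1, rfl⟩ := Finset.mem_image.mp hyR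
      have h2 : A s j (m0 - p + (c - m1)) := by
        rcases h1 with h1 | ⟨l, h3, h4, h5⟩
        · exact ⟨i, by have := h.iJ; omega, h1⟩
        · exact ⟨l, by omega, h5⟩
      have h3 := hrem (m0 - p) (by omega) m1 hm1 h2
      have h4 : m0 = m1 := by omega
      subst h4
      exact hyc rfl
    · have hne : m ≠ m0 := by omega
      have h1 : ∃ k ∈ K, ¬ (A s (j + 1) (m + k) ↔ A s (j + 1) (m0 + k)) := by
        by_contra hcon
        push Not at hcon
        exact hne (hT.dist m hmT m0 ha1 hcon)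
      obtain ⟨w, hw, h2⟩ := h1
      have hw0 := hK w hw
      have e1 : A s (j + 1) (m0 + w) → A s (j + 1) (m + w) := by
        intro h3
        have h4 := h.sub hs h0 ha2 hw0 h3
        rw [htr m hm w hw, hφm]
        exact h4
      have h3 : A s (j + 1) (m + w) ∧ ¬ A s (j + 1) (m0 + w) := by
        by_contra hcon
        apply h2
        constructor
        · intro h3
          by_contra h4
          exact hcon ⟨h3, h4⟩
        · exact e1
      obtain ⟨h3, h4⟩ := h3
      rw [h.near hs h0 ha2 hw0] at h4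
      push Not at h4
      rw [htr m hm w hw, hφm] at h3
      obtain ⟨l, h5, h6⟩ := h3
      have h7 : l < J := by
        by_contra h8
        exact h4.2 l (by omega) h5 h6
      have h8 : l ≠ i := by
        rintro rfl
        exact h4.1 h6
      refine ⟨w, ?_, l, h7, h8, by rw [hφm]; exact h6⟩
      rw [hK', Finset.mem_sdiff]
      refine ⟨hw, fun hwR => ?_⟩
      obtain ⟨m1, hm1, rfl⟩ := Finset.mem_image.mp hwR
      have h9 := hrem (m0 - p) (by omega) m1 hm1 ⟨l, h5, h6⟩
      have h10 : s l < s J := hs h7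
      have h11 : s J ≤ s j := hs.monotone hJ
      omega
  have hnaff : ∀ m ∈ Z, (∀ m0 ∈ Y, φ m ≠ m0 - p) → ∀ k ∈ K, A s j (φ m + k) → k ∈ K' := by
    intro m hm hno k hk hA
    rw [hK', Finset.mem_sdiff]
    refine ⟨hk, fun hkR => ?_⟩
    obtain ⟨m1, hm1, rfl⟩ := Finset.mem_image.mp hkR
    exact hno m1 hm1 (hrem _ (hφpos m hm) m1 hm1 hA)
  have hval : Valid s j K' T' := by
    refine ⟨fun q hq => ?_, fun q hq q' hq' heq => ?_, fun q hq => ?_⟩
    · obtain ⟨m, hm, rfl⟩ := Finset.mem_image.mp hq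
      exact hφpos m hm
    · obtain ⟨m, hm, rfl⟩ := Finset.mem_image.mp hq
      obtain ⟨n, hn, rfl⟩ := Finset.mem_image.mp hq'
      -- uniqueness for affected places
      have hU : ∀ a ∈ Z, ∀ b ∈ Z, (∀ k ∈ K', (A s j (φ a + k) ↔ A s j (φ b + k))) →
          (∃ m0 ∈ Y, φ a = m0 - p) → φ b = φ a := by
        rintro a ha b hb hab ⟨m0, hm0, h1⟩
        obtain ⟨⟨y, hy, hy'⟩, ⟨w, hw, hw'⟩⟩ := haff a ha m0 hm0 h1
        obtain ⟨ha1, ha2, ha3, ha4⟩ := Finset.mem_filter.mp hm0
        have hyK := hK y (Finset.mem_sdiff.mp hy).1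
        have hwK := hK w (Finset.mem_sdiff.mp hw).1
        refine h.uniq hs h0 (hφpos a ha) (by omega) (hφpos b hb) hy' hw' ?_ ?_ hwK hyK
        · rw [← hab y hy]
          rcases hy' with h2 | ⟨l, h2, h3, h4⟩
          · exact ⟨i, by have := h.iJ; omega, h2⟩
          · exact ⟨l, by omega, h4⟩
        · rw [← hab w hw]
          obtain ⟨l, h2, h3, h4⟩ := hw'
          exact ⟨l, by omega, h4⟩
      by_cases h1 : ∃ m0 ∈ Y, φ m = m0 - p
      · exact (hU m hm n hn heq h1).symm
      by_cases h2 : ∃ m0 ∈ Y, φ n = m0 - p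
      · exact hU n hn m hm (fun k hk => (heq k hk).symm) h2
      push Not at h1 h2
      congr 1
      refine hinj m hm n hn fun k hk => ?_
      constructor
      · intro h3
        exact (heq k (hnaff m hm h1 k hk h3)).mp h3
      · intro h3
        exact (heq k (hnaff n hn h2 k hk h3)).mpr h3
    · obtain ⟨m, hm, rfl⟩ := Finset.mem_image.mp hq
      by_cases h1 : ∃ m0 ∈ Y, φ m = m0 - p
      · obtain ⟨m0, hm0, h1⟩ := h1
        obtain ⟨⟨y, hy, hy'⟩, ⟨w, hw, hw'⟩⟩ := haff m hm m0 hm0 h1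
        obtain ⟨l, h2, h3, h4⟩ := hw'
        refine ⟨y, hy, w, hw, ?_, ?_, ⟨l, by omega, h4⟩⟩
        · rintro rfl
          rcases hy' with h5 | ⟨l', h5, h6, h7⟩
          · exact h3 (hs.injective (by omega))
          · have : l = l' := hs.injective (by omega)
            omega
        · rcases hy' with h5 | ⟨l', h5, h6, h7⟩
          · exact ⟨i, by have := h.iJ; omega, h5⟩
          · exact ⟨l', by omega, h7⟩
      · push Not at h1
        obtain ⟨k, hk, l, hl, hkl, e1, e2⟩ := hT.two m (Finset.mem_filter.mp hm).1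
        rw [htr m hm k hk] at e1
        rw [htr m hm l hl] at e2
        exact ⟨k, hnaff m hm h1 k hk e1, l, hnaff m hm h1 l hl e2, hkl, e1, e2⟩
  have h1 := hW K' T' (fun k hk => hK k (Finset.mem_sdiff.mp hk).1) hval
  have h2 : K'.card + Y.card = K.card := by
    rw [hK', ← hRcard]
    exact Finset.card_sdiff_add_card_eq_card hRK
  have h3 : lam (G s (j + 1)) K ≤ lam (G s j) K :=
    lam_mono (fun u v h => Relation.EqvGen.rel _ _ (G_mono h)) K
  have h4 : lam (G s j) K ≤ lam (G s j) K' := by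
    apply lam_sub
    intro k hk
    by_cases hkR : k ∈ R
    · obtain ⟨m0, hm0, rfl⟩ := Finset.mem_image.mp hkR
      obtain ⟨ha1, ha2, ha3, ha4⟩ := Finset.mem_filter.mp hm0
      obtain ⟨-, y, hy, hyc, h5⟩ := hYb m0 hm0
      have h6 : A s j (m0 - p + y) := by
        rcases h5 with h5 | ⟨l, h5, h6, h7⟩
        · exact ⟨i, by have := h.iJ; omega, h5⟩
        · exact ⟨l, by omega, h7⟩
      refine ⟨y, ?_, conn hs (m := m0 - p) (by omega) (hK _ hk) (hK y hy)
        ⟨j, le_rfl, by omega⟩ h6⟩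
      rw [hK', Finset.mem_sdiff]
      refine ⟨hy, fun hyR => ?_⟩
      obtain ⟨m1, hm1, rfl⟩ := Finset.mem_image.mp hyR
      have h7 := hrem (m0 - p) (by omega) m1 hm1 h6
      have h8 : m0 = m1 := by omega
      subst h8
      exact hyc rfl
    · exact ⟨k, Finset.mem_sdiff.mpr ⟨hk, hkR⟩, Relation.EqvGen.refl _⟩
  omega

theorem W_prog (hs : StrictMono s) (h0 : 1 ≤ s 0) (h : Run s j i J p) (hW : W s j) :
    W s (j + 1) := by
  classical
  intro K T hK hT
  set c := s (j + 1) with hcdef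
  have hbc : s j < c := hs (Nat.lt_succ_self j)
  set K0 := K.filter fun k => k < s j with hK0
  set K1 := K.filter fun k => ¬ k < s j with hK1
  have hKK : K.card = K0.card + K1.card :=
    (Finset.card_filter_add_card_filter_not (fun k => k < s j)).symm
  set T1 := T.filter fun m => c - m ∈ K1 with hT1
  set T0 := T.filter fun m => ¬ c - m ∈ K1 with hT0
  have hTT : T.card = T1.card + T0.card :=
    (Finset.card_filter_add_card_filter_not (fun m => c - m ∈ K1)).symm
  -- a point of a trace that is at least `s j` is the new one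
  have hnew : ∀ m, 1 ≤ m → ∀ k ∈ K, A s (j + 1) (m + k) → ¬ k < s j → m + k = c := by
    intro m hm k hk hA hkb
    rcases A_succ.mp hA with h1 | h1
    · have := A_le hs h1; omega
    · exact h1
  have hval : Valid s (j + 1) K0 T0 := by
    have key : ∀ m ∈ T0, ∀ k ∈ K, A s (j + 1) (m + k) → k ∈ K0 := by
      intro m hm k hk hA
      rw [hK0, Finset.mem_filter]
      refine ⟨hk, ?_⟩
      by_contra hkb
      have h1 := hnew m (hT.pos m (Finset.mem_filter.mp hm).1) k hk hA hkb
      apply (Finset.mem_filter.mp hm).2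
      rw [hK1, Finset.mem_filter, show c - m = k by omega]
      exact ⟨hk, hkb⟩
    refine ⟨fun m hm => hT.pos m (Finset.mem_filter.mp hm).1, fun m hm n hn heq => ?_,
      fun m hm => ?_⟩
    · refine hT.dist m (Finset.mem_filter.mp hm).1 n (Finset.mem_filter.mp hn).1 fun k hk => ?_
      constructor
      · intro h1
        exact (heq k (key m hm k hk h1)).mp h1
      · intro h1
        exact (heq k (key n hn k hk h1)).mpr h1
    · obtain ⟨k, hk, l, hl, hkl, e1, e2⟩ := hT.two m (Finset.mem_filter.mp hm).1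
      exact ⟨k, key m hm k hk e1, l, key m hm l hl e2, hkl, e1, e2⟩
  have h1 : T0.card + lam (G s (j + 1)) K0 ≤ K0.card :=
    stage1 hs h0 h hW (fun k hk => hK k (Finset.mem_filter.mp hk).1)
      (fun k hk => (Finset.mem_filter.mp hk).2) hval
  set X := T1.image (fun m => c - m) with hX
  have hXK : X ⊆ K1 := by
    intro r hr
    obtain ⟨m, hm, rfl⟩ := Finset.mem_image.mp hr
    exact (Finset.mem_filter.mp hm).2
  have hXcard : X.card = T1.card := Finset.card_image_of_injective _ sub_right_injective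
  have h2 : lam (G s (j + 1)) K ≤ lam (G s (j + 1)) (K0 ∪ (K1 \ X)) := by
    apply lam_sub
    intro k hk
    by_cases hkb : k < s j
    · exact ⟨k, Finset.mem_union_left _ (Finset.mem_filter.mpr ⟨hk, hkb⟩), Relation.EqvGen.refl _⟩
    by_cases hkX : k ∈ X
    · obtain ⟨m, hm, rfl⟩ := Finset.mem_image.mp hkX
      have hmT := (Finset.mem_filter.mp hm).1
      obtain ⟨k', hk', l, hl, hkl, e1, e2⟩ := hT.two m hmT
      obtain ⟨y, hy, hyc, hyA⟩ : ∃ y ∈ K, y ≠ c - m ∧ A s (j + 1) (m + y) := by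
        by_cases e3 : k' = c - m
        · exact ⟨l, hl, fun e4 => hkl (by omega), e2⟩
        · exact ⟨k', hk', e3, e1⟩
      refine ⟨y, Finset.mem_union_left _ (Finset.mem_filter.mpr ⟨hy, ?_⟩),
        conn hs (hT.pos m hmT) (hK _ hk) (hK y hy) ⟨j + 1, le_rfl, by omega⟩ hyA⟩
      by_contra hyb
      exact hyc (by have := hnew m (hT.pos m hmT) y hy hyA hyb; omega)
    · exact ⟨k, Finset.mem_union_right _ (Finset.mem_sdiff.mpr
        ⟨Finset.mem_filter.mpr ⟨hk, hkb⟩, hkX⟩), Relation.EqvGen.refl _⟩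
  have h3 := lam_union (r := G s (j + 1)) K0 (K1 \ X)
  have h4 : (K1 \ X).card + X.card = K1.card := Finset.card_sdiff_add_card_eq_card hXK
  omega

/-! ### Rule implies Star -/

lemma lam_pos {r : ℤ → ℤ → Prop} {K : Finset ℤ} (hK : K.Nonempty) : 1 ≤ lam r K := by
  classical
  unfold lam
  exact Finset.card_pos.mpr (hK.image _)

theorem W_all (hs : StrictMono s) (h0 : 1 ≤ s 0) (hr : Rule s) (j : ℕ) : W s j := by
  induction j with
  | zero => exact W_zero
  | succ j ih =>
    rcases hr j with h | h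
    · exact W_free hs h ih
    · obtain ⟨i, J, p, h⟩ := Run.of_prog hs h0 h
      exact W_prog hs h0 h ih

/-- **Rule implies Star** -/
theorem star_of_rule {x : ℤ → Bool} (he : Enum s x) (hr : Rule s) :
    Pool.Agent.PatSturm.NR.Star x := by
  intro K T hKne hK hT hI htwo
  obtain ⟨hs, h0, hx⟩ := he
  obtain ⟨B, hB⟩ : ∃ B : ℤ, ∀ m ∈ T, ∀ k ∈ K, m + k ≤ B := by
    refine ⟨T.sum (fun m => |m|) + K.sum (fun k => |k|), fun m hm k hk => ?_⟩
    have h1 : |m| ≤ T.sum (fun m => |m|) :=
      Finset.single_le_sum (f := fun m : ℤ => |m|) (fun _ _ => abs_nonneg _) hm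
    have h2 : |k| ≤ K.sum (fun k => |k|) :=
      Finset.single_le_sum (f := fun k : ℤ => |k|) (fun _ _ => abs_nonneg _) hk
    have := le_abs_self m
    have := le_abs_self k
    omega
  have hgrow : ∀ n : ℕ, (n : ℤ) + 1 ≤ s n := by
    intro n
    induction n with
    | zero => simpa using h0
    | succ n ih =>
      have : s n < s (n + 1) := hs (Nat.lt_succ_self n)
      push_cast
      omega
  set j := B.toNat with hj
  have hsj : B < s j := by
    have := hgrow j
    omega
  have hA : ∀ m ∈ T, ∀ k ∈ K, (A s j (m + k) ↔ x (m + k) = true) := by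
    intro m hm k hk
    have h1 := hT m hm
    have h2 := hK k hk
    rw [hx (m + k) (by omega)]
    constructor
    · rintro ⟨i, hi, h⟩
      exact ⟨i, h.symm⟩
    · rintro ⟨i, h⟩
      refine ⟨i, ?_, h.symm⟩
      have h3 := hB m hm k hk
      have h4 : s i < s j := by omega
      exact (hs.lt_iff_lt.mp h4).le
  have hval : Valid s j K T := by
    refine ⟨hT, fun m hm n hn heq => ?_, fun m hm => ?_⟩
    · apply hI m hm n hn
      intro k hk
      have h1 := heq k hk
      rw [hA m hm k hk, hA n hn k hk] at h1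
      exact Bool.eq_iff_iff.mpr h1
    · obtain ⟨k, hk, l, hl, h1, h2, h3⟩ := htwo m hm
      exact ⟨k, hk, l, hl, h1, (hA m hm k hk).mpr h2, (hA m hm l hl).mpr h3⟩
  have h1 := W_all hs h0 hr j K T hK hval
  have h2 := lam_pos (r := G s j) hKne
  omega

end Pool.Agent.Helper434.Sp
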