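import Mathlib
import Pool.Agent.Helper434.SpC
import Pool.Agent.Helper434.SpNum

/-!
The number of classes of the graph of a finite set is computed by a Euclid type algorithm.
-/

set_option autoImplicit false

namespace Pool.Agent.Helper434.Sp

lemma mem_ins {t a : ℕ} {L : List ℕ} : a ∈ ins t L ↔ a = t ∨ a ∈ L := by
  induction L with
  | nil => simp [ins]
  | cons b L ih =>
    unfold ins
    split_ifs
    · simp only [List.mem_cons, ih]; tauto
    · simp only [List.mem_cons]

/-- strictly decreasing lists of positive integers -/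
def Good (L : List ℕ) : Prop := L.Pairwise (fun a b => b < a) ∧ ∀ a ∈ L, 1 ≤ a

lemma ins_pairwise {t : ℕ} {L : List ℕ} (hL : L.Pairwise (fun a b => b < a)) (ht : t ∉ L) :
    (ins t L).Pairwise (fun a b => b < a) := by
  induction L with
  | nil => simp [ins]
  | cons b L ih =>
    rw [List.pairwise_cons] at hL
    simp only [List.mem_cons, not_or] at ht
    unfold ins
    split_ifs with h
    · rw [List.pairwise_cons]
      refine ⟨fun a ha => ?_, ih hL.2 ht.2⟩
      rcases mem_ins.mp ha with rfl | ha
      · exact h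
      · exact hL.1 a ha
    · rw [List.pairwise_cons, List.pairwise_cons]
      refine ⟨fun a ha => ?_, hL⟩
      rcases List.mem_cons.mp ha with rfl | ha
      · omega
      · have := hL.1 a ha
        omega

/-! ### Classes -/

/-- two places are related if they lie in a common trace -/
def R (B : ℤ → Prop) (u v : ℤ) : Prop := ∃ m, 1 ≤ m ∧ 0 ≤ u ∧ 0 ≤ v ∧ B (m + u) ∧ B (m + v)

lemma lam_map {r r' : ℤ → ℤ → Prop} {K K' : Finset ℤ} (ρ : ℤ → ℤ)
    (h : ∀ u v, r u v → Relation.EqvGen r' (ρ u) (ρ v))
    (hK : ∀ k' ∈ K', ∃ k ∈ K, Relation.EqvGen r' (ρ k) k') : lam r' K' ≤ lam r K := by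
  classical
  unfold lam
  have h1 : K'.image (Quot.mk r') ⊆
      (K.image (Quot.mk r)).image (Quot.lift (fun a => Quot.mk r' (ρ a))
        fun u v huv => quot_eq.mpr (h u v huv)) := by
    intro c hc
    obtain ⟨k', hk', rfl⟩ := Finset.mem_image.mp hc
    obtain ⟨k, hk, h2⟩ := hK k' hk'
    rw [Finset.mem_image]
    exact ⟨Quot.mk r k, Finset.mem_image_of_mem _ hk, quot_eq.mpr h2⟩
  exact (Finset.card_le_card h1).trans Finset.card_image_le

lemma lam_reflect {r r' : ℤ → ℤ → Prop} {K : Finset ℤ}
    (h : ∀ a ∈ K, ∀ b ∈ K, Relation.EqvGen r' a b → Relation.EqvGen r a b) :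
    lam r K ≤ lam r' K := by
  classical
  unfold lam
  apply Finset.card_le_card_of_surjOn
    (f := fun c => if hc : ∃ k ∈ K, Quot.mk r' k = c then Quot.mk r hc.choose else Quot.mk r 0)
  intro c hc
  rw [Finset.mem_coe, Finset.mem_image] at hc
  obtain ⟨k, hk, rfl⟩ := hc
  rw [Set.mem_image]
  refine ⟨Quot.mk r' k, Finset.mem_coe.mpr (Finset.mem_image_of_mem _ hk), ?_⟩
  have hc : ∃ k' ∈ K, Quot.mk r' k' = Quot.mk r' k := ⟨k, hk, rfl⟩
  simp only [dif_pos hc]
  exact quot_eq.mpr (h _ hc.choose_spec.1 k hk (quot_eq.mp hc.choose_spec.2))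

lemma isolated {r : ℤ → ℤ → Prop} {P : ℤ → Prop} (h : ∀ u v, r u v → P u ∧ P v) {a b : ℤ}
    (hab : Relation.EqvGen r a b) : a = b ∨ (P a ∧ P b) := by
  induction hab with
  | rel a b hab => exact Or.inr (h a b hab)
  | refl a => exact Or.inl rfl
  | symm a b _ ih =>
    rcases ih with rfl | ih
    · exact Or.inl rfl
    · exact Or.inr ih.symm
  | trans a b c _ _ ih1 ih2 =>
    rcases ih1 with rfl | ih1
    · exact ih2
    · rcases ih2 with rfl | ih2
      · exact Or.inr ih1
      · exact Or.inr ⟨ih1.1, ih2.2⟩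

lemma lam_isolated {r : ℤ → ℤ → Prop} {b d : ℤ} (h : ∀ u v, r u v → u < b ∧ v < b)
    (hb : 0 ≤ b) (hd : b ≤ d) :
    (lam r (Finset.Ico 0 d) : ℤ) = lam r (Finset.Ico 0 b) + (d - b) := by
  classical
  have h1 : Finset.Ico 0 d = Finset.Ico 0 b ∪ Finset.Ico b d := by
    ext x; simp only [Finset.mem_union, Finset.mem_Ico]; omega
  unfold lam
  rw [h1, Finset.image_union, Finset.card_union_of_disjoint, Finset.card_image_of_injOn (s := Finset.Ico b d)]
  · rw [Int.card_Ico]
    push_cast
    omega
  · intro x hx y hy hxy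
    simp only [Finset.coe_Ico, Set.mem_Ico] at hx hy
    rcases isolated (P := fun z => z < b) h (quot_eq.mp hxy) with h2 | h2
    · exact h2
    · omega
  · rw [Finset.disjoint_left]
    intro c hc hc'
    obtain ⟨x, hx, rfl⟩ := Finset.mem_image.mp hc
    obtain ⟨y, hy, hxy⟩ := Finset.mem_image.mp hc'
    simp only [Finset.mem_Ico] at hx hy
    rcases isolated (P := fun z => z < b) h (quot_eq.mp hxy) with h2 | h2
    · omega
    · omega

lemma lam_edge {r r' : ℤ → ℤ → Prop} {K : Finset ℤ} {p q : ℤ}
    (h : ∀ u v, r' u v → r u v ∨ (u = p ∧ v = q)) : lam r K ≤ lam r' K + 1 := by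
  classical
  have key : ∀ a b, Relation.EqvGen r' a b → Relation.EqvGen r a b ∨
      (Relation.EqvGen r a p ∧ Relation.EqvGen r b q) ∨
      (Relation.EqvGen r a q ∧ Relation.EqvGen r b p) := by
    intro a b hab
    induction hab with
    | rel a b hab =>
      rcases h a b hab with h1 | ⟨rfl, rfl⟩
      · exact Or.inl (Relation.EqvGen.rel _ _ h1)
      · exact Or.inr (Or.inl ⟨Relation.EqvGen.refl _, Relation.EqvGen.refl _⟩)
    | refl a => exact Or.inl (Relation.EqvGen.refl _)
    | symm a b _ ih =>
      rcases ih with h1 | h1 | h1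
      · exact Or.inl (Relation.EqvGen.symm _ _ h1)
      · exact Or.inr (Or.inr h1.symm)
      · exact Or.inr (Or.inl h1.symm)
    | trans a b c _ _ ih1 ih2 =>
      rcases ih1 with h1 | h1 | h1
      · rcases ih2 with h2 | h2 | h2
        · exact Or.inl (Relation.EqvGen.trans _ _ _ h1 h2)
        · exact Or.inr (Or.inl ⟨Relation.EqvGen.trans _ _ _ h1 h2.1, h2.2⟩)
        · exact Or.inr (Or.inr ⟨Relation.EqvGen.trans _ _ _ h1 h2.1, h2.2⟩)
      · rcases ih2 with h2 | h2 | h2
        · exact Or.inr (Or.inl ⟨h1.1, Relation.EqvGen.trans _ _ _ (Relation.EqvGen.symm _ _ h2) h1.2⟩)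
        · -- b ~ q, b ~ p
          exact Or.inr (Or.inl ⟨h1.1, h2.2⟩)
        · exact Or.inl (Relation.EqvGen.trans _ _ _ h1.1 (Relation.EqvGen.symm _ _ h2.2))
      · rcases ih2 with h2 | h2 | h2
        · exact Or.inr (Or.inr ⟨h1.1, Relation.EqvGen.trans _ _ _ (Relation.EqvGen.symm _ _ h2) h1.2⟩)
        · exact Or.inl (Relation.EqvGen.trans _ _ _ h1.1 (Relation.EqvGen.symm _ _ h2.2))
        · exact Or.inr (Or.inr ⟨h1.1, h2.2⟩)
  set K0 := K.filter fun k => ¬ Relation.EqvGen r k p with hK0
  have h1 : lam r K ≤ lam r K0 + 1 := by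
    have h2 : lam r K ≤ lam r (K0 ∪ {p}) := by
      apply lam_sub
      intro k hk
      by_cases hkp : Relation.EqvGen r k p
      · exact ⟨p, Finset.mem_union_right _ (Finset.mem_singleton_self _), hkp⟩
      · exact ⟨k, Finset.mem_union_left _ (Finset.mem_filter.mpr ⟨hk, hkp⟩), Relation.EqvGen.refl _⟩
    exact h2.trans ((lam_union _ _).trans (by simp))
  have h2 : lam r K0 ≤ lam r' K0 := by
    apply lam_reflect
    intro a ha b hb hab
    rcases key a b hab with h3 | h3 | h3
    · exact h3
    · exact absurd h3.1 (Finset.mem_filter.mp ha).2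
    · exact absurd h3.2 (Finset.mem_filter.mp hb).2
  have h3 : lam r' K0 ≤ lam r' K :=
    lam_sub fun k hk => ⟨k, (Finset.mem_filter.mp hk).1, Relation.EqvGen.refl _⟩
  omega

/-! ### The recursion -/

section recursion

variable {B : ℤ → Prop} {b c : ℤ}

lemma R_bound (hB : ∀ a, B a → 1 ≤ a ∧ a ≤ b) {u v : ℤ} (h : R B u v) : u < b ∧ v < b := by
  obtain ⟨m, h1, h2, h3, h4, h5⟩ := h
  have := hB _ h4
  have := hB _ h5
  omega

/-- the case `b < c < 2b` -/
lemma cl_near (hB : ∀ a, B a → 1 ≤ a ∧ a ≤ b) (hb : B b) (hbc : b < c) (hc : c < 2 * b) :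
    lam (R fun n => B n ∨ n = c) (Finset.Ico 0 c) =
      lam (R fun n => B n ∨ n = 2 * b - c) (Finset.Ico 0 b) := by
  apply le_antisymm
  · refine (lam_sub (K' := Finset.Ico 0 b) ?_).trans (lam_mono ?_ _)
    · intro k hk
      rw [Finset.mem_Ico] at hk
      by_cases h : k < b
      · exact ⟨k, Finset.mem_Ico.mpr ⟨hk.1, h⟩, Relation.EqvGen.refl _⟩
      · refine ⟨k - (c - b), Finset.mem_Ico.mpr ⟨by omega, by omega⟩, Relation.EqvGen.rel _ _
          ⟨c - k, by omega, hk.1, by omega, Or.inr (by ring), Or.inl ?_⟩⟩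
        rw [show c - k + (k - (c - b)) = b by ring]
        exact hb
    · rintro u v ⟨m, h1, h2, h3, h4, h5⟩
      -- the connection of a place `x` with `m + x = t` to the place `b - m`
      have key : ∀ x, 0 ≤ x → m + x = 2 * b - c →
          Relation.EqvGen (R fun n => B n ∨ n = c) x (b - m) := by
        intro x hx hmx
        exact Relation.EqvGen.rel _ _ ⟨b - x, by omega, hx, by omega,
          Or.inl (by rw [show b - x + x = b by ring]; exact hb), Or.inr (by omega)⟩
      have hBc : ∀ x y, 0 ≤ x → 0 ≤ y → B (m + x) → B (m + y) →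
          Relation.EqvGen (R fun n => B n ∨ n = c) x y := fun x y hx hy hx' hy' =>
        Relation.EqvGen.rel _ _ ⟨m, h1, hx, hy, Or.inl hx', Or.inl hy'⟩
      rcases h4 with h4 | h4
      · have hmb := (hB _ h4).2
        rcases h5 with h5 | h5
        · exact hBc u v h2 h3 h4 h5
        · refine Relation.EqvGen.trans _ _ _ (hBc u (b - m) h2 (by omega) h4 ?_)
            (Relation.EqvGen.symm _ _ (key v h3 h5))
          rw [show m + (b - m) = b by ring]; exact hb
      · rcases h5 with h5 | h5
        · have hmb := (hB _ h5).2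
          refine Relation.EqvGen.trans _ _ _ (key u h2 h4) (hBc (b - m) v (by omega) h3 ?_ h5)
          rw [show m + (b - m) = b by ring]; exact hb
        · rw [show u = v by omega]
          exact Relation.EqvGen.refl _
  · refine lam_map (fun x => if x < b then x else x - (c - b)) ?_ ?_
    · rintro u v ⟨m, h1, h2, h3, h4, h5⟩
      -- a place `x` with `m + x = c`, `m ≤ b`
      have key : ∀ x, 0 ≤ x → m ≤ b → m + x = c →
          Relation.EqvGen (R fun n => B n ∨ n = 2 * b - c)
            (if x < b then x else x - (c - b)) (b - m) := by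
        intro x hx hm hmx
        split_ifs with h
        · exact Relation.EqvGen.rel _ _ ⟨b - x, by omega, hx, by omega,
            Or.inl (by rw [show b - x + x = b by ring]; exact hb), Or.inr (by omega)⟩
        · rw [show x - (c - b) = b - m by omega]
          exact Relation.EqvGen.refl _
      have hBt : ∀ x y, 0 ≤ x → 0 ≤ y → B (m + x) → B (m + y) →
          Relation.EqvGen (R fun n => B n ∨ n = 2 * b - c) x y := fun x y hx hy hx' hy' =>
        Relation.EqvGen.rel _ _ ⟨m, h1, hx, hy, Or.inl hx', Or.inl hy'⟩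
      rcases h4 with h4 | h4
      · have hmb := (hB _ h4).2
        rw [if_pos (by omega : u < b)]
        rcases h5 with h5 | h5
        · have := (hB _ h5).2
          rw [if_pos (by omega : v < b)]
          exact hBt u v h2 h3 h4 h5
        · refine Relation.EqvGen.trans _ _ _ (hBt u (b - m) h2 (by omega) h4 ?_)
            (Relation.EqvGen.symm _ _ (key v h3 (by omega) h5))
          rw [show m + (b - m) = b by ring]; exact hb
      · rcases h5 with h5 | h5
        · have hmb := (hB _ h5).2
          refine Relation.EqvGen.trans _ _ _ (key u h2 (by omega) h4) ?_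
          rw [if_pos (by omega : v < b)]
          refine hBt (b - m) v (by omega) h3 ?_ h5
          rw [show m + (b - m) = b by ring]; exact hb
        · rw [show u = v by omega]
          exact Relation.EqvGen.refl _
    · intro k hk
      rw [Finset.mem_Ico] at hk
      refine ⟨k, Finset.mem_Ico.mpr ⟨hk.1, by omega⟩, ?_⟩
      rw [if_pos hk.2]
      exact Relation.EqvGen.refl _

/-- the case `2b ≤ c` -/
lemma cl_far (hB : ∀ a, B a → 1 ≤ a ∧ a ≤ b) (hb : B b) (hc : 2 * b ≤ c) :
    (lam (R fun n => B n ∨ n = c) (Finset.Ico 0 c) : ℤ) =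
      lam (R B) (Finset.Ico 0 b) + (c - 2 * b) := by
  have hb1 := (hB b hb).1
  have h1 := lam_isolated (r := R B) (b := b) (d := c - b) (fun u v h => R_bound hB h)
    (by omega) (by omega)
  have h2 : lam (R fun n => B n ∨ n = c) (Finset.Ico 0 c) = lam (R B) (Finset.Ico 0 (c - b)) := by
    apply le_antisymm
    · refine (lam_sub (K' := Finset.Ico 0 (c - b)) ?_).trans (lam_mono ?_ _)
      · intro k hk
        rw [Finset.mem_Ico] at hk
        by_cases h : k < c - b
        · exact ⟨k, Finset.mem_Ico.mpr ⟨hk.1, h⟩, Relation.EqvGen.refl _⟩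
        · refine ⟨k - (c - b), Finset.mem_Ico.mpr ⟨by omega, by omega⟩, Relation.EqvGen.rel _ _
            ⟨c - k, by omega, hk.1, by omega, Or.inr (by ring), Or.inl ?_⟩⟩
          rw [show c - k + (k - (c - b)) = b by ring]
          exact hb
      · rintro u v ⟨m, h1, h2, h3, h4, h5⟩
        exact Relation.EqvGen.rel _ _ ⟨m, h1, h2, h3, Or.inl h4, Or.inl h5⟩
    · refine lam_map (fun x => if x < c - b then x else x - (c - b)) ?_ ?_
      · rintro u v ⟨m, h1, h2, h3, h4, h5⟩
        have hBt : ∀ x y, 0 ≤ x → 0 ≤ y → B (m + x) → B (m + y) →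
            Relation.EqvGen (R B) x y := fun x y hx hy hx' hy' =>
          Relation.EqvGen.rel _ _ ⟨m, h1, hx, hy, hx', hy'⟩
        rcases h4 with h4 | h4
        · have hmb := (hB _ h4).2
          rw [if_pos (by omega : u < c - b)]
          rcases h5 with h5 | h5
          · have := (hB _ h5).2
            rw [if_pos (by omega : v < c - b)]
            exact hBt u v h2 h3 h4 h5
          · rw [if_neg (by omega : ¬ v < c - b)]
            refine hBt _ _ h2 (by omega) h4 ?_
            rw [show m + (v - (c - b)) = b by omega]; exact hb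
        · rcases h5 with h5 | h5
          · have hmb := (hB _ h5).2
            rw [if_neg (by omega : ¬ u < c - b), if_pos (by omega : v < c - b)]
            refine hBt _ _ (by omega) h3 ?_ h5
            rw [show m + (u - (c - b)) = b by omega]; exact hb
          · rw [show u = v by omega]
            exact Relation.EqvGen.refl _
      · intro k hk
        rw [Finset.mem_Ico] at hk
        refine ⟨k, Finset.mem_Ico.mpr ⟨hk.1, by omega⟩, ?_⟩
        rw [if_pos hk.2]
        exact Relation.EqvGen.refl _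
  rw [h2, h1]
  ring

lemma cl_single {a : ℤ} (ha : 0 ≤ a) : (lam (R fun n => n = a) (Finset.Ico 0 a) : ℤ) = a := by
  classical
  unfold lam
  rw [Finset.card_image_of_injOn]
  · rw [Int.card_Ico]; omega
  · intro x _ y _ hxy
    have h1 : ∀ u v, Relation.EqvGen (R fun n => n = a) u v → u = v := by
      intro u v h
      induction h with
      | rel u v h => obtain ⟨m, h1, h2, h3, h4, h5⟩ := h; omega
      | refl u => rfl
      | symm u v _ ih => exact ih.symm
      | trans u v w _ _ ih1 ih2 => exact ih1.trans ih2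
    exact h1 x y (quot_eq.mp hxy)

end recursion

/-- the set of a list -/
def setOf' (L : List ℕ) (n : ℤ) : Prop := ∃ a ∈ L, n = (a : ℤ)

lemma R_congr {B B' : ℤ → Prop} (h : ∀ n, B n ↔ B' n) : R B = R B' := by
  have : B = B' := funext fun n => propext (h n)
  rw [this]

theorem numCl_eq (n : ℕ) : ∀ (c : ℕ) (L : List ℕ), (c :: L).sum ≤ n → Good (c :: L) →
    (numCl (c :: L) : ℤ) = lam (R (setOf' (c :: L))) (Finset.Ico 0 (c : ℤ)) := by
  induction n with
  | zero =>
    intro c L h hg
    have := hg.2 c List.mem_cons_self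
    simp only [List.sum_cons] at h
    omega
  | succ n ih =>
    intro c L h hg
    obtain ⟨hp, hpos⟩ := hg
    cases L with
    | nil =>
      have h1 : ∀ n : ℤ, setOf' [c] n ↔ n = c := by
        intro n; simp [setOf']
      rw [R_congr h1, cl_single (by omega)]
      simp [numCl]
    | cons b L =>
      have hbc : b < c := (List.pairwise_cons.mp hp).1 b List.mem_cons_self
      have hp' := (List.pairwise_cons.mp hp).2
      have hpb := (List.pairwise_cons.mp hp').1
      have hpos' : ∀ a ∈ b :: L, 1 ≤ a := fun a ha => hpos a (List.mem_cons_of_mem _ ha)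
      have hB : ∀ a : ℤ, setOf' (b :: L) a → 1 ≤ a ∧ a ≤ b := by
        rintro a ⟨a', ha', rfl⟩
        have h1 := hpos' a' ha'
        have h2 : a' ≤ b := by
          rcases List.mem_cons.mp ha' with rfl | h3
          · exact le_rfl
          · exact (hpb a' h3).le
        omega
      have hb : setOf' (b :: L) (b : ℤ) := ⟨b, List.mem_cons_self, rfl⟩
      have e1 : ∀ n : ℤ, setOf' (c :: b :: L) n ↔ (setOf' (b :: L) n ∨ n = c) := by
        intro n
        constructor
        · rintro ⟨a, ha, rfl⟩
          rcases List.mem_cons.mp ha with rfl | ha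
          · exact Or.inr rfl
          · exact Or.inl ⟨a, ha, rfl⟩
        · rintro (⟨a, ha, rfl⟩ | rfl)
          · exact ⟨a, List.mem_cons_of_mem _ ha, rfl⟩
          · exact ⟨c, List.mem_cons_self, rfl⟩
      rw [R_congr e1]
      rw [List.sum_cons] at h
      rw [numCl, if_pos hbc]
      split_ifs with h1 h2
      · rw [cl_far hB hb (by omega)]
        have h3 := ih b L (by omega) ⟨hp', hpos'⟩
        push_cast [h1]
        rw [h3]
      · rw [cl_near hB hb (by omega) (by omega)]
        have h3 := ih b L (by omega) ⟨hp', hpos'⟩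
        rw [h3]
        congr 1
        congr 1
        apply R_congr
        intro n
        constructor
        · exact Or.inl
        · rintro (h4 | h4)
          · exact h4
          · exact ⟨2 * b - c, List.mem_cons_of_mem _ h2, by omega⟩
      · rw [cl_near hB hb (by omega) (by omega)]
        have hne : 2 * b - c ≠ b := by omega
        have h3 : ins (2 * b - c) (b :: L) = b :: ins (2 * b - c) L := by
          rw [ins, if_pos (by omega)]
        rw [h3]
        have hg' : Good (b :: ins (2 * b - c) L) := by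
          rw [← h3]
          refine ⟨ins_pairwise hp' ?_, ?_⟩
          · rw [List.mem_cons]
            push Not
            exact ⟨hne, h2⟩
          · intro a ha
            rcases mem_ins.mp ha with rfl | ha
            · omega
            · exact hpos' a ha
        have h4 := ih b (ins (2 * b - c) L) (by
          have := ins_sum (2 * b - c) (b :: L)
          rw [h3] at this
          rw [List.sum_cons] at this ⊢
          rw [List.sum_cons] at this h
          omega) hg'
        rw [h4]
        congr 1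
        congr 1
        apply R_congr
        intro n
        constructor
        · rintro ⟨a, ha, rfl⟩
          rw [← h3] at ha
          rcases mem_ins.mp ha with rfl | ha
          · exact Or.inr (by omega)
          · exact Or.inl ⟨a, ha, rfl⟩
        · rintro (⟨a, ha, rfl⟩ | h5)
          · exact ⟨a, by rw [← h3]; exact mem_ins.mpr (Or.inr ha), rfl⟩
          · exact ⟨2 * b - c, by rw [← h3]; exact mem_ins.mpr (Or.inl rfl), by omega⟩

/-! ### Free steps -/

section free

variable {s : ℕ → ℤ}

lemma lam_G (hs : StrictMono s) (j : ℕ) (K : Finset ℤ) :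
    lam (G s j) K = lam (R (A s j)) K := by
  apply le_antisymm
  · apply lam_mono
    rintro u v ⟨m, h1, h2, h3, h4, h5⟩
    exact conn hs h1 h2 h3 h4 h5
  · apply lam_mono
    rintro u v ⟨i, h1, h2, h3, h4⟩
    have h5 : s i < s (i + 1) := hs (Nat.lt_succ_self i)
    exact Relation.EqvGen.rel _ _ ⟨s i - u, by omega, h2, by omega, ⟨i, by omega, by ring⟩,
      ⟨i + 1, by omega, by rw [h4]; ring⟩⟩

/-- the number of classes of the graph of `{s 0, ..., s j}` -/
noncomputable def cls (s : ℕ → ℤ) (j : ℕ) : ℕ := lam (R (A s j)) (Finset.Ico 0 (s j))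

theorem free_iff (hs : StrictMono s) (h0 : 1 ≤ s 0) (j : ℕ) :
    FreeStep s j ↔ (cls s (j + 1) : ℤ) + 2 * s j = cls s j + s (j + 1) := by
  classical
  have hpos : 1 ≤ s j := h0.trans (hs.monotone (Nat.zero_le _))
  have hbc : s j < s (j + 1) := hs (Nat.lt_succ_self j)
  set K := Finset.Ico (0 : ℤ) (s (j + 1)) with hK
  have hiso : (lam (G s j) K : ℤ) = cls s j + (s (j + 1) - s j) := by
    unfold cls
    rw [hK, lam_isolated (b := s j) ?_ (by omega) (by omega), lam_G hs]
    rintro u v ⟨i, h1, h2, h3, h4⟩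
    have h5 : s i < s (i + 1) := hs (Nat.lt_succ_self i)
    have h6 : s (i + 1) ≤ s j := hs.monotone h1
    omega
  have hcls : cls s (j + 1) = lam (G s (j + 1)) K := by
    unfold cls
    rw [lam_G hs]
  have hGY : lam (GY s j (Finset.Ico 0 (s j))) K = lam (G s (j + 1)) K := by
    apply le_antisymm
    · apply lam_mono
      rintro u v ⟨i, h1, h2, h3, h4⟩
      rcases Nat.lt_or_ge i j with h5 | h5
      · exact Relation.EqvGen.rel _ _ (Or.inl ⟨i, h5, h2, h3, h4⟩)
      · have : i = j := by omega
        subst this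
        exact Relation.EqvGen.rel _ _ (Or.inr ⟨Finset.mem_Ico.mpr ⟨h2, h3⟩, h2, h3, h4⟩)
    · apply lam_mono
      rintro u v (h5 | ⟨h5, h6, h7, h8⟩)
      · exact Relation.EqvGen.rel _ _ (G_mono h5)
      · exact Relation.EqvGen.rel _ _ ⟨j, by omega, h6, h7, h8⟩
  have hlow : ∀ Y : Finset ℤ, lam (G s j) K ≤ lam (GY s j Y) K + Y.card := by
    intro Y
    induction Y using Finset.induction_on with
    | empty =>
      simp only [Finset.card_empty, add_zero]
      apply lam_mono
      rintro u v (h | h)
      · exact Relation.EqvGen.rel _ _ h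
      · exact absurd h.1 (Finset.notMem_empty _)
    | insert y Y hy ih =>
      rw [Finset.card_insert_of_notMem hy]
      have h1 : lam (GY s j Y) K ≤ lam (GY s j (insert y Y)) K + 1 := by
        apply lam_edge (p := y) (q := y + (s (j + 1) - s j))
        rintro u v (h | ⟨h5, h6, h7, h8⟩)
        · exact Or.inl (Or.inl h)
        · rcases Finset.mem_insert.mp h5 with rfl | h5
          · exact Or.inr ⟨rfl, h8⟩
          · exact Or.inl (Or.inr ⟨h5, h6, h7, h8⟩)
      omega
  have hYcard : ((Finset.Ico (0 : ℤ) (s j)).card : ℤ) = s j := by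
    rw [Int.card_Ico]; omega
  constructor
  · intro hf
    have h1 := free_merge hf (K := K) (Finset.Ico 0 (s j)) (fun y hy => by
      rw [Finset.mem_Ico] at hy
      refine ⟨hy.1, hy.2, ⟨y, Finset.mem_Ico.mpr ⟨hy.1, by omega⟩, Relation.EqvGen.refl _⟩,
        Finset.mem_Ico.mpr ⟨by omega, by omega⟩⟩)
    have h2 := hlow (Finset.Ico 0 (s j))
    rw [hGY] at h1 h2
    rw [hcls]
    omega
  · intro heq y hy0 hyb hcon
    have h1 : lam (GY s j ((Finset.Ico 0 (s j)).erase y)) K ≤ lam (G s (j + 1)) K := by
      apply lam_mono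
      rintro u v ⟨i, h1, h2, h3, h4⟩
      have hE : ∀ a b, Edge s j y a b → GY s j ((Finset.Ico 0 (s j)).erase y) a b := by
        rintro a b ⟨i', g1, g2, g3, g4, g5⟩
        rcases Nat.lt_or_ge i' j with g6 | g6
        · exact Or.inl ⟨i', g6, g2, g3, g4⟩
        · have : i' = j := by omega
          subst this
          refine Or.inr ⟨Finset.mem_erase.mpr ⟨fun h => g5 ⟨rfl, h⟩, Finset.mem_Ico.mpr ⟨g2, g3⟩⟩,
            g2, g3, g4⟩
      by_cases h5 : i = j ∧ u = y
      · obtain ⟨rfl, rfl⟩ := h5
        rw [h4]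
        exact eqv_mono hE hcon
      · exact Relation.EqvGen.rel _ _ (hE _ _ ⟨i, by omega, h2, h3, h4, h5⟩)
    have h2 := hlow ((Finset.Ico 0 (s j)).erase y)
    have h3 := Finset.card_erase_of_mem (Finset.mem_Ico.mpr ⟨hy0, hyb⟩)
    rw [h3] at h2
    have h4 : 1 ≤ (Finset.Ico (0 : ℤ) (s j)).card :=
      Finset.card_pos.mpr ⟨y, Finset.mem_Ico.mpr ⟨hy0, hyb⟩⟩
    rw [hcls] at heq
    omega

end free

lemma init_eq (s : ℕ → ℕ) (j : ℕ) : ∃ L, init s j = s j :: L := by
  cases j with
  | zero => exact ⟨[], rfl⟩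
  | succ j => exact ⟨init s j, rfl⟩

lemma mem_init {s : ℕ → ℕ} {j a : ℕ} : a ∈ init s j ↔ ∃ i, i ≤ j ∧ a = s i := by
  induction j with
  | zero =>
    simp only [init, List.mem_singleton]
    constructor
    · intro h; exact ⟨0, le_rfl, h⟩
    · rintro ⟨i, hi, h⟩; rw [h, show i = 0 by omega]
  | succ j ih =>
    simp only [init, List.mem_cons, ih]
    constructor
    · rintro (h | ⟨i, hi, h⟩)
      · exact ⟨j + 1, le_rfl, h⟩
      · exact ⟨i, by omega, h⟩
    · rintro ⟨i, hi, h⟩
      rcases Nat.lt_or_ge i (j + 1) with h1 | h1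
      · exact Or.inr ⟨i, by omega, h⟩
      · left; rw [h, show i = j + 1 by omega]

lemma init_good {s : ℕ → ℕ} (hs : StrictMono s) (h0 : 1 ≤ s 0) (j : ℕ) : Good (init s j) := by
  refine ⟨?_, ?_⟩
  · induction j with
    | zero => simp [init]
    | succ j ih =>
      rw [init, List.pairwise_cons]
      refine ⟨fun a ha => ?_, ih⟩
      obtain ⟨i, hi, rfl⟩ := mem_init.mp ha
      exact hs (by omega)
  · intro a ha
    obtain ⟨i, hi, rfl⟩ := mem_init.mp ha
    exact h0.trans (hs.monotone (Nat.zero_le _))

theorem numCl_init {s : ℕ → ℕ} (hs : StrictMono s) (h0 : 1 ≤ s 0) (j : ℕ) :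
    numCl (init s j) = cls (fun i => (s i : ℤ)) j := by
  have hg := init_good hs h0 j
  have hA : ∀ n : ℤ, setOf' (init s j) n ↔ A (fun i => (s i : ℤ)) j n := by
    intro n
    constructor
    · rintro ⟨a, ha, rfl⟩
      obtain ⟨i, hi, rfl⟩ := mem_init.mp ha
      exact ⟨i, hi, rfl⟩
    · rintro ⟨i, hi, rfl⟩
      exact ⟨s i, mem_init.mpr ⟨i, hi, rfl⟩, rfl⟩
  obtain ⟨L, hL⟩ := init_eq s j
  rw [hL] at hg hA ⊢
  have h1 := numCl_eq _ (s j) L le_rfl hg
  rw [R_congr hA] at h1
  exact_mod_cast h1

/-- **the Euclid type test for free steps** -/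
theorem free_iff_numCl {s : ℕ → ℕ} (hs : StrictMono s) (h0 : 1 ≤ s 0) (j : ℕ) :
    FreeStep (fun i => (s i : ℤ)) j ↔
      numCl (init s (j + 1)) + 2 * s j = numCl (init s j) + s (j + 1) := by
  have hs' : StrictMono (fun i => (s i : ℤ)) := fun a b h => by
    have := hs h
    show (s a : ℤ) < (s b : ℤ)
    exact_mod_cast this
  rw [free_iff hs' (by exact_mod_cast h0) j, numCl_init hs h0, numCl_init hs h0]
  constructor
  · intro h; exact_mod_cast h
  · intro h; exact_mod_cast h

end Pool.Agent.Helper434.Sp
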