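import Mathlib
import Pool.Agent.Helper434.PCBasic

set_option autoImplicit false

namespace Pool.Agent.Helper434.PCCore

open Pool.Agent.Helper434.PCDefs Pool.Agent.Helper434.PCBasic

lemma bddF_sum {ι : Type*} (s : Finset ι) (f : ι → ℤ → ℝ) (hf : ∀ i ∈ s, BddF (f i)) :
    BddF (fun n => ∑ i ∈ s, f i n) := by
  classical
  induction s using Finset.induction_on with
  | empty => exact ⟨0, fun n => by simp⟩
  | insert a s ha ih =>
    have h := bddF_add (hf a (Finset.mem_insert_self _ _))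
      (ih fun i hi => hf i (Finset.mem_insert_of_mem hi))
    obtain ⟨C, hC⟩ := h
    refine ⟨C, fun n => ?_⟩
    have h2 := hC n
    simp only at h2 ⊢
    rw [Finset.sum_insert ha]
    exact h2

lemma mean_sum {ι : Type*} (s : Finset ι) (f : ι → ℤ → ℝ) (hf : ∀ i ∈ s, BddF (f i)) :
    mean (fun n => ∑ i ∈ s, f i n) = ∑ i ∈ s, mean (f i) := by
  classical
  induction s using Finset.induction_on with
  | empty => simp [mean_zero]
  | insert a s ha ih =>
    rw [Finset.sum_insert ha, ← ih fun i hi => hf i (Finset.mem_insert_of_mem hi),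
      ← isMean_mean.add _ _ (hf a (Finset.mem_insert_self _ _))
        (bddF_sum s f fun i hi => hf i (Finset.mem_insert_of_mem hi))]
    congr 1
    ext n
    rw [Finset.sum_insert ha]

lemma mean_const (c : ℝ) : mean (fun _ => c) = c := by
  have h := isMean_mean.smul c (fun _ => 1) ⟨1, fun n => by simp⟩
  simp only [mul_one] at h
  rw [h, isMean_mean.one, mul_one]

lemma bddF_const (c : ℝ) : BddF (fun _ => c) := ⟨|c|, fun _ => le_rfl⟩

/-- a syndetic set has positive mean -/
lemma synd {S : Set ℤ} {G : ℕ} (hG : ∀ n : ℤ, ∃ m', n ≤ m' ∧ m' < n + G ∧ m' ∈ S) :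
    0 < mean (ind S) := by
  have h1 : mean (fun n => ∑ i ∈ Finset.range G, ind S (n + i)) = G * mean (ind S) := by
    rw [mean_sum (Finset.range G) (fun i n => ind S (n + i))
      fun i _ => bddF_shift _ (ind_bdd S)]
    have e1 : ∀ i ∈ Finset.range G, mean (fun n => ind S (n + (i : ℤ))) = mean (ind S) :=
      fun i _ => isMean_mean.shift _ (ind_bdd S) (i : ℤ)
    rw [Finset.sum_congr rfl e1, Finset.sum_const, Finset.card_range, nsmul_eq_mul]
  have h2 := isMean_mean.mono (fun _ => 1) (fun n => ∑ i ∈ Finset.range G, ind S (n + i))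
    (bddF_const 1) (bddF_sum _ _ fun i _ => bddF_shift _ (ind_bdd S)) (fun n => by
      obtain ⟨m', h3, h4, h5⟩ := hG n
      have h6 : (m' - n).toNat ∈ Finset.range G := by
        rw [Finset.mem_range]; omega
      calc (1 : ℝ) = ind S (n + ((m' - n).toNat : ℕ)) := by
            rw [ind_of_mem]
            rw [show n + ((m' - n).toNat : ℤ) = m' by omega]
            exact h5
        _ ≤ ∑ i ∈ Finset.range G, ind S (n + i) :=
            Finset.single_le_sum (f := fun i : ℕ => ind S (n + i))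
              (fun i _ => by unfold ind; split_ifs <;> norm_num) h6)
  rw [isMean_mean.one, h1] at h2
  by_contra hcon
  push Not at hcon
  have := mul_nonpos_of_nonneg_of_nonpos (Nat.cast_nonneg (α := ℝ) G) hcon
  linarith

variable {y : ℤ → Bool}

lemma atom_pos (hu : URec y) (F : Finset ℤ) (m : ℤ) : 0 < mean (ind {n | Eqv y F n m}) := by
  obtain ⟨G, hG⟩ := hu F m
  exact synd (G := G) hG

lemma d_pos (hu : URec y) (hap : ∀ q : ℤ, q ≠ 0 → ∃ m, y (m + q) ≠ y m) {h : ℤ} (hh : h ≠ 0) :
    0 < dd y h := by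
  obtain ⟨m, hm⟩ := hap h hh
  refine lt_of_lt_of_le (atom_pos hu {0, h} m) (mean_ind_mono fun n hn => ?_)
  have h0 := hn 0 (by simp)
  have h1 := hn h (by simp)
  rw [add_zero, add_zero] at h0
  show y n ≠ y (n + h)
  rw [h0, h1]
  exact hm.symm

/-- no long runs of small periods -/
lemma noPer (hu : URec y) (hap : ∀ q : ℤ, q ≠ 0 → ∃ m, y (m + q) ≠ y m) (J : ℕ) :
    ∃ L : ℕ, ∀ q : ℤ, 1 ≤ q → q ≤ J → ∀ n : ℤ, ∃ l : ℕ, l < L ∧ y (n + l) ≠ y (n + l + q) := by
  induction J with
  | zero => exact ⟨0, fun q h1 h2 => by exfalso; push_cast at h2; omega⟩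
  | succ J ih =>
    obtain ⟨L, hL⟩ := ih
    obtain ⟨m, hm⟩ := hap ((J : ℤ) + 1) (by omega)
    obtain ⟨G, hG⟩ := hu {0, (J : ℤ) + 1} m
    refine ⟨max L G, fun q h1 h2 n => ?_⟩
    rcases eq_or_lt_of_le h2 with h3 | h3
    · obtain ⟨m', h4, h5, h6⟩ := hG n
      refine ⟨(m' - n).toNat, lt_max_of_lt_right (by omega), ?_⟩
      rw [show n + ((m' - n).toNat : ℤ) = m' by omega, h3]
      have h7 := h6 0 (by simp)
      have h8 := h6 ((J : ℤ) + 1) (by simp)
      rw [add_zero, add_zero] at h7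
      push_cast
      rw [h7, h8]
      exact hm.symm
    · obtain ⟨l, h4, h5⟩ := hL q h1 (by push_cast at h3; omega) n
      exact ⟨l, lt_max_of_lt_left h4, h5⟩

lemma eqv_symm {F : Finset ℤ} {m m' : ℤ} (h : Eqv y F m m') : Eqv y F m' m :=
  fun i hi => (h i hi).symm

lemma eqv_trans {F : Finset ℤ} {a b c : ℤ} (h : Eqv y F a b) (h' : Eqv y F b c) : Eqv y F a c :=
  fun i hi => (h i hi).trans (h' i hi)

lemma eqv_mono {F F' : Finset ℤ} (hF : F ⊆ F') {m m' : ℤ} (h : Eqv y F' m m') : Eqv y F m m' :=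
  fun i hi => h i (hF hi)

/-- every coordinate splits at most two atoms -/
def Tight (y : ℤ → Bool) (W : Finset ℤ) : Prop :=
  ∀ (i : ℤ) (S : Finset ℤ), Indep y W S → (∀ t ∈ S, ∃ m, Eqv y W m t ∧ y (m + i) ≠ y (t + i)) →
    S.card ≤ 2

/-- a complete system of representatives -/
def Reps (y : ℤ → Bool) (W T : Finset ℤ) : Prop := Indep y W T ∧ ∀ m, ∃ t ∈ T, Eqv y W m t

theorem exists_tight (hb : Bdd y) (W₀ : Finset ℤ) (hW₀ : W₀.Nonempty) :
    ∃ W T, W₀ ⊆ W ∧ Reps y W T ∧ Tight y W := by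
  classical
  have hex : ∃ k : ℕ, ∃ W T : Finset ℤ, W₀ ⊆ W ∧ Indep y W T ∧ T.card + k = 2 * W.card := by
    refine ⟨2 * W₀.card, W₀, ∅, Finset.Subset.refl _, ?_, by simp⟩
    intro m hm; simp at hm
  obtain ⟨W, T, hWW, hT, hk⟩ := Nat.find_spec hex
  have hmin : ∀ (W' T' : Finset ℤ), W₀ ⊆ W' → Indep y W' T' →
      Nat.find hex + T'.card ≤ 2 * W'.card := by
    intro W' T' h1 h2
    have h3 := hb W' T' (hW₀.mono h1) h2
    have h4 := Nat.find_min' hex (m := 2 * W'.card - T'.card) ⟨W', T', h1, h2, by omega⟩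
    omega
  have hcomp : ∀ m, ∃ t ∈ T, Eqv y W m t := by
    intro m
    by_contra hcon
    push Not at hcon
    have h1 : m ∉ T := fun h => hcon m h fun _ _ => rfl
    have h2 : Indep y W (insert m T) := by
      intro a ha b hb' hab
      rcases Finset.mem_insert.mp ha with rfl | ha'
      · rcases Finset.mem_insert.mp hb' with rfl | hb''
        · rfl
        · exact absurd hab (hcon b hb'')
      · rcases Finset.mem_insert.mp hb' with rfl | hb''
        · exact absurd (eqv_symm hab) (hcon a ha')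
        · exact hT a ha' b hb'' hab
    have h3 := hmin W _ hWW h2
    rw [Finset.card_insert_of_notMem h1] at h3
    omega
  refine ⟨W, T, hWW, ⟨hT, hcomp⟩, ?_⟩
  -- tightness for subsets of `T`
  have key : ∀ (i : ℤ) (S : Finset ℤ), S ⊆ T →
      (∀ t ∈ S, ∃ m, Eqv y W m t ∧ y (m + i) ≠ y (t + i)) → S.card ≤ 2 := by
    intro i S hS hsp
    choose! f hf1 hf2 using hsp
    have h1 : Indep y (insert i W) (T ∪ S.image f) := by
      have hfi : ∀ a ∈ S, ∀ b ∈ S, f a = f b → a = b := by
        intro a ha b hb' hab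
        apply hT a (hS ha) b (hS hb')
        exact eqv_trans (eqv_symm (hf1 a ha)) (hab ▸ hf1 b hb')
      intro a ha b hb' hab
      have habW : Eqv y W a b := eqv_mono (Finset.subset_insert _ _) hab
      have habi := hab i (Finset.mem_insert_self _ _)
      rcases Finset.mem_union.mp ha with ha' | ha' <;> rcases Finset.mem_union.mp hb' with hb'' | hb''
      · exact hT a ha' b hb'' habW
      · obtain ⟨t, ht, rfl⟩ := Finset.mem_image.mp hb''
        have h2 : a = t := hT a ha' t (hS ht) (eqv_trans habW (hf1 t ht))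
        subst h2
        exact absurd habi.symm (hf2 a ht)
      · obtain ⟨t, ht, rfl⟩ := Finset.mem_image.mp ha'
        have h2 : b = t := hT b hb'' t (hS ht) (eqv_trans (eqv_symm habW) (hf1 t ht))
        subst h2
        exact absurd habi (hf2 b ht)
      · obtain ⟨t, ht, rfl⟩ := Finset.mem_image.mp ha'
        obtain ⟨t', ht', rfl⟩ := Finset.mem_image.mp hb''
        have h2 : t = t' := hT t (hS ht) t' (hS ht')
          (eqv_trans (eqv_symm (hf1 t ht)) (eqv_trans habW (hf1 t' ht')))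
        rw [h2]
    have h2 : (T ∪ S.image f).card = T.card + S.card := by
      rw [Finset.card_union_of_disjoint, Finset.card_image_of_injOn]
      · intro a ha b hb' hab
        apply hT a (hS ha) b (hS hb')
        exact eqv_trans (eqv_symm (hf1 a ha)) (hab ▸ hf1 b hb')
      · rw [Finset.disjoint_left]
        intro a ha ha'
        obtain ⟨t, ht, rfl⟩ := Finset.mem_image.mp ha'
        have h3 : f t = t := hT _ ha t (hS ht) (hf1 t ht)
        exact hf2 t ht (by rw [h3])
    have h3 := hmin (insert i W) _ (hWW.trans (Finset.subset_insert _ _)) h1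
    have h4 := Finset.card_insert_le i W
    omega
  intro i S hS hsp
  choose g hg1 hg2 using hcomp
  have h1 : (S.image g).card = S.card := by
    apply Finset.card_image_of_injOn
    intro a ha b hb' hab
    exact hS a ha b hb' (eqv_trans (hg2 a) (hab ▸ eqv_symm (hg2 b)))
  rw [← h1]
  apply key i
  · intro t ht
    obtain ⟨a, -, rfl⟩ := Finset.mem_image.mp ht
    exact hg1 a
  · intro t ht
    obtain ⟨a, ha, rfl⟩ := Finset.mem_image.mp ht
    obtain ⟨m, hm1, hm2⟩ := hsp a ha
    by_cases h3 : y (a + i) = y (g a + i)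
    · exact ⟨m, eqv_trans hm1 (hg2 a), fun h => hm2 (h.trans h3.symm)⟩
    · exact ⟨a, hg2 a, h3⟩

/-- the sum of distances inside atoms of a tight window is at most `2` -/
lemma sum_le {W : Finset ℤ} (hW : Tight y W) (S : Finset ℤ) (hS : Indep y W S) (f : ℤ → ℤ)
    (hf : ∀ t ∈ S, Eqv y W (f t) t) : ∑ t ∈ S, dd y (f t - t) ≤ 2 := by
  classical
  have h1 : ∀ t : ℤ, dd y (f t - t) = mean (fun n => ind (R y (f t - t)) (n + t)) := fun t =>
    (isMean_mean.shift _ (ind_bdd _) t).symm
  rw [Finset.sum_congr rfl fun t _ => h1 t, ← mean_sum S (fun t n => ind (R y (f t - t)) (n + t))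
    fun t _ => bddF_shift _ (ind_bdd _)]
  rw [← mean_const 2]
  apply isMean_mean.mono _ _ (bddF_sum _ _ fun t _ => bddF_shift _ (ind_bdd _)) (bddF_const 2)
  intro n
  have h2 : ∑ t ∈ S, ind (R y (f t - t)) (n + t) =
      ((S.filter fun t => y (f t + n) ≠ y (t + n)).card : ℝ) := by
    rw [Finset.card_filter]
    push_cast
    apply Finset.sum_congr rfl
    intro t _
    rw [ind_R_eq, show n + t + (f t - t) = f t + n by ring, show n + t = t + n by ring]
    by_cases h3 : y (t + n) = y (f t + n)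
    · rw [if_pos h3, if_neg (fun h => h h3.symm)]
    · rw [if_neg h3, if_pos (fun h => h3 h.symm)]
  rw [h2]
  have h3 := hW n (S.filter fun t => y (f t + n) ≠ y (t + n))
    (fun a ha b hb => hS a (Finset.mem_filter.mp ha).1 b (Finset.mem_filter.mp hb).1)
    (fun t ht => by
      obtain ⟨h4, h5⟩ := Finset.mem_filter.mp ht
      exact ⟨f t, hf t h4, h5⟩)
  exact_mod_cast h3

/-- large windows have atoms of small diameter -/
theorem sep (hu : URec y) (hb : Bdd y) (hap : ∀ q : ℤ, q ≠ 0 → ∃ m, y (m + q) ≠ y m) {η : ℝ}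
    (hη : 0 < η) : ∃ W : Finset ℤ, ∀ n n', Eqv y W n n' → dd y (n - n') < η := by
  classical
  obtain ⟨J, hJ⟩ := exists_nat_gt (2 / η)
  rw [div_lt_iff₀ hη] at hJ
  obtain ⟨L, hL⟩ := noPer hu hap J
  obtain ⟨W, T, hWW, -, hW⟩ := exists_tight hb
    (insert 0 ((Finset.range L).image fun l : ℕ => (l : ℤ))) (Finset.insert_nonempty _ _)
  refine ⟨(Finset.range (J + 1)).biUnion fun j : ℕ => W.image fun w => w + j, fun n n' h => ?_⟩
  by_contra hcon
  push Not at hcon
  have hEq : ∀ j : ℕ, j ≤ J → Eqv y W (n + j) (n' + j) := by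
    intro j hj w hw
    have := h (w + j) (by
      rw [Finset.mem_biUnion]
      exact ⟨j, Finset.mem_range.mpr (by omega), Finset.mem_image_of_mem _ hw⟩)
    rw [show n + j + w = n + (w + j) by ring, show n' + j + w = n' + (w + j) by ring]
    exact this
  have hind : Indep y W ((Finset.range (J + 1)).image fun j : ℕ => n' + j) := by
    have aux : ∀ i j : ℕ, i < j → j ≤ J → ¬ Eqv y W (n' + i) (n' + j) := by
      intro i j hij hj hE
      obtain ⟨l, hl, hne⟩ := hL ((j : ℤ) - i) (by omega) (by omega) (n' + i)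
      apply hne
      have := hE l (hWW (Finset.mem_insert_of_mem
        (Finset.mem_image_of_mem _ (Finset.mem_range.mpr hl))))
      rw [this]; congr 1; ring
    intro a ha b hb' hab
    obtain ⟨i, hi, rfl⟩ := Finset.mem_image.mp ha
    obtain ⟨j, hj, rfl⟩ := Finset.mem_image.mp hb'
    rw [Finset.mem_range] at hi hj
    rcases lt_trichotomy i j with h1 | h1 | h1
    · exact absurd hab (aux i j h1 (by omega))
    · rw [h1]
    · exact absurd (eqv_symm hab) (aux j i h1 (by omega))
  have h1 := sum_le hW _ hind (fun t => t + (n - n')) (fun t ht => by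
    obtain ⟨j, hj, rfl⟩ := Finset.mem_image.mp ht
    rw [Finset.mem_range] at hj
    have := hEq j (by omega)
    show Eqv y W (n' + (j : ℤ) + (n - n')) (n' + (j : ℤ))
    rwa [show n' + (j : ℤ) + (n - n') = n + j by ring])
  have h2 : ∑ t ∈ (Finset.range (J + 1)).image (fun j : ℕ => n' + (j : ℤ)),
      dd y (t + (n - n') - t) = (J + 1) * dd y (n - n') := by
    rw [Finset.sum_congr rfl fun t _ => by rw [show t + (n - n') - t = n - n' by ring]]
    rw [Finset.sum_const, Finset.card_image_of_injective _ (fun a b hab => by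
      have : n' + (a : ℤ) = n' + (b : ℤ) := hab
      omega), Finset.card_range, nsmul_eq_mul]
    push_cast; ring
  rw [h2] at h1
  have h3 : ((J : ℝ) + 1) * η ≤ (J + 1) * dd y (n - n') :=
    mul_le_mul_of_nonneg_left hcon (by positivity)
  nlinarith

lemma inf (hu : URec y) (hb : Bdd y) (hap : ∀ q : ℤ, q ≠ 0 → ∃ m, y (m + q) ≠ y m) {ε : ℝ}
    (hε : 0 < ε) : ∃ h, 0 < dd y h ∧ dd y h < ε := by
  obtain ⟨W, hW⟩ := sep hu hb hap hε
  obtain ⟨G, hG⟩ := hu W 0
  obtain ⟨m', h1, -, h3⟩ := hG 1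
  have := hW m' 0 h3
  rw [sub_zero] at this
  exact ⟨m', d_pos hu hap (by omega), this⟩

/-- contexts of flips -/
theorem flips (hu : URec y) (hb : Bdd y) (hap : ∀ q : ℤ, q ≠ 0 → ∃ m, y (m + q) ≠ y m) {η : ℝ}
    (hη : 0 < η) : ∃ ε : ℝ, 0 < ε ∧ ∀ h, 0 < dd y h → dd y h < ε → ∀ n n',
    (n ∈ R01 y h → n' ∈ R01 y h → dd y (n - n') < η) ∧
      (n ∈ R10 y h → n' ∈ R10 y h → dd y (n - n') < η) := by
  classical
  obtain ⟨W₀, hW₀⟩ := sep hu hb hap hη
  obtain ⟨W, T, hWW, ⟨hT, hcomp⟩, hW⟩ := exists_tight hb (insert 0 W₀) (Finset.insert_nonempty _ _)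
  have h0W : (0 : ℤ) ∈ W := hWW (Finset.mem_insert_self _ _)
  obtain ⟨ε, hε, hεT⟩ : ∃ ε : ℝ, 0 < ε ∧ ∀ t ∈ T, ε ≤ mean (ind {n | Eqv y W n t}) := by
    have hne : T.Nonempty := by
      obtain ⟨t, ht, -⟩ := hcomp 0
      exact ⟨t, ht⟩
    obtain ⟨t₀, ht₀, hmin⟩ := T.exists_min_image (fun t => mean (ind {n | Eqv y W n t})) hne
    exact ⟨_, atom_pos hu W t₀, hmin⟩
  -- in each atom there is a position without flip
  have hstay : ∀ h, dd y h < ε → ∀ n, ∃ m, Eqv y W m n ∧ y (m + h) = y n := by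
    intro h hh n
    obtain ⟨t, ht, hnt⟩ := hcomp n
    by_contra hcon
    push Not at hcon
    have h1 : {m | Eqv y W m t} ⊆ R y h := by
      intro m hm
      have h2 : Eqv y W m n := eqv_trans hm (eqv_symm hnt)
      have h3 := hcon m h2
      have h4 := h2 0 h0W
      rw [add_zero, add_zero] at h4
      show y m ≠ y (m + h)
      rw [h4]; exact h3.symm
    have h2 := mean_ind_mono h1
    have h3 := hεT t ht
    unfold dd at hh
    linarith
  have hnotEq : ∀ a b : ℤ, y a ≠ y b → ¬ Eqv y W a b := by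
    intro a b hab h
    have := h 0 h0W
    rw [add_zero, add_zero] at this
    exact hab this
  refine ⟨ε, hε, fun h hh0 hhε n n' => ⟨fun hn hn' => ?_, fun hn hn' => ?_⟩⟩
  · apply hW₀
    apply eqv_mono ((Finset.subset_insert _ _).trans hWW)
    by_contra hcon
    obtain ⟨p, hp⟩ := R10_nonempty hh0
    have h1 : ¬ Eqv y W n p := hnotEq _ _ (by rw [hn.1, hp.1]; decide)
    have h2 : ¬ Eqv y W n' p := hnotEq _ _ (by rw [hn'.1, hp.1]; decide)
    have h3 := hW h {n, n', p} (by
      intro a ha b hb' hab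
      simp only [Finset.mem_insert, Finset.mem_singleton] at ha hb'
      rcases ha with rfl | rfl | rfl <;> rcases hb' with rfl | rfl | rfl
      · rfl
      · exact absurd hab hcon
      · exact absurd hab h1
      · exact absurd (eqv_symm hab) hcon
      · rfl
      · exact absurd hab h2
      · exact absurd (eqv_symm hab) h1
      · exact absurd (eqv_symm hab) h2
      · rfl) (by
      intro t ht
      obtain ⟨m, hm1, hm2⟩ := hstay h hhε t
      refine ⟨m, hm1, ?_⟩
      rw [hm2]
      simp only [Finset.mem_insert, Finset.mem_singleton] at ht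
      rcases ht with rfl | rfl | rfl
      · exact R01_sub y h hn
      · exact R01_sub y h hn'
      · exact R10_sub y h hp)
    have h4 : ({n, n', p} : Finset ℤ).card = 3 := by
      rw [Finset.card_eq_three]
      refine ⟨n, n', p, ?_, ?_, ?_, rfl⟩
      · rintro rfl; exact hcon fun _ _ => rfl
      · rintro rfl; exact h1 fun _ _ => rfl
      · rintro rfl; exact h2 fun _ _ => rfl
    omega
  · apply hW₀
    apply eqv_mono ((Finset.subset_insert _ _).trans hWW)
    by_contra hcon
    obtain ⟨p, hp⟩ := R01_nonempty hh0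
    have h1 : ¬ Eqv y W n p := hnotEq _ _ (by rw [hn.1, hp.1]; decide)
    have h2 : ¬ Eqv y W n' p := hnotEq _ _ (by rw [hn'.1, hp.1]; decide)
    have h3 := hW h {n, n', p} (by
      intro a ha b hb' hab
      simp only [Finset.mem_insert, Finset.mem_singleton] at ha hb'
      rcases ha with rfl | rfl | rfl <;> rcases hb' with rfl | rfl | rfl
      · rfl
      · exact absurd hab hcon
      · exact absurd hab h1
      · exact absurd (eqv_symm hab) hcon
      · rfl
      · exact absurd hab h2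
      · exact absurd (eqv_symm hab) h1
      · exact absurd (eqv_symm hab) h2
      · rfl) (by
      intro t ht
      obtain ⟨m, hm1, hm2⟩ := hstay h hhε t
      refine ⟨m, hm1, ?_⟩
      rw [hm2]
      simp only [Finset.mem_insert, Finset.mem_singleton] at ht
      rcases ht with rfl | rfl | rfl
      · exact R10_sub y h hn
      · exact R10_sub y h hn'
      · exact R01_sub y h hp)
    have h4 : ({n, n', p} : Finset ℤ).card = 3 := by
      rw [Finset.card_eq_three]
      refine ⟨n, n', p, ?_, ?_, ?_, rfl⟩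
      · rintro rfl; exact hcon fun _ _ => rfl
      · rintro rfl; exact h1 fun _ _ => rfl
      · rintro rfl; exact h2 fun _ _ => rfl
    omega

/-- balls of small radius have small measure -/
theorem ball (hu : URec y) (hap : ∀ q : ℤ, q ≠ 0 → ∃ m, y (m + q) ≠ y m) {ε : ℝ}
    (hε : 0 < ε) : ∃ η : ℝ, 0 < η ∧ mean (ind {i | dd y i < η}) < ε := by
  classical
  obtain ⟨J, hJ⟩ := exists_nat_gt (1 / ε)
  rw [div_lt_iff₀ hε] at hJ
  have hJ0 : 0 < J := by
    rcases Nat.eq_zero_or_pos J with h | h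
    · rw [h] at hJ; norm_num at hJ
    · exact h
  obtain ⟨δ, hδ, hδJ⟩ : ∃ δ : ℝ, 0 < δ ∧ ∀ j ∈ Finset.Icc 1 J, δ ≤ dd y j := by
    have hne : (Finset.Icc 1 J).Nonempty := Finset.nonempty_Icc.mpr hJ0
    obtain ⟨t₀, ht₀, hmin⟩ := (Finset.Icc 1 J).exists_min_image (fun j : ℕ => dd y j) hne
    rw [Finset.mem_Icc] at ht₀
    exact ⟨_, d_pos hu hap (by omega : (t₀ : ℤ) ≠ 0), hmin⟩
  refine ⟨δ / 2, by positivity, ?_⟩
  set B : Set ℤ := {i | dd y i < δ / 2} with hB
  have h1 : mean (fun n => ∑ j ∈ Finset.range (J + 1), ind B (n + (j : ℤ))) =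
      (J + 1) * mean (ind B) := by
    rw [mean_sum (Finset.range (J + 1)) (fun (j : ℕ) n => ind B (n + (j : ℤ)))
      fun i _ => bddF_shift _ (ind_bdd B)]
    have e1 : ∀ i ∈ Finset.range (J + 1), mean (fun n => ind B (n + (i : ℤ))) = mean (ind B) :=
      fun i _ => isMean_mean.shift _ (ind_bdd B) (i : ℤ)
    rw [Finset.sum_congr rfl e1, Finset.sum_const, Finset.card_range, nsmul_eq_mul]
    push_cast; ring
  have h2 : mean (fun n => ∑ j ∈ Finset.range (J + 1), ind B (n + (j : ℤ))) ≤ 1 := by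
    rw [← isMean_mean.one]
    apply isMean_mean.mono _ _ (bddF_sum _ _ fun t _ => bddF_shift _ (ind_bdd _)) (bddF_const 1)
    intro n
    have h3 : ∑ j ∈ Finset.range (J + 1), ind B (n + (j : ℤ)) =
        (((Finset.range (J + 1)).filter fun j : ℕ => n + (j : ℤ) ∈ B).card : ℝ) := by
      rw [Finset.card_filter]
      push_cast
      apply Finset.sum_congr rfl
      intro j _
      unfold ind
      congr
    rw [h3]
    have h4 : ((Finset.range (J + 1)).filter fun j : ℕ => n + (j : ℤ) ∈ B).card ≤ 1 := by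
      rw [Finset.card_le_one]
      intro a ha b hb
      obtain ⟨ha1, ha2⟩ := Finset.mem_filter.mp ha
      obtain ⟨hb1, hb2⟩ := Finset.mem_filter.mp hb
      rw [Finset.mem_range] at ha1 hb1
      have h5 : dd y (n + (a : ℤ)) < δ / 2 := ha2
      have h6 : dd y (n + (b : ℤ)) < δ / 2 := hb2
      have h7 := dd_sub y (n + (a : ℤ)) (n + (b : ℤ))
      have h8 := dd_sub y (n + (b : ℤ)) (n + (a : ℤ))
      rcases lt_trichotomy a b with h9 | h9 | h9
      · exfalso
        have h10 := hδJ (b - a) (Finset.mem_Icc.mpr ⟨by omega, by omega⟩)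
        rw [show ((b - a : ℕ) : ℤ) = n + (b : ℤ) - (n + (a : ℤ)) by omega] at h10
        linarith
      · exact h9
      · exfalso
        have h10 := hδJ (a - b) (Finset.mem_Icc.mpr ⟨by omega, by omega⟩)
        rw [show ((a - b : ℕ) : ℤ) = n + (a : ℤ) - (n + (b : ℤ)) by omega] at h10
        linarith
    exact_mod_cast h4
  rw [h1] at h2
  by_contra hcon
  push Not at hcon
  have h5 : ((J : ℝ) + 1) * ε ≤ (J + 1) * mean (ind B) :=
    mul_le_mul_of_nonneg_left hcon (by positivity)
  nlinarith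

/-- the flips of small shifts are located in at most two small balls -/
theorem two (hu : URec y) (hb : Bdd y) (hap : ∀ q : ℤ, q ≠ 0 → ∃ m, y (m + q) ≠ y m) {η : ℝ}
    (hη : 0 < η) : ∃ ε : ℝ, 0 < ε ∧ ∃ c₁ c₂ : ℤ, ∀ h, 0 < dd y h → dd y h < ε →
    ∀ n ∈ R y h, dd y (n - c₁) < η ∨ dd y (n - c₂) < η := by
  classical
  obtain ⟨W₀, hW₀⟩ := sep hu hb hap hη
  obtain ⟨W, T, hWW, -, hW⟩ := exists_tight hb (insert 0 W₀) (Finset.insert_nonempty _ _)
  have hWne : 0 < W.card := Finset.card_pos.mpr ⟨0, hWW (Finset.mem_insert_self _ _)⟩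
  have hWr : (0 : ℝ) < W.card := by exact_mod_cast hWne
  obtain ⟨η₁, hη₁, hball⟩ := ball hu hap (ε := 1 / (6 * W.card)) (by positivity)
  obtain ⟨ε₁, hε₁, hflip⟩ := flips hu hb hap hη₁
  by_contra hcon
  push Not at hcon
  obtain ⟨h₁, h10, h11, n₁, hn₁, -, -⟩ := hcon ε₁ hε₁ 0 0
  obtain ⟨h₂, h20, h21, n₂, hn₂, d21, -⟩ := hcon ε₁ hε₁ n₁ n₁
  obtain ⟨h₃, h30, h31, n₃, hn₃, d31, d32⟩ := hcon ε₁ hε₁ n₁ n₂
  -- good places
  have hbad : ∀ (h n : ℤ), 0 < dd y h → dd y h < ε₁ → ∀ w : ℤ,
      mean (ind {i | n - i + w ∈ R y h}) ≤ 2 * mean (ind {i | dd y i < η₁}) := by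
    intro h n hh0 hh1 w
    obtain ⟨a, ha⟩ := R01_nonempty hh0
    obtain ⟨b, hb'⟩ := R10_nonempty hh0
    have e1 := isMean_mean.shift _ (ind_bdd {i | dd y i < η₁}) (a - (n + w))
    have e2 := isMean_mean.shift _ (ind_bdd {i | dd y i < η₁}) (b - (n + w))
    have e3 := isMean_mean.add _ _ (bddF_shift (a - (n + w)) (ind_bdd {i | dd y i < η₁}))
      (bddF_shift (b - (n + w)) (ind_bdd {i | dd y i < η₁}))
    have e4 := isMean_mean.mono (ind {i | n - i + w ∈ R y h})
      (fun i => ind {i | dd y i < η₁} (i + (a - (n + w))) +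
        ind {i | dd y i < η₁} (i + (b - (n + w)))) (ind_bdd _)
      (bddF_add (bddF_shift _ (ind_bdd _)) (bddF_shift _ (ind_bdd _))) (fun i => by
        have p1 : ∀ c, 0 ≤ ind {i | dd y i < η₁} c := fun c => by
          unfold ind; split_ifs <;> norm_num
        by_cases h5 : n - i + w ∈ R y h
        · rw [ind_of_mem (S := {i | n - i + w ∈ R y h}) h5]
          rcases R_cases h5 with h6 | h6
          · have h7 := (hflip h hh0 hh1 a (n - i + w)).1 ha h6
            rw [ind_of_mem (S := {i | dd y i < η₁}) (n := i + (a - (n + w))) (by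
              show dd y (i + (a - (n + w))) < η₁
              rw [show i + (a - (n + w)) = a - (n - i + w) by ring]; exact h7)]
            have := p1 (i + (b - (n + w)))
            linarith
          · have h7 := (hflip h hh0 hh1 b (n - i + w)).2 hb' h6
            rw [ind_of_mem (S := {i | dd y i < η₁}) (n := i + (b - (n + w))) (by
              show dd y (i + (b - (n + w))) < η₁
              rw [show i + (b - (n + w)) = b - (n - i + w) by ring]; exact h7)]
            have := p1 (i + (a - (n + w)))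
            linarith
        · rw [ind_of_not_mem (S := {i | n - i + w ∈ R y h}) h5]
          exact add_nonneg (p1 _) (p1 _))
    linarith
  obtain ⟨i, hi⟩ : ∃ i : ℤ, ∀ w ∈ W, n₁ - i + w ∉ R y h₁ ∧ n₂ - i + w ∉ R y h₂ ∧
      n₃ - i + w ∉ R y h₃ := by
    by_contra hno
    push Not at hno
    have b1 : ∀ w, BddF (ind {i | n₁ - i + w ∈ R y h₁}) := fun w => ind_bdd _
    have b2 : ∀ w, BddF (ind {i | n₂ - i + w ∈ R y h₂}) := fun w => ind_bdd _
    have b3 : ∀ w, BddF (ind {i | n₃ - i + w ∈ R y h₃}) := fun w => ind_bdd _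
    have e1 := isMean_mean.mono (fun _ => 1) (fun i => ∑ w ∈ W,
      (ind {i | n₁ - i + w ∈ R y h₁} i + (ind {i | n₂ - i + w ∈ R y h₂} i +
        ind {i | n₃ - i + w ∈ R y h₃} i))) (bddF_const 1)
      (bddF_sum _ _ fun w _ => bddF_add (b1 w) (bddF_add (b2 w) (b3 w))) (fun i => by
        obtain ⟨w, hw, h5⟩ := hno i
        have p1 : ∀ (S : Set ℤ) (c : ℤ), 0 ≤ ind S c := fun S c => by
          unfold ind; split_ifs <;> norm_num
        refine le_trans ?_ (Finset.single_le_sum
          (f := fun w => ind {i | n₁ - i + w ∈ R y h₁} i + (ind {i | n₂ - i + w ∈ R y h₂} i +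
            ind {i | n₃ - i + w ∈ R y h₃} i)) (fun w _ => ?_) hw)
        · by_cases c1 : n₁ - i + w ∈ R y h₁
          · rw [ind_of_mem (S := {i | n₁ - i + w ∈ R y h₁}) c1]
            have := p1 {i | n₂ - i + w ∈ R y h₂} i
            have := p1 {i | n₃ - i + w ∈ R y h₃} i
            linarith
          · by_cases c2 : n₂ - i + w ∈ R y h₂
            · rw [ind_of_mem (S := {i | n₂ - i + w ∈ R y h₂}) c2]
              have := p1 {i | n₁ - i + w ∈ R y h₁} i
              have := p1 {i | n₃ - i + w ∈ R y h₃} i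
              linarith
            · have c3 := h5 c1 c2
              rw [ind_of_mem (S := {i | n₃ - i + w ∈ R y h₃}) c3]
              have := p1 {i | n₁ - i + w ∈ R y h₁} i
              have := p1 {i | n₂ - i + w ∈ R y h₂} i
              linarith
        · exact add_nonneg (p1 _ _) (add_nonneg (p1 _ _) (p1 _ _)))
    rw [isMean_mean.one, mean_sum W _ fun w _ => bddF_add (b1 w) (bddF_add (b2 w) (b3 w))] at e1
    have e2 : ∀ w ∈ W, mean (fun i => ind {i | n₁ - i + w ∈ R y h₁} i +
        (ind {i | n₂ - i + w ∈ R y h₂} i + ind {i | n₃ - i + w ∈ R y h₃} i)) ≤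
        6 * mean (ind {i | dd y i < η₁}) := by
      intro w _
      rw [isMean_mean.add _ _ (b1 w) (bddF_add (b2 w) (b3 w)), isMean_mean.add _ _ (b2 w) (b3 w)]
      have q1 := hbad h₁ n₁ h10 h11 w
      have q2 := hbad h₂ n₂ h20 h21 w
      have q3 := hbad h₃ n₃ h30 h31 w
      linarith
    have e3 := Finset.sum_le_sum e2
    rw [Finset.sum_const, nsmul_eq_mul] at e3
    rw [lt_div_iff₀ (by positivity)] at hball
    nlinarith
  -- the contradiction
  have hspl : ∀ (n h : ℤ), n ∈ R y h → (∀ w ∈ W, n - i + w ∉ R y h) →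
      ∃ m, Eqv y W m (n - i) ∧ y (m + i) ≠ y (n - i + i) := by
    intro n h hn hw
    refine ⟨n - i + h, fun w hw' => ?_, ?_⟩
    · have h5 : y (n - i + w) = y (n - i + w + h) := by
        by_contra hc
        exact hw w hw' hc
      rw [h5]; congr 1; ring
    · rw [show n - i + h + i = n + h by ring, show n - i + i = n by ring]
      exact fun h5 => hn h5.symm
  have hdist : ∀ a b : ℤ, η ≤ dd y (a - b) → ¬ Eqv y W (a - i) (b - i) := by
    intro a b hab hE
    have := hW₀ _ _ (eqv_mono ((Finset.subset_insert _ _).trans hWW) hE)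
    rw [show a - i - (b - i) = a - b by ring] at this
    linarith
  have c21 := hdist n₂ n₁ d21
  have c31 := hdist n₃ n₁ d31
  have c32 := hdist n₃ n₂ d32
  have h3 := hW i {n₁ - i, n₂ - i, n₃ - i} (by
    intro a ha b hb' hab
    simp only [Finset.mem_insert, Finset.mem_singleton] at ha hb'
    rcases ha with rfl | rfl | rfl <;> rcases hb' with rfl | rfl | rfl
    · rfl
    · exact absurd (eqv_symm hab) c21
    · exact absurd (eqv_symm hab) c31
    · exact absurd hab c21
    · rfl
    · exact absurd (eqv_symm hab) c32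
    · exact absurd hab c31
    · exact absurd hab c32
    · rfl) (by
    intro t ht
    simp only [Finset.mem_insert, Finset.mem_singleton] at ht
    rcases ht with rfl | rfl | rfl
    · exact hspl n₁ h₁ hn₁ fun w hw => (hi w hw).1
    · exact hspl n₂ h₂ hn₂ fun w hw => (hi w hw).2.1
    · exact hspl n₃ h₃ hn₃ fun w hw => (hi w hw).2.2)
  have h4 : ({n₁ - i, n₂ - i, n₃ - i} : Finset ℤ).card = 3 := by
    rw [Finset.card_eq_three]
    refine ⟨n₁ - i, n₂ - i, n₃ - i, ?_, ?_, ?_, rfl⟩
    · intro h; exact c21 (by rw [h]; intro _ _; rfl)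
    · intro h; exact c31 (by rw [h]; intro _ _; rfl)
    · intro h; exact c32 (by rw [h]; intro _ _; rfl)
  omega

theorem core_of_UR (hu : URec y) (hb : Bdd y)
    (hap : ∀ q : ℤ, q ≠ 0 → ∃ m, y (m + q) ≠ y m) : Core y where
  urec := hu
  bdd := hb
  pos _ hh := d_pos hu hap hh
  inf _ hε := inf hu hb hap hε
  flips _ hη := flips hu hb hap hη
  two _ hη := two hu hb hap hη
  sep _ hη := sep hu hb hap hη

end Pool.Agent.Helper434.PCCore
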