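import Mathlib
import Pool.Agent.Helper434.PCDefs
import Pool.Agent.Helper434.PCCore

set_option autoImplicit false

namespace Pool.Agent.Helper434.PCSpec

open Pool.Agent.Helper434.PCDefs Pool.Agent.Helper434.PCCore

/-- small positive multiples -/
lemma small {γ : ℝ} (hγ : Irrational γ) {ε : ℝ} (hε : 0 < ε) :
    ∃ (k : ℕ) (l : ℤ), 0 < k ∧ 0 < k * γ - l ∧ k * γ - l < ε := by
  obtain ⟨n, hn⟩ := exists_nat_gt (1 / ε)
  have hn0 : 0 < n := by
    rcases Nat.eq_zero_or_pos n with h | h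
    · rw [h] at hn; push_cast at hn
      have : 0 < 1 / ε := by positivity
      linarith
    · exact h
  have hnr : (0 : ℝ) < n := by exact_mod_cast hn0
  obtain ⟨k, hk0, -, hk⟩ := Real.exists_nat_abs_mul_sub_round_le γ hn0
  have h1 : |(k : ℝ) * γ - round ((k : ℝ) * γ)| < ε := by
    refine lt_of_le_of_lt hk ?_
    rw [div_lt_iff₀ (by linarith)]
    rw [div_lt_iff₀ hε] at hn
    nlinarith
  have hne : (k : ℝ) * γ - round ((k : ℝ) * γ) ≠ 0 := by
    intro h
    have h2 : Irrational ((k : ℝ) * γ) := by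
      exact_mod_cast hγ.natCast_mul hk0.ne'
    exact h2 ⟨(round ((k : ℝ) * γ) : ℚ), by push_cast; linarith⟩
  rcases lt_or_gt_of_ne hne with h2 | h2
  · set e := (round ((k : ℝ) * γ) : ℝ) - k * γ with he
    have he0 : 0 < e := by rw [he]; linarith
    have heε : e < ε := by
      rw [abs_of_neg h2] at h1
      rw [he]; linarith
    set M := ⌊1 / e⌋₊ with hM
    have hM1 : M * e ≤ 1 := by
      have := Nat.floor_le (by positivity : 0 ≤ 1 / e)
      rwa [le_div_iff₀ he0] at this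
    have hM2 : 1 < (M + 1) * e := by
      have := Nat.lt_floor_add_one (1 / e)
      rwa [div_lt_iff₀ he0] at this
    by_cases hlt : e < 1
    · have hM0 : 0 < M := by
        apply Nat.floor_pos.mpr
        rw [le_div_iff₀ he0]; linarith
      refine ⟨M * k, M * round ((k : ℝ) * γ) - 1, Nat.mul_pos hM0 hk0, ?_, ?_⟩
      · have e1 : ((M * k : ℕ) : ℝ) * γ - ((M * round ((k : ℝ) * γ) - 1 : ℤ) : ℝ) = 1 - M * e := by
          rw [he]; push_cast; ring
        rw [e1]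
        have h3 : (M : ℝ) * e ≠ 1 := by
          intro h4
          have h5 : Irrational (((M * k : ℕ) : ℝ) * γ) :=
            hγ.natCast_mul (Nat.mul_pos hM0 hk0).ne'
          apply h5
          refine ⟨((M * round ((k : ℝ) * γ) - 1 : ℤ) : ℚ), ?_⟩
          push_cast
          rw [he] at h4
          linarith
        have := lt_of_le_of_ne hM1 h3
        linarith
      · have e1 : ((M * k : ℕ) : ℝ) * γ - ((M * round ((k : ℝ) * γ) - 1 : ℤ) : ℝ) = 1 - M * e := by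
          rw [he]; push_cast; ring
        rw [e1]
        linarith
    · exfalso
      have := abs_sub_round ((k : ℝ) * γ)
      rw [abs_of_neg h2] at this
      rw [he] at hlt
      linarith
  · refine ⟨k, round ((k : ℝ) * γ), hk0, h2, ?_⟩
    rw [abs_of_pos h2] at h1
    exact h1

/-- finitely many multiples meet every short interval modulo one -/
lemma dens {γ : ℝ} (hγ : Irrational γ) {ε : ℝ} (hε : 0 < ε) :
    ∃ J : ℕ, ∀ a : ℝ, ∃ j : ℕ, j < J ∧ ∃ i : ℤ, a ≤ j * γ - i ∧ j * γ - i < a + ε := by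
  obtain ⟨k, l, hk, h1, h2⟩ := small hγ hε
  set e := (k : ℝ) * γ - l with he
  refine ⟨⌈1 / e⌉₊ * k + 1, fun a => ?_⟩
  have f0 := Int.fract_nonneg a
  have f1 := Int.fract_lt_one a
  have f2 : Int.fract a = a - ⌊a⌋ := rfl
  have g0 : 0 ≤ Int.fract a / e := div_nonneg f0 h1.le
  refine ⟨⌈Int.fract a / e⌉₊ * k, ?_, ⌈Int.fract a / e⌉₊ * l - ⌊a⌋, ?_, ?_⟩
  · have : ⌈Int.fract a / e⌉₊ ≤ ⌈1 / e⌉₊ := by
      apply Nat.ceil_le_ceil
      exact div_le_div_of_nonneg_right f1.le h1.le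
    have := Nat.mul_le_mul_right k this
    omega
  · have h3 := Nat.le_ceil (Int.fract a / e)
    rw [div_le_iff₀ h1] at h3
    have e1 : ((⌈Int.fract a / e⌉₊ * k : ℕ) : ℝ) * γ - ((⌈Int.fract a / e⌉₊ * l - ⌊a⌋ : ℤ) : ℝ) =
        ⌈Int.fract a / e⌉₊ * e + ⌊a⌋ := by
      rw [he]; push_cast; ring
    rw [e1]
    linarith
  · have h3 := Nat.ceil_lt_add_one g0
    have h4 : (⌈Int.fract a / e⌉₊ : ℝ) * e < Int.fract a + e := by
      have := mul_lt_mul_of_pos_right h3 h1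
      rwa [add_mul, one_mul, div_mul_cancel₀ _ h1.ne'] at this
    have e1 : ((⌈Int.fract a / e⌉₊ * k : ℕ) : ℝ) * γ - ((⌈Int.fract a / e⌉₊ * l - ⌊a⌋ : ℤ) : ℝ) =
        ⌈Int.fract a / e⌉₊ * e + ⌊a⌋ := by
      rw [he]; push_cast; ring
    rw [e1]
    linarith

lemma fr {t : ℝ} (j : ℤ) (h0 : 0 ≤ t - j) (h1 : t - j < 1) : Int.fract t = t - j := by
  rw [Int.fract_eq_iff]
  exact ⟨h0, h1, j, by ring⟩

section

variable {y : ℤ → Bool} {α β θ : ℝ}

/-- windows along an arithmetic progression determine the phase -/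
theorem rich (hy : ∀ n : ℤ, y n = true ↔ Int.fract (n * α + θ) < β) (hα : Irrational α)
    (hβ0 : 0 < β) (hβ1 : β < 1) {δ : ℝ} (hδ : 0 < δ) {q : ℤ} (hq : q ≠ 0) :
    ∃ J : ℕ, ∀ s m m' : ℤ, (∀ j : ℕ, j < J → y (m + (s + q * j)) = y (m' + (s + q * j))) →
      ∃ i : ℤ, |((m - m' : ℤ) : ℝ) * α - i| < δ := by
  set l := min δ (min β (1 - β)) with hl
  have hl0 : 0 < l := lt_min hδ (lt_min hβ0 (by linarith))
  have hl1 : l ≤ δ := min_le_left _ _
  have hl2 : l ≤ β := (min_le_right _ _).trans (min_le_left _ _)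
  have hl3 : l ≤ 1 - β := (min_le_right _ _).trans (min_le_right _ _)
  have hγ : Irrational ((q : ℝ) * α) := by exact_mod_cast hα.intCast_mul hq
  obtain ⟨J, hJ⟩ := dens hγ hl0
  refine ⟨J, fun s m m' h => ?_⟩
  by_contra hcon
  push Not at hcon
  -- the difference of the phases
  set D : ℝ := Int.fract (((m' - m : ℤ) : ℝ) * α) with hD
  have hD0 := Int.fract_nonneg (((m' - m : ℤ) : ℝ) * α)
  have hD1 := Int.fract_lt_one (((m' - m : ℤ) : ℝ) * α)
  have hDf : D = ((m' - m : ℤ) : ℝ) * α - ⌊((m' - m : ℤ) : ℝ) * α⌋ := rfl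
  rw [← hD] at hD0 hD1
  have hDl : l ≤ D := by
    have := hcon (-⌊((m' - m : ℤ) : ℝ) * α⌋)
    have e1 : ((m - m' : ℤ) : ℝ) * α - ((-⌊((m' - m : ℤ) : ℝ) * α⌋ : ℤ) : ℝ) = -D := by
      rw [hDf]; push_cast; ring
    rw [e1, abs_neg, abs_of_nonneg hD0] at this
    linarith
  have hDu : D ≤ 1 - l := by
    have := hcon (-(⌊((m' - m : ℤ) : ℝ) * α⌋ + 1))
    have e1 : ((m - m' : ℤ) : ℝ) * α - ((-(⌊((m' - m : ℤ) : ℝ) * α⌋ + 1) : ℤ) : ℝ) = 1 - D := by
      rw [hDf]; push_cast; ring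
    rw [e1, abs_of_nonneg (by linarith)] at this
    linarith
  -- a good phase
  set a₀ := max 0 (β - D) with ha₀
  have ha1 : 0 ≤ a₀ := le_max_left _ _
  have ha2 : β - D ≤ a₀ := le_max_right _ _
  have ha3 : a₀ + l ≤ β := by
    rw [ha₀]
    rcases max_cases 0 (β - D) with ⟨h1, _⟩ | ⟨h1, _⟩ <;> rw [h1] <;> linarith
  have ha4 : a₀ + l ≤ 1 - D := by
    rw [ha₀]
    rcases max_cases 0 (β - D) with ⟨h1, _⟩ | ⟨h1, _⟩ <;> rw [h1] <;> linarith
  obtain ⟨j, hj, i, hi1, hi2⟩ := hJ (a₀ - ((m + s : ℤ) * α + θ))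
  have h1 := h j hj
  have e1 : ((m + (s + q * j) : ℤ) : ℝ) * α + θ - i = (m + s : ℤ) * α + θ + (j * (q * α) - i) := by
    push_cast; ring
  have p1 : y (m + (s + q * j)) = true := by
    rw [hy, fr i (by rw [e1]; linarith) (by rw [e1]; linarith), e1]
    linarith
  have e2 : ((m' + (s + q * j) : ℤ) : ℝ) * α + θ -
      ((i + ⌊((m' - m : ℤ) : ℝ) * α⌋ : ℤ) : ℝ) = (m + s : ℤ) * α + θ + (j * (q * α) - i) + D := by
    rw [hDf]; push_cast; ring
  have p2 : ¬ y (m' + (s + q * j)) = true := by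
    rw [hy, fr (i + ⌊((m' - m : ℤ) : ℝ) * α⌋) (by rw [e2]; linarith) (by rw [e2]; linarith), e2]
    linarith
  rw [p1] at h1
  exact p2 h1.symm

/-- endpoints -/
def e (α β : ℝ) (p : ℤ × Bool) : ℝ := (if p.2 then β else 0) - p.1 * α

lemma exists_gap (α β : ℝ) (I : Finset (ℤ × Bool))
    (hnc : ∀ p ∈ I, ∀ p' ∈ I, (∃ J : ℤ, e α β p - e α β p' = J) → p = p') :
    ∃ δ : ℝ, 0 < δ ∧ ∀ p ∈ I, ∀ p' ∈ I, p ≠ p' → ∀ J : ℤ, δ ≤ |e α β p - e α β p' - J| := by
  classical
  rcases I.eq_empty_or_nonempty with hI | hI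
  · subst hI
    exact ⟨1, one_pos, by simp⟩
  · obtain ⟨⟨p, p'⟩, hpp, hmin⟩ := (I ×ˢ I).exists_min_image
      (fun pp => if pp.1 = pp.2 then (1 : ℝ) else
        |e α β pp.1 - e α β pp.2 - round (e α β pp.1 - e α β pp.2)|) (hI.product hI)
    refine ⟨if p = p' then (1 : ℝ) else |e α β p - e α β p' - round (e α β p - e α β p')|, ?_, ?_⟩
    · split_ifs with h
      · exact one_pos
      · rw [abs_pos]
        intro h1
        rw [Finset.mem_product] at hpp
        exact h (hnc p hpp.1 p' hpp.2 ⟨round (e α β p - e α β p'), by linarith⟩)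
    · intro r hr r' hr' hne J
      have := hmin (r, r') (Finset.mem_product.mpr ⟨hr, hr'⟩)
      simp only [if_neg hne] at this
      exact this.trans (round_le _ _)

/-- many patterns of a rotation coding on a window which determines the phase -/
theorem count (hy : ∀ n : ℤ, y n = true ↔ Int.fract (n * α + θ) < β) (hα : Irrational α)
    {I : Finset (ℤ × Bool)} {V : Finset ℤ} (hI : ∀ p ∈ I, p.1 ∈ V)
    (hnc : ∀ p ∈ I, ∀ p' ∈ I, (∃ J : ℤ, e α β p - e α β p' = J) → p = p')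
    {δ₀ : ℝ} (hδ₀ : 0 < δ₀) (hδβ : 2 * δ₀ ≤ β) (hδβ' : 2 * δ₀ ≤ 1 - β)
    (hrich : ∀ m m' : ℤ, Eqv y V m m' → ∃ i : ℤ, |((m - m' : ℤ) : ℝ) * α - i| < δ₀) :
    ∃ P : ℤ × Bool → ℤ, ∀ p ∈ I, ∀ p' ∈ I, Eqv y V (P p) (P p') → p = p' := by
  obtain ⟨δ₁, hδ₁, hgap⟩ := exists_gap α β I hnc
  set δ := min δ₁ δ₀ with hδ
  have hδ0 : 0 < δ := lt_min hδ₁ hδ₀
  have hδa : δ ≤ δ₁ := min_le_left _ _
  have hδb : δ ≤ δ₀ := min_le_right _ _
  have hP : ∀ p : ℤ × Bool, ∃ m j : ℤ, 0 ≤ m * α + θ - j - e α β p ∧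
      m * α + θ - j - e α β p < δ := by
    intro p
    obtain ⟨J, hJ⟩ := dens hα hδ0
    obtain ⟨j, -, i, h1, h2⟩ := hJ (e α β p - θ)
    exact ⟨j, i, by push_cast; linarith, by push_cast; linarith⟩
  choose P j hP1 hP2 using hP
  refine ⟨P, fun p hp p' hp' hE => ?_⟩
  by_contra hne
  obtain ⟨i, hi⟩ := hrich _ _ hE
  -- the position of one endpoint relative to the other
  have key : ∀ (p p' : ℤ × Bool) (J : ℤ), p' ∈ I → Eqv y V (P p) (P p') →
      δ ≤ e α β p' - e α β p - J → e α β p' - e α β p - J < 2 * δ₀ → False := by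
    intro p p' J hp' hE hx1 hx2
    set ξ := e α β p' - e α β p - J with hξ
    set σ := P p * α + θ - j p - e α β p with hσ
    set σ' := P p' * α + θ - j p' - e α β p' with hσ'
    have s1 : 0 ≤ σ := hP1 p
    have s2 : σ < δ := hP2 p
    have s1' : 0 ≤ σ' := hP1 p'
    have s2' : σ' < δ := hP2 p'
    have h1 := hE p'.1 (hI p' hp')
    have e1 : ((P p' + p'.1 : ℤ) : ℝ) * α + θ - j p' = (if p'.2 then β else 0) + σ' := by
      rw [hσ']; unfold e; push_cast; ring
    have e2 : ((P p + p'.1 : ℤ) : ℝ) * α + θ - (j p - J : ℤ) =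
        (if p'.2 then β else 0) - (ξ - σ) := by
      rw [hσ, hξ]; unfold e; push_cast; ring
    rcases Bool.eq_false_or_eq_true p'.2 with hb | hb
    · rw [hb, if_pos rfl] at e1 e2
      have q1 : ¬ y (P p' + p'.1) = true := by
        rw [hy, fr (j p') (by rw [e1]; linarith) (by rw [e1]; linarith), e1]; linarith
      have q2 : y (P p + p'.1) = true := by
        rw [hy, fr (j p - J) (by rw [e2]; linarith) (by rw [e2]; linarith), e2]; linarith
      rw [q2] at h1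
      exact q1 h1.symm
    · rw [hb] at e1 e2
      simp only [Bool.false_eq_true, if_false] at e1 e2
      have q1 : y (P p' + p'.1) = true := by
        rw [hy, fr (j p') (by rw [e1]; linarith) (by rw [e1]; linarith), e1]; linarith
      have e3 : ((P p + p'.1 : ℤ) : ℝ) * α + θ - ((j p - J - 1 : ℤ) : ℝ) =
          1 - (ξ - σ) := by
        push_cast at e2 ⊢; linarith
      have q2 : ¬ y (P p + p'.1) = true := by
        rw [hy, fr (j p - J - 1) (by rw [e3]; linarith) (by rw [e3]; linarith), e3]; linarith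
      rw [q1] at h1
      exact q2 h1
  set J : ℤ := i - (j p - j p') with hJ
  have e1 : e α β p - e α β p' - J = (((P p - P p' : ℤ) : ℝ) * α - i) -
      (P p * α + θ - j p - e α β p) + (P p' * α + θ - j p' - e α β p') := by
    rw [hJ]; push_cast; ring
  have g1 := hgap p hp p' hp' hne J
  have a1 := abs_lt.mp hi
  have s1 := hP1 p
  have s2 := hP2 p
  have s1' := hP1 p'
  have s2' := hP2 p'
  rcases abs_cases (e α β p - e α β p' - J) with ⟨h1, _⟩ | ⟨h1, _⟩
  · rw [h1] at g1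
    exact key p' p J hp (eqv_symm hE) (by linarith) (by rw [e1]; linarith)
  · rw [h1] at g1
    refine key p p' (-J) hp' hE (by push_cast; linarith) ?_
    have : e α β p' - e α β p - ((-J : ℤ) : ℝ) = -(e α β p - e α β p' - J) := by
      push_cast; ring
    rw [this, e1]; linarith

end

end Pool.Agent.Helper434.PCSpec
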