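import Mathlib

set_option autoImplicit false

namespace Pool.Agent.Helper434.PSPattern

/-- at most `2 n` patterns -/
theorem upper {α β θ : ℝ} {x : ℤ → Fin 2}
    (hx : ∀ j : ℤ, ((x j : ℕ) : ℤ) = ⌈j * α + θ⌉ - ⌈j * α + θ - β⌉) {n : ℕ} (hn : 1 ≤ n)
    (τ : Fin n → ℤ) :
    (Set.range fun m : ℤ => fun i : Fin n => x (m + τ i)).encard ≤ 2 * (n : ℕ∞) := by
  set c : ℤ → Fin n → ℤ := fun m i => ⌈((m + τ i : ℤ) : ℝ) * α + θ⌉ with hc
  set d : ℤ → Fin n → ℤ := fun m i => ⌈((m + τ i : ℤ) : ℝ) * α + θ - β⌉ with hd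
  set Φ : ℤ → ℤ := fun m => ∑ i, (c m i + d m i) with hΦ
  set pat : ℤ → (Fin n → Fin 2) := fun m i => x (m + τ i) with hpat
  have hcd : ∀ m i, ((pat m i : ℕ) : ℤ) = c m i - d m i := fun m i => hx (m + τ i)
  -- one sided comparison
  have key : ∀ m m' k : ℤ, (m : ℝ) * α + k ≤ m' * α → Φ m' = Φ m + 2 * n * k →
      ∀ i, c m' i = c m i + k ∧ d m' i = d m i + k := by
    intro m m' k hle hsum
    have h1 : ∀ i, c m i + k ≤ c m' i := by
      intro i
      simp only [hc]
      rw [← Int.ceil_add_intCast]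
      apply Int.ceil_le_ceil
      push_cast
      linarith
    have h2 : ∀ i, d m i + k ≤ d m' i := by
      intro i
      simp only [hd]
      rw [← Int.ceil_add_intCast]
      apply Int.ceil_le_ceil
      push_cast
      linarith
    have h3 : ∑ i : Fin n, (c m i + k + (d m i + k)) = ∑ i : Fin n, (c m' i + d m' i) := by
      have e : ∑ i : Fin n, (c m i + k + (d m i + k)) = Φ m + 2 * n * k := by
        simp only [hΦ]
        rw [show (∑ i : Fin n, (c m i + k + (d m i + k))) =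
          ∑ i : Fin n, ((c m i + d m i) + 2 * k) from Finset.sum_congr rfl fun i _ => by ring]
        rw [Finset.sum_add_distrib, Finset.sum_const, Finset.card_univ, Fintype.card_fin,
          nsmul_eq_mul]
        ring
      rw [e, ← hsum]
    have h4 := (Finset.sum_eq_sum_iff_of_le (s := Finset.univ)
      (f := fun i : Fin n => c m i + k + (d m i + k)) (g := fun i : Fin n => c m' i + d m' i)
      (fun i _ => add_le_add (h1 i) (h2 i))).mp h3
    intro i
    have h5 := h4 i (Finset.mem_univ i)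
    have h6 := h1 i
    have h7 := h2 i
    constructor <;> omega
  have hfac : ∀ m m' : ℤ, ((Φ m : ℤ) : ZMod (2 * n)) = ((Φ m' : ℤ) : ZMod (2 * n)) →
      pat m = pat m' := by
    intro m m' h
    rw [ZMod.intCast_eq_intCast_iff_dvd_sub] at h
    obtain ⟨k, hk⟩ := h
    push_cast at hk
    have hk' : Φ m' = Φ m + 2 * n * k := by linarith
    ext i
    have h1 := hcd m i
    have h2 := hcd m' i
    rcases le_total ((m : ℝ) * α + k) (m' * α) with hle | hle
    · obtain ⟨h3, h4⟩ := key m m' k hle hk' i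
      rw [h3, h4] at h2
      omega
    · obtain ⟨h3, h4⟩ := key m' m (-k) (by push_cast; linarith) (by rw [hk']; ring) i
      rw [h3, h4] at h1
      omega
  have hfac' : Function.FactorsThrough pat (fun m => ((Φ m : ℤ) : ZMod (2 * n))) := by
    intro m m' h
    exact hfac m m' h
  have : NeZero (2 * n) := ⟨by omega⟩
  have : Nonempty (Fin n → Fin 2) := ⟨fun _ => 0⟩
  obtain ⟨g, hg⟩ := (Function.factorsThrough_iff pat).mp hfac'
  have hsub : Set.range pat ⊆ g '' Set.univ := by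
    rintro _ ⟨m, rfl⟩
    rw [hg]
    exact ⟨_, trivial, rfl⟩
  calc (Set.range pat).encard ≤ (g '' Set.univ).encard := Set.encard_le_encard hsub
    _ ≤ (Set.univ : Set (ZMod (2 * n))).encard := Set.encard_image_le _ _
    _ = 2 * (n : ℕ∞) := by
        rw [Set.encard_univ, ENat.card_eq_coe_fintype_card, ZMod.card]
        push_cast
        rfl

lemma dense {α : ℝ} (hpos : ∀ δ : ℝ, 0 < δ → ∃ Q P : ℤ, 0 < Q ∧ 0 < Q * α - P ∧ Q * α - P < δ)
    (c : ℝ) {η : ℝ} (hη : 0 < η) : ∃ m l : ℤ, c < m * α - l ∧ m * α - l < c + η := by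
  obtain ⟨Q, P, -, h1, h2⟩ := hpos η hη
  set e := (Q : ℝ) * α - P with he
  refine ⟨(⌊c / e⌋ + 1) * Q, (⌊c / e⌋ + 1) * P, ?_, ?_⟩
  · have h3 := Int.lt_floor_add_one (c / e)
    rw [div_lt_iff₀ h1] at h3
    push_cast
    rw [he] at h3
    linarith
  · have h3 := Int.floor_le (c / e)
    rw [le_div_iff₀ h1] at h3
    push_cast
    have : ((⌊c / e⌋ : ℝ) + 1) * Q * α - (⌊c / e⌋ + 1) * P = ⌊c / e⌋ * e + e := by
      rw [he]; ring
    rw [this]
    linarith

lemma ceil_eq' {z : ℝ} {k l : ℤ} (h1 : (k : ℝ) - 1 < z - l) (h2 : z - l ≤ k) : ⌈z⌉ = k + l := by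
  rw [Int.ceil_eq_iff]
  push_cast
  constructor <;> linarith

/-- at least `2 n` patterns -/
theorem lower {α β θ : ℝ} (hβ0 : 0 < β) (hβ1 : β < 1) {x : ℤ → Fin 2}
    (hx : ∀ j : ℤ, ((x j : ℕ) : ℤ) = ⌈j * α + θ⌉ - ⌈j * α + θ - β⌉) {n : ℕ} (hn : 1 ≤ n)
    (hpos : ∀ δ : ℝ, 0 < δ → ∃ Q P : ℤ, 0 < Q ∧ 0 < Q * α - P ∧ Q * α - P < δ) :
    ∃ τ : Fin n → ℤ, StrictMono τ ∧ (∀ h : 0 < n, τ ⟨0, h⟩ = 0) ∧
      2 * (n : ℕ∞) ≤ (Set.range fun m : ℤ => fun i : Fin n => x (m + τ i)).encard := by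
  have hn0 : (0 : ℝ) < n := by exact_mod_cast hn
  obtain ⟨Q, P, hQ, h1, h2⟩ := hpos (min β (1 - β) / n)
    (div_pos (lt_min hβ0 (by linarith)) hn0)
  set η := (Q : ℝ) * α - P with hη
  rw [lt_div_iff₀ hn0] at h2
  have hb1 : n * η < β := by
    have := min_le_left β (1 - β)
    linarith
  have hb2 : n * η < 1 - β := by
    have := min_le_right β (1 - β)
    linarith
  refine ⟨fun i => (i : ℤ) * Q, ?_, ?_, ?_⟩
  · intro i j hij
    have : ((i : ℕ) : ℤ) < ((j : ℕ) : ℤ) := by exact_mod_cast hij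
    exact mul_lt_mul_of_pos_right this hQ
  · intro h
    simp
  -- values near the point gam
  have hval : ∀ (gam : ℝ) (k : Fin n), ∃ (m l : ℤ), ∀ i : Fin n,
      (i ≤ k → gam - n * η < ((m + (i : ℤ) * Q : ℤ) : ℝ) * α + θ - (l + (i : ℤ) * P : ℤ) ∧
        ((m + (i : ℤ) * Q : ℤ) : ℝ) * α + θ - (l + (i : ℤ) * P : ℤ) < gam) ∧
      (k < i → gam < ((m + (i : ℤ) * Q : ℤ) : ℝ) * α + θ - (l + (i : ℤ) * P : ℤ) ∧
        ((m + (i : ℤ) * Q : ℤ) : ℝ) * α + θ - (l + (i : ℤ) * P : ℤ) < gam + n * η) := by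
    intro gam k
    obtain ⟨m, l, h3, h4⟩ := dense hpos (gam - (((k : ℕ) : ℝ) + 1) * η - θ) h1
    refine ⟨m, l, fun i => ?_⟩
    have e : ((m + (i : ℤ) * Q : ℤ) : ℝ) * α + θ - (l + (i : ℤ) * P : ℤ) =
        (m * α - l) + θ + ((i : ℕ) : ℝ) * η := by
      rw [hη]; push_cast; ring
    rw [e]
    have hi : ((i : ℕ) : ℝ) + 1 ≤ n := by exact_mod_cast i.2
    have hk : ((k : ℕ) : ℝ) + 1 ≤ n := by exact_mod_cast k.2
    have hi0 : (0 : ℝ) ≤ ((i : ℕ) : ℝ) := by positivity
    have hk0 : (0 : ℝ) ≤ ((k : ℕ) : ℝ) := by positivity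
    constructor
    · intro hik
      have hik' : ((i : ℕ) : ℝ) ≤ ((k : ℕ) : ℝ) := by exact_mod_cast hik
      constructor
      · nlinarith
      · nlinarith
    · intro hik
      have hik' : ((k : ℕ) : ℝ) + 1 ≤ ((i : ℕ) : ℝ) := by exact_mod_cast hik
      constructor
      · nlinarith
      · nlinarith
  set g : Fin 2 × Fin n → (Fin n → Fin 2) := fun ck i => if i ≤ ck.2 then ck.1 else 1 - ck.1
    with hg
  have hginj : Function.Injective g := by
    rintro ⟨c, k⟩ ⟨c', k'⟩ h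
    have h0 := congrFun h ⟨0, hn⟩
    simp only [hg] at h0
    rw [if_pos (by rw [Fin.le_def]; simp), if_pos (by rw [Fin.le_def]; simp)] at h0
    subst h0
    have hk : k = k' := by
      rcases lt_trichotomy k k' with hlt | heq | hlt
      · have h3 := congrFun h k'
        simp only [hg] at h3
        rw [if_neg (not_le.mpr hlt), if_pos le_rfl] at h3
        fin_cases c <;> simp at h3
      · exact heq
      · have h3 := congrFun h k
        simp only [hg] at h3
        rw [if_pos le_rfl, if_neg (not_le.mpr hlt)] at h3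
        fin_cases c <;> simp at h3
    rw [hk]
  have hsub : Set.range g ⊆ Set.range fun m : ℤ => fun i : Fin n => x (m + (i : ℤ) * Q) := by
    rintro _ ⟨⟨c, k⟩, rfl⟩
    rcases (show c = 0 ∨ c = 1 by fin_cases c <;> simp) with rfl | rfl
    · obtain ⟨m, l, hm⟩ := hval 0 k
      refine ⟨m, ?_⟩
      ext i
      simp only [hg]
      obtain ⟨h3, h4⟩ := hm i
      have h5 := hx (m + (i : ℤ) * Q)
      split_ifs with hik
      · obtain ⟨h6, h7⟩ := h3 hik
        rw [ceil_eq' (k := 0) (l := l + (i : ℤ) * P) (by push_cast at *; linarith)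
          (by push_cast at *; linarith),
          ceil_eq' (k := 0) (l := l + (i : ℤ) * P) (by push_cast at *; linarith)
          (by push_cast at *; linarith)] at h5
        simp only [sub_self] at h5
        simp only [Fin.val_zero]
        exact_mod_cast h5
      · obtain ⟨h6, h7⟩ := h4 (not_le.mp hik)
        rw [ceil_eq' (k := 1) (l := l + (i : ℤ) * P) (by push_cast at *; linarith)
          (by push_cast at *; linarith),
          ceil_eq' (k := 0) (l := l + (i : ℤ) * P) (by push_cast at *; linarith)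
          (by push_cast at *; linarith)] at h5
        simp only [sub_zero, Fin.val_one]
        have : (((x (m + (i : ℤ) * Q) : Fin 2) : ℕ) : ℤ) = 1 := by rw [h5]; ring
        exact_mod_cast this
    · obtain ⟨m, l, hm⟩ := hval β k
      refine ⟨m, ?_⟩
      ext i
      simp only [hg]
      obtain ⟨h3, h4⟩ := hm i
      have h5 := hx (m + (i : ℤ) * Q)
      split_ifs with hik
      · obtain ⟨h6, h7⟩ := h3 hik
        rw [ceil_eq' (k := 1) (l := l + (i : ℤ) * P) (by push_cast at *; linarith)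
          (by push_cast at *; linarith),
          ceil_eq' (k := 0) (l := l + (i : ℤ) * P) (by push_cast at *; linarith)
          (by push_cast at *; linarith)] at h5
        simp only [Fin.val_one]
        have : (((x (m + (i : ℤ) * Q) : Fin 2) : ℕ) : ℤ) = 1 := by rw [h5]; ring
        exact_mod_cast this
      · obtain ⟨h6, h7⟩ := h4 (not_le.mp hik)
        rw [ceil_eq' (k := 1) (l := l + (i : ℤ) * P) (by push_cast at *; linarith)
          (by push_cast at *; linarith),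
          ceil_eq' (k := 1) (l := l + (i : ℤ) * P) (by push_cast at *; linarith)
          (by push_cast at *; linarith)] at h5
        simp only [sub_self, Fin.val_zero]
        have : (((x (m + (i : ℤ) * Q) : Fin 2) : ℕ) : ℤ) = 0 := by rw [h5]; ring
        exact_mod_cast this
  refine le_trans ?_ (Set.encard_le_encard hsub)
  refine le_trans ?_ hginj.encard_range
  rw [ENat.card_eq_coe_fintype_card, Fintype.card_prod, Fintype.card_fin,
    Fintype.card_fin]
  push_cast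
  exact le_rfl

lemma exists_min (f : ℕ → ℝ) (hf : ∀ i, 0 < f i) (n : ℕ) : ∃ δ : ℝ, 0 < δ ∧ ∀ i < n, δ ≤ f i := by
  induction n with
  | zero => exact ⟨1, one_pos, fun i hi => absurd hi (Nat.not_lt_zero i)⟩
  | succ n ih =>
    obtain ⟨δ, h1, h2⟩ := ih
    refine ⟨min δ (f n), lt_min h1 (hf n), fun i hi => ?_⟩
    rcases Nat.lt_succ_iff_lt_or_eq.mp hi with h | h
    · exact (min_le_left _ _).trans (h2 i h)
    · rw [h]; exact min_le_right _ _

theorem recur {α β θ : ℝ} {x : ℤ → Fin 2}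
    (hx : ∀ j : ℤ, ((x j : ℕ) : ℤ) = ⌈j * α + θ⌉ - ⌈j * α + θ - β⌉) (a : ℤ) (n : ℕ) :
    ∃ δ : ℝ, 0 < δ ∧ ∀ Q P : ℤ, -δ < Q * α - P → Q * α - P < 0 →
      ∀ i : ℕ, i < n → x (a + Q + i) = x (a + i) := by
  obtain ⟨δ1, h1, h2⟩ := exists_min
    (fun i => ((a + i : ℤ) : ℝ) * α + θ - ⌈((a + i : ℤ) : ℝ) * α + θ⌉ + 1)
    (fun i => by linarith [Int.ceil_lt_add_one (((a + i : ℤ) : ℝ) * α + θ)]) n
  obtain ⟨δ2, h3, h4⟩ := exists_min
    (fun i => ((a + i : ℤ) : ℝ) * α + θ - β - ⌈((a + i : ℤ) : ℝ) * α + θ - β⌉ + 1)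
    (fun i => by linarith [Int.ceil_lt_add_one (((a + i : ℤ) : ℝ) * α + θ - β)]) n
  refine ⟨min δ1 δ2, lt_min h1 h3, fun Q P hQ1 hQ2 i hi => ?_⟩
  have h5 := h2 i hi
  have h6 := h4 i hi
  have h7 := min_le_left δ1 δ2
  have h8 := min_le_right δ1 δ2
  have h9 := Int.le_ceil (((a + i : ℤ) : ℝ) * α + θ)
  have h10 := Int.le_ceil (((a + i : ℤ) : ℝ) * α + θ - β)
  have e1 : ⌈((a + Q + i : ℤ) : ℝ) * α + θ⌉ = ⌈((a + i : ℤ) : ℝ) * α + θ⌉ + P := by
    apply ceil_eq'
    · push_cast at *; linarith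
    · push_cast at *; linarith
  have e2 : ⌈((a + Q + i : ℤ) : ℝ) * α + θ - β⌉ = ⌈((a + i : ℤ) : ℝ) * α + θ - β⌉ + P := by
    apply ceil_eq'
    · push_cast at *; linarith
    · push_cast at *; linarith
  have h11 := hx (a + Q + i)
  have h12 := hx (a + i)
  rw [e1, e2] at h11
  have h13 : (((x (a + Q + i) : Fin 2) : ℕ) : ℤ) = (((x (a + i) : Fin 2) : ℕ) : ℤ) := by
    rw [h11, h12]; ring
  ext
  exact_mod_cast h13

end Pool.Agent.Helper434.PSPattern
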