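import Mathlib
import Pool.Agent.Helper434.PCSpec
import Pool.Agent.Helper434.PSPattern

set_option autoImplicit false

namespace Pool.Agent.Helper434.PCRotIf

open Pool.Agent.Helper434.PCDefs Pool.Agent.Helper434.PCCore Pool.Agent.Helper434.PCSpec

variable {y : ℤ → Bool} {α β θ : ℝ}

/-- numerical letters -/
def z (y : ℤ → Bool) (j : ℤ) : Fin 2 := if y j then 1 else 0

lemma z_inj {a b : ℤ} {y' : ℤ → Bool} (h : z y a = z y' b) : y a = y' b := by
  unfold z at h
  cases h1 : y a <;> cases h2 : y' b <;> simp_all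

lemma z_code (hy : ∀ n : ℤ, y n = true ↔ Int.fract (n * α + θ) < β) (hβ0 : 0 < β) (hβ1 : β < 1)
    (j : ℤ) : ((z y j : ℕ) : ℤ) = ⌈j * (-α) + (β - θ)⌉ - ⌈j * (-α) + (β - θ) - β⌉ := by
  have f0 := Int.fract_nonneg ((j : ℝ) * α + θ)
  have f1 := Int.fract_lt_one ((j : ℝ) * α + θ)
  have f2 : Int.fract ((j : ℝ) * α + θ) = j * α + θ - ⌊(j : ℝ) * α + θ⌋ := rfl
  set k := ⌊(j : ℝ) * α + θ⌋ with hk
  have e2 : ⌈(j : ℝ) * (-α) + (β - θ) - β⌉ = -k := by
    rw [Int.ceil_eq_iff]
    push_cast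
    constructor <;> linarith
  by_cases h : y j = true
  · have h1 := (hy j).mp h
    have e1 : ⌈(j : ℝ) * (-α) + (β - θ)⌉ = -k + 1 := by
      rw [Int.ceil_eq_iff]
      push_cast
      constructor <;> linarith
    rw [e1, e2]
    unfold z
    rw [if_pos h]
    simp
  · have h1 : ¬ Int.fract ((j : ℝ) * α + θ) < β := fun h2 => h ((hy j).mpr h2)
    have e1 : ⌈(j : ℝ) * (-α) + (β - θ)⌉ = -k := by
      rw [Int.ceil_eq_iff]
      push_cast
      constructor <;> linarith
    rw [e1, e2]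
    unfold z
    rw [if_neg h]
    simp

lemma bdd_of_encard (h : ∀ n : ℕ, 1 ≤ n → ∀ τ : Fin n → ℤ,
    (Set.range fun m : ℤ => fun i : Fin n => z y (m + τ i)).encard ≤ 2 * (n : ℕ∞)) : Bdd y := by
  intro F T hF hT
  have h1 := h F.card (Finset.card_pos.mpr hF) (fun i => (F.equivFin.symm i : ℤ))
  have hinj : Set.InjOn (fun m : ℤ => fun i : Fin F.card =>
      z y (m + (F.equivFin.symm i : ℤ))) (T : Set ℤ) := by
    intro m hm m' hm' hEq
    apply hT m hm m' hm'
    intro v hv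
    have h1 := congrFun hEq (F.equivFin ⟨v, hv⟩)
    simp only [Equiv.symm_apply_apply] at h1
    exact z_inj h1
  have h2 : ((T : Set ℤ)).encard ≤ (Set.range fun m : ℤ => fun i : Fin F.card =>
      z y (m + (F.equivFin.symm i : ℤ))).encard := by
    rw [← hinj.encard_image]
    apply Set.encard_le_encard
    rintro _ ⟨m, -, rfl⟩
    exact ⟨m, rfl⟩
  have h3 := h2.trans h1
  rw [Set.encard_coe_eq_coe_finsetCard] at h3
  exact_mod_cast h3

theorem bdd (hy : ∀ n : ℤ, y n = true ↔ Int.fract (n * α + θ) < β) (hβ0 : 0 < β) (hβ1 : β < 1) :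
    Bdd y :=
  bdd_of_encard fun _ hn τ => Pool.Agent.Helper434.PSPattern.upper (z_code hy hβ0 hβ1) hn τ

/-- many values give many arguments -/
lemma exists_finset {A B : Type*} [Nonempty A] (f : A → B) {k : ℕ} (h : (k : ℕ∞) ≤ (Set.range f).encard) :
    ∃ T : Finset A, T.card = k ∧ ∀ a ∈ T, ∀ b ∈ T, f a = f b → a = b := by
  classical
  obtain ⟨S, hS, hSc⟩ := Set.exists_subset_encard_eq h
  have hfin : S.Finite := Set.finite_of_encard_eq_coe hSc
  choose! g hg using fun (b : B) (hb : b ∈ S) => hS hb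
  refine ⟨hfin.toFinset.image g, ?_, ?_⟩
  · rw [Finset.card_image_of_injOn]
    · rw [hfin.encard_eq_coe_toFinset_card] at hSc
      exact_mod_cast hSc
    · intro a ha b hb hab
      have ha' : a ∈ S := by simpa using ha
      have hb' : b ∈ S := by simpa using hb
      rw [← hg a ha', ← hg b hb', hab]
  · intro a ha b hb hab
    obtain ⟨a', ha', rfl⟩ := Finset.mem_image.mp ha
    obtain ⟨b', hb', rfl⟩ := Finset.mem_image.mp hb
    have ha'' : a' ∈ S := by simpa using ha'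
    have hb'' : b' ∈ S := by simpa using hb'
    rw [hg a' ha'', hg b' hb''] at hab
    rw [hab]

theorem full (hy : ∀ n : ℤ, y n = true ↔ Int.fract (n * α + θ) < β) (hα : Irrational α)
    (hβ0 : 0 < β) (hβ1 : β < 1) (n : ℕ) : ∃ V T : Finset ℤ, V.card = n + 1 ∧ (0 : ℤ) ∈ V ∧
    (∀ v ∈ V, 0 ≤ v) ∧ Indep y V T ∧ T.card = 2 * (n + 1) := by
  classical
  obtain ⟨τ, h1, h2, h3⟩ := Pool.Agent.Helper434.PSPattern.lower hβ0 hβ1
    (z_code hy hβ0 hβ1) (n := n + 1) (by omega) (fun δ hδ => by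
      obtain ⟨k, l, hk, h1, h2⟩ := small hα.neg hδ
      exact ⟨k, l, by exact_mod_cast hk, by exact_mod_cast h1, by exact_mod_cast h2⟩)
  obtain ⟨T, hT1, hT2⟩ := exists_finset
    (fun m : ℤ => fun i : Fin (n + 1) => z y (m + τ i)) (k := 2 * (n + 1)) (by
      push_cast at h3 ⊢; exact h3)
  refine ⟨Finset.univ.image τ, T, ?_, ?_, ?_, ?_, hT1⟩
  · rw [Finset.card_image_of_injective _ h1.injective, Finset.card_univ, Fintype.card_fin]
  · exact Finset.mem_image.mpr ⟨0, Finset.mem_univ _, h2 (by omega)⟩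
  · intro v hv
    obtain ⟨i, -, rfl⟩ := Finset.mem_image.mp hv
    have h4 := h2 (by omega)
    rw [← h4]
    exact h1.monotone (Fin.zero_le i)
  · intro m hm m' hm' hE
    apply hT2 m hm m' hm'
    ext i
    have := hE (τ i) (Finset.mem_image_of_mem _ (Finset.mem_univ _))
    unfold z
    rw [this]

theorem recR (hy : ∀ n : ℤ, y n = true ↔ Int.fract (n * α + θ) < β) (hα : Irrational α)
    (hβ0 : 0 < β) (hβ1 : β < 1) : RecR y := by
  intro F m N
  obtain ⟨C, hC⟩ : ∃ C : ℕ, ∀ v ∈ F, |v| ≤ C := by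
    refine ⟨F.sup fun v => v.natAbs, fun v hv => ?_⟩
    have := Finset.le_sup (f := fun v : ℤ => v.natAbs) hv
    rw [Int.abs_eq_natAbs]
    exact_mod_cast this
  obtain ⟨δ, hδ, hrec⟩ := Pool.Agent.Helper434.PSPattern.recur (z_code hy hβ0 hβ1) (m - C) (2 * C + 1)
  set D : ℕ := (|N| + |m|).toNat + 1 with hD
  have hDr : (0 : ℝ) < D := by positivity
  obtain ⟨k, l, hk, h1, h2⟩ := small hα (ε := δ / D) (by positivity)
  rw [lt_div_iff₀ hDr] at h2
  refine ⟨m + D * k, ?_, fun i hi => ?_⟩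
  · have h3 : (D : ℤ) ≤ D * k := by
      have : (1 : ℤ) ≤ k := by exact_mod_cast hk
      nlinarith
    have h4 := neg_abs_le m
    have h5 := le_abs_self N
    have h6 : (|N| + |m|).toNat = |N| + |m| := Int.toNat_of_nonneg (by positivity)
    have h7 : (D : ℤ) = (|N| + |m|).toNat + 1 := by rw [hD]; push_cast; rfl
    omega
  · have h3 := hC i hi
    have h4 := abs_le.mp h3
    have h5 := hrec (D * k) (-(D * l)) (by push_cast; nlinarith) (by push_cast; nlinarith)
      (i + C).toNat (by omega)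
    have h6 : ((i + C).toNat : ℤ) = i + C := Int.toNat_of_nonneg (by omega)
    rw [h6] at h5
    have h7 := z_inj h5
    rw [show m - (C : ℤ) + D * k + (i + C) = m + D * k + i by ring,
      show m - (C : ℤ) + (i + C) = m + i by ring] at h7
    exact h7

end Pool.Agent.Helper434.PCRotIf
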