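import Mathlib
import Pool.Agent.Helper434.PCDefs
import Pool.Agent.Helper434.PCCore
import Pool.Agent.Helper434.PSPattern

set_option autoImplicit false

namespace Pool.Agent.Helper434.PCToep

open Pool.Agent.Helper434.PCDefs Pool.Agent.Helper434.PCCore

/-- Toeplitz data -/
structure TD (x : ℤ → Bool) (N : ℕ → ℤ) (r : ℕ → ℤ) (c : ℕ → Bool) (u a : ℤ) : Prop where
  one : 1 ≤ N 0
  dvd : ∀ k, N k ∣ N (k + 1)
  lt : ∀ k, N k < N (k + 1)
  nest : ∀ k, N k ∣ r (k + 1) - r k
  ct : ∀ K, ∃ k, K ≤ k ∧ c k = true
  cf : ∀ K, ∃ k, K ≤ k ∧ c k = false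
  cop : IsCoprime u (N 0)
  a0 : 0 ≤ a
  aN : a < N 0
  arc : ∀ n, ¬ N 0 ∣ n - r 0 → (x n = true ↔ ∃ i, 1 ≤ i ∧ i ≤ a ∧ N 0 ∣ n - (r 0 + u * i))
  col : ∀ k n, N k ∣ n - r k → ¬ N (k + 1) ∣ n - r (k + 1) → x n = c k

variable {x : ℤ → Bool} {N : ℕ → ℤ} {r : ℕ → ℤ} {c : ℕ → Bool} {u a : ℤ}

/-- the classes containing the hole -/
def hole (N r : ℕ → ℤ) (k : ℕ) (n : ℤ) : Prop := N k ∣ n - r k

lemma Npos (h : TD x N r c u a) (k : ℕ) : (k : ℤ) < N k := by
  induction k with
  | zero => have := h.one; push_cast; omega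
  | succ k ih => have := h.lt k; push_cast; omega

lemma Ndvd (h : TD x N r c u a) {j k : ℕ} (hjk : j ≤ k) : N j ∣ N k := by
  induction k, hjk using Nat.le_induction with
  | base => exact dvd_rfl
  | succ k _ ih => exact ih.trans (h.dvd k)

lemma rdvd (h : TD x N r c u a) {j k : ℕ} (hjk : j ≤ k) : N j ∣ r k - r j := by
  induction k, hjk using Nat.le_induction with
  | base => simp
  | succ k hk ih =>
    have h1 := (Ndvd h hk).trans (h.nest k)
    have := dvd_add h1 ih
    rwa [show r (k + 1) - r k + (r k - r j) = r (k + 1) - r j by ring] at this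

lemma hole_mono (h : TD x N r c u a) {j k : ℕ} (hjk : j ≤ k) {n : ℤ} (hn : hole N r k n) :
    hole N r j n := by
  have h1 := (Ndvd h hjk).trans hn
  have := dvd_add h1 (rdvd h hjk)
  rwa [show n - r k + (r k - r j) = n - r j by ring] at this

lemma hole_congr {k : ℕ} {n n' : ℤ} (hd : N k ∣ n - n') : hole N r k n ↔ hole N r k n' := by
  unfold hole
  constructor
  · intro h1
    have := dvd_sub h1 hd
    rwa [show n - r k - (n - n') = n' - r k by ring] at this
  · intro h1
    have := dvd_add h1 hd
    rwa [show n' - r k + (n - n') = n - r k by ring] at this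

/-- outside the hole the letter is determined by the class -/
lemma det (h : TD x N r c u a) {k : ℕ} : ∀ {n n' : ℤ}, N k ∣ n - n' → ¬ hole N r k n →
    x n = x n' := by
  induction k with
  | zero =>
    intro n n' hd hn
    have hn' : ¬ hole N r 0 n' := fun h' => hn ((hole_congr hd).mpr h')
    have h1 := h.arc n hn
    have h2 := h.arc n' hn'
    have h3 : (∃ i, 1 ≤ i ∧ i ≤ a ∧ N 0 ∣ n - (r 0 + u * i)) ↔
        ∃ i, 1 ≤ i ∧ i ≤ a ∧ N 0 ∣ n' - (r 0 + u * i) := by
      constructor
      · rintro ⟨i, p, q, s⟩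
        refine ⟨i, p, q, ?_⟩
        have := dvd_sub s hd
        rwa [show n - (r 0 + u * i) - (n - n') = n' - (r 0 + u * i) by ring] at this
      · rintro ⟨i, p, q, s⟩
        refine ⟨i, p, q, ?_⟩
        have := dvd_add s hd
        rwa [show n' - (r 0 + u * i) + (n - n') = n - (r 0 + u * i) by ring] at this
    have h4 : x n = true ↔ x n' = true := h1.trans (h3.trans h2.symm)
    cases h5 : x n <;> cases h6 : x n' <;> simp_all
  | succ k ih =>
    intro n n' hd hn
    have hn' : ¬ hole N r (k + 1) n' := fun h' => hn ((hole_congr hd).mpr h')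
    have hdk : N k ∣ n - n' := (h.dvd k).trans hd
    by_cases h1 : hole N r k n
    · have h2 : hole N r k n' := (hole_congr hdk).mp h1
      rw [h.col k n h1 hn, h.col k n' h2 hn']
    · exact ih hdk h1

/-- adding one place to a window -/
lemma add_one {F : Finset ℤ} {w : ℤ} (hF : ∀ T, Indep x F T → T.card ≤ 2 * F.card)
    (hw : w ∉ F) (g g' : ℤ → Bool)
    (hsp : ∀ m m', Eqv x F m m' → x (m + w) ≠ x (m' + w) →
      (∀ v ∈ F, x (m + v) = g v) ∨ ∀ v ∈ F, x (m + v) = g' v) :
    ∀ T, Indep x (insert w F) T → T.card ≤ 2 * (insert w F).card := by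
  classical
  intro T hT
  set A := T.filter fun m => x (m + w) = true ∧ ∀ v ∈ F, x (m + v) = g v with hA
  set B := T.filter fun m => x (m + w) = true ∧ ∀ v ∈ F, x (m + v) = g' v with hB
  have hsmall : ∀ k : ℤ → Bool,
      (T.filter fun m => x (m + w) = true ∧ ∀ v ∈ F, x (m + v) = k v).card ≤ 1 := by
    intro k
    rw [Finset.card_le_one]
    intro m hm m' hm'
    obtain ⟨h1, h2, h3⟩ := Finset.mem_filter.mp hm
    obtain ⟨h1', h2', h3'⟩ := Finset.mem_filter.mp hm'
    apply hT m h1 m' h1'
    intro i hi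
    rcases Finset.mem_insert.mp hi with rfl | hi'
    · rw [h2, h2']
    · rw [h3 i hi', h3' i hi']
  have hT' : Indep x F (T \ (A ∪ B)) := by
    intro m hm m' hm' hE
    obtain ⟨h1, h2⟩ := Finset.mem_sdiff.mp hm
    obtain ⟨h1', h2'⟩ := Finset.mem_sdiff.mp hm'
    by_contra hne
    have h3 : x (m + w) ≠ x (m' + w) := by
      intro h3
      apply hne
      apply hT m h1 m' h1'
      intro i hi
      rcases Finset.mem_insert.mp hi with rfl | hi'
      · exact h3
      · exact hE i hi'
    have h4 := hsp m m' hE h3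
    have h4' : (∀ v ∈ F, x (m' + v) = g v) ∨ ∀ v ∈ F, x (m' + v) = g' v := by
      rcases h4 with h4 | h4
      · left; intro v hv; rw [← hE v hv]; exact h4 v hv
      · right; intro v hv; rw [← hE v hv]; exact h4 v hv
    have h5 : x (m + w) = true ∨ x (m' + w) = true := by
      cases h6 : x (m + w) <;> cases h7 : x (m' + w) <;> simp_all
    rcases h5 with h5 | h5
    · apply h2
      rw [Finset.mem_union]
      rcases h4 with h4 | h4
      · left; exact Finset.mem_filter.mpr ⟨h1, h5, h4⟩
      · right; exact Finset.mem_filter.mpr ⟨h1, h5, h4⟩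
    · apply h2'
      rw [Finset.mem_union]
      rcases h4' with h4 | h4
      · left; exact Finset.mem_filter.mpr ⟨h1', h5, h4⟩
      · right; exact Finset.mem_filter.mpr ⟨h1', h5, h4⟩
  have h1 := hF _ hT'
  have h2 : T.card ≤ (T \ (A ∪ B)).card + (A ∪ B).card := by
    rw [Finset.card_sdiff_add_card]
    exact Finset.card_le_card Finset.subset_union_left
  have h3 : (A ∪ B).card ≤ 2 := (Finset.card_union_le _ _).trans (by
    have h4 : A.card ≤ 1 := hsmall g
    have h5 : B.card ≤ 1 := hsmall g'
    omega)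
  rw [Finset.card_insert_of_notMem hw]
  omega

/-- a coordinate with a companion in the same class modulo `N 0` splits at most two patterns -/
lemma split_two (h : TD x N r c u a) {F : Finset ℤ} {w v₀ : ℤ} (hw : w ∉ F) (hv₀ : v₀ ∈ F)
    (hd : N 0 ∣ w - v₀) : ∃ g g' : ℤ → Bool, ∀ m m', Eqv x F m m' → x (m + w) ≠ x (m' + w) →
      (∀ v ∈ F, x (m + v) = g v) ∨ ∀ v ∈ F, x (m + v) = g' v := by
  classical
  -- the closest level
  have hex : ∃ k, ∀ v ∈ F, ¬ N k ∣ w - v := by
    obtain ⟨b, hb⟩ : ∃ b : ℕ, ∀ v ∈ F, |w - v| ≤ b := by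
      refine ⟨F.sup fun v => (w - v).natAbs, fun v hv => ?_⟩
      have := Finset.le_sup (f := fun v => (w - v).natAbs) hv
      rw [Int.abs_eq_natAbs]
      exact_mod_cast this
    refine ⟨b, fun v hv hdv => ?_⟩
    have h1 := Npos h b
    have h2 := Int.eq_zero_of_abs_lt_dvd hdv (lt_of_le_of_lt (hb v hv) h1)
    apply hw
    rw [show w = v by omega]; exact hv
  obtain ⟨l, hl1, hl2⟩ : ∃ l, (∃ v ∈ F, N l ∣ w - v) ∧ ∀ v ∈ F, ¬ N (l + 1) ∣ w - v := by
    have h1 := Nat.find_spec hex
    have h2 : Nat.find hex ≠ 0 := by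
      intro h3
      rw [h3] at h1
      exact h1 v₀ hv₀ hd
    obtain ⟨l, hl⟩ := Nat.exists_eq_succ_of_ne_zero h2
    refine ⟨l, ?_, ?_⟩
    · by_contra hcon
      push Not at hcon
      have := Nat.find_min' hex hcon
      omega
    · rw [hl] at h1; exact h1
  obtain ⟨v₁, hv₁, hd₁⟩ := hl1
  -- the two patterns
  have key1 : ∀ m, hole N r (l + 1) (m + w) → ∀ v ∈ F, x (m + v) = x (r (l + 1) - w + v) := by
    intro m hm v hv
    apply det h (k := l + 1)
    · rw [show m + v - (r (l + 1) - w + v) = m + w - r (l + 1) by ring]; exact hm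
    · intro h1
      apply hl2 v hv
      have := dvd_sub hm h1
      rwa [show m + w - r (l + 1) - (m + v - r (l + 1)) = w - v by ring] at this
  have key2 : ∀ m m', Eqv x F m m' → x (m + w) ≠ x (m' + w) → ¬ hole N r (l + 1) (m + w) →
      ¬ hole N r (l + 1) (m' + w) → x (m + w) ≠ x (m + v₁) →
      ∀ v ∈ F, x (m + v) = if N l ∣ v - w then !(c l) else x (r l - w + v) := by
    intro m m' hE hne h1 h1' h2 v hv
    have e1 : N l ∣ (m + w) - (m + v₁) := by
      rw [show (m + w) - (m + v₁) = w - v₁ by ring]; exact hd₁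
    have e2 : hole N r l (m + w) := by
      by_contra hcon
      exact h2 (det h e1 hcon)
    have e3 : x (m + w) = c l := h.col l _ e2 h1
    have bne : ∀ p q : Bool, p ≠ q → p = !q := by decide
    have e4 : x (m' + w) = !(c l) := by rw [← e3]; exact bne _ _ hne.symm
    have e5 : ¬ hole N r l (m' + w) := by
      intro h3
      rw [h.col l _ h3 h1'] at e4
      cases c l <;> simp at e4
    split_ifs with h3
    · rw [hE v hv]
      rw [← e4]
      symm
      apply det h (k := l) _ e5
      rw [show m' + w - (m' + v) = -(v - w) by ring]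
      exact (dvd_neg).mpr h3
    · apply det h (k := l)
      · rw [show m + v - (r l - w + v) = m + w - r l by ring]; exact e2
      · intro h4
        apply h3
        have := dvd_sub h4 e2
        rwa [show m + v - r l - (m + w - r l) = v - w by ring] at this
  refine ⟨fun v => x (r (l + 1) - w + v),
    fun v => if N l ∣ v - w then !(c l) else x (r l - w + v), fun m m' hE hne => ?_⟩
  by_cases h1 : hole N r (l + 1) (m + w)
  · left; exact key1 m h1
  by_cases h1' : hole N r (l + 1) (m' + w)
  · left
    intro v hv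
    rw [hE v hv]
    exact key1 m' h1' v hv
  right
  by_cases h2 : x (m + w) = x (m + v₁)
  · have h3 : x (m' + w) ≠ x (m' + v₁) := by
      intro h3
      apply hne
      rw [h2, h3]
      exact hE v₁ hv₁
    intro v hv
    rw [hE v hv]
    exact key2 m' m (eqv_symm hE) hne.symm h1' h1 h3 v hv
  · exact key2 m m' hE hne h1 h1' h2

/-- windows with distinct residues modulo `N 0` -/
lemma base (h : TD x N r c u a) {F : Finset ℤ} (hF : F.Nonempty)
    (hd : ∀ v ∈ F, ∀ w ∈ F, N 0 ∣ w - v → v = w) :
    ∀ T, Indep x F T → T.card ≤ 2 * F.card := by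
  classical
  intro T hT
  obtain ⟨u', e, hu'⟩ := h.cop
  have hN := h.one
  set M : ℤ := N 0 with hM
  -- coding of a rotation
  set z : ℤ → Fin 2 := fun j => if 1 ≤ j % (2 * M) ∧ j % (2 * M) ≤ 2 * a + 1 then 1 else 0
    with hz
  have haN := h.aN
  have ha0 := h.a0
  have hMr : (0 : ℝ) < 2 * M := by
    have : (0 : ℝ) < M := by exact_mod_cast hN
    linarith
  have hzc : ∀ j : ℤ, ((z j : ℕ) : ℤ) =
      ⌈j * (1 / (2 * M) : ℝ) + 0⌉ - ⌈j * (1 / (2 * M) : ℝ) + 0 - (2 * a + 1) / (2 * M)⌉ := by
    intro j
    have h1 := Int.emod_add_mul_ediv j (2 * M)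
    set q := j / (2 * M)
    set s := j % (2 * M)
    have hs0 : 0 ≤ s := Int.emod_nonneg _ (by omega)
    have hs1 : s < 2 * M := Int.emod_lt_of_pos _ (by omega)
    have hj : (j : ℝ) = s + 2 * M * q := by exact_mod_cast h1.symm
    have e1 : (j : ℝ) * (1 / (2 * M) : ℝ) + 0 = s / (2 * M) + q := by
      rw [hj]; field_simp; ring
    have e2 : (j : ℝ) * (1 / (2 * M) : ℝ) + 0 - (2 * a + 1) / (2 * M) =
        (s - (2 * a + 1)) / (2 * M) + q := by
      rw [e1]; ring
    rw [e2, e1, Int.ceil_add_intCast, Int.ceil_add_intCast]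
    have hs0' : (0 : ℝ) ≤ s := by exact_mod_cast hs0
    have hs1' : (s : ℝ) < 2 * M := by exact_mod_cast hs1
    have haN' : (a : ℝ) + 1 ≤ M := by exact_mod_cast haN
    have ha0' : (0 : ℝ) ≤ a := by exact_mod_cast ha0
    by_cases hc1 : 1 ≤ s
    · have hc1' : (1 : ℝ) ≤ s := by exact_mod_cast hc1
      have c1 : ⌈(s : ℝ) / (2 * M)⌉ = 1 := by
        rw [Int.ceil_eq_iff]; push_cast
        constructor
        · rw [sub_self]; positivity
        · rw [div_le_one hMr]; exact hs1'.le
      by_cases hc2 : s ≤ 2 * a + 1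
      · have hc2' : (s : ℝ) ≤ 2 * a + 1 := by exact_mod_cast hc2
        have c2 : ⌈((s : ℝ) - (2 * a + 1)) / (2 * M)⌉ = 0 := by
          rw [Int.ceil_eq_iff]; push_cast
          constructor
          · rw [zero_sub, lt_div_iff₀ hMr]; linarith
          · exact div_nonpos_of_nonpos_of_nonneg (by linarith) hMr.le
        rw [c1, c2]
        simp only [hz]
        rw [if_pos ⟨hc1, hc2⟩]
        simp
      · have hc2' : (2 * a + 1 : ℝ) < s := by exact_mod_cast not_le.mp hc2
        have c2 : ⌈((s : ℝ) - (2 * a + 1)) / (2 * M)⌉ = 1 := by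
          rw [Int.ceil_eq_iff]; push_cast
          constructor
          · rw [sub_self]; apply div_pos _ hMr; linarith
          · rw [div_le_one hMr]; linarith
        rw [c1, c2]
        simp only [hz]
        rw [if_neg (fun h => hc2 h.2)]
        simp
    · have hs : s = 0 := by omega
      have c1 : ⌈(s : ℝ) / (2 * M)⌉ = 0 := by rw [hs]; simp
      have c2 : ⌈((s : ℝ) - (2 * a + 1)) / (2 * M)⌉ = 0 := by
        rw [hs, Int.ceil_eq_iff]; push_cast
        constructor
        · rw [zero_sub, lt_div_iff₀ hMr]; linarith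
        · exact div_nonpos_of_nonpos_of_nonneg (by linarith) hMr.le
      rw [c1, c2]
      simp only [hz]
      rw [if_neg (fun h => hc1 h.1)]
      simp
  have hn : 1 ≤ F.card := Finset.card_pos.mpr hF
  have hup := Pool.Agent.Helper434.PSPattern.upper hzc hn (fun i => 2 * u' * (F.equivFin.symm i : ℤ))
  -- time of a position
  set b : ℤ → ℤ := fun m => if ∃ v ∈ F, M ∣ m + v - r 0 ∧ x (m + v) = true then 1 else 0 with hb
  set t : ℤ → ℤ := fun m => 2 * u' * (m - r 0) + b m with ht
  have hb01 : ∀ m, b m = 0 ∨ b m = 1 := by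
    intro m; simp only [hb]; split_ifs <;> simp
  have hcode : ∀ m, ∀ v ∈ F, z (t m + 2 * u' * v) = if x (m + v) then 1 else 0 := by
    intro m v hv
    have e1 : t m + 2 * u' * v = b m + 2 * (u' * (m + v - r 0)) := by simp only [ht]; ring
    set J := u' * (m + v - r 0) with hJ
    have h1 := Int.emod_add_mul_ediv J M
    set j := J % M
    set q := J / M
    have hj0 : 0 ≤ j := Int.emod_nonneg _ (by omega)
    have hj1 : j < M := Int.emod_lt_of_pos _ (by omega)
    have hbm := hb01 m
    have e2 : (t m + 2 * u' * v) % (2 * M) = 2 * j + b m := by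
      rw [e1, ← h1]
      rw [show b m + 2 * (j + M * q) = (2 * j + b m) + (2 * M) * q by ring,
        Int.add_mul_emod_self_left]
      apply Int.emod_eq_of_lt
      · rcases hbm with h | h <;> rw [h] <;> omega
      · rcases hbm with h | h <;> rw [h] <;> omega
    -- `n = m + v ≡ r 0 + u * j`
    have e3 : M ∣ m + v - (r 0 + u * j) := by
      have h3 : m + v - (r 0 + u * j) = M * (e * (m + v - r 0) + u * q) := by
        have h4 : J = j + M * q := h1.symm
        have h5 : u * J = u * u' * (m + v - r 0) := by rw [hJ]; ring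
        have h6 : u * u' = 1 - e * M := by linarith
        rw [h6] at h5
        rw [h4] at h5
        linear_combination -h5
      exact ⟨_, h3⟩
    simp only [hz]
    rw [e2]
    by_cases hj : j = 0
    · -- the hole
      have hole0 : M ∣ m + v - r 0 := by
        rw [hj, mul_zero, add_zero] at e3; exact e3
      have hbx : b m = if x (m + v) = true then 1 else 0 := by
        simp only [hb]
        by_cases hx : x (m + v) = true
        · rw [if_pos hx, if_pos ⟨v, hv, hole0, hx⟩]
        · rw [if_neg hx, if_neg]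
          rintro ⟨v', hv', h3, h4⟩
          have h5 : v = v' := hd v hv v' hv' (by
            have := dvd_sub h3 hole0
            rwa [show m + v' - r 0 - (m + v - r 0) = v' - v by ring] at this)
          rw [← h5] at h4
          exact hx h4
      rw [hj, hbx]
      by_cases hx : x (m + v) = true
      · rw [if_pos hx, if_pos (by constructor <;> omega), if_pos hx]
      · rw [if_neg hx, if_neg (by omega), if_neg hx]
    · have hnot : ¬ M ∣ m + v - r 0 := by
        intro h3
        have h4 : M ∣ u' * (m + v - r 0) := h3.mul_left _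
        have h5 : J % M = 0 := Int.emod_eq_zero_of_dvd h4
        exact hj h5
      have harc := h.arc (m + v) hnot
      have hiff : x (m + v) = true ↔ j ≤ a := by
        rw [harc]
        constructor
        · rintro ⟨i, hi1, hi2, hi3⟩
          have h3 : M ∣ u * (j - i) := by
            have := dvd_sub hi3 e3
            rwa [show m + v - (r 0 + u * i) - (m + v - (r 0 + u * j)) = u * (j - i) by ring] at this
          have h4 : M ∣ j - i := by
            have hcop' : IsCoprime (N 0) u := h.cop.symm
            exact hcop'.dvd_of_dvd_mul_left h3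
          have h5 := Int.eq_zero_of_abs_lt_dvd h4 (by rw [abs_lt]; constructor <;> linarith)
          omega
        · intro h3
          exact ⟨j, by omega, h3, e3⟩
      by_cases hx : x (m + v) = true
      · have := hiff.mp hx
        rw [if_pos (by rcases hbm with h | h <;> rw [h] <;> constructor <;> omega), if_pos hx]
      · have : ¬ j ≤ a := fun h3 => hx (hiff.mpr h3)
        rw [if_neg (by rcases hbm with h | h <;> rw [h] <;> omega), if_neg hx]
  -- injection
  have hinj : Set.InjOn (fun m : ℤ => fun i : Fin F.card =>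
      z (t m + 2 * u' * (F.equivFin.symm i : ℤ))) (T : Set ℤ) := by
    intro m hm m' hm' hEq
    apply hT m hm m' hm'
    intro v hv
    have h1 := congrFun hEq (F.equivFin ⟨v, hv⟩)
    simp only [Equiv.symm_apply_apply] at h1
    rw [hcode m v hv, hcode m' v hv] at h1
    cases h2 : x (m + v) <;> cases h3 : x (m' + v) <;> simp_all
  have h1 : ((T : Set ℤ)).encard ≤ (Set.range fun m : ℤ => fun i : Fin F.card =>
      z (m + 2 * u' * (F.equivFin.symm i : ℤ))).encard := by
    rw [← hinj.encard_image]
    apply Set.encard_le_encard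
    rintro _ ⟨m, -, rfl⟩
    exact ⟨t m, rfl⟩
  have h2 := h1.trans hup
  rw [Set.encard_coe_eq_coe_finsetCard] at h2
  exact_mod_cast h2

/-- the upper bound -/
theorem bdd (h : TD x N r c u a) : Bdd x := by
  classical
  have key : ∀ n : ℕ, ∀ F : Finset ℤ, F.card = n → F.Nonempty →
      ∀ T, Indep x F T → T.card ≤ 2 * F.card := by
    intro n
    induction n with
    | zero =>
      intro F hF hne
      rw [Finset.card_eq_zero] at hF
      exact absurd hF hne.ne_empty
    | succ n ih =>
      intro F hF hne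
      by_cases hd : ∀ v ∈ F, ∀ w ∈ F, N 0 ∣ w - v → v = w
      · exact base h hne hd
      · push Not at hd
        obtain ⟨v, hv, w, hw, hdv, hvw⟩ := hd
        have hv' : v ∈ F.erase w := Finset.mem_erase.mpr ⟨hvw, hv⟩
        obtain ⟨g, g', hg⟩ := split_two h (F := F.erase w) (w := w) (v₀ := v)
          (Finset.notMem_erase _ _) hv' hdv
        have h1 := add_one (x := x) (F := F.erase w) (w := w)
          (ih (F.erase w) (by rw [Finset.card_erase_of_mem hw, hF]; rfl) ⟨v, hv'⟩)
          (Finset.notMem_erase _ _) g g' hg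
        rw [Finset.insert_erase hw] at h1
        exact h1
  intro F T hF hT
  exact key F.card F rfl hF T hT

/-- arbitrarily deep positions with a given letter -/
lemma deep (h : TD x N r c u a) (K : ℕ) (b : Bool) (M : ℤ) : ∃ n j, M < n ∧ K ≤ j ∧
    hole N r j n ∧ ¬ hole N r (j + 1) n ∧ x n = b := by
  obtain ⟨j, hj, hcj⟩ : ∃ j, K ≤ j ∧ c j = b := by
    cases b
    · exact h.cf K
    · exact h.ct K
  have hNj := Npos h j
  have hNj1 := h.lt j
  set s : ℤ := |M| + |r (j + 1)| + 1
  have e1 : hole N r j (r (j + 1) + N j + s * N (j + 1)) := by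
    unfold hole
    have := dvd_add (dvd_add (h.nest j) (dvd_refl (N j))) ((h.dvd j).mul_left s)
    rwa [show r (j + 1) - r j + N j + s * N (j + 1) =
      r (j + 1) + N j + s * N (j + 1) - r j by ring] at this
  have e2 : ¬ hole N r (j + 1) (r (j + 1) + N j + s * N (j + 1)) := by
    intro h1
    unfold hole at h1
    rw [show r (j + 1) + N j + s * N (j + 1) - r (j + 1) = N j + s * N (j + 1) by ring] at h1
    have h2 := (Int.dvd_add_left (dvd_mul_left _ _)).mp h1
    have := Int.le_of_dvd (by omega) h2
    omega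
  refine ⟨r (j + 1) + N j + s * N (j + 1), j, ?_, hj, e1, e2, ?_⟩
  · have h1 : s ≤ s * N (j + 1) := by
      have : 0 ≤ s := by positivity
      nlinarith
    have h2 := neg_abs_le (r (j + 1))
    have h3 := le_abs_self M
    simp only [s] at h1 ⊢
    omega
  · rw [h.col j _ e1 e2, hcj]

/-- recurrence to the right -/
theorem recR (h : TD x N r c u a) : RecR x := by
  classical
  intro F m M
  by_cases hex : ∃ K, ∀ f ∈ F, ¬ hole N r K (m + f)
  · obtain ⟨K, hK⟩ := hex
    have hN := Npos h K
    refine ⟨m + (|M| + |m| + 1) * N K, ?_, fun f hf => ?_⟩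
    · have h1 : |M| + |m| + 1 ≤ (|M| + |m| + 1) * N K := by
        have : 0 ≤ |M| + |m| + 1 := by positivity
        nlinarith
      have h2 := neg_abs_le m
      have h3 := le_abs_self M
      omega
    · symm
      apply det h (k := K) _ (hK f hf)
      rw [show m + f - (m + (|M| + |m| + 1) * N K + f) = -((|M| + |m| + 1) * N K) by ring]
      exact (dvd_neg).mpr (dvd_mul_left _ _)
  · push Not at hex
    -- a place in all the classes
    obtain ⟨f₀, hf₀, hall⟩ : ∃ f₀ ∈ F, ∀ K, hole N r K (m + f₀) := by
      by_contra hcon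
      push Not at hcon
      choose! κ hκ using hcon
      obtain ⟨f, hf, hf'⟩ := hex (F.sup κ)
      exact hκ f hf (hole_mono h (Finset.le_sup hf) hf')
    have hothers : ∃ K, ∀ f ∈ F, f ≠ f₀ → ¬ hole N r K (m + f) := by
      obtain ⟨b, hb⟩ : ∃ b : ℕ, ∀ v ∈ F, |v - f₀| ≤ b := by
        refine ⟨F.sup fun v => (v - f₀).natAbs, fun v hv => ?_⟩
        have := Finset.le_sup (f := fun v => (v - f₀).natAbs) hv
        rw [Int.abs_eq_natAbs]
        exact_mod_cast this
      refine ⟨b, fun f hf hne hh => ?_⟩
      have h1 := dvd_sub hh (hall b)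
      rw [show m + f - r b - (m + f₀ - r b) = f - f₀ by ring] at h1
      have h2 := Int.eq_zero_of_abs_lt_dvd h1 (lt_of_le_of_lt (hb f hf) (Npos h b))
      omega
    obtain ⟨K, hK⟩ := hothers
    obtain ⟨n, j, hn, hj, hh, -, hx⟩ := deep h K (x (m + f₀)) (M + |f₀|)
    refine ⟨n - f₀, ?_, fun f hf => ?_⟩
    · have := le_abs_self f₀
      omega
    · by_cases hff : f = f₀
      · subst hff
        rw [sub_add_cancel]; exact hx
      · symm
        apply det h (k := K) _ (hK f hf hff)
        have h1 := dvd_sub (hall K) (hole_mono h hj hh)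
        rw [show m + f - (n - f₀ + f) = m + f₀ - r K - (n - r K) by ring]
        exact h1

/-- full windows of every size -/
theorem full (h : TD x N r c u a) (n : ℕ) : ∃ V T : Finset ℤ, V.card = n + 1 ∧ (0 : ℤ) ∈ V ∧
    (∀ v ∈ V, 0 ≤ v) ∧ Indep x V T ∧ T.card = 2 * (n + 1) := by
  classical
  induction n with
  | zero =>
    obtain ⟨p, -, -, -, -, -, hp⟩ := deep h 0 true 0
    obtain ⟨q, -, -, -, -, -, hq⟩ := deep h 0 false 0
    have hpq : p ≠ q := by rintro rfl; rw [hp] at hq; exact absurd hq (by decide)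
    refine ⟨{0}, {p, q}, by simp, by simp, by simp, ?_, ?_⟩
    · intro m hm m' hm' hE
      have := hE 0 (by simp)
      rw [add_zero, add_zero] at this
      simp only [Finset.mem_insert, Finset.mem_singleton] at hm hm'
      rcases hm with rfl | rfl <;> rcases hm' with rfl | rfl
      · rfl
      · rw [hp, hq] at this; exact absurd this (by decide)
      · rw [hp, hq] at this; exact absurd this (by decide)
      · rfl
    · rw [Finset.card_pair hpq]
  | succ n ih =>
    obtain ⟨V, T, hV, h0, hpos, hT, hTc⟩ := ih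
    have hcomp : ∀ m, ∃ t ∈ T, Eqv x V m t := by
      intro m
      by_contra hcon
      push Not at hcon
      have h1 : m ∉ T := fun h => hcon m h fun _ _ => rfl
      have h2 : Indep x V (insert m T) := by
        intro a ha b hb' hab
        rcases Finset.mem_insert.mp ha with rfl | ha'
        · rcases Finset.mem_insert.mp hb' with rfl | hb''
          · rfl
          · exact absurd hab (hcon b hb'')
        · rcases Finset.mem_insert.mp hb' with rfl | hb''
          · exact absurd (eqv_symm hab) (hcon a ha')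
          · exact hT a ha' b hb'' hab
      have h3 := bdd h V _ ⟨0, h0⟩ h2
      rw [Finset.card_insert_of_notMem h1] at h3
      omega
    -- levels beyond the diameter
    obtain ⟨K₀, hK₀⟩ : ∃ K₀ : ℕ, ∀ v ∈ V, v < K₀ := by
      refine ⟨V.sup (fun v => v.natAbs) + 1, fun v hv => ?_⟩
      have := Finset.le_sup (f := fun v : ℤ => v.natAbs) hv
      have h1 := hpos v hv
      push_cast
      omega
    have hnot : ∀ K, K₀ ≤ K → ∀ p, hole N r K p → ∀ v ∈ V, v ≠ 0 → ¬ hole N r K (p + v) := by
      intro K hK p hp v hv hv0 hh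
      have h1 := dvd_sub hh hp
      rw [show p + v - r K - (p - r K) = v by ring] at h1
      have h2 := Npos h K
      have h3 := hK₀ v hv
      have h4 := hpos v hv
      have := Int.le_of_dvd (by omega) h1
      omega
    obtain ⟨p, i, -, hi, hpi, hpi', hxp⟩ := deep h K₀ true 0
    obtain ⟨q, j, -, hj, hqj, hqj', hxq⟩ := deep h K₀ false 0
    obtain ⟨K, hK, hcK⟩ := h.cf (max (i + 1) (j + 1))
    have hKi : i + 1 ≤ K := (le_max_left _ _).trans hK
    have hKj : j + 1 ≤ K := (le_max_right _ _).trans hK
    obtain ⟨s, l, -, hl, hsl, -, hxs⟩ := deep h (K + 1) true 0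
    have hsK1 : hole N r (K + 1) s := hole_mono h hl hsl
    have hsK : hole N r K s := hole_mono h (Nat.le_succ K) hsK1
    have hNK := Npos h K
    have hNK1 := h.lt K
    -- shifts by `N K` of the deep position
    have hshift : ∀ e : ℤ, e = 1 ∨ e = -1 → x (s + e * N K) = false := by
      intro e he
      rw [← hcK]
      apply h.col K
      · have := dvd_add hsK (dvd_mul_left (N K) e)
        rwa [show s - r K + e * N K = s + e * N K - r K by ring] at this
      · intro h1
        have h2 := dvd_sub h1 hsK1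
        rw [show s + e * N K - r (K + 1) - (s - r (K + 1)) = e * N K by ring] at h2
        rcases he with rfl | rfl
        · rw [one_mul] at h2
          have := Int.le_of_dvd (by omega) h2
          omega
        · rw [neg_one_mul, dvd_neg] at h2
          have := Int.le_of_dvd (by omega) h2
          omega
    -- same context
    have hctx : ∀ m m', hole N r K₀ m → hole N r K₀ m' → x m = x m' → Eqv x V m m' := by
      intro m m' hm hm' hx v hv
      by_cases hv0 : v = 0
      · rw [hv0, add_zero, add_zero]; exact hx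
      · apply det h (k := K₀) _ (hnot K₀ le_rfl m hm v hv hv0)
        have := dvd_sub hm hm'
        rwa [show m - r K₀ - (m' - r K₀) = m + v - (m' + v) by ring] at this
    have hK₀K : K₀ ≤ K := by omega
    have hs0 : hole N r K₀ s := hole_mono h hK₀K hsK
    have hp0 : hole N r K₀ p := hole_mono h hi hpi
    have hq0 : hole N r K₀ q := hole_mono h hj hqj
    have hsm : x (s + -1 * N K) = false := hshift _ (Or.inr rfl)
    have hsp : x (s + 1 * N K) = false := hshift _ (Or.inl rfl)
    have hsm0 : hole N r K₀ (s + -1 * N K) := by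
      have := (Ndvd h hK₀K)
      apply (hole_congr _).mpr hs0
      rw [show s + -1 * N K - s = -N K by ring]
      exact (dvd_neg).mpr this
    -- the two split classes
    have hspl1 : Eqv x V s p := hctx s p hs0 hp0 (by rw [hxs, hxp])
    have hspl2 : Eqv x V (s + -1 * N K) q := hctx _ _ hsm0 hq0 (by rw [hsm, hxq])
    have hpw : x (p + N K) = true := by
      rw [← hxp]; symm
      apply det h (k := K) _ (fun hh => hpi' (hole_mono h hKi hh))
      rw [show p - (p + N K) = -N K by ring]; exact (dvd_neg).mpr dvd_rfl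
    have hqw : x (q + N K) = false := by
      rw [← hxq]; symm
      apply det h (k := K) _ (fun hh => hqj' (hole_mono h hKj hh))
      rw [show q - (q + N K) = -N K by ring]; exact (dvd_neg).mpr dvd_rfl
    have hsw : x (s + N K) = false := by rw [← hsp]; congr 1; ring
    have hsmw : x (s + -1 * N K + N K) = true := by rw [← hxs]; congr 1; ring
    obtain ⟨t₁, ht₁, hE₁⟩ := hcomp p
    obtain ⟨t₂, ht₂, hE₂⟩ := hcomp q
    have h12 : t₁ ≠ t₂ := by
      rintro rfl
      have h1 := hE₁ 0 h0
      have h2 := hE₂ 0 h0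
      rw [add_zero, add_zero] at h1 h2
      rw [hxp] at h1; rw [hxq] at h2
      rw [← h1] at h2
      exact absurd h2 (by decide)
    obtain ⟨f₁, hf₁, hf₁'⟩ : ∃ f, Eqv x V f t₁ ∧ x (f + N K) ≠ x (t₁ + N K) := by
      by_cases h1 : x (t₁ + N K) = true
      · exact ⟨s, eqv_trans hspl1 hE₁, by rw [hsw, h1]; decide⟩
      · exact ⟨p, hE₁, by rw [hpw]; exact fun h2 => h1 h2.symm⟩
    obtain ⟨f₂, hf₂, hf₂'⟩ : ∃ f, Eqv x V f t₂ ∧ x (f + N K) ≠ x (t₂ + N K) := by
      by_cases h1 : x (t₂ + N K) = true
      · exact ⟨q, hE₂, by rw [hqw, h1]; decide⟩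
      · exact ⟨s + -1 * N K, eqv_trans hspl2 hE₂, by rw [hsmw]; exact fun h2 => h1 h2.symm⟩
    have hwV : N K ∉ V := fun hh => by
      have := hK₀ _ hh
      omega
    have hn1 : f₁ ∉ T := fun hh => hf₁' (by rw [hT f₁ hh t₁ ht₁ hf₁])
    have hn2 : f₂ ∉ T := fun hh => hf₂' (by rw [hT f₂ hh t₂ ht₂ hf₂])
    have hf12 : f₁ ≠ f₂ := by
      rintro rfl
      exact h12 (hT t₁ ht₁ t₂ ht₂ (eqv_trans (eqv_symm hf₁) hf₂))
    refine ⟨insert (N K) V, insert f₁ (insert f₂ T), ?_, Finset.mem_insert_of_mem h0, ?_, ?_, ?_⟩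
    · rw [Finset.card_insert_of_notMem hwV, hV]
    · intro v hv
      rcases Finset.mem_insert.mp hv with rfl | hv'
      · omega
      · exact hpos v hv'
    · -- representatives
      have aux : ∀ f t, t ∈ T → Eqv x V f t → x (f + N K) ≠ x (t + N K) → ∀ t' ∈ T,
          ¬ Eqv x (insert (N K) V) f t' := by
        intro f t ht hft hne t' ht' hE
        have h1 : t = t' := hT t ht t' ht' (eqv_trans (eqv_symm hft)
          (eqv_mono (Finset.subset_insert _ _) hE))
        subst h1
        exact hne (hE _ (Finset.mem_insert_self _ _))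
      have aux2 : ¬ Eqv x (insert (N K) V) f₁ f₂ := fun hE =>
        h12 (hT t₁ ht₁ t₂ ht₂ (eqv_trans (eqv_symm hf₁)
          (eqv_trans (eqv_mono (Finset.subset_insert _ _) hE) hf₂)))
      intro m hm m' hm' hE
      rcases Finset.mem_insert.mp hm with rfl | hm1
      · rcases Finset.mem_insert.mp hm' with rfl | hm1'
        · rfl
        · rcases Finset.mem_insert.mp hm1' with rfl | hm2'
          · exact absurd hE aux2
          · exact absurd hE (aux _ t₁ ht₁ hf₁ hf₁' _ hm2')
      · rcases Finset.mem_insert.mp hm1 with rfl | hm2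
        · rcases Finset.mem_insert.mp hm' with rfl | hm1'
          · exact absurd (eqv_symm hE) aux2
          · rcases Finset.mem_insert.mp hm1' with rfl | hm2'
            · rfl
            · exact absurd hE (aux _ t₂ ht₂ hf₂ hf₂' _ hm2')
        · rcases Finset.mem_insert.mp hm' with rfl | hm1'
          · exact absurd (eqv_symm hE) (aux _ t₁ ht₁ hf₁ hf₁' _ hm2)
          · rcases Finset.mem_insert.mp hm1' with rfl | hm2'
            · exact absurd (eqv_symm hE) (aux _ t₂ ht₂ hf₂ hf₂' _ hm2)
            · exact hT m hm2 m' hm2' (eqv_mono (Finset.subset_insert _ _) hE)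
    · rw [Finset.card_insert_of_notMem, Finset.card_insert_of_notMem hn2, hTc]
      · ring
      · intro hh
        rcases Finset.mem_insert.mp hh with h1 | h1
        · exact hf12 h1
        · exact hn1 h1

end Pool.Agent.Helper434.PCToep
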