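import Mathlib
import Pool.Agent.Helper434.PCRotIf
import Pool.Agent.Helper434.PCToep

set_option autoImplicit false

namespace Pool.Agent.Helper434.PCFin

open Pool.Agent.Helper434.PCDefs Pool.Agent.Helper434.PCCore Filter

/-! ### Counting patterns -/

/-- a window as an increasing sequence of naturals -/
lemma window (F : Finset ℤ) {n : ℕ} (hn : F.card = n) (hn1 : 1 ≤ n) :
    ∃ (f₀ : ℤ) (τ : Fin n → ℕ), f₀ ∈ F ∧ StrictMono τ ∧ (∀ h : 0 < n, τ ⟨0, h⟩ = 0) ∧
      ∀ v, v ∈ F ↔ ∃ i, v = f₀ + τ i := by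
  have hmem : ∀ v, v ∈ F ↔ ∃ i, v = F.orderEmbOfFin hn i := by
    intro v
    have h1 := F.range_orderEmbOfFin hn
    constructor
    · intro hv
      have h2 : v ∈ Set.range (F.orderEmbOfFin hn) := by rw [h1]; exact hv
      obtain ⟨i, hi⟩ := h2
      exact ⟨i, hi.symm⟩
    · rintro ⟨i, rfl⟩
      exact F.orderEmbOfFin_mem hn i
  set f₀ := F.orderEmbOfFin hn ⟨0, hn1⟩ with hf₀
  have hle : ∀ i, f₀ ≤ F.orderEmbOfFin hn i := fun i =>
    (F.orderEmbOfFin hn).monotone (Fin.mk_le_of_le_val (Nat.zero_le _))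
  have hcast : ∀ i, (((F.orderEmbOfFin hn i - f₀).toNat : ℕ) : ℤ) = F.orderEmbOfFin hn i - f₀ :=
    fun i => Int.toNat_of_nonneg (by have := hle i; omega)
  refine ⟨f₀, fun i => (F.orderEmbOfFin hn i - f₀).toNat, F.orderEmbOfFin_mem hn _, ?_, ?_, ?_⟩
  · intro i j hij
    have h1 := (F.orderEmbOfFin hn).strictMono hij
    have h2 := hle i
    simp only
    omega
  · intro h
    simp [hf₀]
  · intro v
    rw [hmem]
    constructor
    · rintro ⟨i, hi⟩
      refine ⟨i, ?_⟩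
      show v = f₀ + (((F.orderEmbOfFin hn i - f₀).toNat : ℕ) : ℤ)
      rw [hcast, hi]; ring
    · rintro ⟨i, hi⟩
      refine ⟨i, ?_⟩
      have h2 : v = f₀ + (((F.orderEmbOfFin hn i - f₀).toNat : ℕ) : ℤ) := hi
      rw [hcast] at h2
      rw [h2]; ring

/-- upper bounds for pattern sets from independent sets -/
lemma encard_le {I : Type} [Nonempty I] {X : ℤ → Bool} (hb : Bdd X) {n : ℕ} (hn : 1 ≤ n) (g : I → ℤ)
    (τ : Fin n → ℕ) : (Set.range fun m : I => fun i : Fin n => X (g m + τ i)).encard ≤ 2 * (n : ℕ∞) := by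
  classical
  by_contra hcon
  push Not at hcon
  have h1 : ((2 * n + 1 : ℕ) : ℕ∞) ≤
      (Set.range fun m : I => fun i : Fin n => X (g m + τ i)).encard := by
    have := Order.add_one_le_of_lt hcon
    push_cast
    exact this
  obtain ⟨T, hT1, hT2⟩ := PCRotIf.exists_finset _ h1
  have hinj : Set.InjOn g (T : Set I) := by
    intro a ha b hb hab
    apply hT2 a ha b hb
    ext i
    rw [hab]
  have h2 := hb (Finset.univ.image fun i => (τ i : ℤ)) (T.image g)
    ⟨_, Finset.mem_image_of_mem _ (Finset.mem_univ ⟨0, hn⟩)⟩ (by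
      intro m hm m' hm' hE
      obtain ⟨a, ha, rfl⟩ := Finset.mem_image.mp hm
      obtain ⟨b, hb, rfl⟩ := Finset.mem_image.mp hm'
      rw [hT2 a ha b hb]
      ext i
      exact hE _ (Finset.mem_image_of_mem _ (Finset.mem_univ i)))
  rw [Finset.card_image_of_injOn hinj, hT1] at h2
  have h3 : (Finset.univ.image fun i => (τ i : ℤ)).card ≤ n :=
    Finset.card_image_le.trans (by rw [Finset.card_univ, Fintype.card_fin])
  omega

/-- lower bounds for pattern sets from independent sets -/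
lemma le_encard {I : Type} {X : ℤ → Bool} {n : ℕ} {F T : Finset ℤ} {f₀ : ℤ} {τ : Fin n → ℕ}
    (hF : ∀ v, v ∈ F → ∃ i, v = f₀ + τ i) (hT : Indep X F T) (g : I → ℤ)
    (hg : ∀ t ∈ T, ∃ m, ∀ i, X (g m + τ i) = X (t + (f₀ + τ i))) :
    (T.card : ℕ∞) ≤ (Set.range fun m : I => fun i : Fin n => X (g m + τ i)).encard := by
  classical
  have hinj : Set.InjOn (fun t : ℤ => fun i : Fin n => X (t + (f₀ + τ i))) (T : Set ℤ) := by
    intro a ha b hb hab
    apply hT a ha b hb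
    intro v hv
    obtain ⟨i, rfl⟩ := hF v hv
    exact congrFun hab i
  rw [← Set.encard_coe_eq_coe_finsetCard, ← hinj.encard_image]
  apply Set.encard_le_encard
  rintro _ ⟨t, ht, rfl⟩
  obtain ⟨m, hm⟩ := hg t ht
  exact ⟨m, funext hm⟩

/-- periodic sequences have few patterns -/
lemma periodic_encard {I : Type} {X : ℤ → Bool} {q : ℤ} (hq : q ≠ 0) (hX : ∀ m, X (m + q) = X m)
    {n : ℕ} (g : I → ℤ) (τ : Fin n → ℕ) :
    (Set.range fun m : I => fun i : Fin n => X (g m + τ i)).encard ≤ (q.natAbs : ℕ∞) := by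
  have hper : ∀ m k : ℤ, X (m + k * q) = X m := by
    intro m k
    induction k using Int.induction_on with
    | zero => simp
    | succ i ih => rw [← ih, ← hX (m + i * q)]; congr 1; ring
    | pred i ih => rw [← ih, ← hX (m + (-i - 1) * q)]; congr 1; ring
  have : NeZero q.natAbs := ⟨Int.natAbs_ne_zero.mpr hq⟩
  have hfac : Function.FactorsThrough (fun m : ℤ => fun i : Fin n => X (m + τ i))
      (fun m : ℤ => (m : ZMod q.natAbs)) := by
    intro a b hab
    simp only at hab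
    rw [ZMod.intCast_eq_intCast_iff_dvd_sub] at hab
    have h1 : q ∣ b - a := Int.natAbs_dvd.mp hab
    obtain ⟨k, hk⟩ := h1
    ext i
    show X (a + τ i) = X (b + τ i)
    rw [← hper (a + τ i) k]
    congr 1
    rw [mul_comm k q, ← hk]; ring
  have : Nonempty (Fin n → Bool) := ⟨fun _ => true⟩
  obtain ⟨f, hf⟩ := (Function.factorsThrough_iff _).mp hfac
  calc (Set.range fun m : I => fun i : Fin n => X (g m + τ i)).encard ≤ (f '' Set.univ).encard := by
        apply Set.encard_le_encard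
        rintro _ ⟨m, rfl⟩
        have := congrFun hf (g m)
        exact ⟨_, trivial, this.symm⟩
    _ ≤ (Set.univ : Set (ZMod q.natAbs)).encard := Set.encard_image_le _ _
    _ = (q.natAbs : ℕ∞) := by
        rw [Set.encard_univ, ENat.card_eq_coe_fintype_card, ZMod.card]

/-! ### Extension of single-sided sequences -/

/-- values of a single-sided sequence at integers -/
def ex (X : ℕ → Bool) (k : ℤ) : Bool := X k.toNat

lemma ex_nat (X : ℕ → Bool) (m : ℕ) : ex X (m : ℤ) = X m := by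
  unfold ex; rw [Int.toNat_natCast]

theorem exists_ext (X : ℕ → Bool) (hX : ∀ a : ℕ, 1 ≤ a → ∀ n : ℕ,
    {m : ℕ | 1 ≤ m ∧ ∀ i : ℕ, i < n → X (m + i) = X (a + i)}.Infinite) :
    ∃ Y : ℤ → Bool, (∀ m : ℕ, 1 ≤ m → X m = Y m) ∧
      ∀ (G : Finset ℤ) (C : ℤ), ∃ s : ℤ, C < s ∧ ∀ n ∈ G, 0 < n + s ∧ ex X (n + s) = Y n := by
  have h1 : ∀ L : ℕ, ∃ h : ℕ, L < h ∧ ∀ j : ℕ, 1 ≤ j → j ≤ L → X (j + h) = X j := by
    intro L
    obtain ⟨m, ⟨hm1, hm⟩, hmL⟩ := (hX 1 le_rfl L).exists_gt (L + 1)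
    refine ⟨m - 1, by omega, fun j hj1 hj2 => ?_⟩
    have h2 := hm (j - 1) (by omega)
    rw [show m + (j - 1) = j + (m - 1) by omega, show 1 + (j - 1) = j by omega] at h2
    exact h2
  choose h hh1 hh2 using h1
  classical
  set Y : ℤ → Bool := fun n => decide ({L : ℕ | ex X (n + h L) = true} ∈ hyperfilter ℕ) with hY
  have hev : ∀ n : ℤ, ∀ᶠ L in (hyperfilter ℕ : Filter ℕ), ex X (n + h L) = Y n := by
    intro n
    by_cases hn : {L : ℕ | ex X (n + h L) = true} ∈ hyperfilter ℕ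
    · have : Y n = true := by simp only [hY]; exact decide_eq_true hn
      rw [this]
      exact hn
    · have h2 : Y n = false := by simp only [hY]; exact decide_eq_false hn
      rw [h2]
      have h3 := Ultrafilter.compl_mem_iff_notMem.mpr hn
      refine Filter.mem_of_superset h3 fun L hL => ?_
      have hL' : ¬ ex X (n + h L) = true := hL
      show ex X (n + h L) = false
      simpa using hL'
  refine ⟨Y, fun m hm => ?_, fun G C => ?_⟩
  · have h2 : ∀ᶠ L in (hyperfilter ℕ : Filter ℕ), m ≤ L :=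
      (eventually_ge_atTop m).filter_mono Nat.hyperfilter_le_atTop
    obtain ⟨L, hL1, hL2⟩ := ((hev (m : ℤ)).and h2).exists
    have h3 := ex_nat X (m + h L)
    push_cast at h3
    rw [← hL1, h3]
    exact (hh2 L m hm hL2).symm
  · have h2 : ∀ᶠ L in (hyperfilter ℕ : Filter ℕ), ∀ n ∈ G, ex X (n + h L) = Y n := by
      rw [Filter.eventually_all_finset]
      intro n _
      exact hev n
    obtain ⟨b, hb⟩ : ∃ b : ℕ, ∀ n ∈ G, |n| ≤ b := by
      refine ⟨G.sup fun v => v.natAbs, fun v hv => ?_⟩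
      have := Finset.le_sup (f := fun v : ℤ => v.natAbs) hv
      rw [Int.abs_eq_natAbs]
      exact_mod_cast this
    have h3 : ∀ᶠ L in (hyperfilter ℕ : Filter ℕ), b + C.natAbs ≤ L :=
      (eventually_ge_atTop _).filter_mono Nat.hyperfilter_le_atTop
    obtain ⟨L, hL1, hL2⟩ := (h2.and h3).exists
    have h4 := hh1 L
    refine ⟨h L, by omega, fun n hn => ⟨?_, hL1 n hn⟩⟩
    have h5 := abs_le.mp (hb n hn)
    omega

section ext

variable {X : ℕ → Bool} {Y : ℤ → Bool}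

lemma ex_eq (hXY : ∀ m : ℕ, 1 ≤ m → X m = Y m) {k : ℤ} (hk : 0 < k) : ex X k = Y k := by
  unfold ex
  rw [hXY k.toNat (by omega), Int.toNat_of_nonneg hk.le]

/-- the extension is right recurrent -/
theorem ext_recR (hX : ∀ a : ℕ, 1 ≤ a → ∀ n : ℕ,
    {m : ℕ | 1 ≤ m ∧ ∀ i : ℕ, i < n → X (m + i) = X (a + i)}.Infinite)
    (hXY : ∀ m : ℕ, 1 ≤ m → X m = Y m)
    (hG : ∀ (G : Finset ℤ) (C : ℤ), ∃ s : ℤ, C < s ∧ ∀ n ∈ G, 0 < n + s ∧ ex X (n + s) = Y n) :
    RecR Y := by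
  intro F m N
  obtain ⟨b, hb⟩ : ∃ b : ℕ, ∀ n ∈ F, |n| ≤ b := by
    refine ⟨F.sup fun v => v.natAbs, fun v hv => ?_⟩
    have := Finset.le_sup (f := fun v : ℤ => v.natAbs) hv
    rw [Int.abs_eq_natAbs]
    exact_mod_cast this
  obtain ⟨s, hs, hsG⟩ := hG (Finset.Icc (m - b) (m + b)) 0
  have h0 := (hsG (m - b) (by rw [Finset.mem_Icc]; omega)).1
  obtain ⟨m', ⟨hm'1, hm'⟩, hmN⟩ := (hX (m - b + s).toNat (by omega) (2 * b + 1)).exists_gt
    ((N + b).toNat + 1)
  refine ⟨m' + b, by omega, fun f hf => ?_⟩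
  have h1 := abs_le.mp (hb f hf)
  have h2 := hm' (f + b).toNat (by omega)
  have h3 := (hsG (m + f) (by rw [Finset.mem_Icc]; omega)).2
  rw [← h3]
  unfold ex
  rw [show (m + f + s).toNat = (m - b + s).toNat + (f + b).toNat by omega, ← h2,
    hXY _ (by omega)]
  congr 1
  push_cast
  rw [Int.toNat_of_nonneg (by omega : 0 ≤ f + b)]
  ring

/-- the extension has low complexity -/
theorem ext_bdd (hXY : ∀ m : ℕ, 1 ≤ m → X m = Y m)
    (hG : ∀ (G : Finset ℤ) (C : ℤ), ∃ s : ℤ, C < s ∧ ∀ n ∈ G, 0 < n + s ∧ ex X (n + s) = Y n)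
    (hup : ∀ n : ℕ, 1 ≤ n → ∀ τ : Fin n → ℕ, StrictMono τ → (∀ h : 0 < n, τ ⟨0, h⟩ = 0) →
      (Set.range fun m : {m : ℕ // 1 ≤ m} => fun i : Fin n => Y (((m : ℕ) : ℤ) + τ i)).encard ≤
        2 * (n : ℕ∞)) : Bdd Y := by
  classical
  intro F T hF hT
  obtain ⟨f₀, τ, hf₀, h1, h2, h3⟩ := window F rfl (Finset.card_pos.mpr hF)
  obtain ⟨s, hs, hsG⟩ := hG (T.biUnion fun t => F.image fun f => t + f) 0
  have h4 := le_encard (X := Y) (F := F) (T := T) (f₀ := f₀) (τ := τ) (fun v hv => (h3 v).mp hv) hT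
    (fun m : {m : ℕ // 1 ≤ m} => ((m : ℕ) : ℤ)) (fun t ht => by
      have hmem : ∀ f ∈ F, t + f ∈ T.biUnion fun t => F.image fun f => t + f := fun f hf => by
        rw [Finset.mem_biUnion]
        exact ⟨t, ht, Finset.mem_image_of_mem _ hf⟩
      have h5 := (hsG (t + f₀) (hmem f₀ hf₀)).1
      refine ⟨⟨(t + f₀ + s).toNat, by omega⟩, fun i => ?_⟩
      have h6 : (((t + f₀ + s).toNat : ℕ) : ℤ) = t + f₀ + s :=
        Int.toNat_of_nonneg h5.le
      show Y (((t + f₀ + s).toNat : ℤ) + τ i) = Y (t + (f₀ + τ i))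
      rw [h6]
      have h7 := hsG (t + (f₀ + τ i)) (hmem _ ((h3 _).mpr ⟨i, rfl⟩))
      rw [← h7.2, ex_eq hXY h7.1]
      congr 1; ring)
  have h5 := h4.trans (hup _ (Finset.card_pos.mpr hF) τ h1 h2)
  exact_mod_cast h5

end ext

/-! ### Two-sided recurrence -/

theorem bdd_of_encard {X : ℤ → Bool} (hup : ∀ n : ℕ, 1 ≤ n → ∀ τ : Fin n → ℕ, StrictMono τ →
      (∀ h : 0 < n, τ ⟨0, h⟩ = 0) →
      (Set.range fun m : ℤ => fun i : Fin n => X (m + τ i)).encard ≤ 2 * (n : ℕ∞)) : Bdd X := by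
  classical
  intro F T hF hT
  obtain ⟨f₀, τ, hf₀, h1, h2, h3⟩ := window F rfl (Finset.card_pos.mpr hF)
  have h4 := le_encard (X := X) (F := F) (T := T) (f₀ := f₀) (τ := τ) (fun v hv => (h3 v).mp hv) hT
    (fun m : ℤ => m) (fun t ht => ⟨t + f₀, fun i => by congr 1; ring⟩)
  have h5 := h4.trans (hup _ (Finset.card_pos.mpr hF) τ h1 h2)
  exact_mod_cast h5

theorem recR_or {X : ℤ → Bool}
    (hX : ∀ (a : ℤ) (n : ℕ), {m : ℤ | ∀ i : ℕ, i < n → X (m + i) = X (a + i)}.Infinite) :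
    RecR X ∨ RecR (fun n => X (-n)) := by
  classical
  by_cases h : RecR X
  · exact Or.inl h
  right
  unfold RecR at h
  push Not at h
  obtain ⟨F, m, N, hN⟩ := h
  intro F' m' N'
  -- a block containing everything
  obtain ⟨b, hb⟩ : ∃ b : ℕ, (∀ v ∈ F, |m + v| ≤ b) ∧ ∀ v ∈ F', |-(m' + v)| ≤ b := by
    refine ⟨(F.sup fun v => (m + v).natAbs) + F'.sup fun v => (-(m' + v)).natAbs, fun v hv => ?_,
      fun v hv => ?_⟩
    · have := Finset.le_sup (f := fun v : ℤ => (m + v).natAbs) hv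
      rw [Int.abs_eq_natAbs]
      push_cast
      have h5 : (((m + v).natAbs : ℕ) : ℤ) ≤ ((F.sup fun v => (m + v).natAbs : ℕ) : ℤ) := by
        exact_mod_cast this
      linarith [Int.natCast_nonneg (F'.sup fun v => (-(m' + v)).natAbs)]
    · have := Finset.le_sup (f := fun v : ℤ => (-(m' + v)).natAbs) hv
      rw [Int.abs_eq_natAbs]
      push_cast
      have h5 : (((-(m' + v)).natAbs : ℕ) : ℤ) ≤ ((F'.sup fun v => (-(m' + v)).natAbs : ℕ) : ℤ) := by
        exact_mod_cast this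
      linarith [Int.natCast_nonneg (F.sup fun v => (m + v).natAbs)]
  have hinf := hX (-(b : ℤ)) (2 * b + 1)
  have hval : ∀ s ∈ {m : ℤ | ∀ i : ℕ, i < 2 * b + 1 → X (m + i) = X (-(b : ℤ) + i)},
      ∀ p : ℤ, |p| ≤ b → X (p + (s + b)) = X p := by
    intro s hs p hp
    have h1 := abs_le.mp hp
    have h2 := hs (p + b).toNat (by omega)
    rw [Int.toNat_of_nonneg (by omega : 0 ≤ p + b)] at h2
    rw [show p + (s + b) = s + (p + b) by ring, h2]
    congr 1; ring
  have hbelow : ¬ BddBelow {m : ℤ | ∀ i : ℕ, i < 2 * b + 1 → X (m + i) = X (-(b : ℤ) + i)} := by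
    intro hbb
    obtain ⟨lo, hlo⟩ := hbb
    apply hinf
    apply (Set.finite_Icc lo (N - m - b)).subset
    intro s hs
    refine ⟨hlo hs, ?_⟩
    by_contra hcon
    push Not at hcon
    refine hN (m + (s + b)) (by omega) fun i hi => ?_
    have := hval s hs (m + i) (hb.1 i hi)
    rw [← this]; congr 1; ring
  rw [not_bddBelow_iff] at hbelow
  obtain ⟨s, hs, hlt⟩ := hbelow (m' - N' - b)
  refine ⟨m' - (s + b), by omega, fun i hi => ?_⟩
  have h1 := hval s hs (-(m' + i)) (hb.2 i hi)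
  simp only
  rw [← h1]; congr 1; ring

theorem bdd_neg {X : ℤ → Bool} (h : Bdd X) : Bdd (fun n => X (-n)) := by
  classical
  intro F T hF hT
  have h1 := h (F.image fun v => -v) (T.image fun v => -v) (hF.image _) (by
    intro a ha b hb hE
    obtain ⟨t, ht, rfl⟩ := Finset.mem_image.mp ha
    obtain ⟨t', ht', rfl⟩ := Finset.mem_image.mp hb
    rw [hT t ht t' ht']
    intro v hv
    have := hE (-v) (Finset.mem_image_of_mem _ hv)
    simp only
    rw [show -(t + v) = -t + -v by ring, show -(t' + v) = -t' + -v by ring]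
    exact this)
  rw [Finset.card_image_of_injective _ neg_injective,
    Finset.card_image_of_injective _ neg_injective] at h1
  exact h1

lemma infinite_of_recR {X : ℤ → Bool} (h : RecR X) (a : ℤ) (n : ℕ) :
    {m : ℤ | ∀ i : ℕ, i < n → X (m + i) = X (a + i)}.Infinite := by
  apply Set.infinite_of_not_bddAbove
  rw [not_bddAbove_iff]
  intro N
  obtain ⟨m', h1, h2⟩ := h ((Finset.range n).image fun i : ℕ => (i : ℤ)) a N
  exact ⟨m', fun i hi => h2 i (Finset.mem_image_of_mem _ (Finset.mem_range.mpr hi)), h1⟩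

end Pool.Agent.Helper434.PCFin
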