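import Mathlib
import Pool.Agent.Helper434.PCBasic

set_option autoImplicit false

namespace Pool.Agent.Helper434.PCRotA

open Pool.Agent.Helper434.PCDefs Pool.Agent.Helper434.PCBasic

/-- the flips of small shifts do not concentrate at one place -/
def TwoPoints (y : ℤ → Bool) : Prop :=
  ∃ η₀ : ℝ, 0 < η₀ ∧ ∀ ε : ℝ, 0 < ε → ∀ c : ℤ, ∃ h, 0 < dd y h ∧ dd y h < ε ∧
    ∃ n ∈ R y h, η₀ ≤ dd y (n - c)

lemma far {y : ℤ → Bool} {η : ℝ} {ca cb a b : ℤ} (hsep : 15 * η < dd y (ca - cb))
    (ha : dd y (a - ca) < η) (hb : dd y (b - cb) < η) : 13 * η < dd y (b - a) := by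
  have h1 := dd_tri y ca a cb
  have h2 := dd_tri y a b cb
  have h3 := dd_comm y ca a
  have h4 := dd_comm y a b
  linarith

lemma meets {y : ℤ → Bool} (hc : Core y) {η : ℝ} {ca cb : ℤ} (hη : 0 < η)
    (hsep : 15 * η < dd y (ca - cb))
    (ha : ∀ ε : ℝ, 0 < ε → ∃ h, 0 < dd y h ∧ dd y h < ε ∧ ∃ n ∈ R y h, dd y (n - ca) < η)
    (hb : ∀ ε : ℝ, 0 < ε → ∃ h, 0 < dd y h ∧ dd y h < ε ∧ ∃ n ∈ R y h, dd y (n - cb) < η)
    {h : ℤ} (hh0 : 0 < dd y h) (hh1 : dd y h < η) : ∃ n ∈ R y h, dd y (n - cb) < 2 * η := by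
  obtain ⟨ε, hε, c₁, c₂, hC⟩ := hc.two (dd y h / 4) (by linarith)
  obtain ⟨h', hh'0, hh'1, n', hn', hn'b⟩ := hb (min ε η) (lt_min hε hη)
  obtain ⟨h'', hh''0, hh''1, n'', hn'', hn''a⟩ := ha ε hε
  have hh'2 := lt_of_lt_of_le hh'1 (min_le_left _ _)
  have hh'3 := lt_of_lt_of_le hh'1 (min_le_right _ _)
  have hfar := far hsep hn''a hn'b
  have hsame : ∀ (p q c : ℤ), dd y (p - c) < dd y h / 4 → dd y (q - c) < dd y h / 4 →
      dd y (p - q) < dd y h / 2 := by
    intro p q c hp hq
    have h1 := dd_tri y p c q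
    have h2 := dd_comm y c q
    linarith
  have hnot : n' + h ∉ R y h' := by
    intro hcon
    have e1 : dd y (n' + h - n') = dd y h := by congr 1; ring
    have e2 : dd y (n' - (n' + h)) = dd y h := by rw [dd_comm]; exact e1
    have e3 := dd_tri y n' (n' + h) n''
    have k1 := hC h' hh'0 hh'2 n' hn'
    have k2 := hC h'' hh''0 hh''1 n'' hn''
    have k3 := hC h' hh'0 hh'2 (n' + h) hcon
    rcases k1 with k1 | k1 <;> rcases k2 with k2 | k2 <;> rcases k3 with k3 | k3
    · have := hsame _ _ _ k1 k2; linarith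
    · have := hsame _ _ _ k1 k2; linarith
    · have := hsame _ _ _ k3 k1; linarith
    · have := hsame _ _ _ k3 k2; linarith
    · have := hsame _ _ _ k3 k2; linarith
    · have := hsame _ _ _ k3 k1; linarith
    · have := hsame _ _ _ k1 k2; linarith
    · have := hsame _ _ _ k1 k2; linarith
  have hnot' : y (n' + h) = y (n' + h + h') := by
    by_contra hcon
    exact hnot hcon
  by_cases hR : n' ∈ R y h
  · exact ⟨n', hR, by linarith⟩
  · have h1 : y n' = y (n' + h) := by
      by_contra hcon
      exact hR hcon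
    refine ⟨n' + h', ?_, ?_⟩
    · show y (n' + h') ≠ y (n' + h' + h)
      have h2 : y n' ≠ y (n' + h') := hn'
      rw [show n' + h' + h = n' + h + h' by ring, ← hnot', ← h1]
      exact fun h => h2 h.symm
    · have h3 := dd_add y (n' - cb) h'
      rw [show n' - cb + h' = n' + h' - cb by ring] at h3
      linarith

/-- the flips near one of the two points -/
theorem split {y : ℤ → Bool} (hc : Core y) (h2 : TwoPoints y) :
    ∃ (σ : ℝ) (B : Set ℤ), 0 < σ ∧
      (∀ h, 0 < dd y h → dd y h < σ →
        ((∀ n ∈ R01 y h, n ∈ B) ∧ ∀ n ∈ R10 y h, n ∉ B) ∨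
        ((∀ n ∈ R01 y h, n ∉ B) ∧ ∀ n ∈ R10 y h, n ∈ B)) ∧
      ∀ h, 0 < dd y h → dd y h < σ → ∀ n ∈ R y h, ∀ k, dd y k < σ → (n - k ∈ B ↔ n ∈ B) := by
  obtain ⟨η₀, hη₀, hT⟩ := h2
  set η := η₀ / 17 with hη
  have hη0 : 0 < η := by positivity
  obtain ⟨ε₁, hε₁, c₁, c₂, hC⟩ := hc.two η hη0
  obtain ⟨ε₂, hε₂, hA⟩ := hc.flips η hη0
  have key : ∀ (ca cb : ℤ), (∀ h, 0 < dd y h → dd y h < ε₁ →
      ∀ n ∈ R y h, dd y (n - ca) < η ∨ dd y (n - cb) < η) →
      ∀ ε : ℝ, 0 < ε → ∃ h, 0 < dd y h ∧ dd y h < ε ∧ ∃ n ∈ R y h, dd y (n - cb) < η ∧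
        15 * η < dd y (ca - cb) := by
    intro ca cb hab ε hε
    obtain ⟨h, hh0, hh1, n, hn, hna⟩ := hT (min ε ε₁) (lt_min hε hε₁) ca
    have hh2 := lt_of_lt_of_le hh1 (min_le_left _ _)
    have hh3 := lt_of_lt_of_le hh1 (min_le_right _ _)
    rcases hab h hh0 hh3 n hn with h4 | h4
    · linarith
    · refine ⟨h, hh0, hh2, n, hn, h4, ?_⟩
      have h5 := dd_tri y n cb ca
      have h6 := dd_comm y cb ca
      linarith
  have hC' : ∀ h, 0 < dd y h → dd y h < ε₁ →
      ∀ n ∈ R y h, dd y (n - c₂) < η ∨ dd y (n - c₁) < η := fun h a b n c => (hC h a b n c).symm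
  have hb := key c₁ c₂ hC
  have ha := key c₂ c₁ hC'
  have hsep : 15 * η < dd y (c₁ - c₂) := by
    obtain ⟨_, _, _, _, _, _, h⟩ := hb 1 one_pos
    exact h
  have hsep' : 15 * η < dd y (c₂ - c₁) := by rw [dd_comm]; exact hsep
  have ha' : ∀ ε : ℝ, 0 < ε → ∃ h, 0 < dd y h ∧ dd y h < ε ∧ ∃ n ∈ R y h, dd y (n - c₁) < η :=
    fun ε hε => by
      obtain ⟨h, a, b, n, c, d, -⟩ := ha ε hε
      exact ⟨h, a, b, n, c, d⟩
  have hb' : ∀ ε : ℝ, 0 < ε → ∃ h, 0 < dd y h ∧ dd y h < ε ∧ ∃ n ∈ R y h, dd y (n - c₂) < η :=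
    fun ε hε => by
      obtain ⟨h, a, b, n, c, d, -⟩ := hb ε hε
      exact ⟨h, a, b, n, c, d⟩
  set σ := min (min ε₁ ε₂) η with hσ
  have hσ1 : σ ≤ ε₁ := (min_le_left _ _).trans (min_le_left _ _)
  have hσ2 : σ ≤ ε₂ := (min_le_left _ _).trans (min_le_right _ _)
  have hσ3 : σ ≤ η := min_le_right _ _
  refine ⟨σ, {n | dd y (n - c₁) < 4 * η}, lt_min (lt_min hε₁ hε₂) hη0, ?_, ?_⟩
  · intro h hh0 hhσ
    have m1 := meets hc hη0 hsep ha' hb' hh0 (by linarith)
    have m2 := meets hc hη0 hsep' hb' ha' hh0 (by linarith)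
    -- positions near the first or the second point
    have near : ∀ n ∈ R y h, dd y (n - c₁) < η ∨ dd y (n - c₂) < η :=
      hC h hh0 (by linarith)
    have n2 : ∀ n, dd y (n - c₂) < 2 * η → ¬ dd y (n - c₁) < 4 * η := by
      intro n h1 h2
      have h3 := dd_tri y c₁ n c₂
      have h4 := dd_comm y c₁ n
      linarith
    have hA1 := fun n n' => (hA h hh0 (by linarith) n n').1
    have hA2 := fun n n' => (hA h hh0 (by linarith) n n').2
    obtain ⟨p, hpR, hp⟩ := m1
    obtain ⟨q, hqR, hq⟩ := m2
    have close : ∀ n n' : ℤ, dd y (n' - n) < η → dd y (n - c₁) < 2 * η →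
        dd y (n' - c₁) < 4 * η := by
      intro n n' h1 h2
      have h3 := dd_tri y n' n c₁
      linarith
    have close2 : ∀ n n' : ℤ, n ∈ R y h → dd y (n' - n) < η → dd y (n' - c₂) < 2 * η →
        ¬ dd y (n - c₁) < 4 * η := by
      intro n n' hn h1 h2
      rcases near n hn with h5 | h5
      · exfalso
        have h3 := dd_tri y c₁ n c₂
        have h4 := dd_comm y c₁ n
        have h6 := dd_tri y n n' c₂
        have h7 := dd_comm y n n'
        linarith
      · exact n2 n (by linarith)
    rcases R_cases hpR with hp1 | hp1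
    · -- 01 flips near the second point
      right
      refine ⟨fun n hn => close2 n p (R01_sub y h hn) (hA1 p n hp1 hn) hp, ?_⟩
      rcases R_cases hqR with hq1 | hq1
      · exfalso
        have h1 := hA1 p q hp1 hq1
        have h3 := dd_tri y c₁ q c₂
        have h4 := dd_comm y c₁ q
        have h6 := dd_tri y q p c₂
        have h7 := dd_comm y q p
        linarith
      · intro n hn
        exact close q n (hA2 n q hn hq1) hq
    · left
      refine ⟨?_, fun n hn => close2 n p (R10_sub y h hn) (hA2 p n hp1 hn) hp⟩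
      rcases R_cases hqR with hq1 | hq1
      · intro n hn
        exact close q n (hA1 n q hn hq1) hq
      · exfalso
        have h1 := hA2 p q hp1 hq1
        have h3 := dd_tri y c₁ q c₂
        have h4 := dd_comm y c₁ q
        have h6 := dd_tri y q p c₂
        have h7 := dd_comm y q p
        linarith
  · intro h hh0 hhσ n hn k hk
    show dd y (n - k - c₁) < 4 * η ↔ dd y (n - c₁) < 4 * η
    have h1 := dd_sub y (n - c₁) k
    rw [show n - c₁ - k = n - k - c₁ by ring] at h1
    rcases hC h hh0 (by linarith) n hn with h2 | h2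
    · constructor
      · intro _; linarith
      · intro _; linarith
    · have h3 := dd_tri y c₁ n c₂
      have h4 := dd_comm y c₁ n
      have h5 := dd_add y (n - k - c₁) k
      rw [show n - k - c₁ + k = n - c₁ by ring] at h5
      constructor
      · intro h6
        linarith
      · intro h6
        linarith

/-- the local homomorphism -/
theorem exists_hom {y : ℤ → Bool} (hc : Core y) (h2 : TwoPoints y) :
    ∃ (σ : ℝ) (m : ℤ → ℝ), 0 < σ ∧ (∀ h, dd y h < σ → |m h| = dd y h / 2) ∧
      ∀ h k, dd y h < σ → dd y k < σ → m (h + k) = m h + m k := by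
  obtain ⟨σ, B, hσ, hB1, hB2⟩ := split hc h2
  have bd : ∀ h, BddF (fun n => ind B n * (F y (n + h) - F y n)) := by
    intro h
    apply bddF_mul (ind_bdd B)
    obtain ⟨C, hC⟩ := F_bdd y
    refine ⟨C + C, fun n => ?_⟩
    exact (abs_sub _ _).trans (add_le_add (hC _) (hC _))
  refine ⟨σ, fun h => mean (fun n => ind B n * (F y (n + h) - F y n)), hσ, ?_, ?_⟩
  · intro h hh
    rcases (dd_nonneg y h).eq_or_lt with h0 | h0
    · have : h = 0 := by
        by_contra hne
        have := hc.pos h hne
        linarith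
      subst this
      have e : (fun n => ind B n * (F y (n + 0) - F y n)) = fun _ => (0 : ℝ) := by
        ext n; simp
      simp only [e, mean_zero, dd_zero]
      simp
    · rcases hB1 h h0 hh with ⟨h3, h4⟩ | ⟨h3, h4⟩
      · have e : (fun n => ind B n * (F y (n + h) - F y n)) = ind (R01 y h) := by
          ext n
          rw [F_sub]
          by_cases h5 : n ∈ R01 y h
          · have h6 : n ∉ R10 y h := by
              intro h7
              have := h5.1.symm.trans h7.1
              exact absurd this (by decide)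
            rw [ind_of_mem h5, ind_of_not_mem h6, ind_of_mem (h3 n h5)]; ring
          · rw [ind_of_not_mem h5]
            by_cases h6 : n ∈ R10 y h
            · rw [ind_of_not_mem (h4 n h6)]; ring
            · rw [ind_of_not_mem h6]; ring
        simp only [e]
        rw [half01, abs_of_nonneg (by linarith)]
      · have e : (fun n => ind B n * (F y (n + h) - F y n)) =
            fun n => (-1) * ind (R10 y h) n := by
          ext n
          rw [F_sub]
          by_cases h5 : n ∈ R10 y h
          · have h6 : n ∉ R01 y h := by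
              intro h7
              have := h5.1.symm.trans h7.1
              exact absurd this (by decide)
            rw [ind_of_mem h5, ind_of_not_mem h6, ind_of_mem (h4 n h5)]; ring
          · rw [ind_of_not_mem h5]
            by_cases h6 : n ∈ R01 y h
            · rw [ind_of_not_mem (h3 n h6)]; ring
            · rw [ind_of_not_mem h6]; ring
        simp only [e]
        rw [isMean_mean.smul _ _ (ind_bdd _), half10, abs_mul, abs_of_nonneg (by linarith : 0 ≤ dd y h / 2)]
        simp
  · intro h k hh hk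
    have e1 : mean (fun n => ind B n * (F y (n + k) - F y n)) =
        mean (fun n => ind B n * (F y (n + h + k) - F y (n + h))) := by
      have e0 := isMean_mean.shift (fun n => ind B (n + -h) * (F y (n + k) - F y n))
        (bddF_mul (bddF_shift (-h) (ind_bdd B)) (by
          obtain ⟨C, hC⟩ := F_bdd y
          exact ⟨C + C, fun n => (abs_sub _ _).trans (add_le_add (hC (n + k)) (hC n))⟩)) h
      have e2 : (fun n => ind B (n + -h) * (F y (n + k) - F y n)) =
          fun n => ind B n * (F y (n + k) - F y n) := by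
        ext n
        by_cases h5 : n ∈ R y k
        · have hk0 : 0 < dd y k := by
            apply hc.pos
            rintro rfl
            exact h5 (by rw [add_zero])
          have h6 := hB2 k hk0 hk n h5 h hh
          by_cases h7 : n ∈ B
          · rw [ind_of_mem h7, ind_of_mem]
            rw [← sub_eq_add_neg]; exact h6.mpr h7
          · rw [ind_of_not_mem h7, ind_of_not_mem]
            rw [← sub_eq_add_neg]; exact fun h8 => h7 (h6.mp h8)
        · have h6 : y n = y (n + k) := by
            by_contra hcon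
            exact h5 hcon
          have h7 : F y (n + k) - F y n = 0 := by
            unfold F; rw [h6]; ring
          rw [h7]; ring
      have e3 : (fun n => ind B (n + h + -h) * (F y (n + h + k) - F y (n + h))) =
          fun n => ind B n * (F y (n + h + k) - F y (n + h)) := by
        ext n
        rw [show n + h + -h = n by ring]
      rw [e2] at e0
      rw [← e0]
      exact congrArg mean e3
    simp only
    rw [e1, ← isMean_mean.add _ _ (bd h) (by
      apply bddF_mul (ind_bdd B)
      obtain ⟨C, hC⟩ := F_bdd y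
      exact ⟨C + C, fun n => (abs_sub _ _).trans (add_le_add (hC _) (hC _))⟩)]
    congr 1
    ext n
    rw [show n + (h + k) = n + h + k by ring]
    ring

end Pool.Agent.Helper434.PCRotA
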