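import Mathlib
import Pool.Agent.Helper434.PCRotA

set_option autoImplicit false

namespace Pool.Agent.Helper434.PCRotB

open Pool.Agent.Helper434.PCDefs Pool.Agent.Helper434.PCBasic Pool.Agent.Helper434.PCRotA

section

variable {y : ℤ → Bool} {σ s : ℝ} {m : ℤ → ℝ}

lemma m_zero (hσ : 0 < σ) (habs : ∀ h, dd y h < σ → |m h| = dd y h / 2) : m 0 = 0 := by
  have h := habs 0 (by rw [dd_zero]; exact hσ)
  rw [dd_zero, zero_div, abs_eq_zero] at h
  exact h

lemma m_neg (hσ : 0 < σ) (habs : ∀ h, dd y h < σ → |m h| = dd y h / 2)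
    (hadd : ∀ h k, dd y h < σ → dd y k < σ → m (h + k) = m h + m k) {h : ℤ} (hh : dd y h < σ) :
    m (-h) = -m h := by
  have h1 := hadd h (-h) hh (by rw [dd_neg]; exact hh)
  rw [add_neg_cancel, m_zero hσ habs] at h1
  linarith

/-- the greedy reordering -/
lemma greedy (hs : 0 < s) (hsσ : 2 * s < σ) (habs : ∀ h, dd y h < σ → |m h| = dd y h / 2)
    (hadd : ∀ h k, dd y h < σ → dd y k < σ → m (h + k) = m h + m k) (len : ℕ) :
    ∀ l : List ℤ, l.length = len → (∀ h ∈ l, dd y h ≤ s) → ∀ n₀, dd y n₀ ≤ s →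
      |m n₀ + (l.map m).sum| ≤ s / 2 →
      dd y (n₀ + l.sum) ≤ s ∧ m (n₀ + l.sum) = m n₀ + (l.map m).sum := by
  induction len with
  | zero =>
    intro l hl _ n₀ h0 _
    rw [List.length_eq_zero_iff] at hl
    subst hl
    simp [h0]
  | succ len ih =>
    intro l hl hsm n₀ h0 htot
    have hm0 : |m n₀| ≤ s / 2 := by rw [habs n₀ (by linarith)]; linarith
    have hmh : ∀ h ∈ l, |m h| ≤ s / 2 := fun h hh => by
      have := hsm h hh
      rw [habs h (by linarith)]; linarith
    have hex : ∃ h ∈ l, |m n₀ + m h| ≤ s / 2 := by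
      by_cases H : ∃ h ∈ l, m n₀ * m h ≤ 0
      · obtain ⟨h, hh, H⟩ := H
        refine ⟨h, hh, ?_⟩
        have h1 := abs_le.mp hm0
        have h2 := abs_le.mp (hmh h hh)
        rw [abs_le]
        rcases le_total 0 (m n₀) with h3 | h3
        · rcases h3.eq_or_lt with h4 | h4
          · rw [← h4]; constructor <;> linarith
          · have h5 : m h ≤ 0 := by
              by_contra hcon
              push Not at hcon
              have := mul_pos h4 hcon
              linarith
            constructor <;> linarith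
        · rcases h3.eq_or_lt with h4 | h4
          · rw [h4]; constructor <;> linarith
          · have h5 : 0 ≤ m h := by
              by_contra hcon
              push Not at hcon
              have := mul_pos_of_neg_of_neg h4 hcon
              linarith
            constructor <;> linarith
      · push Not at H
        have hne : l ≠ [] := by
          rintro rfl
          simp at hl
        obtain ⟨h, hh⟩ := List.exists_mem_of_ne_nil l hne
        refine ⟨h, hh, ?_⟩
        have h1 := H h hh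
        have htot' := abs_le.mp htot
        rw [abs_le]
        rcases lt_trichotomy (m n₀) 0 with h3 | h3 | h3
        · have h4 : ∀ k ∈ l, m k < 0 := fun k hk => by
            by_contra hcon
            push Not at hcon
            have := mul_nonpos_of_nonpos_of_nonneg h3.le hcon
            have := H k hk
            linarith
          have h5 : -(m h) ≤ ((l.map fun k => -(m k))).sum := by
            apply List.single_le_sum
            · intro x hx
              rw [List.mem_map] at hx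
              obtain ⟨k, hk, rfl⟩ := hx
              have := h4 k hk
              linarith
            · rw [List.mem_map]
              exact ⟨h, hh, rfl⟩
          have h6 : ((l.map fun k => -(m k))).sum = -(l.map m).sum := by
            have e : (l.map fun k => -(m k)) = (l.map m).map (fun x => -x) := by
              rw [List.map_map]; rfl
            rw [e, List.sum_neg]
          have := h4 h hh
          constructor <;> linarith
        · rw [h3] at h1; linarith
        · have h4 : ∀ k ∈ l, 0 < m k := fun k hk => by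
            by_contra hcon
            push Not at hcon
            have := mul_nonpos_of_nonneg_of_nonpos h3.le hcon
            have := H k hk
            linarith
          have h5 : m h ≤ (l.map m).sum := by
            apply List.single_le_sum
            · intro x hx
              rw [List.mem_map] at hx
              obtain ⟨k, hk, rfl⟩ := hx
              exact (h4 k hk).le
            · rw [List.mem_map]
              exact ⟨h, hh, rfl⟩
          have := h4 h hh
          constructor <;> linarith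
    obtain ⟨h, hh, hle⟩ := hex
    have hperm := List.perm_cons_erase hh
    have hsum : l.sum = h + (l.erase h).sum := by
      rw [hperm.sum_eq, List.sum_cons]
    have hmsum : (l.map m).sum = m h + ((l.erase h).map m).sum := by
      rw [(hperm.map m).sum_eq, List.map_cons, List.sum_cons]
    have hdh := hsm h hh
    have hm1 : m (n₀ + h) = m n₀ + m h := hadd n₀ h (by linarith) (by linarith)
    have hd1 : dd y (n₀ + h) < σ := by
      have := dd_add y n₀ h
      linarith
    have hd2 : dd y (n₀ + h) ≤ s := by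
      have := habs _ hd1
      rw [hm1] at this
      linarith
    have := ih (l.erase h) (by rw [List.length_erase_of_mem hh, hl]; rfl)
      (fun k hk => hsm k (List.mem_of_mem_erase hk)) (n₀ + h) hd2 (by
        rw [hm1]; rw [hmsum] at htot
        rw [show m n₀ + m h + ((l.erase h).map m).sum =
          m n₀ + (m h + ((l.erase h).map m).sum) by ring]
        exact htot)
    rw [hsum, hmsum, ← add_assoc]
    refine ⟨this.1, ?_⟩
    rw [this.2, hm1]; ring

/-- the lattice of lifts -/
def Γ (hσ : 0 < σ) (hsσ : 2 * s < σ) (habs : ∀ h, dd y h < σ → |m h| = dd y h / 2)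
    (hadd : ∀ h k, dd y h < σ → dd y k < σ → m (h + k) = m h + m k) (hs : 0 < s) :
    AddSubgroup (ℤ × ℝ) where
  carrier := {p | ∃ l : List ℤ, (∀ h ∈ l, dd y h ≤ s) ∧ l.sum = p.1 ∧ (l.map m).sum = p.2}
  zero_mem' := ⟨[], by simp, by simp, by simp⟩
  add_mem' := by
    rintro a b ⟨l, h1, h2, h3⟩ ⟨l', h1', h2', h3'⟩
    refine ⟨l ++ l', ?_, ?_, ?_⟩
    · intro h hh
      rcases List.mem_append.mp hh with h4 | h4
      · exact h1 h h4
      · exact h1' h h4
    · rw [List.sum_append, h2, h2']; rfl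
    · rw [List.map_append, List.sum_append, h3, h3']; rfl
  neg_mem' := by
    rintro a ⟨l, h1, h2, h3⟩
    refine ⟨l.map (fun h => -h), ?_, ?_, ?_⟩
    · intro h hh
      rw [List.mem_map] at hh
      obtain ⟨k, hk, rfl⟩ := hh
      rw [dd_neg]; exact h1 k hk
    · rw [Prod.fst_neg, ← h2, List.sum_neg]
    · rw [Prod.snd_neg, ← h3, List.sum_neg, List.map_map, List.map_map]
      congr 1
      apply List.map_congr_left
      intro h hh
      have := h1 h hh
      exact m_neg hσ habs hadd (by linarith)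

end

/-- small shifts are the multiples of `N` that are almost periods of a rotation -/
theorem lattice {y : ℤ → Bool} (hc : Core y) (h2 : TwoPoints y) :
    ∃ (N : ℤ) (α P s : ℝ), 0 < N ∧ 0 < P ∧ 0 < s ∧
      (∀ h, dd y h ≤ s → ∃ k j : ℤ, h = N * k ∧ |k * α - j| = dd y h / (2 * P)) ∧
      ∀ k j : ℤ, |k * α - j| ≤ s / (2 * P) → dd y (N * k) = 2 * P * |k * α - j| := by
  obtain ⟨σ, m, hσ, habs, hadd⟩ := exists_hom hc h2
  set s := σ / 4 with hs'
  have hs : 0 < s := by positivity
  have hsσ : 2 * s < σ := by rw [hs']; linarith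
  set G := Γ hσ hsσ habs hadd hs with hG
  have hGmem : ∀ n t, (n, t) ∈ G ↔
      ∃ l : List ℤ, (∀ h ∈ l, dd y h ≤ s) ∧ l.sum = n ∧ (l.map m).sum = t := fun n t => Iff.rfl
  have hsmall : ∀ n t, (n, t) ∈ G → |t| ≤ s / 2 → dd y n ≤ s ∧ m n = t := by
    rintro n t h ht
    obtain ⟨l, h1, h3, h4⟩ := (hGmem n t).mp h
    have := greedy hs hsσ habs hadd l.length l rfl h1 0 (by rw [dd_zero]; exact hs.le)
      (by rw [m_zero hσ habs, zero_add, h4]; exact ht)
    rw [m_zero hσ habs, zero_add, zero_add, h3, h4] at this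
    exact this
  have hgen : ∀ h, dd y h ≤ s → (h, m h) ∈ G := fun h hh =>
    (hGmem _ _).mpr ⟨[h], by simpa using hh, by simp, by simp⟩
  -- the kernel
  set K : AddSubgroup ℝ := G.comap (AddMonoidHom.inr ℤ ℝ) with hK
  have hKmem : ∀ t, t ∈ K ↔ ((0 : ℤ), t) ∈ G := fun t => Iff.rfl
  obtain ⟨P₀, hP₀⟩ := AddSubgroup.cyclic_of_isolated_zero (H := K) (a := s / 2) (by positivity) (by
    rw [Set.disjoint_left]
    rintro t ht ⟨h3, h4⟩
    have := hsmall 0 t ((hKmem t).mp ht) (by rw [abs_of_pos h3]; exact h4.le)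
    rw [m_zero hσ habs] at this
    linarith [this.2])
  have hKP : ∀ t, ((0 : ℤ), t) ∈ G ↔ ∃ j : ℤ, (j : ℝ) * P₀ = t := by
    intro t
    rw [← hKmem, hP₀, AddSubgroup.mem_closure_singleton]
    simp only [zsmul_eq_mul]
  -- the image
  obtain ⟨N₀, hN₀⟩ := Int.subgroup_cyclic (G.map (AddMonoidHom.fst ℤ ℝ))
  have hN : ∀ n, (∃ t, (n, t) ∈ G) ↔ ∃ k : ℤ, k * N₀ = n := by
    intro n
    have h1 : n ∈ G.map (AddMonoidHom.fst ℤ ℝ) ↔ ∃ k : ℤ, k * N₀ = n := by
      rw [hN₀, AddSubgroup.mem_closure_singleton]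
      simp only [smul_eq_mul]
    rw [← h1, AddSubgroup.mem_map]
    constructor
    · rintro ⟨t, ht⟩
      exact ⟨(n, t), ht, rfl⟩
    · rintro ⟨⟨a, t⟩, ht, h3⟩
      have h4 : a = n := h3
      subst h4
      exact ⟨t, ht⟩
  obtain ⟨h₁, hh₁0, hh₁s⟩ := hc.inf s hs
  have hN₀ne : N₀ ≠ 0 := by
    rintro rfl
    obtain ⟨k, hk⟩ := (hN h₁).mp ⟨m h₁, hgen h₁ hh₁s.le⟩
    rw [mul_zero] at hk
    rw [← hk, dd_zero] at hh₁0
    exact lt_irrefl _ hh₁0
  obtain ⟨N, hNpos, hNN⟩ : ∃ N : ℤ, 0 < N ∧ ∀ n, (∃ t, (n, t) ∈ G) ↔ ∃ k : ℤ, n = N * k := by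
    refine ⟨|N₀|, abs_pos.mpr hN₀ne, fun n => ?_⟩
    rw [hN n]
    rcases abs_choice N₀ with h | h
    · rw [h]
      constructor
      · rintro ⟨k, rfl⟩; exact ⟨k, mul_comm _ _⟩
      · rintro ⟨k, rfl⟩; exact ⟨k, mul_comm _ _⟩
    · rw [h]
      constructor
      · rintro ⟨k, rfl⟩; exact ⟨-k, by ring⟩
      · rintro ⟨k, rfl⟩; exact ⟨-k, by ring⟩
  obtain ⟨t₀, ht₀⟩ := (hNN N).mpr ⟨1, by ring⟩
  have hmul : ∀ k : ℤ, (N * k, (k : ℝ) * t₀) ∈ G := by
    intro k
    have h1 := G.zsmul_mem ht₀ k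
    have h3 : k • (N, t₀) = (N * k, (k : ℝ) * t₀) := by
      rw [Prod.smul_mk, smul_eq_mul, zsmul_eq_mul, mul_comm]
    rwa [h3] at h1
  have hrep : ∀ h, dd y h ≤ s → ∃ k j : ℤ, h = N * k ∧ m h = k * t₀ - j * P₀ := by
    intro h hh
    obtain ⟨k, hk⟩ := (hNN h).mp ⟨_, hgen h hh⟩
    have h1 := G.sub_mem (hmul k) (hgen h hh)
    have h3 : (N * k, (k : ℝ) * t₀) - (h, m h) = ((0 : ℤ), (k : ℝ) * t₀ - m h) := by
      rw [Prod.mk_sub_mk, hk, sub_self]
    rw [h3, hKP] at h1
    obtain ⟨j, hj⟩ := h1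
    exact ⟨k, j, hk, by rw [hj]; ring⟩
  have hP₀ne : P₀ ≠ 0 := by
    rintro rfl
    simp only [mul_zero, sub_zero] at hrep
    by_cases ht : t₀ = 0
    · obtain ⟨k, j, h3, h4⟩ := hrep h₁ hh₁s.le
      rw [ht, mul_zero] at h4
      have h5 := habs h₁ (by linarith)
      rw [h4, abs_zero] at h5
      linarith
    · obtain ⟨h, hh0, hhs⟩ := hc.inf (min s |t₀|) (lt_min hs (abs_pos.mpr ht))
      have h6 := lt_of_lt_of_le hhs (min_le_left _ _)
      have h7 := lt_of_lt_of_le hhs (min_le_right _ _)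
      obtain ⟨k, j, h3, h4⟩ := hrep h h6.le
      have h5 := habs h (by linarith)
      rw [h4, abs_mul] at h5
      have hk0 : k ≠ 0 := by
        rintro rfl
        rw [mul_zero] at h3
        rw [h3, dd_zero] at hh0
        exact lt_irrefl _ hh0
      have h8 : (1 : ℝ) ≤ |(k : ℝ)| := by
        rw [← Int.cast_abs]
        exact_mod_cast Int.one_le_abs hk0
      have h9 : |t₀| ≤ |(k : ℝ)| * |t₀| := le_mul_of_one_le_left (abs_nonneg _) h8
      linarith
  -- positive generator
  obtain ⟨P, hP, hKP'⟩ : ∃ P : ℝ, 0 < P ∧ ∀ t, ((0 : ℤ), t) ∈ G ↔ ∃ j : ℤ, (j : ℝ) * P = t := by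
    refine ⟨|P₀|, abs_pos.mpr hP₀ne, fun t => ?_⟩
    rw [hKP]
    rcases abs_choice P₀ with h | h
    · rw [h]
    · rw [h]
      constructor
      · rintro ⟨k, rfl⟩; exact ⟨-k, by push_cast; ring⟩
      · rintro ⟨k, rfl⟩; exact ⟨-k, by push_cast; ring⟩
  refine ⟨N, t₀ / P, P, s, hNpos, hP, hs, ?_, ?_⟩
  · intro h hh
    obtain ⟨k, hk⟩ := (hNN h).mp ⟨_, hgen h hh⟩
    have h1 := G.sub_mem (hmul k) (hgen h hh)
    have h3 : (N * k, (k : ℝ) * t₀) - (h, m h) = ((0 : ℤ), (k : ℝ) * t₀ - m h) := by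
      rw [Prod.mk_sub_mk, hk, sub_self]
    rw [h3, hKP'] at h1
    obtain ⟨j, hj⟩ := h1
    refine ⟨k, j, hk, ?_⟩
    have h4 : (k : ℝ) * (t₀ / P) - j = m h / P := by
      have : m h = k * t₀ - j * P := by rw [hj]; ring
      rw [this]; field_simp
    rw [h4, abs_div, habs h (by linarith), abs_of_pos hP]
    field_simp
  · intro k j hkj
    have h1 : ((k : ℝ) * (t₀ / P) - j) = (k * t₀ - j * P) / P := by field_simp
    rw [h1, abs_div, abs_of_pos hP] at hkj ⊢
    have h4 : |(k : ℝ) * t₀ - j * P| ≤ s / 2 := by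
      rw [div_le_div_iff₀ hP (by positivity)] at hkj
      nlinarith
    have h5 : (N * k, (k : ℝ) * t₀ - j * P) ∈ G := by
      have h6 := G.sub_mem (hmul k) ((hKP' _).mpr ⟨j, rfl⟩)
      have h7 : (N * k, (k : ℝ) * t₀) - ((0 : ℤ), (j : ℝ) * P) =
          (N * k, (k : ℝ) * t₀ - j * P) := by
        rw [Prod.mk_sub_mk, sub_zero]
      rwa [h7] at h6
    have h6 := hsmall _ _ h5 h4
    have h7 := habs (N * k) (by linarith [h6.1])
    rw [h6.2] at h7
    rw [h7]
    field_simp

end Pool.Agent.Helper434.PCRotB
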