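import Mathlib
import Pool.Agent.Helper434.PCRotB

set_option autoImplicit false

namespace Pool.Agent.Helper434.PCRotC

open Pool.Agent.Helper434.PCDefs Pool.Agent.Helper434.PCBasic Pool.Agent.Helper434.PCRotA

/-- the data obtained from the lattice -/
structure Lat (y : ℤ → Bool) (N : ℤ) (α P s : ℝ) : Prop where
  N0 : 0 < N
  P0 : 0 < P
  s0 : 0 < s
  L1 : ∀ h, dd y h ≤ s → ∃ k j : ℤ, h = N * k ∧ |k * α - j| = dd y h / (2 * P)
  L2 : ∀ k j : ℤ, |k * α - j| ≤ s / (2 * P) → dd y (N * k) = 2 * P * |k * α - j|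

section

variable {y : ℤ → Bool} {N : ℤ} {α P s : ℝ}

lemma kzero (hc : Core y) (L : Lat y N α P s) {k j : ℤ} (h : (k : ℝ) * α = j) : k = 0 := by
  have h1 := L.L2 k j (by rw [h, sub_self, abs_zero]; exact div_nonneg L.s0.le (by linarith [L.P0]))
  rw [h, sub_self, abs_zero, mul_zero] at h1
  by_contra hk
  have := hc.pos (N * k) (mul_ne_zero L.N0.ne' hk)
  linarith

lemma irr (hc : Core y) (L : Lat y N α P s) : Irrational α := by
  rintro ⟨q, hq⟩
  have h1 : ((q.den : ℤ) : ℝ) * α = (q.num : ℤ) := by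
    rw [← hq]
    have := Rat.den_mul_eq_num q
    push_cast
    exact_mod_cast this
  have := kzero hc L h1
  have h2 := q.den_pos
  omega

lemma keq (hc : Core y) (L : Lat y N α P s) {k j k' j' : ℤ}
    (h : (k : ℝ) * α - j = k' * α - j') : k = k' := by
  have h1 : ((k - k' : ℤ) : ℝ) * α = ((j - j' : ℤ) : ℝ) := by push_cast; linarith
  have := kzero hc L h1
  omega

lemma small (hc : Core y) (L : Lat y N α P s) {ε : ℝ} (hε : 0 < ε) :
    ∃ k j : ℤ, 0 < k * α - j ∧ k * α - j < ε := by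
  have hP := L.P0
  obtain ⟨h, hh0, hh1⟩ := hc.inf (min s (ε * P)) (lt_min L.s0 (mul_pos hε hP))
  have h2 := lt_of_lt_of_le hh1 (min_le_left _ _)
  have h3 := lt_of_lt_of_le hh1 (min_le_right _ _)
  obtain ⟨k, j, -, h4⟩ := L.L1 h h2.le
  have h5 : 0 < |(k : ℝ) * α - j| := by rw [h4]; positivity
  have h6 : |(k : ℝ) * α - j| < ε := by
    rw [h4, div_lt_iff₀ (by positivity)]
    nlinarith
  rcases abs_choice ((k : ℝ) * α - j) with h7 | h7
  · rw [h7] at h5 h6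
    exact ⟨k, j, h5, h6⟩
  · rw [h7] at h5 h6
    refine ⟨-k, -j, ?_, ?_⟩
    · push_cast; linarith
    · push_cast; linarith

lemma dense (hc : Core y) (L : Lat y N α P s) (t : ℝ) {ε : ℝ} (hε : 0 < ε) :
    ∃ k j : ℤ, |k * α - j - t| < ε := by
  obtain ⟨k, j, h1, h2⟩ := small hc L hε
  set e := (k : ℝ) * α - j with he
  refine ⟨⌊t / e⌋ * k, ⌊t / e⌋ * j, ?_⟩
  have h3 := Int.floor_le (t / e)
  have h4 := Int.lt_floor_add_one (t / e)
  rw [le_div_iff₀ h1] at h3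
  rw [div_lt_iff₀ h1] at h4
  have h5 : ((⌊t / e⌋ * k : ℤ) : ℝ) * α - ((⌊t / e⌋ * j : ℤ) : ℝ) - t = ⌊t / e⌋ * e - t := by
    push_cast; rw [he]; ring
  rw [h5, abs_lt]
  constructor <;> linarith

/-- lifted phases of a given letter in a given class -/
def Z (y : ℤ → Bool) (N : ℤ) (α : ℝ) (r : ℤ) (a : Bool) : Set ℝ :=
  {t | ∃ k j : ℤ, t = k * α - j ∧ y (r + N * k) = a}

/-- common accumulation points -/
def D (y : ℤ → Bool) (N : ℤ) (α : ℝ) (r : ℤ) : Set ℝ :=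
  closure (Z y N α r false) ∩ closure (Z y N α r true)

lemma cover (hc : Core y) (L : Lat y N α P s) (r : ℤ) (t : ℝ) :
    t ∈ closure (Z y N α r false) ∪ closure (Z y N α r true) := by
  rw [← closure_union, Metric.mem_closure_iff]
  intro ε hε
  obtain ⟨k, j, h⟩ := dense hc L t hε
  refine ⟨k * α - j, ?_, ?_⟩
  · cases h1 : y (r + N * k)
    · left; exact ⟨k, j, rfl, h1⟩
    · right; exact ⟨k, j, rfl, h1⟩
  · rw [dist_comm, Real.dist_eq]; exact h

lemma mono (hc : Core y) (L : Lat y N α P s) (r : ℤ) {I : Set ℝ} (hI : IsPreconnected I)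
    (hD : ∀ t ∈ I, t ∉ D y N α r) : ∃ a : Bool, ∀ t ∈ I, t ∉ Z y N α r a := by
  have h1 := isPreconnected_closed_iff.mp hI _ _ (isClosed_closure (s := Z y N α r false))
    (isClosed_closure (s := Z y N α r true)) (fun t _ => cover hc L r t)
  by_cases h2 : (I ∩ closure (Z y N α r false)).Nonempty
  · by_cases h3 : (I ∩ closure (Z y N α r true)).Nonempty
    · obtain ⟨t, ht1, ht2⟩ := h1 h2 h3
      exact absurd ht2 (hD t ht1)
    · exact ⟨true, fun t ht hZ => h3 ⟨t, ht, subset_closure hZ⟩⟩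
  · exact ⟨false, fun t ht hZ => h2 ⟨t, ht, subset_closure hZ⟩⟩

/-- letters recur in each class -/
lemma recur (hc : Core y) (L : Lat y N α P s) (r k₀ : ℤ) (X : Finset ℤ) :
    ∃ k, k ∉ X ∧ y (r + N * k) = y (r + N * k₀) := by
  obtain ⟨W, hW⟩ := hc.sep s L.s0
  obtain ⟨G, hG⟩ := hc.urec (insert 0 W) (r + N * k₀)
  obtain ⟨b, hb⟩ : ∃ b : ℤ, ∀ k ∈ X, r + N * k < b := by
    obtain ⟨b, hb⟩ := (X.image fun k => r + N * k).bddAbove
    refine ⟨b + 1, fun k hk => ?_⟩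
    have := hb (Finset.mem_coe.mpr (Finset.mem_image_of_mem (fun k => r + N * k) hk))
    linarith
  obtain ⟨m', h1, -, h3⟩ := hG b
  have h4 : dd y (m' - (r + N * k₀)) < s := hW _ _ fun i hi => h3 i (Finset.mem_insert_of_mem hi)
  obtain ⟨k, j, h5, -⟩ := L.L1 _ h4.le
  refine ⟨k₀ + k, ?_, ?_⟩
  · intro hk
    have := hb _ hk
    have e : r + N * (k₀ + k) = m' := by linarith
    omega
  · have := h3 0 (Finset.mem_insert_self _ _)
    rw [add_zero, add_zero] at this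
    rw [← this]
    congr 1
    linarith

lemma near (hc : Core y) (L : Lat y N α P s) {η : ℝ} (hη : 0 < η) :
    ∃ c₁ c₂ : ℤ, ∀ r φ, φ ∈ D y N α r → ∀ δ : ℝ, 0 < δ → ∃ k j : ℤ, |k * α - j - φ| < δ ∧
      (dd y (r + N * k - c₁) < η ∨ dd y (r + N * k - c₂) < η) := by
  obtain ⟨ε, hε, c₁, c₂, hC⟩ := hc.two η hη
  have hP := L.P0
  have hs := L.s0
  refine ⟨c₁, c₂, fun r φ hφ δ hδ => ?_⟩
  set δ' := min δ (min (ε / (4 * P)) (s / (4 * P))) with hδ'
  have hδ'0 : 0 < δ' := lt_min hδ (lt_min (by positivity) (by positivity))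
  have hδ1 : δ' ≤ δ := min_le_left _ _
  have hδ2 : δ' ≤ ε / (4 * P) := (min_le_right _ _).trans (min_le_left _ _)
  have hδ3 : δ' ≤ s / (4 * P) := (min_le_right _ _).trans (min_le_right _ _)
  obtain ⟨t, ⟨k, j, rfl, hy0⟩, ht⟩ := Metric.mem_closure_iff.mp hφ.1 δ' hδ'0
  obtain ⟨t', ⟨k', j', rfl, hy1⟩, ht'⟩ := Metric.mem_closure_iff.mp hφ.2 δ' hδ'0
  rw [Real.dist_eq] at ht ht'
  refine ⟨k, j, ?_, ?_⟩
  · rw [abs_sub_comm]; linarith
  · have h1 : |((k' - k : ℤ) : ℝ) * α - ((j' - j : ℤ) : ℝ)| < 2 * δ' := by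
      rw [show ((k' - k : ℤ) : ℝ) * α - ((j' - j : ℤ) : ℝ) =
        (φ - (k * α - j)) - (φ - (k' * α - j')) by push_cast; ring]
      exact (abs_sub _ _).trans_lt (by linarith)
    have h2 := L.L2 (k' - k) (j' - j) (by
      have : s / (2 * P) = 2 * (s / (4 * P)) := by field_simp; ring
      linarith)
    have h3 : dd y (N * (k' - k)) < ε := by
      rw [h2]
      have : ε = 4 * P * (ε / (4 * P)) := by field_simp
      nlinarith
    have h4 : r + N * k ∈ R y (N * (k' - k)) := by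
      show y (r + N * k) ≠ y (r + N * k + N * (k' - k))
      rw [show r + N * k + N * (k' - k) = r + N * k' by ring, hy0, hy1]
      decide
    have h5 : 0 < dd y (N * (k' - k)) := by
      apply hc.pos
      intro h6
      rw [h6] at h4
      exact h4 (by rw [add_zero])
    exact hC _ h5 h3 _ h4

/-- equivalence of two accumulation points -/
def Rel (r : ℤ) (φ : ℝ) (r' : ℤ) (φ' : ℝ) : Prop := r = r' ∧ ∃ J : ℤ, φ - φ' = J

lemma not_rel {r : ℤ} {φ : ℝ} {r' : ℤ} {φ' : ℝ} (h : ¬ Rel r φ r' φ') :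
    ∃ ε : ℝ, 0 < ε ∧ (r = r' → ∀ J : ℤ, ε ≤ |φ - φ' - J|) := by
  by_cases hr : r = r'
  · have h1 : φ - φ' - round (φ - φ') ≠ 0 := by
      intro h2
      exact h ⟨hr, round (φ - φ'), by linarith⟩
    exact ⟨|φ - φ' - round (φ - φ')|, abs_pos.mpr h1, fun _ J => round_le _ _⟩
  · exact ⟨1, one_pos, fun h => absurd h hr⟩

lemma close_rel (L : Lat y N α P s) {c r r' : ℤ} {φ φ' ε η δ : ℝ} {k j k' j' : ℤ}
    (hr0 : 0 ≤ r) (hrN : r < N) (hr'0 : 0 ≤ r') (hr'N : r' < N)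
    (hε : r = r' → ∀ J : ℤ, ε ≤ |φ - φ' - J|) (hη : 2 * η ≤ s) (hηε : η / P + 2 * δ ≤ ε)
    (h1 : |k * α - j - φ| < δ) (h2 : |k' * α - j' - φ'| < δ)
    (h3 : dd y (r + N * k - c) < η) (h4 : dd y (r' + N * k' - c) < η) : False := by
  have hP := L.P0
  have h5 := dd_tri y (r + N * k) c (r' + N * k')
  have h6 := dd_comm y c (r' + N * k')
  obtain ⟨k'', j'', h7, h8⟩ := L.L1 (r + N * k - (r' + N * k')) (by linarith)
  have h9 : r = r' := by
    have hd : N ∣ r - r' := ⟨k'' - k + k', by linarith⟩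
    have := Int.eq_zero_of_abs_lt_dvd hd (by rw [abs_lt]; constructor <;> linarith)
    omega
  have h10 : k'' = k - k' := by
    have : N * k'' = N * (k - k') := by rw [← h7, h9]; ring
    exact mul_left_cancel₀ L.N0.ne' this
  have h11 := hε h9 (j'' - (j - j'))
  have h12 : |(k'' : ℝ) * α - j''| < η / P := by
    rw [h8, div_lt_div_iff₀ (by positivity) hP]
    nlinarith
  have h13 : φ - φ' - ((j'' - (j - j') : ℤ) : ℝ) =
      ((k'' : ℝ) * α - j'') - (k * α - j - φ) + (k' * α - j' - φ') := by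
    rw [h10]; push_cast; ring
  rw [h13] at h11
  have h14 := abs_add_le (((k'' : ℝ) * α - j'') - (k * α - j - φ)) (k' * α - j' - φ')
  have h15 := abs_sub ((k'' : ℝ) * α - j'') (k * α - j - φ)
  linarith

lemma three (hc : Core y) (L : Lat y N α P s) {r₁ r₂ r₃ : ℤ} {φ₁ φ₂ φ₃ : ℝ}
    (h1 : 0 ≤ r₁) (h1' : r₁ < N) (h2 : 0 ≤ r₂) (h2' : r₂ < N) (h3 : 0 ≤ r₃) (h3' : r₃ < N)
    (hφ₁ : φ₁ ∈ D y N α r₁) (hφ₂ : φ₂ ∈ D y N α r₂) (hφ₃ : φ₃ ∈ D y N α r₃)
    (h12 : ¬ Rel r₁ φ₁ r₂ φ₂) : Rel r₃ φ₃ r₁ φ₁ ∨ Rel r₃ φ₃ r₂ φ₂ := by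
  by_contra hcon
  push Not at hcon
  obtain ⟨h31, h32⟩ := hcon
  obtain ⟨ε₁, hε₁, e1⟩ := not_rel h12
  obtain ⟨ε₂, hε₂, e2⟩ := not_rel h31
  obtain ⟨ε₃, hε₃, e3⟩ := not_rel h32
  have hP := L.P0
  have hs := L.s0
  set ε := min ε₁ (min ε₂ ε₃) with hε
  have hε0 : 0 < ε := lt_min hε₁ (lt_min hε₂ hε₃)
  have hεa : ε ≤ ε₁ := min_le_left _ _
  have hεb : ε ≤ ε₂ := (min_le_right _ _).trans (min_le_left _ _)
  have hεc : ε ≤ ε₃ := (min_le_right _ _).trans (min_le_right _ _)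
  set η := min (s / 2) (ε * P / 2) with hη
  have hη0 : 0 < η := lt_min (by positivity) (by positivity)
  have hηs : 2 * η ≤ s := by
    have : η ≤ s / 2 := min_le_left _ _
    linarith
  have hηε : η / P + 2 * (ε / 4) ≤ ε := by
    have h4 : η ≤ ε * P / 2 := min_le_right _ _
    have h5 : η / P ≤ ε / 2 := by
      rw [div_le_div_iff₀ hP two_pos]; linarith
    linarith
  obtain ⟨c₁, c₂, hn⟩ := near hc L hη0
  obtain ⟨k₁, j₁, a1, b1⟩ := hn r₁ φ₁ hφ₁ (ε / 4) (by positivity)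
  obtain ⟨k₂, j₂, a2, b2⟩ := hn r₂ φ₂ hφ₂ (ε / 4) (by positivity)
  obtain ⟨k₃, j₃, a3, b3⟩ := hn r₃ φ₃ hφ₃ (ε / 4) (by positivity)
  have f12 : ∀ c, dd y (r₁ + N * k₁ - c) < η → dd y (r₂ + N * k₂ - c) < η → False :=
    fun c u v => close_rel L h1 h1' h2 h2' (fun hr J => hεa.trans (e1 hr J)) hηs hηε a1 a2 u v
  have f31 : ∀ c, dd y (r₃ + N * k₃ - c) < η → dd y (r₁ + N * k₁ - c) < η → False :=
    fun c u v => close_rel L h3 h3' h1 h1' (fun hr J => hεb.trans (e2 hr J)) hηs hηε a3 a1 u v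
  have f32 : ∀ c, dd y (r₃ + N * k₃ - c) < η → dd y (r₂ + N * k₂ - c) < η → False :=
    fun c u v => close_rel L h3 h3' h2 h2' (fun hr J => hεc.trans (e3 hr J)) hηs hηε a3 a2 u v
  rcases b1 with b1 | b1 <;> rcases b2 with b2 | b2 <;> rcases b3 with b3 | b3
  · exact f12 _ b1 b2
  · exact f12 _ b1 b2
  · exact f31 _ b3 b1
  · exact f32 _ b3 b2
  · exact f32 _ b3 b2
  · exact f31 _ b3 b1
  · exact f12 _ b1 b2
  · exact f12 _ b1 b2

/-- one class is coded by an arc and the other classes are constant -/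
theorem arc (hc : Core y) (L : Lat y N α P s) :
    ∃ (r₀ : ℤ) (φ β : ℝ), 0 ≤ r₀ ∧ r₀ < N ∧ 0 < β ∧ β < 1 ∧
      (∀ k j : ℤ, φ < k * α - j → k * α - j < φ + β → y (r₀ + N * k) = true) ∧
      (∀ k j : ℤ, φ + β < k * α - j → k * α - j < φ + 1 → y (r₀ + N * k) = false) ∧
      ∀ r, 0 ≤ r → r < N → r ≠ r₀ → ∃ a, ∀ k, y (r + N * k) = a := by
  have hN := L.N0
  -- classes without accumulation points are constant
  have hconst : ∀ r, (∀ t, t ∉ D y N α r) → ∃ a, ∀ k, y (r + N * k) = a := by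
    intro r hr
    obtain ⟨a, ha⟩ := mono hc L r isPreconnected_univ (fun t _ => hr t)
    refine ⟨!a, fun k => ?_⟩
    by_contra hk
    have h1 : y (r + N * k) = a := by
      cases h2 : y (r + N * k) <;> cases a <;> simp_all
    exact ha _ (Set.mem_univ _) ⟨k, 0, rfl, h1⟩
  have hex : ∃ r₀, 0 ≤ r₀ ∧ r₀ < N ∧ (D y N α r₀).Nonempty := by
    by_contra hcon
    push Not at hcon
    have h1 : dd y N = 0 := by
      unfold dd
      have : ind (R y N) = fun _ => (0 : ℝ) := by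
        ext n
        rw [ind_R_eq, if_pos]
        obtain ⟨a, ha⟩ := hconst (n % N) (fun t ht => by
          have := hcon (n % N) (Int.emod_nonneg _ hN.ne') (Int.emod_lt_of_pos _ hN)
          rw [this] at ht
          exact ht)
        have h2 := ha (n / N)
        have h3 := ha (n / N + 1)
        rw [Int.emod_add_mul_ediv] at h2
        rw [show n % N + N * (n / N + 1) = (n % N + N * (n / N)) + N by ring,
          Int.emod_add_mul_ediv] at h3
        rw [h2, h3]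
      rw [this, mean_zero]
    have := hc.pos N hN.ne'
    linarith
  obtain ⟨r₀, hr0, hrN, φ₁, hφ₁⟩ := hex
  -- phases in a fundamental interval
  have hfund : ∀ (φ : ℝ) (k : ℤ), ∃ j : ℤ, φ ≤ k * α - j ∧ k * α - j < φ + 1 := by
    intro φ k
    refine ⟨⌊k * α - φ⌋, ?_, ?_⟩
    · have := Int.floor_le (k * α - φ); linarith
    · have := Int.lt_floor_add_one (k * α - φ); linarith
  -- both letters occur
  have hocc : ∀ a, ∃ k, y (r₀ + N * k) = a := by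
    intro a
    have h1 : φ₁ ∈ closure (Z y N α r₀ a) := by
      cases a
      · exact hφ₁.1
      · exact hφ₁.2
    obtain ⟨t, ⟨k, j, -, hk⟩, -⟩ := Metric.mem_closure_iff.mp h1 1 one_pos
    exact ⟨k, hk⟩
  have hmany : ∀ (a : Bool) (X : Finset ℤ), ∃ k, k ∉ X ∧ y (r₀ + N * k) = a := by
    intro a X
    obtain ⟨k, hk⟩ := hocc a
    obtain ⟨k', h1, h2⟩ := recur hc L r₀ k X
    exact ⟨k', h1, h2.trans hk⟩
  -- the second point
  have hex2 : ∃ φ₂ ∈ Set.Ioo φ₁ (φ₁ + 1), φ₂ ∈ D y N α r₀ := by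
    by_contra hcon
    push Not at hcon
    obtain ⟨a, ha⟩ := mono hc L r₀ isPreconnected_Ioo hcon
    have h1 : ∀ k, y (r₀ + N * k) = a → ∃ j : ℤ, (k : ℝ) * α - j = φ₁ := by
      intro k hk
      obtain ⟨j, h2, h3⟩ := hfund φ₁ k
      refine ⟨j, ?_⟩
      by_contra hne
      exact ha _ ⟨lt_of_le_of_ne h2 (Ne.symm hne), h3⟩ ⟨k, j, rfl, hk⟩
    obtain ⟨k, -, hk⟩ := hmany a ∅
    obtain ⟨k', hk'1, hk'⟩ := hmany a {k}
    obtain ⟨j, hj⟩ := h1 k hk
    obtain ⟨j', hj'⟩ := h1 k' hk'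
    have := keq hc L (hj'.trans hj.symm)
    exact hk'1 (by rw [this]; exact Finset.mem_singleton_self _)
  obtain ⟨φ₂, ⟨hφ12, hφ21⟩, hφ₂⟩ := hex2
  have hnr : ¬ Rel r₀ φ₁ r₀ φ₂ := by
    rintro ⟨-, J, hJ⟩
    have h1 : ((-1 : ℤ) : ℝ) < J := by push_cast; linarith
    have h2 : (J : ℝ) < ((0 : ℤ) : ℝ) := by push_cast; linarith
    have h3 : -1 < J := by exact_mod_cast h1
    have h4 : J < 0 := by exact_mod_cast h2
    omega
  have hthree : ∀ r, 0 ≤ r → r < N → ∀ φ ∈ D y N α r, Rel r φ r₀ φ₁ ∨ Rel r φ r₀ φ₂ :=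
    fun r h1 h2 φ h3 => three hc L hr0 hrN hr0 hrN h1 h2 hφ₁ hφ₂ h3 hnr
  have hothers : ∀ r, 0 ≤ r → r < N → r ≠ r₀ → ∃ a, ∀ k, y (r + N * k) = a := by
    intro r h1 h2 h3
    apply hconst
    intro t ht
    rcases hthree r h1 h2 t ht with ⟨h4, -⟩ | ⟨h4, -⟩ <;> exact h3 h4
  have hD1 : ∀ t ∈ Set.Ioo φ₁ φ₂, t ∉ D y N α r₀ := by
    rintro t ⟨h1, h2⟩ ht
    rcases hthree r₀ hr0 hrN t ht with ⟨-, J, hJ⟩ | ⟨-, J, hJ⟩
    · have h3 : ((0 : ℤ) : ℝ) < J := by push_cast; linarith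
      have h4 : (J : ℝ) < ((1 : ℤ) : ℝ) := by push_cast; linarith
      have h5 : 0 < J := by exact_mod_cast h3
      have h6 : J < 1 := by exact_mod_cast h4
      omega
    · have h3 : ((-1 : ℤ) : ℝ) < J := by push_cast; linarith
      have h4 : (J : ℝ) < ((0 : ℤ) : ℝ) := by push_cast; linarith
      have h5 : -1 < J := by exact_mod_cast h3
      have h6 : J < 0 := by exact_mod_cast h4
      omega
  have hD2 : ∀ t ∈ Set.Ioo φ₂ (φ₁ + 1), t ∉ D y N α r₀ := by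
    rintro t ⟨h1, h2⟩ ht
    rcases hthree r₀ hr0 hrN t ht with ⟨-, J, hJ⟩ | ⟨-, J, hJ⟩
    · have h3 : ((0 : ℤ) : ℝ) < J := by push_cast; linarith
      have h4 : (J : ℝ) < ((1 : ℤ) : ℝ) := by push_cast; linarith
      have h5 : 0 < J := by exact_mod_cast h3
      have h6 : J < 1 := by exact_mod_cast h4
      omega
    · have h3 : ((0 : ℤ) : ℝ) < J := by push_cast; linarith
      have h4 : (J : ℝ) < ((1 : ℤ) : ℝ) := by push_cast; linarith
      have h5 : 0 < J := by exact_mod_cast h3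
      have h6 : J < 1 := by exact_mod_cast h4
      omega
  obtain ⟨a₁, ha₁⟩ := mono hc L r₀ isPreconnected_Ioo hD1
  obtain ⟨a₂, ha₂⟩ := mono hc L r₀ isPreconnected_Ioo hD2
  have hneq : a₂ ≠ a₁ := by
    intro h12
    subst h12
    have h1 : ∀ k, y (r₀ + N * k) = a₂ → ∃ j : ℤ, (k : ℝ) * α - j = φ₁ ∨ (k : ℝ) * α - j = φ₂ := by
      intro k hk
      obtain ⟨j, h2, h3⟩ := hfund φ₁ k
      refine ⟨j, ?_⟩
      by_contra hne
      push Not at hne
      rcases lt_or_gt_of_ne hne.2 with h4 | h4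
      · exact ha₁ _ ⟨lt_of_le_of_ne h2 (Ne.symm hne.1), h4⟩ ⟨k, j, rfl, hk⟩
      · exact ha₂ _ ⟨h4, h3⟩ ⟨k, j, rfl, hk⟩
    obtain ⟨k, -, hk⟩ := hmany a₂ ∅
    obtain ⟨k', hk'1, hk'⟩ := hmany a₂ {k}
    obtain ⟨k'', hk''1, hk''⟩ := hmany a₂ {k, k'}
    simp only [Finset.mem_singleton, Finset.mem_insert, not_or] at hk'1 hk''1
    obtain ⟨j, hj⟩ := h1 k hk
    obtain ⟨j', hj'⟩ := h1 k' hk'
    obtain ⟨j'', hj''⟩ := h1 k'' hk''
    rcases hj with hj | hj <;> rcases hj' with hj' | hj' <;> rcases hj'' with hj'' | hj''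
    · exact hk'1 (keq hc L (hj'.trans hj.symm))
    · exact hk'1 (keq hc L (hj'.trans hj.symm))
    · exact hk''1.1 (keq hc L (hj''.trans hj.symm))
    · exact hk''1.2 (keq hc L (hj''.trans hj'.symm))
    · exact hk''1.2 (keq hc L (hj''.trans hj'.symm))
    · exact hk''1.1 (keq hc L (hj''.trans hj.symm))
    · exact hk'1 (keq hc L (hj'.trans hj.symm))
    · exact hk'1 (keq hc L (hj'.trans hj.symm))
  have hval : ∀ (a : Bool) (k : ℤ), y (r₀ + N * k) ≠ a → y (r₀ + N * k) = !a := by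
    intro a k h
    cases h2 : y (r₀ + N * k) <;> cases a <;> simp_all
  cases a₁ with
  | false =>
    have h2 : a₂ = true := by cases a₂ <;> simp_all
    subst h2
    refine ⟨r₀, φ₁, φ₂ - φ₁, hr0, hrN, by linarith, by linarith, ?_, ?_, hothers⟩
    · intro k j h1 h2
      exact hval false k fun h3 => ha₁ _ ⟨h1, by linarith⟩ ⟨k, j, rfl, h3⟩
    · intro k j h1 h2
      exact hval true k fun h3 => ha₂ _ ⟨by linarith, h2⟩ ⟨k, j, rfl, h3⟩
  | true =>
    have h2 : a₂ = false := by cases a₂ <;> simp_all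
    subst h2
    refine ⟨r₀, φ₂, φ₁ + 1 - φ₂, hr0, hrN, by linarith, by linarith, ?_, ?_, hothers⟩
    · intro k j h1 h2
      exact hval false k fun h3 => ha₂ _ ⟨h1, by linarith⟩ ⟨k, j, rfl, h3⟩
    · intro k j h1 h2
      exact hval true k fun h3 => ha₁ ((k : ℝ) * α - ((j + 1 : ℤ) : ℝ))
        ⟨by push_cast; linarith, by push_cast; linarith⟩ ⟨k, j + 1, rfl, h3⟩

end

end Pool.Agent.Helper434.PCRotC
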