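import Mathlib
import Pool.Agent.Helper434.PCRotC

set_option autoImplicit false

namespace Pool.Agent.Helper434.PCRotD

open Pool.Agent.Helper434.PCDefs Pool.Agent.Helper434.PCBasic Pool.Agent.Helper434.PCRotA
  Pool.Agent.Helper434.PCRotC

/-- cyclic difference -/
def q (n l i : ℕ) : ℕ := if i ≤ l then l - i else l + n - i

lemma q_self (n l : ℕ) : q n l l = 0 := by unfold q; simp

lemma q_eq {n l l' : ℕ} {τ τ' : Bool} (hn : 3 ≤ n) (hl : l < n) (hl' : l' < n)
    (h : ∀ i < n, (q n l i = 0 ∨ (τ = true ∧ q n l i = 1)) ↔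
      (q n l' i = 0 ∨ (τ' = true ∧ q n l' i = 1))) : l = l' ∧ τ = τ' := by
  have h1 : q n l' l = 0 ∨ (τ' = true ∧ q n l' l = 1) := (h l hl).mp (Or.inl (q_self n l))
  have h2 : q n l l' = 0 ∨ (τ = true ∧ q n l l' = 1) := (h l' hl').mpr (Or.inl (q_self n l'))
  have h3 : l = l' := by
    unfold q at h1 h2
    split_ifs at h1 h2 <;> omega
  subst h3
  refine ⟨rfl, ?_⟩
  obtain ⟨i, hi, hi1⟩ : ∃ i < n, q n l i = 1 := by
    unfold q
    rcases Nat.eq_zero_or_pos l with h4 | h4
    · refine ⟨n - 1, by omega, ?_⟩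
      rw [if_neg (by omega)]; omega
    · refine ⟨l - 1, by omega, ?_⟩
      rw [if_pos (by omega)]; omega
  have h5 := h i hi
  rw [hi1] at h5
  cases τ <;> cases τ' <;> simp_all

lemma q_two {n l : ℕ} (hn : 3 ≤ n) (hl : l < n) : ∃ i < n, q n l i = 2 := by
  unfold q
  rcases lt_or_ge l 2 with h4 | h4
  · refine ⟨l + n - 2, by omega, ?_⟩
    rw [if_neg (by omega)]; omega
  · refine ⟨l - 2, by omega, ?_⟩
    rw [if_pos (by omega)]; omega

variable {y : ℤ → Bool} {N : ℤ} {α P s : ℝ}

/-- an arc coded class together with a constant class gives too many patterns -/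
theorem chain (hc : Core y) (L : Lat y N α P s) {r₀ : ℤ} {ψ γ : ℝ} {b : Bool} (hγ0 : 0 < γ)
    (hγ : γ ≤ 1 / 2)
    (h1 : ∀ k j : ℤ, ψ < k * α - j → k * α - j < ψ + γ → y (r₀ + N * k) = b)
    (h2 : ∀ k j : ℤ, ψ + γ < k * α - j → k * α - j < ψ + 1 → y (r₀ + N * k) = !b)
    {r' : ℤ} {a : Bool} (hr' : ∀ k, y (r' + N * k) = a) : False := by
  obtain ⟨n, hn3, hn1, hn2⟩ : ∃ n : ℕ, 3 ≤ n ∧ 1 < n * γ ∧ n * γ < 2 := by
    refine ⟨⌊1 / γ⌋₊ + 1, ?_, ?_, ?_⟩
    · have : 2 ≤ ⌊1 / γ⌋₊ := by
        apply Nat.le_floor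
        rw [le_div_iff₀ hγ0]; push_cast; linarith
      omega
    · have := Nat.lt_floor_add_one (1 / γ)
      rw [div_lt_iff₀ hγ0] at this
      push_cast; exact this
    · have := Nat.floor_le (by positivity : 0 ≤ 1 / γ)
      rw [le_div_iff₀ hγ0] at this
      push_cast; linarith
  have hn0 : (0 : ℝ) < n := by
    have : 0 < n := by omega
    exact_mod_cast this
  have hn3' : (3 : ℝ) ≤ n := by exact_mod_cast hn3
  set e : ℝ := 1 / n with he
  have hne : n * e = 1 := by rw [he]; field_simp
  have he0 : 0 < e := by positivity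
  have he3 : e ≤ 1 / 3 := by
    rw [he]
    exact div_le_div_of_nonneg_left (by norm_num) (by norm_num) hn3'
  have heγ : e < γ := by
    by_contra hcon
    push Not at hcon
    have := mul_le_mul_of_nonneg_left hcon hn0.le
    linarith
  have hγe : γ < 2 * e := by
    by_contra hcon
    push Not at hcon
    have := mul_le_mul_of_nonneg_left hcon hn0.le
    linarith
  set ρ : ℝ := min ((γ - e) / 2) (e - γ / 2) / 4 with hρ
  have hρ1 : 4 * ρ ≤ (γ - e) / 2 := by
    have : min ((γ - e) / 2) (e - γ / 2) ≤ (γ - e) / 2 := min_le_left _ _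
    rw [hρ]; linarith
  have hρ2 : 4 * ρ ≤ e - γ / 2 := by
    have : min ((γ - e) / 2) (e - γ / 2) ≤ e - γ / 2 := min_le_right _ _
    rw [hρ]; linarith
  have hρ0 : 0 < ρ := by
    rw [hρ]
    have : 0 < min ((γ - e) / 2) (e - γ / 2) := lt_min (by linarith) (by linarith)
    positivity
  choose v w hv using fun i : ℕ => dense hc L (-(i * e)) hρ0
  choose m j hm using fun (l : ℕ) (τ : Bool) =>
    dense hc L (ψ + l * e + (if τ then (γ - e) / 2 else γ / 2)) hρ0
  -- values
  have hval : ∀ (l i : ℕ) (τ : Bool), l < n → i < n →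
      y (r₀ + N * (m l τ + v i)) =
        if q n l i = 0 ∨ (τ = true ∧ q n l i = 1) then b else !b := by
    intro l i τ hl hi
    have hq : ∃ E : ℤ, ((l : ℝ) - i) + E * n = q n l i ∧ q n l i ≤ n - 1 := by
      unfold q
      split_ifs with h3
      · refine ⟨0, ?_, by omega⟩
        push_cast [Nat.cast_sub h3]; ring
      · refine ⟨1, ?_, by omega⟩
        rw [Nat.cast_sub (by omega)]
        push_cast; ring
    obtain ⟨E, hE, hqn⟩ := hq
    set Q := q n l i with hQ
    have hv1 := abs_lt.mp (hv i)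
    have hm1 := abs_lt.mp (hm l τ)
    have hph : ((m l τ + v i : ℤ) : ℝ) * α - ((j l τ + w i - E : ℤ) : ℝ) =
        ψ + Q * e + (if τ then (γ - e) / 2 else γ / 2) +
        ((m l τ * α - j l τ - (ψ + l * e + (if τ then (γ - e) / 2 else γ / 2))) +
          (v i * α - w i - (-(i * e)))) := by
      rw [← hE]; push_cast
      have : (E : ℝ) * n * e = E := by rw [mul_assoc, hne, mul_one]
      linarith
    set err := (m l τ * α - j l τ - (ψ + l * e + (if τ then (γ - e) / 2 else γ / 2))) +
          (v i * α - w i - (-(i * e))) with herr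
    have hr1 : -(2 * ρ) < err := by rw [herr]; linarith
    have hr2 : err < 2 * ρ := by rw [herr]; linarith
    have hqn' : (Q : ℝ) ≤ n - 1 := by
      have : Q + 1 ≤ n := by omega
      have h4 : ((Q + 1 : ℕ) : ℝ) ≤ n := by exact_mod_cast this
      push_cast at h4
      linarith
    have hQe : (Q : ℝ) * e ≤ 1 - e := by
      have := mul_le_mul_of_nonneg_right hqn' he0.le
      rw [sub_mul, hne, one_mul] at this
      exact this
    clear_value err Q
    rcases Nat.lt_or_ge Q 2 with hQ2 | hQ2
    · interval_cases Q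
      · rw [if_pos (Or.inl rfl)]
        apply h1 _ (j l τ + w i - E)
        · rw [hph]; cases τ <;> simp <;> linarith
        · rw [hph]; cases τ <;> simp <;> linarith
      · cases τ
        · rw [if_neg (by simp)]
          apply h2 _ (j l false + w i - E)
          · rw [hph]; simp; linarith
          · rw [hph]; simp; linarith
        · rw [if_pos (Or.inr ⟨rfl, rfl⟩)]
          apply h1 _ (j l true + w i - E)
          · rw [hph]; simp; linarith
          · rw [hph]; simp; linarith
    · rw [if_neg (by omega)]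
      have hQ2' : (2 : ℝ) ≤ Q := by exact_mod_cast hQ2
      have hQ2e : 2 * e ≤ Q * e := mul_le_mul_of_nonneg_right hQ2' he0.le
      apply h2 _ (j l τ + w i - E)
      · rw [hph]; cases τ <;> simp <;> linarith
      · rw [hph]; cases τ <;> simp <;> linarith
  -- the window and the positions
  set Fw : Finset ℤ := (Finset.range n).image fun i => N * v i with hFw
  set pos : Option (Fin n × Bool) → ℤ := fun o => match o with
    | none => r'
    | some x => r₀ + N * m x.1 x.2 with hpos
  have hvals : ∀ (l : Fin n) (τ : Bool) (i : ℕ), i < n → y (pos (some (l, τ)) + N * v i) =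
      if q n l i = 0 ∨ (τ = true ∧ q n l i = 1) then b else !b := by
    intro l τ i hi
    rw [← hval l i τ l.2 hi]
    congr 1
    simp only [hpos]
    ring
  have hne' : ∀ (l : Fin n) (τ : Bool), ¬ ∀ i < n, y (pos (some (l, τ)) + N * v i) = a := by
    intro l τ hcon
    have h3 := hcon l l.2
    rw [hvals l τ l l.2, if_pos (Or.inl (q_self n l))] at h3
    obtain ⟨i, hi, hi2⟩ := q_two hn3 l.2
    have h4 := hcon i hi
    rw [hvals l τ i hi, if_neg (by rw [hi2]; omega)] at h4
    rw [← h3] at h4
    cases b <;> simp at h4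
  have hinj : ∀ o o', Eqv y Fw (pos o) (pos o') → o = o' := by
    intro o o' h3
    have h4 : ∀ i < n, y (pos o + N * v i) = y (pos o' + N * v i) := fun i hi =>
      h3 _ (Finset.mem_image_of_mem _ (Finset.mem_range.mpr hi))
    have hnone : ∀ i : ℕ, y (pos none + N * v i) = a := fun i => hr' (v i)
    match o, o' with
    | none, none => rfl
    | none, some (l, τ) =>
      exact absurd (fun i hi => (h4 i hi).symm.trans (hnone i)) (hne' l τ)
    | some (l, τ), none =>
      exact absurd (fun i hi => (h4 i hi).trans (hnone i)) (hne' l τ)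
    | some (l, τ), some (l', τ') =>
      have h5 := q_eq hn3 l.2 l'.2 (τ := τ) (τ' := τ') (fun i hi => by
        have h6 := h4 i hi
        rw [hvals l τ i hi, hvals l' τ' i hi] at h6
        by_cases h7 : q n l i = 0 ∨ (τ = true ∧ q n l i = 1) <;>
          by_cases h8 : q n l' i = 0 ∨ (τ' = true ∧ q n l' i = 1)
        · exact ⟨fun _ => h8, fun _ => h7⟩
        · rw [if_pos h7, if_neg h8] at h6
          cases b <;> simp at h6
        · rw [if_neg h7, if_pos h8] at h6
          cases b <;> simp at h6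
        · exact ⟨fun h => absurd h h7, fun h => absurd h h8⟩)
      rw [Option.some.injEq, Prod.mk.injEq]
      exact ⟨Fin.ext h5.1, h5.2⟩
  have hposinj : Function.Injective pos := fun o o' h => hinj o o' (by rw [h]; intro _ _; rfl)
  have hB := hc.bdd Fw (Finset.univ.image pos) (by
      rw [hFw, Finset.image_nonempty, Finset.nonempty_range_iff]; omega) (by
      intro x hx x' hx' h3
      obtain ⟨o, -, rfl⟩ := Finset.mem_image.mp hx
      obtain ⟨o', -, rfl⟩ := Finset.mem_image.mp hx'
      rw [hinj o o' h3])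
  rw [Finset.card_image_of_injective _ hposinj, Finset.card_univ, Fintype.card_option,
    Fintype.card_prod, Fintype.card_fin, Fintype.card_bool] at hB
  have h5 : Fw.card ≤ n := by
    rw [hFw]
    exact Finset.card_image_le.trans (by rw [Finset.card_range])
  omega

/-- the class number is one -/
theorem N_one (hc : Core y) (L : Lat y N α P s) : N = 1 := by
  obtain ⟨r₀, φ, β, hr0, hrN, hβ0, hβ1, h1, h2, h3⟩ := arc hc L
  by_contra hN
  have hN2 : 2 ≤ N := by
    have := L.N0
    omega
  obtain ⟨r, hr, hr', hne⟩ : ∃ r, 0 ≤ r ∧ r < N ∧ r ≠ r₀ := by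
    by_cases h : r₀ = 0
    · exact ⟨1, by omega, by omega, by omega⟩
    · exact ⟨0, by omega, by omega, fun h' => h h'.symm⟩
  obtain ⟨a, ha⟩ := h3 r hr hr' hne
  rcases le_total β (1 / 2) with hβ | hβ
  · exact chain hc L hβ0 hβ h1 (b := true) (fun k j u v => h2 k j u v) ha
  · refine chain hc L (ψ := φ + β) (γ := 1 - β) (b := false) (by linarith) (by linarith)
      (fun k j u v => h2 k j u (by linarith)) (fun k j u v => ?_) ha
    exact h1 k (j + 1) (by push_cast; linarith) (by push_cast; linarith)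

/-- rotation coding -/
theorem rot (hc : Core y) (h2 : TwoPoints y) :
    ∃ α β θ : ℝ, Irrational α ∧ 0 < β ∧ β < 1 ∧
      ∀ n : ℤ, y n = true ↔ Int.fract (n * α + θ) < β := by
  obtain ⟨N, α, P, s, hN, hP, hs, hL1, hL2⟩ := PCRotB.lattice hc h2
  have L : Lat y N α P s := ⟨hN, hP, hs, hL1, hL2⟩
  have hN1 := N_one hc L
  subst hN1
  obtain ⟨r₀, φ, β, hr0, hrN, hβ0, hβ1, h1, h3, -⟩ := arc hc L
  have hr : r₀ = 0 := by omega
  subst hr
  simp only [zero_add, one_mul] at h1 h3
  have hirr := irr hc L
  -- the two endpoints carry different letters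
  have hE : ∀ k₁ j₁ k₂ j₂ : ℤ, (k₁ : ℝ) * α - j₁ = φ → (k₂ : ℝ) * α - j₂ = φ + β →
      y k₁ ≠ y k₂ := by
    intro k₁ j₁ k₂ j₂ e1 e2
    set η := min s (P * min β (1 - β)) with hη
    have hη0 : 0 < η := lt_min hs (mul_pos hP (lt_min hβ0 (by linarith)))
    obtain ⟨W, hW⟩ := hc.sep η hη0
    obtain ⟨G, hG⟩ := hc.urec (insert k₁ (insert k₂ W)) 0
    obtain ⟨m', hm1, -, hm3⟩ := hG 1
    have h4 : dd y (m' - 0) < η := hW _ _ fun i hi =>
      hm3 i (Finset.mem_insert_of_mem (Finset.mem_insert_of_mem hi))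
    rw [sub_zero] at h4
    have h5 : η ≤ s := min_le_left _ _
    have h6 : η ≤ P * min β (1 - β) := min_le_right _ _
    obtain ⟨k, j, h7, h8⟩ := L.L1 m' (by linarith)
    rw [one_mul] at h7
    subst h7
    have h9 : 0 < dd y m' := hc.pos _ (by omega)
    have h10 : 0 < |(m' : ℝ) * α - j| := by rw [h8]; positivity
    have h11 : |(m' : ℝ) * α - j| < min β (1 - β) := by
      rw [h8, div_lt_iff₀ (by positivity)]
      have : 0 < min β (1 - β) := lt_min hβ0 (by linarith)
      nlinarith
    have h12 := lt_of_lt_of_le h11 (min_le_left _ _)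
    have h13 := lt_of_lt_of_le h11 (min_le_right _ _)
    have y1 : y (m' + k₁) = y k₁ := by
      have := hm3 k₁ (Finset.mem_insert_self _ _)
      rwa [zero_add] at this
    have y2 : y (m' + k₂) = y k₂ := by
      have := hm3 k₂ (Finset.mem_insert_of_mem (Finset.mem_insert_self _ _))
      rwa [zero_add] at this
    rw [← y1, ← y2]
    rcases lt_or_gt_of_ne (abs_pos.mp h10) with h14 | h14
    · rw [abs_of_neg h14] at h12 h13
      rw [h3 (m' + k₁) (j + j₁ - 1) (by push_cast; linarith) (by push_cast; linarith),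
        h1 (m' + k₂) (j + j₂) (by push_cast; linarith) (by push_cast; linarith)]
      decide
    · rw [abs_of_pos h14] at h12 h13
      rw [h1 (m' + k₁) (j + j₁) (by push_cast; linarith) (by push_cast; linarith),
        h3 (m' + k₂) (j + j₂) (by push_cast; linarith) (by push_cast; linarith)]
      decide
  by_cases hopt : (∀ k j : ℤ, (k : ℝ) * α - j = φ → y k = true) ∧
      (∀ k j : ℤ, (k : ℝ) * α - j = φ + β → y k = false)
  · obtain ⟨o1, o2⟩ := hopt
    refine ⟨α, β, -φ, hirr, hβ0, hβ1, fun n => ?_⟩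
    have f0 := Int.fract_nonneg ((n : ℝ) * α + -φ)
    have f1 := Int.fract_lt_one ((n : ℝ) * α + -φ)
    have f2 : Int.fract ((n : ℝ) * α + -φ) = n * α + -φ - ⌊(n : ℝ) * α + -φ⌋ := rfl
    set j := ⌊(n : ℝ) * α + -φ⌋
    rw [f2] at f0 f1 ⊢
    constructor
    · intro hy
      by_contra hcon
      push Not at hcon
      rcases hcon.eq_or_lt with h4 | h4
      · have := o2 n j (by linarith)
        rw [this] at hy; exact absurd hy (by decide)
      · have := h3 n j (by linarith) (by linarith)
        rw [this] at hy; exact absurd hy (by decide)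
    · intro hlt
      rcases f0.eq_or_lt with h4 | h4
      · exact o1 n j (by linarith)
      · exact h1 n j (by linarith) (by linarith)
  · have hopt' : (∀ k j : ℤ, (k : ℝ) * α - j = φ → y k = false) ∧
        (∀ k j : ℤ, (k : ℝ) * α - j = φ + β → y k = true) := by
      rw [not_and_or] at hopt
      push Not at hopt
      have hb : ∀ a c : Bool, a ≠ c → c = true → a = false := by decide
      have hb' : ∀ a c : Bool, a ≠ c → c = false → a = true := by decide
      rcases hopt with ⟨k₀, j₀, e0, y0⟩ | ⟨k₀, j₀, e0, y0⟩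
      · have y0' : y k₀ = false := by simpa using y0
        refine ⟨fun k j e => ?_, fun k j e => ?_⟩
        · have : k = k₀ := keq hc L (e.trans e0.symm)
          rw [this]; exact y0'
        · exact hb' _ _ (hE k₀ j₀ k j e0 e).symm y0'
      · have y0' : y k₀ = true := by simpa using y0
        refine ⟨fun k j e => ?_, fun k j e => ?_⟩
        · exact hb _ _ (hE k j k₀ j₀ e e0) y0'
        · have : k = k₀ := keq hc L (e.trans e0.symm)
          rw [this]; exact y0'
    obtain ⟨o1, o2⟩ := hopt'
    refine ⟨-α, β, φ + β, hirr.neg, hβ0, hβ1, fun n => ?_⟩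
    have f0 := Int.fract_nonneg ((n : ℝ) * -α + (φ + β))
    have f1 := Int.fract_lt_one ((n : ℝ) * -α + (φ + β))
    have f2 : Int.fract ((n : ℝ) * -α + (φ + β)) =
      n * -α + (φ + β) - ⌊(n : ℝ) * -α + (φ + β)⌋ := rfl
    set j := ⌊(n : ℝ) * -α + (φ + β)⌋
    rw [f2] at f0 f1 ⊢
    constructor
    · intro hy
      by_contra hcon
      push Not at hcon
      rcases hcon.eq_or_lt with h4 | h4
      · have := o1 n (-j) (by push_cast; linarith)
        rw [this] at hy; exact absurd hy (by decide)
      · have := h3 n (-j - 1) (by push_cast; linarith) (by push_cast; linarith)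
        rw [this] at hy; exact absurd hy (by decide)
    · intro hlt
      rcases f0.eq_or_lt with h4 | h4
      · exact o2 n (-j) (by push_cast; linarith)
      · exact h1 n (-j) (by push_cast; linarith) (by push_cast; linarith)

end Pool.Agent.Helper434.PCRotD
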