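import Mathlib
import Pool.Agent.Helper434.PCSpec

set_option autoImplicit false

namespace Pool.Agent.Helper434.PCSpec2

open Pool.Agent.Helper434.PCDefs Pool.Agent.Helper434.PCCore Pool.Agent.Helper434.PCSpec

variable {x y : ℤ → Bool} {α β θ : ℝ}

/-- differences at which the two endpoints coincide -/
def B (α β : ℝ) (k : ℤ) : Prop := ∃ J : ℤ, β - k * α = J

lemma mul_int {α : ℝ} (hα : Irrational α) {k J : ℤ} (h : (k : ℝ) * α = J) : k = 0 := by
  by_contra hk
  have h1 : Irrational ((k : ℝ) * α) := hα.intCast_mul hk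
  exact h1 ⟨(J : ℚ), by push_cast; exact h.symm⟩

lemma B_unique (hα : Irrational α) {k k' : ℤ} (h : B α β k) (h' : B α β k') : k = k' := by
  obtain ⟨J, hJ⟩ := h
  obtain ⟨J', hJ'⟩ := h'
  have := mul_int hα (k := k - k') (J := J' - J) (by push_cast; linarith)
  omega

lemma exists_q (hα : Irrational α) (hβ0 : 0 < β) (hβ1 : β < 1) :
    ∃ q K : ℤ, 0 < q ∧ (∀ k, B α β k → ¬ q ∣ k) ∧ ∀ k, B α β k → |k| ≤ K := by
  by_cases h : ∃ k, B α β k
  · obtain ⟨k₀, hk₀⟩ := h
    have hne : k₀ ≠ 0 := by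
      rintro rfl
      obtain ⟨J, hJ⟩ := hk₀
      have h1 : ((0 : ℤ) : ℝ) < J := by rw [← hJ]; push_cast; linarith
      have h2 : (J : ℝ) < ((1 : ℤ) : ℝ) := by rw [← hJ]; push_cast; linarith
      have h3 : 0 < J := by exact_mod_cast h1
      have h4 : J < 1 := by exact_mod_cast h2
      omega
    have habs := abs_pos.mpr hne
    refine ⟨2 * |k₀|, |k₀|, by omega, fun k hk hd => ?_, fun k hk => ?_⟩
    · have : k = k₀ := B_unique hα hk hk₀
      subst this
      have h1 := Int.le_of_dvd habs ((dvd_abs _ _).mpr hd)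
      omega
    · rw [B_unique hα hk hk₀]
  · exact ⟨1, 0, one_pos, fun k hk => absurd ⟨k, hk⟩ h, fun k hk => absurd ⟨k, hk⟩ h⟩

/-- index sets without coincidences -/
lemma nc (hα : Irrational α) {I : Finset (ℤ × Bool)}
    (h : ∀ p ∈ I, ∀ p' ∈ I, p.2 = true → p'.2 = false → ¬ B α β (p.1 - p'.1)) :
    ∀ p ∈ I, ∀ p' ∈ I, (∃ J : ℤ, e α β p - e α β p' = J) → p = p' := by
  rintro ⟨v, b⟩ hp ⟨v', b'⟩ hp' ⟨J, hJ⟩
  unfold e at hJ
  have same : ∀ z : ℝ, (z - v * α) - (z - v' * α) = J → v = v' := by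
    intro z hz
    have := mul_int hα (k := v' - v) (J := J) (by push_cast; linarith)
    omega
  cases b <;> cases b'
  · simp only [Bool.false_eq_true, if_false] at hJ
    rw [same 0 hJ]
  · simp only [Bool.false_eq_true, if_false, if_true] at hJ
    exact absurd ⟨-J, by push_cast; linarith⟩ (h _ hp' _ hp rfl rfl)
  · simp only [Bool.false_eq_true, if_false, if_true] at hJ
    exact absurd ⟨J, by push_cast; linarith⟩ (h _ hp _ hp' rfl rfl)
  · simp only [if_true] at hJ
    rw [same β hJ]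

/-- a progression -/
def AP (s q : ℤ) (J : ℕ) : Finset ℤ := (Finset.range J).image fun j : ℕ => s + q * j

lemma mem_AP {s q v : ℤ} {J : ℕ} : v ∈ AP s q J ↔ ∃ j : ℕ, j < J ∧ s + q * j = v := by
  unfold AP
  simp only [Finset.mem_image, Finset.mem_range]

/-- too many patterns -/
lemma toomany (hb : Bdd x) {V : Finset ℤ} {I : Finset (ℤ × Bool)} {Q : ℤ × Bool → ℤ}
    {M : Finset ℤ} (hV : V.Nonempty)
    (h1 : ∀ p ∈ I, ∀ p' ∈ I, Eqv x V (Q p) (Q p') → p = p')
    (h2 : ∀ m ∈ M, ∀ m' ∈ M, Eqv x V m m' → m = m')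
    (h3 : ∀ m ∈ M, ∀ p ∈ I, ¬ Eqv x V m (Q p)) (hc : 2 * V.card < I.card + M.card) : False := by
  classical
  have hQ : Set.InjOn Q (I : Set (ℤ × Bool)) := fun p hp p' hp' h =>
    h1 p hp p' hp' (by rw [h]; intro _ _; rfl)
  have hd : Disjoint (I.image Q) M := by
    rw [Finset.disjoint_left]
    intro m hm hm'
    obtain ⟨p, hp, rfl⟩ := Finset.mem_image.mp hm
    exact h3 _ hm' p hp fun _ _ => rfl
  have h4 := hb V (I.image Q ∪ M) hV (by
    intro m hm m' hm' hE
    rcases Finset.mem_union.mp hm with h | h <;> rcases Finset.mem_union.mp hm' with h' | h'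
    · obtain ⟨p, hp, rfl⟩ := Finset.mem_image.mp h
      obtain ⟨p', hp', rfl⟩ := Finset.mem_image.mp h'
      rw [h1 p hp p' hp' hE]
    · obtain ⟨p, hp, rfl⟩ := Finset.mem_image.mp h
      exact absurd (eqv_symm hE) (h3 _ h' p hp)
    · obtain ⟨p, hp, rfl⟩ := Finset.mem_image.mp h'
      exact absurd hE (h3 _ h p hp)
    · exact h2 m h m' h' hE)
  rw [Finset.card_union_of_disjoint hd, Finset.card_image_of_injOn hQ] at h4
  omega

theorem free (hy : ∀ n : ℤ, y n = true ↔ Int.fract (n * α + θ) < β) (hα : Irrational α)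
    (hβ0 : 0 < β) (hβ1 : β < 1) (hH : ∀ (F : Finset ℤ) (m : ℤ), ∃ m', ∀ i ∈ F, x (m' + i) = y (m + i))
    (hb : Bdd x) {q K : ℤ} (hq : 0 < q) (hqB : ∀ k, B α β k → ¬ q ∣ k)
    (hK : ∀ k, B α β k → |k| ≤ K) {F : Finset ℤ}
    (hF : ∀ v ∈ F, ∀ v' ∈ F, ¬ B α β (v - v')) (m : ℤ) : ∃ m', ∀ i ∈ F, y (m' + i) = x (m + i) := by
  classical
  by_contra hcon
  push Not at hcon
  set δ₀ := min β (1 - β) / 2 with hδ₀
  have hm0 : 0 < min β (1 - β) := lt_min hβ0 (by linarith)
  have hδ₀0 : 0 < δ₀ := by positivity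
  have hδβ : 2 * δ₀ ≤ β := by
    have := min_le_left β (1 - β); rw [hδ₀]; linarith
  have hδβ' : 2 * δ₀ ≤ 1 - β := by
    have := min_le_right β (1 - β); rw [hδ₀]; linarith
  obtain ⟨J, hJ⟩ := rich hy hα hβ0 hβ1 hδ₀0 hq.ne'
  obtain ⟨C, hC⟩ : ∃ C : ℤ, ∀ v ∈ F, v ≤ C := by
    obtain ⟨C, hC⟩ := F.bddAbove
    exact ⟨C, fun v hv => hC (Finset.mem_coe.mpr hv)⟩
  set s : ℤ := C + |K| + 1 with hs
  set T := AP s q (J + 1) with hT
  have hTlow : ∀ v ∈ T, s ≤ v := by
    intro v hv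
    obtain ⟨j, -, rfl⟩ := mem_AP.mp hv
    have : 0 ≤ q * (j : ℤ) := by positivity
    omega
  have hsT : s ∈ T := mem_AP.mpr ⟨0, by omega, by simp⟩
  set V := F ∪ T with hV
  have hnB : ∀ v ∈ V, ∀ v' ∈ V, ¬ B α β (v - v') := by
    intro v hv v' hv' hB
    have hK' := hK _ hB
    have hKK := le_abs_self K
    rcases Finset.mem_union.mp hv with h | h <;> rcases Finset.mem_union.mp hv' with h' | h'
    · exact hF v h v' h' hB
    · have h1 := hC v h
      have h2 := hTlow v' h'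
      have h3 := neg_abs_le (v - v')
      omega
    · have h1 := hC v' h'
      have h2 := hTlow v h
      have h3 := le_abs_self (v - v')
      omega
    · obtain ⟨j, -, rfl⟩ := mem_AP.mp h
      obtain ⟨j', -, rfl⟩ := mem_AP.mp h'
      exact hqB _ hB ⟨(j : ℤ) - j', by ring⟩
  obtain ⟨P, hP⟩ := count hy hα (I := V ×ˢ Finset.univ) (V := V) (β := β) (δ₀ := δ₀)
    (fun p hp => (Finset.mem_product.mp hp).1)
    (nc hα fun p hp p' hp' _ _ => hnB _ (Finset.mem_product.mp hp).1 _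
      (Finset.mem_product.mp hp').1) hδ₀0 hδβ hδβ' (fun m m' hE => hJ s m m' fun j hj =>
      hE _ (Finset.mem_union_right _ (mem_AP.mpr ⟨j, by omega, rfl⟩)))
  choose Q hQ using fun p : ℤ × Bool => hH V (P p)
  refine toomany hb (V := V) (I := V ×ˢ Finset.univ) (Q := Q) (M := {m})
    ⟨s, Finset.mem_union_right _ hsT⟩ (fun p hp p' hp' hE => hP p hp p' hp' fun i hi => ?_)
    (by simp) (fun m' hm' p _ hE => ?_) ?_
  · rw [← hQ p i hi, ← hQ p' i hi]; exact hE i hi
  · rw [Finset.mem_singleton] at hm'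
    subst hm'
    obtain ⟨i, hi, hne⟩ := hcon (P p)
    have hiV : i ∈ V := Finset.mem_union_left _ hi
    exact hne (by rw [← hQ p i hiV]; exact (hE i hiV).symm)
  · rw [Finset.card_product, Finset.card_univ, Fintype.card_bool, Finset.card_singleton]
    omega

/-- a recurrent sequence of low pattern complexity which contains the blocks of a rotation coding
has no other blocks -/
theorem lang_rot (hy : ∀ n : ℤ, y n = true ↔ Int.fract (n * α + θ) < β) (hα : Irrational α)
    (hβ0 : 0 < β) (hβ1 : β < 1) (hH : ∀ (F : Finset ℤ) (m : ℤ), ∃ m', ∀ i ∈ F, x (m' + i) = y (m + i))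
    (hr : RecR x) (hb : Bdd x) (F : Finset ℤ) (m : ℤ) : ∃ m', ∀ i ∈ F, y (m' + i) = x (m + i) := by
  classical
  obtain ⟨q, K, hq, hqB, hK⟩ := exists_q hα hβ0 hβ1
  by_contra hcon
  push Not at hcon
  -- many occurrences of the bad block, in one class modulo `q`
  obtain ⟨M, hMc, hMS, hMq⟩ : ∃ M : Finset ℤ, M.card = F.card + 1 ∧ (∀ m' ∈ M, Eqv x F m' m) ∧
      ∀ m₁ ∈ M, ∀ m₂ ∈ M, q ∣ m₁ - m₂ := by
    have hstep : ∀ N : ℤ, ∃ m' > N, Eqv x F m' m := fun N => hr F m N
    choose g hg1 hg2 using hstep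
    set G : ℕ → ℤ := fun n => Nat.rec (g 0) (fun _ p => g p) n with hG
    have hGs : ∀ n, G (n + 1) = g (G n) := fun n => rfl
    have hGmono : StrictMono G := strictMono_nat_of_lt_succ fun n => by
      rw [hGs]; exact hg1 _
    have hGE : ∀ n, Eqv x F (G n) m := by
      intro n
      cases n with
      | zero => exact hg2 _
      | succ n => rw [hGs]; exact hg2 _
    have hfin : Finite (Set.range fun n => G n % q) := by
      have : (Set.range fun n => G n % q) ⊆ Set.Ico 0 q := by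
        rintro _ ⟨n, rfl⟩
        exact ⟨Int.emod_nonneg _ hq.ne', Int.emod_lt_of_pos _ hq⟩
      exact (Set.finite_Ico 0 q).subset this
    obtain ⟨⟨ρ, hρ⟩, hinf⟩ := Finite.exists_infinite_fiber
      (Set.rangeFactorization fun n => G n % q)
    rw [Set.infinite_coe_iff] at hinf
    obtain ⟨A, hA, hAc⟩ := hinf.exists_subset_card_eq (F.card + 1)
    have hAρ : ∀ n ∈ A, G n % q = ρ := by
      intro n hn
      have h1 := hA hn
      have h2 : Set.rangeFactorization (fun n => G n % q) n = ⟨ρ, hρ⟩ := h1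
      exact congrArg Subtype.val h2
    refine ⟨A.image G, ?_, ?_, ?_⟩
    · rw [Finset.card_image_of_injective _ hGmono.injective, hAc]
    · intro m' hm'
      obtain ⟨n, -, rfl⟩ := Finset.mem_image.mp hm'
      exact hGE n
    · intro m₁ h₁ m₂ h₂
      obtain ⟨n₁, hn₁, rfl⟩ := Finset.mem_image.mp h₁
      obtain ⟨n₂, hn₂, rfl⟩ := Finset.mem_image.mp h₂
      exact Int.ModEq.dvd ((hAρ n₂ hn₂).trans (hAρ n₁ hn₁).symm)
  obtain ⟨δ₁, hδ₁, hgap⟩ := exists_gap α 0 (M ×ˢ {false}) (by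
    rintro ⟨v, b⟩ hp ⟨v', b'⟩ hp' ⟨J, hJ⟩
    have h1 := (Finset.mem_product.mp hp).2
    have h2 := (Finset.mem_product.mp hp').2
    rw [Finset.mem_singleton] at h1 h2
    simp only at h1 h2
    subst h1 h2
    unfold e at hJ
    simp only [Bool.false_eq_true, if_false] at hJ
    have := mul_int hα (k := v' - v) (J := J) (by push_cast; linarith)
    rw [show v = v' by omega])
  set δ₀ := min β (1 - β) / 2 with hδ₀
  have hm0 : 0 < min β (1 - β) := lt_min hβ0 (by linarith)
  have hδ₀0 : 0 < δ₀ := by positivity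
  have hδβ : 2 * δ₀ ≤ β := by
    have := min_le_left β (1 - β); rw [hδ₀]; linarith
  have hδβ' : 2 * δ₀ ≤ 1 - β := by
    have := min_le_right β (1 - β); rw [hδ₀]; linarith
  set δ := min δ₀ δ₁ with hδ
  have hδ0 : 0 < δ := lt_min hδ₀0 hδ₁
  have hδa : δ ≤ δ₀ := min_le_left _ _
  have hδb : δ ≤ δ₁ := min_le_right _ _
  obtain ⟨J, hJ⟩ := rich hy hα hβ0 hβ1 hδ0 hq.ne'
  obtain ⟨C, hC⟩ : ∃ C : ℤ, ∀ v ∈ F, v ≤ C := by
    obtain ⟨C, hC⟩ := F.bddAbove
    exact ⟨C, fun v hv => hC (Finset.mem_coe.mpr hv)⟩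
  set s : ℤ := C + |K| + 1 with hs
  set T := AP s q (J + 1) with hT
  have hTlow : ∀ v ∈ T, s ≤ v := by
    intro v hv
    obtain ⟨j, -, rfl⟩ := mem_AP.mp hv
    have : 0 ≤ q * (j : ℤ) := by positivity
    omega
  have hsT : s ∈ T := mem_AP.mpr ⟨0, by omega, by simp⟩
  -- the bad positions are separated by `T`
  have hsepT : ∀ m₁ ∈ M, ∀ m₂ ∈ M, Eqv x T m₁ m₂ → m₁ = m₂ := by
    intro m₁ h₁ m₂ h₂ hE
    by_contra hne
    obtain ⟨n, hn⟩ := free hy hα hβ0 hβ1 hH hb hq hqB hK
      (F := T ∪ T.image fun t => t + (m₂ - m₁)) (by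
        have hmod : ∀ v ∈ T ∪ T.image (fun t => t + (m₂ - m₁)), q ∣ v - s := by
          intro v hv
          rcases Finset.mem_union.mp hv with h | h
          · obtain ⟨j, -, rfl⟩ := mem_AP.mp h
            exact ⟨j, by ring⟩
          · obtain ⟨t, ht, rfl⟩ := Finset.mem_image.mp h
            obtain ⟨j, -, rfl⟩ := mem_AP.mp ht
            have h1 := dvd_add (hMq m₂ h₂ m₁ h₁) (dvd_mul_right q (j : ℤ))
            rwa [show m₂ - m₁ + q * (j : ℤ) = s + q * j + (m₂ - m₁) - s by ring] at h1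
        intro v hv v' hv' hB
        apply hqB _ hB
        have := dvd_sub (hmod v hv) (hmod v' hv')
        rwa [show v - s - (v' - s) = v - v' by ring] at this) m₁
    obtain ⟨i, hi⟩ := hJ s n (n + (m₂ - m₁)) (fun j hj => by
      have hjT : s + q * (j : ℤ) ∈ T := mem_AP.mpr ⟨j, by omega, rfl⟩
      have e1 := hn _ (Finset.mem_union_left _ hjT)
      have e2 := hn _ (Finset.mem_union_right T (Finset.mem_image_of_mem
        (fun t => t + (m₂ - m₁)) hjT))
      have e3 := hE _ hjT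
      rw [e1, e3, show n + (m₂ - m₁) + (s + q * (j : ℤ)) = n + (s + q * j + (m₂ - m₁)) by ring, e2]
      congr 1; ring)
    have hne' : ((m₁, false) : ℤ × Bool) ≠ (m₂, false) := fun h => hne (congrArg Prod.fst h)
    have h3 := hgap (m₁, false) (Finset.mem_product.mpr ⟨h₁, by simp⟩) (m₂, false)
      (Finset.mem_product.mpr ⟨h₂, by simp⟩) hne' (-i)
    have e4 : e α 0 (m₁, false) - e α 0 (m₂, false) - ((-i : ℤ) : ℝ) =
        -((((n - (n + (m₂ - m₁)) : ℤ)) : ℝ) * α - i) := by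
      unfold e; push_cast; simp; ring
    rw [e4, abs_neg] at h3
    linarith
  have hdisj : Disjoint F T := by
    rw [Finset.disjoint_left]
    intro v hv hv'
    have h1 := hC v hv
    have h2 := hTlow v hv'
    have := abs_nonneg K
    omega
  set V := F ∪ T with hV
  set I : Finset (ℤ × Bool) := T ×ˢ Finset.univ ∪ F ×ˢ {false} with hI
  have hIdisj : Disjoint (T ×ˢ (Finset.univ : Finset Bool)) (F ×ˢ {false}) := by
    rw [Finset.disjoint_left]
    intro p hp hp'
    exact (Finset.disjoint_left.mp hdisj) (Finset.mem_product.mp hp').1 (Finset.mem_product.mp hp).1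
  have hIV : ∀ p ∈ I, p.1 ∈ V := by
    intro p hp
    rcases Finset.mem_union.mp hp with h | h
    · exact Finset.mem_union_right _ (Finset.mem_product.mp h).1
    · exact Finset.mem_union_left _ (Finset.mem_product.mp h).1
  obtain ⟨P, hP⟩ := count hy hα (I := I) (V := V) (β := β) (δ₀ := δ₀) hIV
    (nc hα fun p hp p' hp' hpt _ hB => by
      have hKK := le_abs_self K
      have hpT : p.1 ∈ T := by
        rcases Finset.mem_union.mp hp with h | h
        · exact (Finset.mem_product.mp h).1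
        · have := (Finset.mem_product.mp h).2
          rw [Finset.mem_singleton] at this
          rw [this] at hpt
          exact absurd hpt (by decide)
      have h2 := hTlow _ hpT
      rcases Finset.mem_union.mp hp' with h | h
      · obtain ⟨j, -, hj⟩ := mem_AP.mp hpT
        obtain ⟨j', -, hj'⟩ := mem_AP.mp (Finset.mem_product.mp h).1
        rw [← hj, ← hj'] at hB
        exact hqB _ hB ⟨(j : ℤ) - j', by ring⟩
      · have h1 := hC _ (Finset.mem_product.mp h).1
        have h3 := le_abs_self (p.1 - p'.1)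
        have hK' := hK _ hB
        omega) hδ₀0 hδβ hδβ' (fun m m' hE => by
      obtain ⟨i, hi⟩ := hJ s m m' fun j hj =>
        hE _ (Finset.mem_union_right _ (mem_AP.mpr ⟨j, by omega, rfl⟩))
      exact ⟨i, by linarith⟩)
  choose Q hQ using fun p : ℤ × Bool => hH V (P p)
  refine toomany hb (V := V) (I := I) (Q := Q) (M := M)
    ⟨s, Finset.mem_union_right _ hsT⟩ (fun p hp p' hp' hE => hP p hp p' hp' fun i hi => ?_)
    (fun m₁ h₁ m₂ h₂ hE => hsepT m₁ h₁ m₂ h₂ (eqv_mono Finset.subset_union_right hE))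
    (fun m' hm' p _ hE => ?_) ?_
  · rw [← hQ p i hi, ← hQ p' i hi]; exact hE i hi
  · obtain ⟨i, hi, hne⟩ := hcon (P p)
    have hiV : i ∈ V := Finset.mem_union_left _ hi
    apply hne
    rw [← hQ p i hiV, ← hE i hiV]
    exact hMS m' hm' i hi
  · rw [hI, Finset.card_union_of_disjoint hIdisj, Finset.card_product, Finset.card_product,
      Finset.card_univ, Fintype.card_bool, Finset.card_singleton, hMc, hV,
      Finset.card_union_of_disjoint hdisj]
    omega

end Pool.Agent.Helper434.PCSpec2
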