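import Mathlib
import Pool.Agent.Helper434.PCSpec2
import Pool.Agent.Helper434.PCRotD
import Pool.Agent.PatSturm.Bridge
import Pool.Agent.PatSturm.Germ

set_option autoImplicit false

namespace Pool.Agent.PatSturm

open Pool.Agent.Helper434.PCDefs Pool.Agent.Helper434.PCBasic Pool.Agent.Helper434

variable {x y : ℤ → Bool}

lemma twoPoints_of_not_onePt (h : ¬ OnePt y) : PCRotA.TwoPoints y := by
  unfold OnePt at h
  push Not at h
  obtain ⟨η, hη, h⟩ := h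
  exact ⟨η, hη, fun ε hε c => by
    obtain ⟨h', h1, h2, n, h3, h4⟩ := h ε hε c
    exact ⟨h', h1, h2, n, h3, h4⟩⟩

lemma Hull.pat' (hH : Hull x y) (F : Finset ℤ) (m : ℤ) : ∃ m', ∀ i ∈ F, x (m' + i) = y (m + i) := by
  obtain ⟨C, -, hC⟩ := exists_bounds F
  obtain ⟨h, hh⟩ := hH (m - C) (m + C)
  refine ⟨m + h, fun i hi => ?_⟩
  have h1 := hC i hi
  have := hh (m + i) (by omega) (by omega)
  rw [← this]; congr 1; ring

/-- the case of two points of discontinuity (all rotations) -/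
theorem lang_of_two (hc : Core y) (h2 : ¬ OnePt y) (hH : Hull x y) (hr : Rec x) (hl : Low x) :
    ∀ F : Finset ℤ, L x F ⊆ L y F := by
  intro F S hS
  obtain ⟨α, β, θ, hα, hβ0, hβ1, hy⟩ := PCRotD.rot hc (twoPoints_of_not_onePt h2)
  obtain ⟨m, rfl⟩ := mem_L.mp hS
  obtain ⟨m', hm'⟩ := PCSpec2.lang_rot hy hα hβ0 hβ1 hH.pat' hr.recR hl.bdd F m
  exact mem_L.mpr ⟨m', by
    ext i
    rw [mem_pat, mem_pat]
    constructor
    · rintro ⟨h3, h4⟩; exact ⟨h3, by rw [← hm' i h3]; exact h4⟩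
    · rintro ⟨h3, h4⟩; exact ⟨h3, by rw [hm' i h3]; exact h4⟩⟩

theorem rotForm_of_two (hc : Core y) (h2 : ¬ OnePt y) : RotForm y := by
  obtain ⟨α, β, θ, hα, hβ0, hβ1, hy⟩ := PCRotD.rot hc (twoPoints_of_not_onePt h2)
  exact ⟨α, β, θ, hα, hβ0, hβ1, Or.inl hy⟩

end Pool.Agent.PatSturm
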