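import Mathlib
import Pool.Agent.PatSturm.NRFinal
import Pool.Agent.Helper434.SpAlg
import Pool.Agent.Helper434.AlgStatement

set_option autoImplicit false

namespace Pool.Agent.Helper434.Alg

open Pool.Agent.PatSturm.NR

lemma free_iff {s : ℕ → ℕ} (hs : StrictMono s) (h0 : 1 ≤ s 0) (j : ℕ) :
    Statement.FreeStep (fun i => (s i : ℤ)) j ↔ FreeStep s j :=
  Pool.Agent.Helper434.Sp.free_iff_numCl hs h0 j

lemma prog_iff {s : ℕ → ℕ} (hs : StrictMono s) (h0 : 1 ≤ s 0) (j : ℕ) :
    Statement.ProgStep (fun i => (s i : ℤ)) j ↔ ProgStep s j := by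
  unfold Statement.ProgStep ProgStep
  refine exists_congr fun i => exists_congr fun J => and_congr_right fun _ =>
    and_congr_right fun _ => and_congr ?_ (and_congr ?_ (and_congr ?_ ?_))
  · refine forall_congr' fun l => forall_congr' fun _ => forall_congr' fun _ => ?_
    beta_reduce
    omega
  · beta_reduce
    omega
  · refine forall_congr' fun k => forall_congr' fun l => forall_congr' fun m => forall_congr' fun _ =>
      forall_congr' fun _ => forall_congr' fun _ => forall_congr' fun _ => forall_congr' fun _ =>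
      forall_congr' fun _ => ?_
    beta_reduce
    omega
  · exact forall_congr' fun _ => free_iff hs h0 _

theorem sparse_iff (f : ℕ+ → Bool) : Statement.SparseWord f ↔ SparseWord f := by
  constructor
  · rintro ⟨s, hs, h0, h1, h2, h3⟩
    have hpos : ∀ i, 1 ≤ s i := fun i => h0.trans (hs.monotone (Nat.zero_le i))
    obtain ⟨t, ht⟩ : ∃ t : ℕ → ℕ, s = fun i => (t i : ℤ) := by
      refine ⟨fun i => (s i).toNat, funext fun i => ?_⟩
      have := hpos i
      show s i = ((s i).toNat : ℤ)
      omega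
    subst ht
    have hts : StrictMono t := fun a b hab => by
      have h4 : (t a : ℤ) < (t b : ℤ) := hs hab
      exact_mod_cast h4
    have ht0 : 1 ≤ t 0 := by
      have h4 : (1 : ℤ) ≤ (t 0 : ℤ) := h0
      exact_mod_cast h4
    refine ⟨t, hts, ht0, fun n => ?_, fun g => ?_, fun j => ?_⟩
    · rw [h1 n]
      refine exists_congr fun j => ?_
      show ((t j : ℤ) = ((n : ℕ) : ℤ)) ↔ _
      exact Nat.cast_inj
    · obtain ⟨J, hJ⟩ := h2 g
      refine ⟨J, fun j hj => ?_⟩
      have h4 : (g : ℤ) ≤ (t (j + 1) : ℤ) - (t j : ℤ) := hJ j hj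
      omega
    · rw [← free_iff hts ht0, ← prog_iff hts ht0]
      exact h3 j
  · rintro ⟨s, hs, h0, h1, h2, h3⟩
    have h0' : (1 : ℤ) ≤ (s 0 : ℤ) := by exact_mod_cast h0
    refine ⟨fun i => (s i : ℤ), fun a b hab => ?_, h0', fun n => ?_, fun g => ?_, fun j => ?_⟩
    · have := hs hab
      show (s a : ℤ) < (s b : ℤ)
      exact_mod_cast this
    · rw [h1 n]
      refine exists_congr fun j => ?_
      show _ ↔ ((s j : ℤ) = ((n : ℕ) : ℤ))
      exact Nat.cast_inj.symm
    · obtain ⟨J, hJ⟩ := h2 g.toNat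
      refine ⟨J, fun j hj => ?_⟩
      have := hJ j hj
      show g ≤ (s (j + 1) : ℤ) - (s j : ℤ)
      omega
    · rw [free_iff hs h0, prog_iff hs h0]
      exact h3 j

end Pool.Agent.Helper434.Alg
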