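import Mathlib

set_option autoImplicit false

namespace Pool.Agent.Helper434.Nullity

open Filter Topology Set
open scoped ContDiff

variable {E Y F : Type*} [NormedAddCommGroup E] [NormedSpace ℝ E]
  [NormedAddCommGroup Y] [NormedSpace ℝ Y] [NormedAddCommGroup F] [NormedSpace ℝ F]

/-- rank of the derivative -/
noncomputable def rk (g : E → Y) (x : E) : ℕ :=
  Module.finrank ℝ (LinearMap.range (fderiv ℝ g x).toLinearMap)

section smooth

variable {g : E → Y} {x : E} (hg : ContDiffAt ℝ ∞ g x)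
include hg

lemma smH : ContDiffAt ℝ ∞ (fderiv ℝ g) x := hg.fderiv_right (by norm_cast)
lemma smT : ContDiffAt ℝ ∞ (fderiv ℝ (fderiv ℝ g)) x := (smH hg).fderiv_right (by norm_cast)

lemma hasH : HasFDerivAt g (fderiv ℝ g x) x :=
  (hg.differentiableAt (by norm_cast)).hasFDerivAt
lemma hasT : HasFDerivAt (fderiv ℝ g) (fderiv ℝ (fderiv ℝ g) x) x :=
  ((smH hg).differentiableAt (by norm_cast)).hasFDerivAt

lemma symT (v w : E) : fderiv ℝ (fderiv ℝ g) x v w = fderiv ℝ (fderiv ℝ g) x w v :=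
  (hg.isSymmSndFDerivAt (by simp only [minSmoothness_of_isRCLikeNormedField]; norm_cast)) v w

/-- derivative of `y ↦ H y n` in direction `b` -/
lemma hasDir (b n : E) : HasDerivAt (fun s : ℝ => fderiv ℝ g (x + s • b) n)
    (fderiv ℝ (fderiv ℝ g) x b n) 0 := by
  have h1 : HasDerivAt (fun s : ℝ => x + s • b) b 0 := by
    have := ((hasDerivAt_id (0 : ℝ)).smul_const b).const_add x
    simpa using this
  have h2 : HasFDerivAt (fderiv ℝ g) (fderiv ℝ (fderiv ℝ g) x) (x + (0 : ℝ) • b) := by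
    simpa using hasT hg
  have h3 : HasDerivAt (fun s : ℝ => fderiv ℝ g (x + s • b))
      (fderiv ℝ (fderiv ℝ g) x b) 0 := h2.comp_hasDerivAt (0 : ℝ) h1
  have h4 := h3.clm_apply (hasDerivAt_const (0 : ℝ) n)
  simpa using h4

end smooth

/-- At a point where the rank is maximal, derivatives of kernel vectors stay in the range. -/
lemma mem_range_of_max [FiniteDimensional ℝ Y] {g : E → Y} {x : E} (hg : ContDiffAt ℝ ∞ g x)
    (hmax : ∀ᶠ y in 𝓝 x, rk g y ≤ rk g x) (b n : E) (hn : fderiv ℝ g x n = 0) :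
    fderiv ℝ (fderiv ℝ g) x b n ∈ LinearMap.range (fderiv ℝ g x).toLinearMap := by
  by_contra hnot
  set R := LinearMap.range (fderiv ℝ g x).toLinearMap with hR
  -- a basis of the range
  let bas := Module.finBasis ℝ R
  have hw : ∀ i, ∃ w : E, fderiv ℝ g x w = (bas i : Y) := fun i => by
    obtain ⟨w, hw⟩ := (bas i).2
    exact ⟨w, hw⟩
  choose w hw using hw
  have hli : LinearIndependent ℝ (fun i => (bas i : Y)) :=
    bas.linearIndependent.map' R.subtype (Submodule.ker_subtype R)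
  have hspan : Submodule.span ℝ (Set.range fun i => (bas i : Y)) = R := by
    have h1 := bas.span_eq
    have h2 : (Set.range fun i => (bas i : Y)) = R.subtype '' (Set.range bas) := by
      ext y; simp
    rw [h2, Submodule.span_image, h1]
    simp
  have hli2 : LinearIndependent ℝ (fun o : Option (Fin (Module.finrank ℝ R)) =>
      Option.casesOn' o (fderiv ℝ (fderiv ℝ g) x b n) (fun i => (bas i : Y))) := by
    rw [linearIndependent_option']
    refine ⟨by simpa using hli, ?_⟩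
    simpa [hspan] using hnot
  -- the perturbed family
  let fam : ℝ → Option (Fin (Module.finrank ℝ R)) → Y := fun s o =>
    Option.casesOn' o (s⁻¹ • fderiv ℝ g (x + s • b) n) (fun i => fderiv ℝ g (x + s • b) (w i))
  have hcont : Tendsto (fun s : ℝ => x + s • b) (𝓝[≠] 0) (𝓝 x) := by
    have : Continuous fun s : ℝ => x + s • b := by fun_prop
    have h := this.tendsto 0
    simp only [zero_smul, add_zero] at h
    exact h.mono_left nhdsWithin_le_nhds
  have htend : Tendsto fam (𝓝[≠] 0) (𝓝 (fun o => Option.casesOn' o (fderiv ℝ (fderiv ℝ g) x b n)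
      (fun i => (bas i : Y)))) := by
    rw [tendsto_pi_nhds]
    intro o
    cases o with
    | none =>
      have h := (hasDir hg b n).tendsto_slope
      refine h.congr' ?_
      filter_upwards [self_mem_nhdsWithin] with s hs
      simp only [slope, vsub_eq_sub, sub_zero, zero_smul, add_zero]
      simp only [fam, Option.casesOn']
      rw [hn, sub_zero]
    | some i =>
      have h1 : ContinuousAt (fderiv ℝ g) x := (smH hg).continuousAt
      have h2 : Tendsto (fun s : ℝ => fderiv ℝ g (x + s • b)) (𝓝[≠] 0) (𝓝 (fderiv ℝ g x)) :=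
        h1.tendsto.comp hcont
      have h3 : Tendsto (fun s : ℝ => fderiv ℝ g (x + s • b) (w i)) (𝓝[≠] 0)
          (𝓝 (fderiv ℝ g x (w i))) :=
        ((ContinuousLinearMap.apply ℝ Y (w i)).continuous.tendsto _).comp h2
      simp only [fam, Option.casesOn']
      rw [← hw i]
      exact h3
  have hopen := (isOpen_setOfPred_linearIndependent (𝕜 := ℝ) (E := Y)
    (ι := Option (Fin (Module.finrank ℝ R)))).mem_nhds hli2
  have hev1 : ∀ᶠ s in 𝓝[≠] (0 : ℝ), LinearIndependent ℝ (fam s) := htend.eventually hopen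
  have hev2 : ∀ᶠ s in 𝓝[≠] (0 : ℝ), rk g (x + s • b) ≤ rk g x := hcont.eventually hmax
  obtain ⟨s, h1, h2⟩ := (hev1.and hev2).exists
  -- the family lives in the range at the nearby point
  have hsub : ∀ o, fam s o ∈ LinearMap.range (fderiv ℝ g (x + s • b)).toLinearMap := by
    intro o
    cases o with
    | none => exact Submodule.smul_mem _ _ ⟨n, rfl⟩
    | some i => exact ⟨w i, rfl⟩
  have h3 : LinearIndependent ℝ (fun o => (⟨fam s o, hsub o⟩ :
      LinearMap.range (fderiv ℝ g (x + s • b)).toLinearMap)) := by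
    apply LinearIndependent.of_comp (LinearMap.range (fderiv ℝ g (x + s • b)).toLinearMap).subtype
    exact h1
  have h4 := h3.fintype_card_le_finrank
  rw [Fintype.card_option, Fintype.card_fin] at h4
  have h5 : rk g (x + s • b) =
    Module.finrank ℝ (LinearMap.range (fderiv ℝ g (x + s • b)).toLinearMap) := rfl
  have h6 : rk g x = Module.finrank ℝ R := rfl
  omega

/-- At a point of maximal rank, the third derivative vanishes on pairs of kernel vectors. -/
lemma T_zero [FiniteDimensional ℝ Y] {g : E → Y} {x : E} (hg : ContDiffAt ℝ ∞ g x)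
    (hmax : ∀ᶠ y in 𝓝 x, rk g y ≤ rk g x) (ev : Y →L[ℝ] E →L[ℝ] F)
    (hinj : ∀ y, ev y = 0 → y = 0)
    (hsym : ∀ᶠ y in 𝓝 x, ∀ v w, ev (fderiv ℝ g y v) w = ev (fderiv ℝ g y w) v)
    (n : E) (hn : fderiv ℝ g x n = 0) :
    fderiv ℝ (fderiv ℝ g) x n n = 0 := by
  apply hinj
  ext b
  -- symmetry in the last two slots
  have hs : ∀ b n c, ev (fderiv ℝ (fderiv ℝ g) x b n) c = ev (fderiv ℝ (fderiv ℝ g) x b c) n := by
    intro b n c
    have h1 := ((ev.hasFDerivAt.comp_hasDerivAt (0 : ℝ) (hasDir hg b n))).clm_apply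
      (hasDerivAt_const (0 : ℝ) c)
    have h2 := ((ev.hasFDerivAt.comp_hasDerivAt (0 : ℝ) (hasDir hg b c))).clm_apply
      (hasDerivAt_const (0 : ℝ) n)
    have hlim : Tendsto (fun s : ℝ => x + s • b) (𝓝 0) (𝓝 x) := by
      have : Continuous fun s : ℝ => x + s • b := by fun_prop
      simpa using this.tendsto 0
    have heq : (fun s : ℝ => ev (fderiv ℝ g (x + s • b) n) c) =ᶠ[𝓝 0]
        fun s : ℝ => ev (fderiv ℝ g (x + s • b) c) n := by
      filter_upwards [hlim.eventually hsym] with s hs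
      exact hs n c
    have h3 := (h2.congr_of_eventuallyEq heq)
    have h4 := h1.unique h3
    simpa using h4
  have h1 : ev (fderiv ℝ (fderiv ℝ g) x n n) b = ev (fderiv ℝ (fderiv ℝ g) x b n) n := by
    rw [hs n n b, symT hg n b]
  rw [h1]
  obtain ⟨c, hc⟩ := mem_range_of_max hg hmax b n hn
  have hc' : fderiv ℝ g x c = fderiv ℝ (fderiv ℝ g) x b n := hc
  rw [← hc', hsym.self_of_nhds c n, hn, map_zero]
  rfl

lemma ev_norm {E Z : Type*} [TopologicalSpace E] [NormedAddCommGroup Z] {k : E → Z} {x₀ : E}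
    (h : ContinuousAt k x₀) : ∀ᶠ x in 𝓝 x₀, ‖k x‖ < ‖k x₀‖ + 1 :=
  h.norm.tendsto.eventually (gt_mem_nhds (by linarith))

/-- The kernel direction persists along the line. -/
lemma kernel_persists [FiniteDimensional ℝ E] [FiniteDimensional ℝ Y] {g : E → Y} {U : Set E}
    (hU : IsOpen U) (hg : ∀ x ∈ U, ContDiffAt ℝ ∞ g x) {x₀ : E} (hx₀ : x₀ ∈ U)
    (hmax : ∀ y ∈ U, rk g y ≤ rk g x₀) (ev : Y →L[ℝ] E →L[ℝ] F)
    (hinj : ∀ y, ev y = 0 → y = 0)
    (hsym : ∀ y ∈ U, ∀ v w, ev (fderiv ℝ g y v) w = ev (fderiv ℝ g y w) v)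
    (u : E) (hu : fderiv ℝ g x₀ u = 0) :
    ∃ δ > 0, ∀ t ∈ Icc (0 : ℝ) δ, x₀ + t • u ∈ U ∧ fderiv ℝ g (x₀ + t • u) u = 0 := by
  obtain ⟨W, hW⟩ := Submodule.exists_isCompl (LinearMap.ker (fderiv ℝ g x₀).toLinearMap)
  have hker : LinearMap.ker ((fderiv ℝ g x₀).toLinearMap.domRestrict W) = ⊥ := by
    rw [LinearMap.ker_eq_bot']
    intro w hw
    have h1 : (w : E) ∈ LinearMap.ker (fderiv ℝ g x₀).toLinearMap := hw
    have h2 := (Submodule.disjoint_def.mp hW.disjoint) w h1 w.2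
    exact Subtype.ext h2
  obtain ⟨K, hK0, hK⟩ := LinearMap.exists_antilipschitzWith _ hker
  have hKpos : (0 : ℝ) < K := hK0
  have hKb : ∀ w ∈ W, ‖w‖ ≤ K * ‖fderiv ℝ g x₀ w‖ := by
    intro w hw
    have h := hK.le_mul_dist (⟨w, hw⟩ : W) 0
    simpa [dist_eq_norm] using h
  -- dimension count
  have hdimW : Module.finrank ℝ W = rk g x₀ := by
    have h1 := LinearMap.finrank_range_add_finrank_ker (fderiv ℝ g x₀).toLinearMap
    have h2 := Submodule.finrank_add_eq_of_isCompl hW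
    unfold rk
    omega
  -- the good neighbourhood
  have hH : ContinuousAt (fderiv ℝ g) x₀ := (smH (hg x₀ hx₀)).continuousAt
  have hT : ContinuousAt (fderiv ℝ (fderiv ℝ g)) x₀ := (smT (hg x₀ hx₀)).continuousAt
  set M1 : ℝ := ‖fderiv ℝ g x₀‖ + 1 with hM1
  set M : ℝ := ‖fderiv ℝ (fderiv ℝ g) x₀‖ + 1 with hM
  have hM1pos : 0 < M1 := by positivity
  have hMpos : 0 < M := by positivity
  have ev1 : ∀ᶠ x in 𝓝 x₀, ‖fderiv ℝ g x - fderiv ℝ g x₀‖ < 1 / (2 * K) := by
    have h : Tendsto (fun x => ‖fderiv ℝ g x - fderiv ℝ g x₀‖) (𝓝 x₀) (𝓝 0) := by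
      have := (hH.tendsto.sub_const (fderiv ℝ g x₀)).norm
      simpa using this
    exact h.eventually (gt_mem_nhds (by positivity))
  have ev2 : ∀ᶠ x in 𝓝 x₀, ‖fderiv ℝ g x‖ < M1 :=
    hH.norm.tendsto.eventually (gt_mem_nhds (by rw [hM1]; linarith))
  have ev3 : ∀ᶠ x in 𝓝 x₀, ‖fderiv ℝ (fderiv ℝ g) x‖ < M :=
    ev_norm (Z := E →L[ℝ] E →L[ℝ] Y) hT
  have ev4 : ∀ᶠ x in 𝓝 x₀, x ∈ U := hU.mem_nhds hx₀
  have hline : Tendsto (fun t : ℝ => x₀ + t • u) (𝓝 0) (𝓝 x₀) := by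
    have : Continuous fun s : ℝ => x₀ + s • u := by fun_prop
    simpa using this.tendsto 0
  have evall := hline.eventually (ev1.and (ev2.and (ev3.and ev4)))
  obtain ⟨δ, hδ, hball⟩ := Metric.eventually_nhds_iff.mp evall
  refine ⟨δ / 2, by positivity, ?_⟩
  have good : ∀ t ∈ Icc (0 : ℝ) (δ / 2),
      ‖fderiv ℝ g (x₀ + t • u) - fderiv ℝ g x₀‖ < 1 / (2 * K) ∧
      ‖fderiv ℝ g (x₀ + t • u)‖ < M1 ∧ ‖fderiv ℝ (fderiv ℝ g) (x₀ + t • u)‖ < M ∧
      x₀ + t • u ∈ U := by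
    intro t ht
    apply hball
    rw [Real.dist_eq, sub_zero, abs_of_nonneg ht.1]
    linarith [ht.2]
  -- the decomposition at a good point
  have decomp : ∀ t ∈ Icc (0 : ℝ) (δ / 2), ∃ w : E,
      ‖w‖ ≤ 2 * K * ‖fderiv ℝ g (x₀ + t • u) u‖ ∧
      fderiv ℝ (fderiv ℝ g) (x₀ + t • u) (u - w) (u - w) = 0 := by
    intro t ht
    obtain ⟨g1, g2, g3, g4⟩ := good t ht
    set x := x₀ + t • u with hx
    have hb : ∀ w ∈ W, ‖w‖ ≤ 2 * K * ‖fderiv ℝ g x w‖ := by
      intro w hw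
      have h1 := hKb w hw
      have h2 : ‖fderiv ℝ g x₀ w‖ ≤ ‖fderiv ℝ g x w‖ + 1 / (2 * K) * ‖w‖ := by
        have e : fderiv ℝ g x₀ w = fderiv ℝ g x w - (fderiv ℝ g x - fderiv ℝ g x₀) w := by
          simp
        rw [e]
        calc _ ≤ ‖fderiv ℝ g x w‖ + ‖(fderiv ℝ g x - fderiv ℝ g x₀) w‖ := norm_sub_le _ _
          _ ≤ ‖fderiv ℝ g x w‖ + ‖fderiv ℝ g x - fderiv ℝ g x₀‖ * ‖w‖ := by
              gcongr; exact ContinuousLinearMap.le_opNorm _ _
          _ ≤ _ := by gcongr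
      have h3 : K * (1 / (2 * K) * ‖w‖) = ‖w‖ / 2 := by field_simp
      have h4 : ‖w‖ ≤ K * ‖fderiv ℝ g x w‖ + ‖w‖ / 2 := by
        calc ‖w‖ ≤ K * (‖fderiv ℝ g x w‖ + 1 / (2 * K) * ‖w‖) := h1.trans (by gcongr)
          _ = _ := by rw [mul_add, h3]
      linarith
    have hker' : LinearMap.ker ((fderiv ℝ g x).toLinearMap.domRestrict W) = ⊥ := by
      rw [LinearMap.ker_eq_bot']
      intro w hw
      have h1 : fderiv ℝ g x (w : E) = 0 := hw
      have h2 := hb w w.2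
      rw [h1, norm_zero, mul_zero] at h2
      exact Subtype.ext (norm_le_zero_iff.mp h2)
    have hrange : LinearMap.range ((fderiv ℝ g x).toLinearMap.domRestrict W) =
        LinearMap.range (fderiv ℝ g x).toLinearMap := by
      apply Submodule.eq_of_le_of_finrank_le
      · rintro y ⟨w, rfl⟩
        exact ⟨w, rfl⟩
      · rw [LinearMap.finrank_range_of_inj (LinearMap.ker_eq_bot.mp hker'), hdimW]
        exact hmax x g4
    have hrk : rk g x = rk g x₀ := by
      unfold rk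
      rw [← hrange, LinearMap.finrank_range_of_inj (LinearMap.ker_eq_bot.mp hker'), hdimW]
      rfl
    have hmem : fderiv ℝ g x u ∈ LinearMap.range ((fderiv ℝ g x).toLinearMap.domRestrict W) := by
      rw [hrange]; exact ⟨u, rfl⟩
    obtain ⟨w, hw⟩ := hmem
    have hw' : fderiv ℝ g x (w : E) = fderiv ℝ g x u := hw
    refine ⟨w, ?_, ?_⟩
    · have := hb w w.2
      rwa [hw'] at this
    · apply T_zero (hg x g4) _ ev hinj _ _ (by rw [map_sub, hw', sub_self])
      · filter_upwards [hU.mem_nhds g4] with y hy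
        rw [hrk]; exact hmax y hy
      · filter_upwards [hU.mem_nhds g4] with y hy
        exact hsym y hy
  -- Gronwall
  set h : ℝ → Y := fun t => fderiv ℝ g (x₀ + t • u) u with hh
  have hder : ∀ t ∈ Icc (0 : ℝ) (δ / 2), HasDerivAt h
      (fderiv ℝ (fderiv ℝ g) (x₀ + t • u) u u) t := by
    intro t ht
    obtain ⟨-, -, -, g4⟩ := good t ht
    have h1 : HasDerivAt (fun s : ℝ => x₀ + s • u) u t := by
      have := ((hasDerivAt_id t).smul_const u).const_add x₀
      simpa using this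
    have h3 : HasDerivAt (fun s : ℝ => fderiv ℝ g (x₀ + s • u))
      (fderiv ℝ (fderiv ℝ g) (x₀ + t • u) u) t := (hasT (hg _ g4)).comp_hasDerivAt t h1
    have h4 := h3.clm_apply (hasDerivAt_const t u)
    simpa using h4
  set C : ℝ := M * (2 * ‖u‖ + 2 * K * (M1 * ‖u‖)) * (2 * K) with hC
  have hbound : ∀ t ∈ Icc (0 : ℝ) (δ / 2),
      ‖fderiv ℝ (fderiv ℝ g) (x₀ + t • u) u u‖ ≤ C * ‖h t‖ := by
    intro t ht
    obtain ⟨w, hw1, hw2⟩ := decomp t ht
    obtain ⟨-, g2, g3, g4⟩ := good t ht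
    set x := x₀ + t • u with hx
    have e : fderiv ℝ (fderiv ℝ g) x u u = fderiv ℝ (fderiv ℝ g) x w u
        + fderiv ℝ (fderiv ℝ g) x (u - w) w := by
      have : fderiv ℝ (fderiv ℝ g) x u u = fderiv ℝ (fderiv ℝ g) x (u - w) (u - w)
          + (fderiv ℝ (fderiv ℝ g) x w u + fderiv ℝ (fderiv ℝ g) x (u - w) w) := by
        simp only [map_sub, sub_apply]
        abel
      rw [this, hw2, zero_add]
    have hHu : ‖fderiv ℝ g x u‖ ≤ M1 * ‖u‖ :=
      (ContinuousLinearMap.le_opNorm _ _).trans (by gcongr)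
    have hwb : ‖w‖ ≤ 2 * K * (M1 * ‖u‖) := hw1.trans (by gcongr)
    have hnb : ‖u - w‖ ≤ ‖u‖ + 2 * K * (M1 * ‖u‖) :=
      (norm_sub_le _ _).trans (by gcongr)
    have hTb : ∀ a b : E, ‖fderiv ℝ (fderiv ℝ g) x a b‖ ≤ M * ‖a‖ * ‖b‖ := by
      intro a b
      calc _ ≤ ‖fderiv ℝ (fderiv ℝ g) x a‖ * ‖b‖ := ContinuousLinearMap.le_opNorm _ _
        _ ≤ (‖fderiv ℝ (fderiv ℝ g) x‖ * ‖a‖) * ‖b‖ := by
            gcongr; exact ContinuousLinearMap.le_opNorm _ _
        _ ≤ _ := by gcongr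
    rw [e]
    calc _ ≤ ‖fderiv ℝ (fderiv ℝ g) x w u‖ + ‖fderiv ℝ (fderiv ℝ g) x (u - w) w‖ :=
          norm_add_le _ _
      _ ≤ M * ‖w‖ * ‖u‖ + M * ‖u - w‖ * ‖w‖ := add_le_add (hTb _ _) (hTb _ _)
      _ ≤ M * ‖w‖ * ‖u‖ + M * (‖u‖ + 2 * K * (M1 * ‖u‖)) * ‖w‖ := by gcongr
      _ = M * (2 * ‖u‖ + 2 * K * (M1 * ‖u‖)) * ‖w‖ := by ring
      _ ≤ M * (2 * ‖u‖ + 2 * K * (M1 * ‖u‖)) * (2 * K * ‖h t‖) := by gcongr
      _ = C * ‖h t‖ := by rw [hC]; ring
  have hzero := norm_le_gronwallBound_of_norm_deriv_right_le (f := h)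
    (f' := fun t => fderiv ℝ (fderiv ℝ g) (x₀ + t • u) u u) (δ := 0) (K := C) (ε := 0)
    (a := 0) (b := δ / 2)
    (fun t ht => (hder t ht).continuousAt.continuousWithinAt)
    (fun t ht => (hder t ⟨ht.1, ht.2.le⟩).hasDerivWithinAt)
    (by simp [hh, hu])
    (fun t ht => by simpa using hbound t ⟨ht.1, ht.2.le⟩)
  intro t ht
  refine ⟨(good t ht).2.2.2, ?_⟩
  have h1 := hzero t ht
  rw [gronwallBound_ε0_δ0] at h1
  exact norm_le_zero_iff.mp h1

end Pool.Agent.Helper434.Nullity
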