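import Mathlib

set_option autoImplicit false

namespace Pool.Agent.Helper434.Pentagon

open Filter Topology Set

/-- A nowhere zero continuous function on the plane has a continuous logarithm. -/
lemma exists_log {g : ℂ → ℂ} (hg : Continuous g) (h0 : ∀ z, g z ≠ 0) :
    ∃ l : ℂ → ℂ, Continuous l ∧ ∀ z, Complex.exp (l z) = g z := by
  have hs : IsSimplyConnected (univ : Set ℂ) := by
    have h1 : SimplyConnectedSpace ℂ := inferInstance
    have e : (univ : Set ℂ) ≃ₜ ℂ := Homeomorph.Set.univ ℂ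
    exact e.toHomotopyEquiv.simplyConnectedSpace
  obtain ⟨l, hl, he⟩ := Complex.exists_continuousOn_eqOn_exp_comp hs isOpen_univ
    hg.continuousOn (by simpa using fun z => h0 z)
  exact ⟨l, by simpa [continuousOn_univ] using hl, fun z => he (mem_univ z)⟩

/-- A continuous real function with integer values is constant. -/
lemma int_const {f : ℝ → ℝ} (hf : Continuous f) (h : ∀ x, ∃ n : ℤ, f x = n) (x y : ℝ) :
    f x = f y := by
  by_contra hne
  wlog hlt : f x < f y generalizing x y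
  · exact this y x (Ne.symm hne) (lt_of_le_of_ne (not_lt.mp hlt) (Ne.symm hne))
  obtain ⟨n, hn⟩ := h x
  obtain ⟨m, hm⟩ := h y
  have h1 : (n : ℝ) + 1 / 2 ∈ Icc (f x) (f y) := by
    rw [hn, hm] at hlt ⊢
    have : n + 1 ≤ m := by exact_mod_cast hlt
    have : (n : ℝ) + 1 ≤ m := by exact_mod_cast this
    constructor <;> linarith
  obtain ⟨z, hz⟩ := intermediate_value_univ x y hf h1
  obtain ⟨k, hk⟩ := h z
  rw [hk] at hz
  have h2 : (2 * k : ℝ) = 2 * n + 1 := by linarith
  have h3 : 2 * k = 2 * n + 1 := by exact_mod_cast h2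
  omega

/-- The topological obstruction. -/
lemma exists_zero {g : ℂ → ℂ} (hg : Continuous g)
    (hsym : ∀ t : ℝ, g (Complex.exp ((t + Real.pi / 5 : ℝ) * Complex.I)) =
      Complex.exp (4 * Real.pi / 5 * Complex.I) * g (Complex.exp (t * Complex.I))) :
    ∃ z, g z = 0 := by
  by_contra hne
  push Not at hne
  obtain ⟨l, hl, he⟩ := exists_log hg hne
  set L : ℝ → ℂ := fun t => l (Complex.exp (t * Complex.I)) with hL
  have hLc : Continuous L := hl.comp (by fun_prop)
  set d : ℝ → ℂ := fun t => (L (t + Real.pi / 5) - L t - 4 * Real.pi / 5 * Complex.I) with hd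
  have hdi : ∀ t, ∃ n : ℤ, d t = n * (2 * Real.pi * Complex.I) := by
    intro t
    have h1 : Complex.exp (d t) = 1 := by
      rw [hd]
      simp only [hL]
      rw [Complex.exp_sub, Complex.exp_sub, he, he, hsym t]
      have hy := hne (Complex.exp (t * Complex.I))
      have hw := Complex.exp_ne_zero (4 * Real.pi / 5 * Complex.I)
      generalize g (Complex.exp (t * Complex.I)) = y at hy ⊢
      generalize Complex.exp (4 * Real.pi / 5 * Complex.I) = w at hw ⊢
      field_simp
    exact Complex.exp_eq_one_iff.mp h1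
  set r : ℝ → ℝ := fun t => (d t).im / (2 * Real.pi) with hr
  have hdc : Continuous d := by
    have h1 : Continuous fun t : ℝ => L (t + Real.pi / 5) := hLc.comp (by fun_prop)
    exact (h1.sub hLc).sub continuous_const
  have hrc : Continuous r := (Complex.continuous_im.comp hdc).div_const _
  have hpi : (2 * Real.pi) ≠ 0 := by positivity
  have hri : ∀ t, ∃ n : ℤ, r t = n := by
    intro t
    obtain ⟨n, hn⟩ := hdi t
    refine ⟨n, ?_⟩
    rw [hr]
    simp only
    rw [hn]
    have : ((n : ℂ) * (2 * Real.pi * Complex.I)).im = n * (2 * Real.pi) := by simp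
    rw [this]
    field_simp
  obtain ⟨n, hn⟩ := hri 0
  have hconst : ∀ t, d t = n * (2 * Real.pi * Complex.I) := by
    intro t
    obtain ⟨k, hk⟩ := hdi t
    have h1 := int_const hrc hri t 0
    have h2 : r t = k := by
      rw [hr]
      simp only
      rw [hk]
      have : ((k : ℂ) * (2 * Real.pi * Complex.I)).im = k * (2 * Real.pi) := by simp
      rw [this]
      field_simp
    rw [hk]
    have : (k : ℝ) = n := by rw [← h2, h1, hn]
    have : k = n := by exact_mod_cast this
    rw [this]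
  have hstep : ∀ t, L (t + Real.pi / 5) = L t + (4 * Real.pi / 5 * Complex.I
      + n * (2 * Real.pi * Complex.I)) := by
    intro t
    have := hconst t
    rw [hd] at this
    linear_combination this
  have hiter : ∀ k : ℕ, L (k * (Real.pi / 5)) = L 0 + k * (4 * Real.pi / 5 * Complex.I
      + n * (2 * Real.pi * Complex.I)) := by
    intro k
    induction k with
    | zero => simp
    | succ k ih =>
      have e : ((k + 1 : ℕ) : ℝ) * (Real.pi / 5) = k * (Real.pi / 5) + Real.pi / 5 := by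
        push_cast; ring
      rw [e, hstep, ih]
      push_cast; ring
  have h10 := hiter 10
  have e1 : L (((10 : ℕ) : ℝ) * (Real.pi / 5)) = L 0 := by
    simp only [hL]
    congr 1
    have : (((((10 : ℕ) : ℝ) * (Real.pi / 5) : ℝ) : ℂ) * Complex.I) =
        ((0 : ℝ) : ℂ) * Complex.I + 2 * Real.pi * Complex.I := by push_cast; ring
    rw [this, Complex.exp_add, Complex.exp_two_pi_mul_I, mul_one]
  rw [e1] at h10
  have h11 : (10 : ℂ) * (4 * Real.pi / 5 * Complex.I + n * (2 * Real.pi * Complex.I)) = 0 := by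
    push_cast at h10
    linear_combination -h10
  have h12 : ((8 + 20 * n : ℤ) : ℂ) * (Real.pi * Complex.I) = 0 := by
    push_cast
    linear_combination h11
  have h13 : (Real.pi * Complex.I : ℂ) ≠ 0 := by simp [Real.pi_ne_zero]
  have h14 := (mul_eq_zero.mp h12).resolve_right h13
  have h15 : (8 + 20 * n : ℤ) = 0 := by exact_mod_cast h14
  omega

/-- The unit sphere of `ℝ³`. -/
abbrev K3 : Type := {v : Fin 3 → ℝ // ∑ i, v i ^ 2 = 1}

/-- The angles of the regular pentagon. -/
noncomputable def th (j : Fin 5) : ℝ := 2 * Real.pi * (j : ℕ) / 5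

/-- clamped coordinate -/
noncomputable def nrm (z : ℂ) : ℝ := max 1 ‖z‖

lemma nrm_pos (z : ℂ) : 0 < nrm z := lt_of_lt_of_le one_pos (le_max_left _ _)

noncomputable def ca (z : ℂ) : ℝ := z.re / nrm z
noncomputable def cb (z : ℂ) : ℝ := z.im / nrm z
noncomputable def cw (z : ℂ) : ℝ := Real.sqrt (1 - ca z ^ 2 - cb z ^ 2)

lemma cont_nrm : Continuous nrm := continuous_const.max continuous_norm
lemma cont_ca : Continuous ca := Complex.continuous_re.div cont_nrm fun z => (nrm_pos z).ne'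
lemma cont_cb : Continuous cb := Complex.continuous_im.div cont_nrm fun z => (nrm_pos z).ne'
lemma cont_cw : Continuous cw := by
  have := cont_ca; have := cont_cb; unfold cw; fun_prop

lemma sum_sq (z : ℂ) : ca z ^ 2 + cb z ^ 2 + cw z ^ 2 = 1 := by
  have h : ca z ^ 2 + cb z ^ 2 ≤ 1 := by
    unfold ca cb
    rw [div_pow, div_pow, ← add_div, div_le_one (pow_pos (nrm_pos z) 2)]
    have h1 : z.re ^ 2 + z.im ^ 2 = ‖z‖ ^ 2 := by
      rw [← Complex.normSq_eq_norm_sq, Complex.normSq_apply]; ring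
    rw [h1]
    exact pow_le_pow_left₀ (norm_nonneg _) (le_max_right _ _) 2
  unfold cw
  rw [Real.sq_sqrt (by linarith)]
  ring

/-- first frame vector -/
noncomputable def fp (z : ℂ) : Fin 3 → ℝ :=
  ![ca z ^ 2 - cb z ^ 2 - cw z ^ 2, -(2 * ca z * cb z), 2 * ca z * cw z]
/-- second frame vector -/
noncomputable def fq (z : ℂ) : Fin 3 → ℝ :=
  ![2 * ca z * cb z, ca z ^ 2 - cb z ^ 2 + cw z ^ 2, 2 * cb z * cw z]

lemma fp_unit (z : ℂ) : ∑ i, fp z i ^ 2 = 1 := by
  have h := sum_sq z
  simp only [fp, Fin.sum_univ_three, Matrix.cons_val_zero, Matrix.cons_val_one, Matrix.cons_val]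
  have e : (ca z ^ 2 - cb z ^ 2 - cw z ^ 2) ^ 2 + (-(2 * ca z * cb z)) ^ 2 + (2 * ca z * cw z) ^ 2 =
      (ca z ^ 2 + cb z ^ 2 + cw z ^ 2) ^ 2 := by ring
  rw [e, h]; norm_num

lemma fq_unit (z : ℂ) : ∑ i, fq z i ^ 2 = 1 := by
  have h := sum_sq z
  simp only [fq, Fin.sum_univ_three, Matrix.cons_val_zero, Matrix.cons_val_one, Matrix.cons_val]
  have e : (2 * ca z * cb z) ^ 2 + (ca z ^ 2 - cb z ^ 2 + cw z ^ 2) ^ 2 + (2 * cb z * cw z) ^ 2 =
      (ca z ^ 2 + cb z ^ 2 + cw z ^ 2) ^ 2 := by ring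
  rw [e, h]; norm_num

lemma fpq_orth (z : ℂ) : ∑ i, fp z i * fq z i = 0 := by
  simp only [fp, fq, Fin.sum_univ_three, Matrix.cons_val_zero, Matrix.cons_val_one,
    Matrix.cons_val]
  ring

/-- the direction at angle `s` -/
noncomputable def dir (z : ℂ) (s : ℝ) : Fin 3 → ℝ :=
  fun i => Real.cos s * fp z i + Real.sin s * fq z i

lemma dir_unit (z : ℂ) (s : ℝ) : ∑ i, dir z s i ^ 2 = 1 := by
  have h1 := fp_unit z
  have h2 := fq_unit z
  have h3 := fpq_orth z
  have h4 := Real.sin_sq_add_cos_sq s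
  simp only [dir, Fin.sum_univ_three] at *
  linear_combination (Real.cos s ^ 2) * h1 + (Real.sin s ^ 2) * h2
    + 2 * Real.cos s * Real.sin s * h3 + h4

/-- the `j`-th direction of the pentagon, as a point of the sphere -/
noncomputable def V (j : Fin 5) (z : ℂ) : K3 := ⟨dir z (th j), dir_unit z (th j)⟩

lemma cont_V (j : Fin 5) : Continuous (V j) := by
  apply Continuous.subtype_mk
  apply continuous_pi
  intro i
  have ha := cont_ca
  have hb := cont_cb
  have hw := cont_cw
  unfold dir fp fq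
  fin_cases i
  · simp only [Fin.zero_eta, Matrix.cons_val_zero]; fun_prop
  · simp only [Fin.mk_one, Matrix.cons_val_one, Matrix.cons_val_zero]; fun_prop
  · simp only [Fin.reduceFinMk, Matrix.cons_val]; fun_prop

/-- On the unit circle the direction has an explicit form. -/
lemma dir_circle (t s : ℝ) : dir (Complex.exp (t * Complex.I)) s =
    ![Real.cos (2 * t - s), -Real.sin (2 * t - s), 0] := by
  have hn : nrm (Complex.exp (t * Complex.I)) = 1 := by
    unfold nrm; rw [Complex.norm_exp_ofReal_mul_I]; simp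
  have ha : ca (Complex.exp (t * Complex.I)) = Real.cos t := by
    unfold ca; rw [hn, Complex.exp_ofReal_mul_I_re, div_one]
  have hb : cb (Complex.exp (t * Complex.I)) = Real.sin t := by
    unfold cb; rw [hn, Complex.exp_ofReal_mul_I_im, div_one]
  have hw : cw (Complex.exp (t * Complex.I)) = 0 := by
    unfold cw; rw [ha, hb]
    have := Real.sin_sq_add_cos_sq t
    rw [show (1 : ℝ) - Real.cos t ^ 2 - Real.sin t ^ 2 = 0 by linarith, Real.sqrt_zero]
  funext i
  have h1 := Real.sin_sq_add_cos_sq t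
  unfold dir fp fq
  rw [ha, hb, hw]
  fin_cases i
  · simp only [Fin.zero_eta, Matrix.cons_val_zero]
    rw [Real.cos_sub, Real.cos_two_mul, Real.sin_two_mul]
    linear_combination (-Real.cos s) * h1
  · simp only [Fin.mk_one, Matrix.cons_val_one, Matrix.cons_val_zero]
    rw [Real.sin_sub, Real.cos_two_mul, Real.sin_two_mul]
    linear_combination (-Real.sin s) * h1
  · simp

lemma V_shift (t : ℝ) (j k : Fin 5) (hjk : ∃ n : ℤ, th j = th k + 2 * Real.pi / 5 + n * (2 * Real.pi)) :
    V j (Complex.exp ((t + Real.pi / 5 : ℝ) * Complex.I)) = V k (Complex.exp (t * Complex.I)) := by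
  obtain ⟨n, hn⟩ := hjk
  apply Subtype.ext
  change dir _ (th j) = dir _ (th k)
  rw [dir_circle, dir_circle]
  have e : 2 * (t + Real.pi / 5) - th j = (2 * t - th k) - n * (2 * Real.pi) := by
    rw [hn]; ring
  rw [e, Real.cos_sub_int_mul_two_pi, Real.sin_sub_int_mul_two_pi]

/-- `ω = exp (4 π i / 5)` -/
noncomputable def om : ℂ := Complex.exp (4 * Real.pi / 5 * Complex.I)

lemma om_pow : om ^ 5 = 1 := by
  unfold om
  rw [← Complex.exp_nat_mul]
  have : ((5 : ℕ) : ℂ) * (4 * Real.pi / 5 * Complex.I) = 2 * Real.pi * Complex.I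
      + 2 * Real.pi * Complex.I := by push_cast; ring
  rw [this, Complex.exp_add, Complex.exp_two_pi_mul_I, one_mul]

/-- discrete second harmonic of five numbers -/
noncomputable def har (y : Fin 5 → ℝ) : ℂ :=
  y 0 + om * y 1 + om ^ 2 * y 2 + om ^ 3 * y 3 + om ^ 4 * y 4

lemma har_shift (y : Fin 5 → ℝ) :
    har ![y 4, y 0, y 1, y 2, y 3] = om * har y := by
  simp only [har, Matrix.cons_val_zero, Matrix.cons_val_one, Matrix.cons_val]
  linear_combination (-(y 4 : ℂ)) * om_pow

/-- The two cosines. -/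
noncomputable def c1 : ℝ := Real.cos (2 * Real.pi / 5)
noncomputable def c2 : ℝ := Real.cos (4 * Real.pi / 5)
noncomputable def s1 : ℝ := Real.sin (2 * Real.pi / 5)
noncomputable def s2 : ℝ := Real.sin (4 * Real.pi / 5)

lemma s1_pos : 0 < s1 := Real.sin_pos_of_pos_of_lt_pi (by positivity)
  (by linarith [Real.pi_pos])

lemma s2_pos : 0 < s2 := Real.sin_pos_of_pos_of_lt_pi (by positivity)
  (by linarith [Real.pi_pos])

lemma cs1 : c1 ^ 2 + s1 ^ 2 = 1 := by
  have := Real.sin_sq_add_cos_sq (2 * Real.pi / 5); unfold c1 s1; linarith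

lemma c2_eq : c2 = 2 * c1 ^ 2 - 1 := by
  unfold c1 c2
  rw [← Real.cos_two_mul]; congr 1; ring

lemma s2_eq : s2 = 2 * s1 * c1 := by
  unfold s1 s2 c1
  rw [← Real.sin_two_mul]; congr 1; ring

/-- `4 c1² + 2 c1 - 1 = 0` -/
lemma c1_quad : 4 * c1 ^ 2 + 2 * c1 - 1 = 0 := by
  -- sin (3x) = sin (2π - 2x)... with x = 2π/5
  have h1 : Real.sin (3 * (2 * Real.pi / 5)) = - Real.sin (2 * (2 * Real.pi / 5)) := by
    have : 3 * (2 * Real.pi / 5) = 2 * Real.pi - 2 * (2 * Real.pi / 5) := by ring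
    rw [this, Real.sin_two_pi_sub]
  rw [Real.sin_three_mul, Real.sin_two_mul] at h1
  have hs := s1_pos
  have hcs := cs1
  have h2 : s1 * (4 * c1 ^ 2 + 2 * c1 - 1) = 0 := by
    unfold s1 c1 at *
    linear_combination h1 + 4 * Real.sin (2 * Real.pi / 5) * hcs
  exact (mul_eq_zero.mp h2).resolve_left hs.ne'

lemma cos_th : Real.cos (th 0) = 1 ∧ Real.cos (th 1) = c1 ∧ Real.cos (th 2) = c2 ∧
    Real.cos (th 3) = c2 ∧ Real.cos (th 4) = c1 := by
  refine ⟨?_, ?_, ?_, ?_, ?_⟩
  · simp [th]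
  · simp [th, c1]
  · unfold th c2; congr 1; simp; ring
  · have : th 3 = 2 * Real.pi - 4 * Real.pi / 5 := by unfold th; simp; ring
    rw [this, Real.cos_two_pi_sub]; rfl
  · have : th 4 = 2 * Real.pi - 2 * Real.pi / 5 := by unfold th; simp; ring
    rw [this, Real.cos_two_pi_sub]; rfl

lemma sin_th : Real.sin (th 0) = 0 ∧ Real.sin (th 1) = s1 ∧ Real.sin (th 2) = s2 ∧
    Real.sin (th 3) = -s2 ∧ Real.sin (th 4) = -s1 := by
  refine ⟨?_, ?_, ?_, ?_, ?_⟩
  · simp [th]
  · simp [th, s1]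
  · unfold th s2; congr 1; simp; ring
  · have : th 3 = 2 * Real.pi - 4 * Real.pi / 5 := by unfold th; simp; ring
    rw [this, Real.sin_two_pi_sub]; rfl
  · have : th 4 = 2 * Real.pi - 2 * Real.pi / 5 := by unfold th; simp; ring
    rw [this, Real.sin_two_pi_sub]; rfl

lemma om_eq : om = c2 + s2 * Complex.I := by
  unfold om c2 s2
  rw [show (4 * (Real.pi : ℂ) / 5 * Complex.I) = ((4 * Real.pi / 5 : ℝ) : ℂ) * Complex.I by
    push_cast; ring, Complex.exp_mul_I]
  push_cast; ring

/-- The powers of `om` in terms of `c1, c2, s1, s2`. -/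
lemma om_pows : om ^ 2 = c1 - s1 * Complex.I ∧ om ^ 3 = c1 + s1 * Complex.I ∧
    om ^ 4 = c2 - s2 * Complex.I := by
  have hI := Complex.I_sq
  have h2 : (c2 : ℂ) = 2 * c1 ^ 2 - 1 := by exact_mod_cast c2_eq
  have h3 : (s2 : ℂ) = 2 * s1 * c1 := by exact_mod_cast s2_eq
  have h4 : (c1 : ℂ) ^ 2 + s1 ^ 2 = 1 := by exact_mod_cast cs1
  have h5 : 4 * (c1 : ℂ) ^ 2 + 2 * c1 - 1 = 0 := by exact_mod_cast c1_quad
  have e1 : om = (c1 + s1 * Complex.I) ^ 2 := by
    rw [om_eq, h2, h3]; linear_combination (-(s1 : ℂ) ^ 2) * hI + h4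
  have e5 : ((c1 : ℂ) + s1 * Complex.I) ^ 5 = 1 := by
    have : (c1 : ℂ) + s1 * Complex.I = Complex.exp (2 * Real.pi / 5 * Complex.I) := by
      unfold c1 s1
      rw [show (2 * (Real.pi : ℂ) / 5 * Complex.I) = ((2 * Real.pi / 5 : ℝ) : ℂ) * Complex.I by
        push_cast; ring, Complex.exp_mul_I]
      push_cast; ring
    rw [this, ← Complex.exp_nat_mul]
    have : ((5 : ℕ) : ℂ) * (2 * Real.pi / 5 * Complex.I) = 2 * Real.pi * Complex.I := by
      push_cast; ring
    rw [this, Complex.exp_two_pi_mul_I]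
  have einv : ((c1 : ℂ) + s1 * Complex.I) * (c1 - s1 * Complex.I) = 1 := by
    linear_combination (-(s1 : ℂ) ^ 2) * hI + h4
  have hne : (c1 : ℂ) + s1 * Complex.I ≠ 0 := left_ne_zero_of_mul_eq_one einv
  refine ⟨?_, ?_, ?_⟩
  · -- om^2 = w^4 = w^{-1}
    have : ((c1 : ℂ) + s1 * Complex.I) * (om ^ 2 - (c1 - s1 * Complex.I)) = 0 := by
      rw [e1]; linear_combination e5 - einv
    exact sub_eq_zero.mp ((mul_eq_zero.mp this).resolve_left hne)
  · rw [e1]
    linear_combination ((c1 : ℂ) + s1 * Complex.I) * e5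
  · have : ((c1 : ℂ) + s1 * Complex.I) ^ 2 * (om ^ 4 - (c2 - s2 * Complex.I)) = 0 := by
      have h6 : (c2 : ℂ) - s2 * Complex.I = (c1 - s1 * Complex.I) ^ 2 := by
        rw [h2, h3]; linear_combination (-(s1 : ℂ) ^ 2) * hI + h4
      rw [h6, e1]
      linear_combination (((c1 : ℂ) + s1 * Complex.I) ^ 5 + 1) * e5
        - (((c1 : ℂ) + s1 * Complex.I) * (c1 - s1 * Complex.I) + 1) * einv
    exact sub_eq_zero.mp ((mul_eq_zero.mp this).resolve_left (pow_ne_zero 2 hne))

/-- Five numbers with vanishing mean and second harmonic are a pure first harmonic. -/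
lemma first_harmonic (y : Fin 5 → ℝ) (h0 : y 0 + y 1 + y 2 + y 3 + y 4 = 0)
    (h2 : har y = 0) : ∃ b c : ℝ, ∀ j, y j = b * Real.cos (th j) + c * Real.sin (th j) := by
  obtain ⟨o2, o3, o4⟩ := om_pows
  have hre : y 0 + c2 * (y 1 + y 4) + c1 * (y 2 + y 3) = 0 := by
    have := congrArg Complex.re h2
    rw [har, o2, o3, o4, om_eq] at this
    simp at this
    linarith
  have him : s2 * (y 1 - y 4) - s1 * (y 2 - y 3) = 0 := by
    have := congrArg Complex.im h2
    rw [har, o2, o3, o4, om_eq] at this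
    simp at this
    linarith
  have hq := c1_quad
  have hc2 : c2 = -1 / 2 - c1 := by rw [c2_eq]; linarith
  have hs1 := s1_pos
  have hs2 := s2_pos
  have hc1 : 0 < c1 := by
    have := s2_eq
    rw [this] at hs2
    by_contra hneg
    push Not at hneg
    nlinarith
  -- y1 + y4 = 2 y0 c1
  have hA : y 1 + y 4 = 2 * y 0 * c1 := by
    have h3 : (c2 - c1) * (y 1 + y 4 - 2 * y 0 * c1) = 0 := by
      have e : y 2 + y 3 = - y 0 - (y 1 + y 4) := by linarith
      rw [e] at hre
      rw [hc2] at hre ⊢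
      linear_combination hre + (y 0) * hq
    have h4 : c2 - c1 ≠ 0 := by rw [hc2]; linarith
    have := (mul_eq_zero.mp h3).resolve_left h4
    linarith
  have hB : y 2 + y 3 = 2 * y 0 * c2 := by rw [hc2]; linarith
  refine ⟨y 0, (y 1 - y 4) / (2 * s1), ?_⟩
  have hD : (y 2 - y 3) = (y 1 - y 4) / s1 * s2 := by
    field_simp; linarith
  obtain ⟨k0, k1, k2, k3, k4⟩ := cos_th
  obtain ⟨l0, l1, l2, l3, l4⟩ := sin_th
  intro j
  fin_cases j
  · change y 0 = y 0 * Real.cos (th 0) + _ * Real.sin (th 0)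
    rw [k0, l0]; ring
  · change y 1 = y 0 * Real.cos (th 1) + _ * Real.sin (th 1)
    rw [k1, l1]; field_simp; linarith
  · change y 2 = y 0 * Real.cos (th 2) + _ * Real.sin (th 2)
    rw [k2, l2]
    have e : (y 1 - y 4) / (2 * s1) * s2 = ((y 1 - y 4) / s1 * s2) / 2 := by field_simp
    rw [e, ← hD]; linarith
  · change y 3 = y 0 * Real.cos (th 3) + _ * Real.sin (th 3)
    rw [k3, l3]
    have e : (y 1 - y 4) / (2 * s1) * -s2 = -(((y 1 - y 4) / s1 * s2) / 2) := by field_simp
    rw [e, ← hD]; linarith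
  · change y 4 = y 0 * Real.cos (th 4) + _ * Real.sin (th 4)
    rw [k4, l4]; field_simp; linarith

/-- The pentagon lemma. -/
theorem pentagon (R h : K3 → ℝ) (hR : Continuous R) (hh : Continuous h) (hpos : ∀ v, 0 < R v) :
    ∃ (z : ℂ) (a b c : ℝ), ∀ j, h (V j z) =
      a * R (V j z) + b * Real.cos (th j) + c * Real.sin (th j) := by
  -- the total sums
  let SR : ℂ → ℝ := fun z => R (V 0 z) + R (V 1 z) + R (V 2 z) + R (V 3 z) + R (V 4 z)
  let Sh : ℂ → ℝ := fun z => h (V 0 z) + h (V 1 z) + h (V 2 z) + h (V 3 z) + h (V 4 z)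
  let Y : ℂ → Fin 5 → ℝ := fun z j => SR z * h (V j z) - Sh z * R (V j z)
  have cR : ∀ j, Continuous fun z => R (V j z) := fun j => hR.comp (cont_V j)
  have ch : ∀ j, Continuous fun z => h (V j z) := fun j => hh.comp (cont_V j)
  have cSR : Continuous SR := by
    exact ((((cR 0).add (cR 1)).add (cR 2)).add (cR 3)).add (cR 4)
  have cSh : Continuous Sh := by
    exact ((((ch 0).add (ch 1)).add (ch 2)).add (ch 3)).add (ch 4)
  have cY : ∀ j, Continuous fun z => Y z j := fun j => by
    exact (cSR.mul (ch j)).sub (cSh.mul (cR j))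
  have cg : Continuous fun z => har (Y z) := by
    have r0 := Complex.continuous_ofReal.comp (cY 0)
    have r1 := Complex.continuous_ofReal.comp (cY 1)
    have r2 := Complex.continuous_ofReal.comp (cY 2)
    have r3 := Complex.continuous_ofReal.comp (cY 3)
    have r4 := Complex.continuous_ofReal.comp (cY 4)
    simp only [Function.comp_def] at r0 r1 r2 r3 r4
    simp only [har]; fun_prop
  obtain ⟨z, hz⟩ := exists_zero cg (fun t => by
    set z' := Complex.exp ((t + Real.pi / 5 : ℝ) * Complex.I) with hz'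
    set z := Complex.exp (t * Complex.I) with hz
    have v1 : V 1 z' = V 0 z := V_shift t 1 0 ⟨0, by simp [th]⟩
    have v2 : V 2 z' = V 1 z := V_shift t 2 1 ⟨0, by simp [th]; ring⟩
    have v3 : V 3 z' = V 2 z := V_shift t 3 2 ⟨0, by simp [th]; ring⟩
    have v4 : V 4 z' = V 3 z := V_shift t 4 3 ⟨0, by simp [th]; ring⟩
    have v0 : V 0 z' = V 4 z := V_shift t 0 4 ⟨-1, by simp [th]; ring⟩
    have hSR : SR z' = SR z := by simp only [SR, v0, v1, v2, v3, v4]; ring
    have hSh : Sh z' = Sh z := by simp only [Sh, v0, v1, v2, v3, v4]; ring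
    have hY : Y z' = ![Y z 4, Y z 0, Y z 1, Y z 2, Y z 3] := by
      funext j
      fin_cases j
      · change SR z' * h (V 0 z') - Sh z' * R (V 0 z') = Y z 4
        rw [hSR, hSh, v0]
      · change SR z' * h (V 1 z') - Sh z' * R (V 1 z') = Y z 0
        rw [hSR, hSh, v1]
      · change SR z' * h (V 2 z') - Sh z' * R (V 2 z') = Y z 1
        rw [hSR, hSh, v2]
      · change SR z' * h (V 3 z') - Sh z' * R (V 3 z') = Y z 2
        rw [hSR, hSh, v3]
      · change SR z' * h (V 4 z') - Sh z' * R (V 4 z') = Y z 3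
        rw [hSR, hSh, v4]
    change har (Y z') = om * har (Y z)
    rw [hY, har_shift])
  have hS0 : Y z 0 + Y z 1 + Y z 2 + Y z 3 + Y z 4 = 0 := by
    simp only [Y, SR, Sh]; ring
  obtain ⟨b, c, hbc⟩ := first_harmonic (Y z) hS0 hz
  have hSRpos : 0 < SR z := by
    have := hpos (V 0 z); have := hpos (V 1 z); have := hpos (V 2 z)
    have := hpos (V 3 z); have := hpos (V 4 z)
    simp only [SR]; linarith
  refine ⟨z, Sh z / SR z, b / SR z, c / SR z, fun j => ?_⟩
  have h1 := hbc j
  have h2 : Y z j = SR z * h (V j z) - Sh z * R (V j z) := rfl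
  rw [h2] at h1
  field_simp
  linarith

end Pool.Agent.Helper434.Pentagon
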