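import Mathlib
import Pool.Agent.Helper434.Pentagon

set_option autoImplicit false

namespace Pool.Agent.Helper434.Radial

open Filter Topology Set
open Pool.Agent.Helper434.Pentagon
open scoped ContDiff

/-- Roots of a family of strictly increasing functions depend continuously on the parameter. -/
lemma root_cont {K : Type*} [TopologicalSpace K] {Φ : K → ℝ → ℝ} {T c : ℝ} (hT : 0 < T)
    (hmono : ∀ v, StrictMonoOn (Φ v) (Icc 0 T)) (hct : ∀ v, ContinuousOn (Φ v) (Icc 0 T))
    (hcv : ∀ t ∈ Icc 0 T, Continuous fun v => Φ v t) (h0 : ∀ v, Φ v 0 < c)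
    (h1 : ∀ v, c < Φ v T) :
    ∃ ρ : K → ℝ, Continuous ρ ∧ ∀ v, 0 < ρ v ∧ ρ v < T ∧ Φ v (ρ v) = c := by
  have hex : ∀ v, ∃ r ∈ Ioo 0 T, Φ v r = c := by
    intro v
    have := intermediate_value_Ioo hT.le (hct v)
    exact this ⟨h0 v, h1 v⟩
  choose ρ hρ hρc using hex
  refine ⟨ρ, ?_, fun v => ⟨(hρ v).1, (hρ v).2, hρc v⟩⟩
  rw [continuous_iff_continuousAt]
  intro v
  rw [Metric.continuousAt_iff']
  intro ε hε
  obtain ⟨hv1, hv2⟩ := hρ v
  -- lower and upper test points
  set tm := max (ρ v - ε / 2) (ρ v / 2) with htm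
  set tp := min (ρ v + ε / 2) ((ρ v + T) / 2) with htp
  have m1 : tm < ρ v := max_lt (by linarith) (by linarith)
  have m2 : 0 < tm := lt_of_lt_of_le (by linarith) (le_max_right _ _)
  have p1 : ρ v < tp := lt_min (by linarith) (by linarith)
  have p2 : tp < T := lt_of_le_of_lt (min_le_right _ _) (by linarith)
  have hm : Φ v tm < c := by
    rw [← hρc v]
    exact hmono v ⟨m2.le, by linarith⟩ ⟨hv1.le, hv2.le⟩ m1
  have hp : c < Φ v tp := by
    rw [← hρc v]
    exact hmono v ⟨hv1.le, hv2.le⟩ ⟨by linarith, p2.le⟩ p1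
  have e1 : ∀ᶠ w in 𝓝 v, Φ w tm < c :=
    (hcv tm ⟨m2.le, by linarith⟩).continuousAt.eventually (gt_mem_nhds hm)
  have e2 : ∀ᶠ w in 𝓝 v, c < Φ w tp :=
    (hcv tp ⟨by linarith, p2.le⟩).continuousAt.eventually (lt_mem_nhds hp)
  filter_upwards [e1, e2] with w hw1 hw2
  obtain ⟨hw3, hw4⟩ := hρ w
  have l1 : tm < ρ w := by
    by_contra hle
    push Not at hle
    have := (hmono w).monotoneOn ⟨hw3.le, hw4.le⟩ ⟨m2.le, by linarith⟩ hle
    rw [hρc w] at this
    linarith
  have l2 : ρ w < tp := by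
    by_contra hle
    push Not at hle
    have := (hmono w).monotoneOn ⟨by linarith, p2.le⟩ ⟨hw3.le, hw4.le⟩ hle
    rw [hρc w] at this
    linarith
  have l3 : ρ v - ε / 2 ≤ tm := le_max_left _ _
  have l4 : tp ≤ ρ v + ε / 2 := min_le_left _ _
  rw [Real.dist_eq, abs_lt]
  constructor <;> linarith

lemma th_inj {j l : Fin 5} (hc : Real.cos (th j) = Real.cos (th l))
    (hs : Real.sin (th j) = Real.sin (th l)) : j = l := by
  have hprim := Complex.isPrimitiveRoot_exp 5 (by norm_num)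
  have key : ∀ i : Fin 5, Complex.exp (2 * Real.pi * Complex.I / (5 : ℕ)) ^ (i : ℕ) =
      Real.cos (th i) + Real.sin (th i) * Complex.I := by
    intro i
    rw [← Complex.exp_nat_mul, Complex.ofReal_cos, Complex.ofReal_sin, ← Complex.exp_mul_I]
    congr 1
    unfold th
    push_cast
    ring
  have h : Complex.exp (2 * Real.pi * Complex.I / (5 : ℕ)) ^ (j : ℕ) =
      Complex.exp (2 * Real.pi * Complex.I / (5 : ℕ)) ^ (l : ℕ) := by
    rw [key, key, hc, hs]
  exact Fin.ext (hprim.pow_inj j.2 l.2 h)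

variable {E : Type*} [NormedAddCommGroup E] [NormedSpace ℝ E]

/-- The linear map from `ℝ³`. -/
def iota (e : Fin 3 → E) (v : Fin 3 → ℝ) : E := ∑ i, v i • e i

lemma iota_comb (e : Fin 3 → E) (p q : Fin 3 → ℝ) (a b : ℝ) :
    iota e (fun i => a * p i + b * q i) = a • iota e p + b • iota e q := by
  simp only [iota, Finset.smul_sum, ← Finset.sum_add_distrib, smul_smul, ← add_smul]

lemma iota_norm (e : Fin 3 → E) (v : Fin 3 → ℝ) (hv : ∑ i, v i ^ 2 = 1) :
    ‖iota e v‖ ≤ ∑ i, ‖e i‖ := by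
  unfold iota
  refine (norm_sum_le _ _).trans (Finset.sum_le_sum fun i _ => ?_)
  rw [norm_smul]
  have h1 : v i ^ 2 ≤ 1 := by
    rw [← hv]
    exact Finset.single_le_sum (f := fun i => v i ^ 2) (fun i _ => sq_nonneg _)
      (Finset.mem_univ i)
  have h2 : ‖v i‖ ≤ 1 := by
    rw [Real.norm_eq_abs]; exact abs_le_one_iff_mul_self_le_one.mpr (by nlinarith)
  calc ‖v i‖ * ‖e i‖ ≤ 1 * ‖e i‖ := by gcongr
    _ = ‖e i‖ := one_mul _

lemma iota_cont (e : Fin 3 → E) : Continuous (iota e) := by unfold iota; fun_prop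

lemma iota_form (B : E →L[ℝ] E →L[ℝ] ℝ) (e : Fin 3 → E)
    (he : ∀ i j, B (e i) (e j) = if i = j then 1 else 0) (p q : Fin 3 → ℝ) :
    B (iota e p) (iota e q) = ∑ i, p i * q i := by
  have h00 := he 0 0
  have h01 := he 0 1
  have h02 := he 0 2
  have h10 := he 1 0
  have h11 := he 1 1
  have h12 := he 1 2
  have h20 := he 2 0
  have h21 := he 2 1
  have h22 := he 2 2
  simp only [Fin.isValue, if_true] at h00 h11 h22
  rw [if_neg (by decide)] at h01 h02 h10 h12 h20 h21
  simp only [iota, Fin.sum_univ_three, map_add, map_smul, add_apply, smul_apply,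
    smul_eq_mul, h00, h01, h02, h10, h11, h12, h20, h21, h22]
  ring

lemma ev_sub {E Z : Type*} [TopologicalSpace E] [NormedAddCommGroup Z] {k : E → Z} {x₀ : E}
    (h : ContinuousAt k x₀) {ε : ℝ} (hε : 0 < ε) : ∀ᶠ x in 𝓝 x₀, ‖k x - k x₀‖ < ε := by
  have h : Tendsto (fun x => ‖k x - k x₀‖) (𝓝 x₀) (𝓝 0) := by
    have := (h.tendsto.sub_const (k x₀)).norm
    simpa using this
  exact h.eventually (gt_mem_nhds hε)

/-- The main geometric lemma: five points on a plane. -/
theorem five_points {U : Set E} (hU : IsOpen U) {f k : E → ℝ}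
    (hf : ∀ x ∈ U, ContDiffAt ℝ ∞ f x) (hk : ContinuousOn k U) {x₀ : E} (hx₀ : x₀ ∈ U)
    (e : Fin 3 → E)
    (he : ∀ i j, fderiv ℝ (fderiv ℝ f) x₀ (e i) (e j) = if i = j then 1 else 0) :
    ∃ (p q : Fin 3 → ℝ) (A B : Fin 5 → ℝ) (a₀ a₁ a₂ b₀ b₁ b₂ : ℝ),
      (∑ i, p i ^ 2 = 1) ∧ (∑ i, q i ^ 2 = 1) ∧ (∑ i, p i * q i = 0) ∧
      (∀ j l, A j = A l → B j = B l → j = l) ∧
      ∀ j, x₀ + (A j • iota e p + B j • iota e q) ∈ U ∧
        f (x₀ + (A j • iota e p + B j • iota e q)) = a₀ + A j * a₁ + B j * a₂ ∧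
        k (x₀ + (A j • iota e p + B j • iota e q)) = b₀ + A j * b₁ + B j * b₂ := by
  set G := fderiv ℝ f with hG
  set H := fderiv ℝ G with hH
  set C : ℝ := (∑ i, ‖e i‖) + 1 with hC
  have hCpos : 0 < C := by positivity
  have hCb : ∀ v : K3, ‖iota e v.1‖ ≤ C := fun v =>
    (iota_norm e v.1 v.2).trans (by rw [hC]; linarith)
  have hsmG : ∀ x ∈ U, ContDiffAt ℝ ∞ G x := fun x hx => (hf x hx).fderiv_right (by norm_cast)
  have hsmH : ∀ x ∈ U, ContDiffAt ℝ ∞ H x := fun x hx =>
    (hsmG x hx).fderiv_right (by norm_cast)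
  have hcH : ContinuousAt H x₀ := (hsmH x₀ hx₀).continuousAt
  have ev1 : ∀ᶠ x in 𝓝 x₀, ‖H x - H x₀‖ < 1 / (2 * C ^ 2) :=
    ev_sub (Z := E →L[ℝ] E →L[ℝ] ℝ) hcH (by positivity)
  have ev2 : ∀ᶠ x in 𝓝 x₀, x ∈ U := hU.mem_nhds hx₀
  obtain ⟨δ, hδ, hball⟩ := Metric.eventually_nhds_iff.mp (ev1.and ev2)
  set T : ℝ := δ / (2 * C) with hTdef
  have hT : 0 < T := by positivity
  have good : ∀ (v : K3) (t : ℝ), t ∈ Icc 0 T →
      ‖H (x₀ + t • iota e v.1) - H x₀‖ < 1 / (2 * C ^ 2) ∧ x₀ + t • iota e v.1 ∈ U := by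
    intro v t ht
    apply hball
    rw [dist_eq_norm, add_sub_cancel_left, norm_smul, Real.norm_eq_abs, abs_of_nonneg ht.1]
    calc t * ‖iota e v.1‖ ≤ T * C := mul_le_mul ht.2 (hCb v) (norm_nonneg _) hT.le
      _ = δ / 2 := by rw [hTdef]; field_simp
      _ < δ := by linarith
  -- the function along rays
  let Φ : K3 → ℝ → ℝ := fun v t => f (x₀ + t • iota e v.1) - f x₀ - t * G x₀ (iota e v.1)
  let Φ' : K3 → ℝ → ℝ := fun v t => G (x₀ + t • iota e v.1) (iota e v.1) - G x₀ (iota e v.1)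
  have hline : ∀ (v : K3) (t : ℝ), HasDerivAt (fun s : ℝ => x₀ + s • iota e v.1)
      (iota e v.1) t := by
    intro v t
    have := ((hasDerivAt_id t).smul_const (iota e v.1)).const_add x₀
    simpa using this
  have hd1 : ∀ (v : K3) (t : ℝ), t ∈ Icc 0 T → HasDerivAt (Φ v) (Φ' v t) t := by
    intro v t ht
    have h1 : HasFDerivAt f (G (x₀ + t • iota e v.1)) (x₀ + t • iota e v.1) :=
      ((hf _ (good v t ht).2).differentiableAt (by norm_cast)).hasFDerivAt
    have h2 : HasDerivAt (fun s : ℝ => f (x₀ + s • iota e v.1))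
      (G (x₀ + t • iota e v.1) (iota e v.1)) t := h1.comp_hasDerivAt t (hline v t)
    have h3 := (h2.sub_const (f x₀)).fun_sub ((hasDerivAt_id t).mul_const (G x₀ (iota e v.1)))
    refine HasDerivAt.congr_deriv h3 ?_
    simp [Φ']
  have hd2 : ∀ (v : K3) (t : ℝ), t ∈ Icc 0 T → HasDerivAt (Φ' v)
      (H (x₀ + t • iota e v.1) (iota e v.1) (iota e v.1)) t := by
    intro v t ht
    have h1 : HasFDerivAt G (H (x₀ + t • iota e v.1)) (x₀ + t • iota e v.1) :=
      ((hsmG _ (good v t ht).2).differentiableAt (by norm_cast)).hasFDerivAt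
    have h2 : HasDerivAt (fun s : ℝ => G (x₀ + s • iota e v.1))
      (H (x₀ + t • iota e v.1) (iota e v.1)) t := h1.comp_hasDerivAt t (hline v t)
    have h3 := (h2.clm_apply (hasDerivAt_const t (iota e v.1))).sub_const (G x₀ (iota e v.1))
    refine HasDerivAt.congr_deriv h3 ?_
    simp
  have hlow : ∀ (v : K3) (t : ℝ), t ∈ Icc 0 T →
      1 / 2 ≤ H (x₀ + t • iota e v.1) (iota e v.1) (iota e v.1) := by
    intro v t ht
    have h1 : H x₀ (iota e v.1) (iota e v.1) = 1 := by
      rw [iota_form (H x₀) e he]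
      have := v.2
      simpa [pow_two] using this
    have h2 : H (x₀ + t • iota e v.1) (iota e v.1) (iota e v.1) =
        1 + (H (x₀ + t • iota e v.1) - H x₀) (iota e v.1) (iota e v.1) := by
      rw [sub_apply, sub_apply, h1]; ring
    have h3 : ‖(H (x₀ + t • iota e v.1) - H x₀) (iota e v.1) (iota e v.1)‖ ≤ 1 / 2 := by
      calc _ ≤ ‖(H (x₀ + t • iota e v.1) - H x₀) (iota e v.1)‖ * ‖iota e v.1‖ :=
            ContinuousLinearMap.le_opNorm _ _
        _ ≤ (‖H (x₀ + t • iota e v.1) - H x₀‖ * ‖iota e v.1‖) * ‖iota e v.1‖ := by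
            gcongr; exact ContinuousLinearMap.le_opNorm _ _
        _ ≤ (1 / (2 * C ^ 2) * C) * C := by
            have := (good v t ht).1.le
            have := hCb v
            gcongr
        _ = 1 / 2 := by field_simp
    rw [Real.norm_eq_abs, abs_le] at h3
    rw [h2]; linarith [h3.1]
  have hΦ'0 : ∀ v, Φ' v 0 = 0 := fun v => by simp [Φ']
  have hΦ0 : ∀ v, Φ v 0 = 0 := fun v => by simp [Φ]
  -- first derivative bounded below by t / 2
  have hΦ'low : ∀ (v : K3) (t : ℝ), t ∈ Icc 0 T → t / 2 ≤ Φ' v t := by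
    intro v t ht
    have hmon : MonotoneOn (fun s => Φ' v s - s / 2) (Icc 0 T) := by
      apply monotoneOn_of_deriv_nonneg (convex_Icc 0 T)
      · exact fun s hs => ((hd2 v s hs).sub ((hasDerivAt_id s).div_const 2)).continuousAt
          |>.continuousWithinAt
      · intro s hs
        rw [interior_Icc] at hs
        exact ((hd2 v s ⟨hs.1.le, hs.2.le⟩).fun_sub
          ((hasDerivAt_id s).div_const 2)).differentiableAt.differentiableWithinAt
      · intro s hs
        rw [interior_Icc] at hs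
        have hs' : s ∈ Icc 0 T := ⟨hs.1.le, hs.2.le⟩
        have h := (hd2 v s hs').fun_sub ((hasDerivAt_id s).div_const 2)
        have h' : deriv (fun s => Φ' v s - s / 2) s =
          H (x₀ + s • iota e v.1) (iota e v.1) (iota e v.1) - 1 / 2 := h.deriv
        rw [h']
        linarith [hlow v s hs']
    have := hmon ⟨le_rfl, hT.le⟩ ht ht.1
    simp only [hΦ'0] at this
    linarith
  have hΦlow : ∀ (v : K3) (t : ℝ), t ∈ Icc 0 T → t ^ 2 / 4 ≤ Φ v t := by
    intro v t ht
    have hmon : MonotoneOn (fun s => Φ v s - s ^ 2 / 4) (Icc 0 T) := by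
      have hder : ∀ s ∈ Icc 0 T, HasDerivAt (fun s => Φ v s - s ^ 2 / 4) (Φ' v s - s / 2) s := by
        intro s hs
        have h := (hd1 v s hs).fun_sub ((hasDerivAt_pow 2 s).div_const 4)
        refine HasDerivAt.congr_deriv h ?_
        simp; ring
      apply monotoneOn_of_deriv_nonneg (convex_Icc 0 T)
      · exact fun s hs => (hder s hs).continuousAt.continuousWithinAt
      · intro s hs
        rw [interior_Icc] at hs
        exact (hder s ⟨hs.1.le, hs.2.le⟩).differentiableAt.differentiableWithinAt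
      · intro s hs
        rw [interior_Icc] at hs
        have hs' : s ∈ Icc 0 T := ⟨hs.1.le, hs.2.le⟩
        rw [(hder s hs').deriv]
        linarith [hΦ'low v s hs']
    have := hmon ⟨le_rfl, hT.le⟩ ht ht.1
    simp only [hΦ0] at this
    linarith
  have hmono : ∀ v, StrictMonoOn (Φ v) (Icc 0 T) := by
    intro v
    apply strictMonoOn_of_deriv_pos (convex_Icc 0 T)
    · exact fun s hs => (hd1 v s hs).continuousAt.continuousWithinAt
    · intro s hs
      rw [interior_Icc] at hs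
      have hs' : s ∈ Icc 0 T := ⟨hs.1.le, hs.2.le⟩
      rw [(hd1 v s hs').deriv]
      have := hΦ'low v s hs'
      linarith [hs.1]
  have hcι : Continuous fun v : K3 => iota e v.1 := (iota_cont e).comp continuous_subtype_val
  have hfc : ContinuousOn f U := fun x hx => (hf x hx).continuousAt.continuousWithinAt
  have hcv : ∀ t ∈ Icc 0 T, Continuous fun v => Φ v t := by
    intro t ht
    have h1 : Continuous fun v : K3 => x₀ + t • iota e v.1 := by fun_prop
    have h2 : Continuous fun v : K3 => f (x₀ + t • iota e v.1) :=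
      hfc.comp_continuous h1 fun v => (good v t ht).2
    have h3 : Continuous fun v : K3 => G x₀ (iota e v.1) := (G x₀).continuous.comp hcι
    exact (h2.sub continuous_const).sub (continuous_const.mul h3)
  set c : ℝ := T ^ 2 / 8 with hc
  have hcpos : 0 < c := by positivity
  obtain ⟨ρ, hρc, hρ⟩ := root_cont (c := c) hT hmono
    (fun v s hs => (hd1 v s hs).continuousAt.continuousWithinAt) hcv
    (fun v => by rw [hΦ0]; exact hcpos)
    (fun v => by
      have := hΦlow v T ⟨hT.le, le_rfl⟩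
      have h2 : 0 < T ^ 2 := by positivity
      rw [hc]; linarith)
  have hρpos : ∀ v, 0 < ρ v := fun v => (hρ v).1
  have hmemU : ∀ v : K3, x₀ + ρ v • iota e v.1 ∈ U := fun v =>
    (good v (ρ v) ⟨(hρ v).1.le, (hρ v).2.1.le⟩).2
  -- the two functions on the sphere
  have hRc : Continuous fun v => 1 / ρ v :=
    continuous_const.div hρc fun v => (hρpos v).ne'
  have hhc : Continuous fun v : K3 => k (x₀ + ρ v • iota e v.1) / ρ v := by
    have h1 : Continuous fun v : K3 => x₀ + ρ v • iota e v.1 := by fun_prop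
    exact (hk.comp_continuous h1 hmemU).div hρc fun v => (hρpos v).ne'
  obtain ⟨z, a, b, d, hpent⟩ := pentagon (fun v => 1 / ρ v)
    (fun v => k (x₀ + ρ v • iota e v.1) / ρ v) hRc hhc (fun v => by
      have := hρpos v; positivity)
  have hdir : ∀ j, iota e (V j z).1 =
      Real.cos (th j) • iota e (fp z) + Real.sin (th j) • iota e (fq z) := fun j =>
    iota_comb e (fp z) (fq z) _ _
  have hpt : ∀ j, x₀ + ((ρ (V j z) * Real.cos (th j)) • iota e (fp z)
      + (ρ (V j z) * Real.sin (th j)) • iota e (fq z)) = x₀ + ρ (V j z) • iota e (V j z).1 := by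
    intro j
    rw [hdir j, smul_add, smul_smul, smul_smul]
  refine ⟨fp z, fq z, fun j => ρ (V j z) * Real.cos (th j), fun j => ρ (V j z) * Real.sin (th j),
    f x₀ + c, G x₀ (iota e (fp z)), G x₀ (iota e (fq z)), a, b, d, fp_unit z, fq_unit z,
    fpq_orth z, ?_, ?_⟩
  · intro j l h1 h2
    have hj := hρpos (V j z)
    have hl := hρpos (V l z)
    have s1 := Real.sin_sq_add_cos_sq (th j)
    have s2 := Real.sin_sq_add_cos_sq (th l)
    beta_reduce at h1 h2
    have hsq : ρ (V j z) ^ 2 = ρ (V l z) ^ 2 := by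
      have e1 : ρ (V j z) ^ 2 = (ρ (V j z) * Real.cos (th j)) ^ 2
          + (ρ (V j z) * Real.sin (th j)) ^ 2 := by
        linear_combination (-(ρ (V j z)) ^ 2) * s1
      have e2 : ρ (V l z) ^ 2 = (ρ (V l z) * Real.cos (th l)) ^ 2
          + (ρ (V l z) * Real.sin (th l)) ^ 2 := by
        linear_combination (-(ρ (V l z)) ^ 2) * s2
      rw [e1, e2, h1, h2]
    have heq : ρ (V j z) = ρ (V l z) := by
      have := (sq_eq_sq_iff_eq_or_eq_neg).mp hsq
      rcases this with h | h
      · exact h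
      · linarith
    rw [heq] at h1 h2
    exact th_inj (mul_left_cancel₀ hl.ne' h1) (mul_left_cancel₀ hl.ne' h2)
  · intro j
    have hρj := hρpos (V j z)
    beta_reduce
    rw [hpt j]
    refine ⟨hmemU _, ?_, ?_⟩
    · have h1 := (hρ (V j z)).2.2
      have h2 : f (x₀ + ρ (V j z) • iota e (V j z).1) =
          f x₀ + c + ρ (V j z) * G x₀ (iota e (V j z).1) := by
        simp only [Φ] at h1
        linarith
      rw [h2, hdir j, map_add, map_smul, map_smul, smul_eq_mul, smul_eq_mul]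
      ring
    · have h1 := hpent j
      beta_reduce at h1
      rw [div_eq_iff hρj.ne'] at h1
      rw [h1]
      field_simp

end Pool.Agent.Helper434.Radial
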