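import Mathlib

set_option autoImplicit false

namespace Pool.Agent.Helper434.Signature

variable {E : Type*} [NormedAddCommGroup E] [NormedSpace ℝ E] [FiniteDimensional ℝ E]

lemma definite_of_card {n : ℕ} (B : E →L[ℝ] E →L[ℝ] ℝ) (v : Fin n → E)
    (hv : ∀ i j, i ≠ j → B (v i) (v j) = 0) (σ : ℝ) (P : Finset (Fin n))
    (hP : ∀ i ∈ P, 0 < σ * B (v i) (v i)) (hcard : 3 ≤ P.card) :
    ∃ e : Fin 3 → E, ∀ i j, σ * B (e i) (e j) = if i = j then 1 else 0 := by
  let φ := P.orderEmbOfCardLe hcard
  have hφ : ∀ i, φ i ∈ P := fun i => Finset.orderEmbOfCardLe_mem P hcard i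
  refine ⟨fun i => (1 / Real.sqrt (σ * B (v (φ i)) (v (φ i)))) • v (φ i), ?_⟩
  intro i j
  by_cases hij : i = j
  · subst hij
    rw [if_pos rfl]
    have h := hP _ (hφ i)
    have hs := Real.mul_self_sqrt h.le
    have hs0 := Real.sqrt_pos.mpr h
    simp only [map_smul, smul_apply, smul_eq_mul]
    set r := Real.sqrt (σ * B (v (φ i)) (v (φ i))) with hr
    have : σ * (1 / r * (1 / r * B (v (φ i)) (v (φ i)))) =
        (σ * B (v (φ i)) (v (φ i))) / (r * r) := by
      field_simp
    rw [this, ← hs, div_self (by positivity)]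
  · rw [if_neg hij]
    have hne : φ i ≠ φ j := fun h => hij (φ.injective h)
    simp only [map_smul, smul_apply, smul_eq_mul]
    rw [hv _ _ hne]
    ring

lemma exists_definite (B : E →L[ℝ] E →L[ℝ] ℝ) (hsym : ∀ v w, B v w = B w v)
    (hrk : 5 ≤ Module.finrank ℝ (LinearMap.range B.toLinearMap)) :
    ∃ σ : ℝ, (σ = 1 ∨ σ = -1) ∧
      ∃ e : Fin 3 → E, ∀ i j, σ * B (e i) (e j) = if i = j then 1 else 0 := by
  classical
  let B' : LinearMap.BilinForm ℝ E := (ContinuousLinearMap.coeLM ℝ).comp B.toLinearMap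
  have hB' : ∀ v w, B' v w = B v w := fun v w => rfl
  have hs : LinearMap.IsSymm B' := ⟨fun v w => by simpa [hB'] using hsym v w⟩
  obtain ⟨v, hv⟩ := LinearMap.BilinForm.exists_orthogonal_basis (B := B') hs
  have hv' : ∀ i j, i ≠ j → B (v i) (v j) = 0 := fun i j hij => hv hij
  let S : Finset (Fin (Module.finrank ℝ E)) := Finset.univ.filter fun i => B (v i) (v i) ≠ 0
  let P : Finset (Fin (Module.finrank ℝ E)) := Finset.univ.filter fun i => 0 < B (v i) (v i)
  let N : Finset (Fin (Module.finrank ℝ E)) := Finset.univ.filter fun i => B (v i) (v i) < 0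
  have hzero : ∀ i, i ∉ S → B (v i) = 0 := by
    intro i hi
    have h0 : B (v i) (v i) = 0 := by simpa [S] using hi
    have : (B (v i)).toLinearMap = 0 := by
      apply v.ext
      intro j
      by_cases hij : i = j
      · subst hij; simpa using h0
      · simpa using hv' i j hij
    ext w
    exact LinearMap.congr_fun this w
  have hspan : LinearMap.range B.toLinearMap ≤ Submodule.span ℝ
      ((S.image fun i => B (v i) : Finset (E →L[ℝ] ℝ)) : Set (E →L[ℝ] ℝ)) := by
    rw [LinearMap.range_eq_map, ← v.span_eq, Submodule.map_span, Submodule.span_le]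
    rintro _ ⟨_, ⟨i, rfl⟩, rfl⟩
    by_cases hi : i ∈ S
    · apply Submodule.subset_span
      simp only [Finset.coe_image, Set.mem_image, Finset.mem_coe]
      exact ⟨i, hi, rfl⟩
    · have : B.toLinearMap (v i) = 0 := hzero i hi
      rw [this]; exact Submodule.zero_mem _
  have hcard : 5 ≤ S.card := by
    calc 5 ≤ _ := hrk
      _ ≤ _ := Submodule.finrank_mono hspan
      _ ≤ (S.image fun i => B (v i)).card := finrank_span_finset_le_card _
      _ ≤ S.card := Finset.card_image_le
  have hSPN : S ⊆ P ∪ N := by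
    intro i hi
    have h0 : B (v i) (v i) ≠ 0 := by simpa [S] using hi
    rcases lt_or_gt_of_ne h0 with h | h
    · exact Finset.mem_union_right _ (by simpa [N] using h)
    · exact Finset.mem_union_left _ (by simpa [P] using h)
  have h5 : 5 ≤ P.card + N.card :=
    hcard.trans ((Finset.card_le_card hSPN).trans (Finset.card_union_le _ _))
  rcases Nat.lt_or_ge P.card 3 with hP | hP
  · refine ⟨-1, Or.inr rfl, ?_⟩
    refine definite_of_card B v hv' (-1) N ?_ (by omega)
    intro i hi
    have : B (v i) (v i) < 0 := by simpa [N] using hi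
    linarith
  · refine ⟨1, Or.inl rfl, ?_⟩
    refine definite_of_card B v hv' 1 P ?_ hP
    intro i hi
    have : 0 < B (v i) (v i) := by simpa [P] using hi
    linarith

end Pool.Agent.Helper434.Signature
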