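import Mathlib
import Pool.Agent.Helper434.Nullity
import Pool.Agent.Helper434.Radial
import Pool.Agent.Helper434.Signature

set_option autoImplicit false

namespace Pool.Agent.Helper434.FivePlane

open Filter Topology Set
open Pool.Agent.Helper434.Nullity Pool.Agent.Helper434.Radial Pool.Agent.Helper434.Signature
open scoped ContDiff

variable {E : Type*} [NormedAddCommGroup E] [NormedSpace ℝ E]

/-- the target plane -/
abbrev F2 : Type := Fin 2 → ℝ

lemma rank_split {E Y₁ Y₂ : Type*} [AddCommGroup E] [Module ℝ E] [FiniteDimensional ℝ E]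
    [AddCommGroup Y₁] [Module ℝ Y₁] [AddCommGroup Y₂] [Module ℝ Y₂]
    (A : E →ₗ[ℝ] Y₁) (B : E →ₗ[ℝ] Y₂) (hinj : ∀ v, A v = 0 → B v = 0 → v = 0) :
    Module.finrank ℝ E ≤ Module.finrank ℝ (LinearMap.range A) +
      Module.finrank ℝ (LinearMap.range B) := by
  let L : E →ₗ[ℝ] (LinearMap.range A) × (LinearMap.range B) :=
    A.rangeRestrict.prod B.rangeRestrict
  have hL : Function.Injective L := by
    rw [← LinearMap.ker_eq_bot, LinearMap.ker_eq_bot']
    intro v hv
    have h0 : A v = 0 := congrArg (fun z => (z.1 : Y₁)) hv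
    have h1 : B v = 0 := congrArg (fun z => (z.2 : Y₂)) hv
    exact hinj v h0 h1
  have h2 := LinearMap.finrank_le_finrank_of_injective hL
  rwa [Module.finrank_prod] at h2

lemma second_deriv_comp {U : Set E} (hU : IsOpen U) {f : E → F2}
    (hf : ∀ x ∈ U, ContDiffAt ℝ ∞ f x) {x₀ : E} (hx₀ : x₀ ∈ U) (l : F2 →L[ℝ] ℝ) (v w : E) :
    fderiv ℝ (fderiv ℝ (fun x => l (f x))) x₀ v w = l (fderiv ℝ (fderiv ℝ f) x₀ v w) := by
  have h1 : fderiv ℝ (fun x => l (f x)) =ᶠ[𝓝 x₀]
      fun x => (ContinuousLinearMap.compL ℝ E F2 ℝ l) (fderiv ℝ f x) := by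
    filter_upwards [hU.mem_nhds hx₀] with x hx
    have h2 := (l.hasFDerivAt.comp x (hasH (hf x hx))).fderiv
    exact h2
  rw [h1.fderiv_eq]
  have h3 : HasFDerivAt (fun x => (ContinuousLinearMap.compL ℝ E F2 ℝ l) (fderiv ℝ f x))
      ((ContinuousLinearMap.compL ℝ E F2 ℝ l).comp (fderiv ℝ (fderiv ℝ f) x₀)) x₀ :=
    (ContinuousLinearMap.compL ℝ E F2 ℝ l).hasFDerivAt.comp x₀ (hasT (hf x₀ hx₀))
  rw [h3.fderiv]
  rfl

/-- the conclusion -/
def Five (U : Set E) (f : E → F2) : Prop :=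
  ∃ (x₀ : E) (y₀ : F2) (u w : E) (Y Z : F2) (A B : Fin 5 → ℝ),
    LinearIndependent ℝ ![u, w] ∧ (∀ j l, A j = A l → B j = B l → j = l) ∧
    ∀ j, x₀ + (A j • u + B j • w) ∈ U ∧
      f (x₀ + (A j • u + B j • w)) = y₀ + (A j • Y + B j • Z)

lemma five_of_kernel [FiniteDimensional ℝ E] (hdim : 9 ≤ Module.finrank ℝ E) {U : Set E}
    {f : E → F2} (hf : ∀ x ∈ U, ContDiffAt ℝ ∞ f x) {x₀ : E} (u : E) (hu0 : u ≠ 0)
    {δ : ℝ} (hδ : 0 < δ)
    (h : ∀ t ∈ Icc (0 : ℝ) δ, x₀ + t • u ∈ U ∧ fderiv ℝ (fderiv ℝ f) (x₀ + t • u) u = 0) :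
    Five U f := by
  -- an independent vector
  obtain ⟨w, hw⟩ : ∃ w : E, LinearIndependent ℝ ![u, w] := by
    have : ∃ w : E, w ∉ Submodule.span ℝ {u} := by
      by_contra hcon
      push Not at hcon
      have htop : Submodule.span ℝ {u} = ⊤ := by
        rw [eq_top_iff]; intro w _; exact hcon w
      have h1 : Module.finrank ℝ (Submodule.span ℝ {u}) = 1 := finrank_span_singleton hu0
      rw [htop, finrank_top] at h1
      omega
    obtain ⟨w, hw⟩ := this
    refine ⟨w, ?_⟩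
    rw [LinearIndependent.pair_iff]
    intro s t hst
    have ht : t = 0 := by
      by_contra ht
      apply hw
      rw [Submodule.mem_span_singleton]
      refine ⟨-(t⁻¹ * s), ?_⟩
      have h2 : t • w = -(s • u) := by
        rw [eq_neg_iff_add_eq_zero, add_comm]; exact hst
      calc (-(t⁻¹ * s)) • u = t⁻¹ • (-(s • u)) := by
            rw [neg_smul, smul_neg, mul_smul]
        _ = w := by rw [← h2, smul_smul, inv_mul_cancel₀ ht, one_smul]
    subst ht
    rw [zero_smul, add_zero] at hst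
    exact ⟨(smul_eq_zero.mp hst).resolve_right hu0, rfl⟩
  -- f is affine along the segment
  have hline : ∀ t : ℝ, HasDerivAt (fun s : ℝ => x₀ + s • u) u t := by
    intro t
    have := ((hasDerivAt_id t).smul_const u).const_add x₀
    simpa using this
  have hgder : ∀ t ∈ Icc (0 : ℝ) δ, HasDerivAt (fun s : ℝ => fderiv ℝ f (x₀ + s • u)) 0 t := by
    intro t ht
    obtain ⟨h1, h2⟩ := h t ht
    have h3 : HasDerivAt (fun s : ℝ => fderiv ℝ f (x₀ + s • u))
      (fderiv ℝ (fderiv ℝ f) (x₀ + t • u) u) t := (hasT (hf _ h1)).comp_hasDerivAt t (hline t)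
    rw [h2] at h3
    exact h3
  have hgconst : ∀ t ∈ Icc (0 : ℝ) δ, fderiv ℝ f (x₀ + t • u) = fderiv ℝ f x₀ := by
    intro t ht
    have := constant_of_has_deriv_right_zero (f := fun s : ℝ => fderiv ℝ f (x₀ + s • u))
      (a := 0) (b := δ) (fun s hs => (hgder s hs).continuousAt.continuousWithinAt)
      (fun s hs => (hgder s ⟨hs.1, hs.2.le⟩).hasDerivWithinAt) t ht
    simpa using this
  set Y : F2 := fderiv ℝ f x₀ u with hY
  have hfder : ∀ t ∈ Icc (0 : ℝ) δ,
      HasDerivAt (fun s : ℝ => f (x₀ + s • u) - s • Y) 0 t := by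
    intro t ht
    obtain ⟨h1, h2⟩ := h t ht
    have h3 : HasDerivAt (fun s : ℝ => f (x₀ + s • u)) (fderiv ℝ f (x₀ + t • u) u) t :=
      (hasH (hf _ h1)).comp_hasDerivAt t (hline t)
    rw [hgconst t ht] at h3
    have h4 := h3.fun_sub ((hasDerivAt_id t).smul_const Y)
    refine HasDerivAt.congr_deriv h4 ?_
    rw [one_smul, ← hY, sub_self]
  have hfaff : ∀ t ∈ Icc (0 : ℝ) δ, f (x₀ + t • u) = f x₀ + t • Y := by
    intro t ht
    have := constant_of_has_deriv_right_zero (f := fun s : ℝ => f (x₀ + s • u) - s • Y)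
      (a := 0) (b := δ) (fun s hs => (hfder s hs).continuousAt.continuousWithinAt)
      (fun s hs => (hfder s ⟨hs.1, hs.2.le⟩).hasDerivWithinAt) t ht
    simp only [zero_smul, add_zero, sub_zero] at this
    rw [← this]; abel
  refine ⟨x₀, f x₀, u, w, Y, 0, fun j => δ * (j : ℕ) / 5, fun _ => 0, hw, ?_, ?_⟩
  · intro j l hjl _
    have h1 : δ * ((j : ℕ) : ℝ) / 5 = δ * ((l : ℕ) : ℝ) / 5 := hjl
    have h2 : ((j : ℕ) : ℝ) = ((l : ℕ) : ℝ) := by
      field_simp at h1; exact h1
    exact Fin.ext (by exact_mod_cast h2)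
  · intro j
    have hj : ((j : ℕ) : ℝ) ≤ 4 := by
      have : (j : ℕ) ≤ 4 := by omega
      exact_mod_cast this
    have hj0 : (0 : ℝ) ≤ ((j : ℕ) : ℝ) := Nat.cast_nonneg _
    have ht : δ * ((j : ℕ) : ℝ) / 5 ∈ Icc (0 : ℝ) δ := ⟨by positivity, by
      rw [div_le_iff₀ (by norm_num)]; nlinarith⟩
    simp only [zero_smul, add_zero]
    exact ⟨(h _ ht).1, hfaff _ ht⟩

lemma five_of_definite {U : Set E} (hU : IsOpen U) {f : E → F2}
    (hf : ∀ x ∈ U, ContDiffAt ℝ ∞ f x) {x₀ : E} (hx₀ : x₀ ∈ U) (i : Fin 2) {σ : ℝ}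
    (hσ : σ = 1 ∨ σ = -1) (e : Fin 3 → E)
    (he : ∀ a b, σ * (fderiv ℝ (fderiv ℝ f) x₀ (e a) (e b) i) = if a = b then 1 else 0) :
    Five U f := by
  let l : F2 →L[ℝ] ℝ := σ • ContinuousLinearMap.proj i
  have hl : ∀ y : F2, l y = σ * y i := fun y => rfl
  have hsm : ∀ x ∈ U, ContDiffAt ℝ ∞ (fun x => l (f x)) x := fun x hx =>
    l.contDiff.contDiffAt.comp x (hf x hx)
  have hfc : ContinuousOn f U := fun x hx => (hf x hx).continuousAt.continuousWithinAt
  have hk : ContinuousOn (fun x => f x (1 - i)) U :=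
    (continuous_apply (1 - i)).comp_continuousOn hfc
  have he' : ∀ a b, fderiv ℝ (fderiv ℝ (fun x => l (f x))) x₀ (e a) (e b)
      = if a = b then 1 else 0 := by
    intro a b
    rw [second_deriv_comp hU hf hx₀ l, hl]
    exact he a b
  obtain ⟨p, q, A, B, a₀, a₁, a₂, b₀, b₁, b₂, hp, hq, hpq, hAB, hpts⟩ :=
    five_points hU hsm hk hx₀ e he'
  have hσ2 : σ * σ = 1 := by rcases hσ with h | h <;> rw [h] <;> norm_num
  have form := fun p q => iota_form (fderiv ℝ (fderiv ℝ (fun x => l (f x))) x₀) e he' p q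
  refine ⟨x₀, fun a => if a = i then σ * a₀ else b₀, iota e p, iota e q,
    fun a => if a = i then σ * a₁ else b₁, fun a => if a = i then σ * a₂ else b₂, A, B, ?_,
    hAB, ?_⟩
  · rw [LinearIndependent.pair_iff]
    intro s t hst
    have hpp : ∑ i, p i * p i = 1 := by rw [← hp]; congr 1; ext i; ring
    have hqq : ∑ i, q i * q i = 1 := by rw [← hq]; congr 1; ext i; ring
    have hqp : ∑ i, q i * p i = 0 := by rw [← hpq]; congr 1; ext i; ring
    have h1 := congrArg (fderiv ℝ (fderiv ℝ (fun x => l (f x))) x₀ (iota e p)) hst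
    have h2 := congrArg (fderiv ℝ (fderiv ℝ (fun x => l (f x))) x₀ (iota e q)) hst
    simp only [map_add, map_smul, map_zero, form, hpp, hqq, hpq, hqp, smul_eq_mul] at h1 h2
    constructor <;> linarith
  · intro j
    obtain ⟨h1, h2, h3⟩ := hpts j
    refine ⟨h1, ?_⟩
    ext a
    rw [hl] at h2
    simp only [Pi.add_apply, Pi.smul_apply, smul_eq_mul]
    by_cases ha : a = i
    · subst ha
      simp only [if_true]
      calc f (x₀ + (A j • iota e p + B j • iota e q)) a
          = σ * (σ * f (x₀ + (A j • iota e p + B j • iota e q)) a) := by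
            rw [← mul_assoc, hσ2, one_mul]
        _ = _ := by rw [h2]; ring
    · simp only [if_neg ha]
      have : a = 1 - i := by
        fin_cases a <;> fin_cases i <;> simp_all
      rw [this, h3]; ring

theorem five [FiniteDimensional ℝ E] (hdim : 9 ≤ Module.finrank ℝ E) {U : Set E}
    (hU : IsOpen U) (hne : U.Nonempty) {f : E → F2} (hf : ∀ x ∈ U, ContDiffAt ℝ ∞ f x) :
    Five U f := by
  set g : E → (E →L[ℝ] F2) := fderiv ℝ f with hg
  have hgs : ∀ x ∈ U, ContDiffAt ℝ ∞ g x := fun x hx => smH (hf x hx)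
  -- maximal rank point
  obtain ⟨x₀, hx₀, hmax⟩ : ∃ x₀ ∈ U, ∀ y ∈ U, rk g y ≤ rk g x₀ := by
    have hfin : (rk g '' U).Finite := by
      apply (Set.finite_Iic (Module.finrank ℝ (E →L[ℝ] F2))).subset
      rintro _ ⟨x, -, rfl⟩
      exact Submodule.finrank_le _
    obtain ⟨n, ⟨x₀, hx₀, rfl⟩, hn⟩ := Set.exists_max_image (rk g '' U) id hfin (hne.image _)
    exact ⟨x₀, hx₀, fun y hy => hn _ ⟨y, hy, rfl⟩⟩
  have hsym : ∀ y ∈ U, ∀ v w, (fderiv ℝ g y v) w = (fderiv ℝ g y w) v := fun y hy v w =>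
    symT (hf y hy) v w
  by_cases hker : ∃ u, u ≠ 0 ∧ fderiv ℝ g x₀ u = 0
  · obtain ⟨u, hu0, hu⟩ := hker
    obtain ⟨δ, hδ, h⟩ := kernel_persists hU hgs hx₀ hmax (ContinuousLinearMap.id ℝ (E →L[ℝ] F2))
      (fun y hy => hy) hsym u hu
    exact five_of_kernel hdim hf u hu0 hδ h
  · push Not at hker
    -- the components of the Hessian
    let Hc : Fin 2 → (E →L[ℝ] E →L[ℝ] ℝ) := fun i =>
      (ContinuousLinearMap.compL ℝ E F2 ℝ (ContinuousLinearMap.proj i)).comp (fderiv ℝ g x₀)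
    have hHc : ∀ i v w, Hc i v w = fderiv ℝ g x₀ v w i := fun i v w => rfl
    obtain ⟨i, hi⟩ : ∃ i, 5 ≤ Module.finrank ℝ (LinearMap.range (Hc i).toLinearMap) := by
      have h2 := rank_split (Hc 0).toLinearMap (Hc 1).toLinearMap (fun v h0 h1 => by
        by_contra hv0
        apply hker v hv0
        ext w a
        fin_cases a
        · exact congrArg (fun z : E →L[ℝ] ℝ => z w) h0
        · exact congrArg (fun z : E →L[ℝ] ℝ => z w) h1)
      by_contra hcon
      push Not at hcon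
      have h3 := hcon 0
      have h4 := hcon 1
      omega
    obtain ⟨σ, hσ, e, he⟩ := exists_definite (Hc i) (fun v w => by
      rw [hHc, hHc, hsym x₀ hx₀ v w]) hi
    exact five_of_definite hU hf hx₀ i hσ e he

/-- From five points to the plane. -/
theorem plane_of_five {U : Set E} {f : E → F2} (h : Five U f) :
    ∃ P : AffineSubspace ℝ (E × F2), Module.finrank ℝ P.direction = 2 ∧
      ∃ S : Finset E, S.card = 5 ∧ ∀ x ∈ S, x ∈ U ∧ (x, f x) ∈ P := by
  classical
  obtain ⟨x₀, y₀, u, w, Y, Z, A, B, hli, hAB, hpts⟩ := h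
  rw [LinearIndependent.pair_iff] at hli
  refine ⟨AffineSubspace.mk' (x₀, y₀) (Submodule.span ℝ (Set.range ![(u, Y), (w, Z)])), ?_,
    Finset.univ.image (fun j => x₀ + (A j • u + B j • w)), ?_, ?_⟩
  · rw [AffineSubspace.direction_mk']
    have hli2 : LinearIndependent ℝ ![(u, Y), (w, Z)] := by
      rw [LinearIndependent.pair_iff]
      intro s t hst
      apply hli s t
      exact congrArg Prod.fst hst
    rw [finrank_span_eq_card hli2]
    rfl
  · rw [Finset.card_image_of_injective]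
    · rfl
    · intro j l hjl
      simp only [add_right_inj] at hjl
      have h1 : (A j - A l) • u + (B j - B l) • w = 0 := by
        rw [sub_smul, sub_smul]
        have : A j • u - A l • u + (B j • w - B l • w) =
            (A j • u + B j • w) - (A l • u + B l • w) := by abel
        rw [this, hjl, sub_self]
      obtain ⟨h2, h3⟩ := hli _ _ h1
      exact hAB j l (by linarith) (by linarith)
  · intro x hx
    simp only [Finset.mem_image, Finset.mem_univ, true_and] at hx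
    obtain ⟨j, rfl⟩ := hx
    obtain ⟨h1, h2⟩ := hpts j
    refine ⟨h1, ?_⟩
    rw [AffineSubspace.mem_mk', h2]
    have : ((x₀ + (A j • u + B j • w), y₀ + (A j • Y + B j • Z)) : E × F2) -ᵥ (x₀, y₀)
        = A j • ((u, Y) : E × F2) + B j • ((w, Z) : E × F2) := by
      simp
    rw [this]
    apply Submodule.add_mem
    · exact Submodule.smul_mem _ _ (Submodule.subset_span ⟨0, rfl⟩)
    · exact Submodule.smul_mem _ _ (Submodule.subset_span ⟨1, rfl⟩)

end Pool.Agent.Helper434.FivePlane
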