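import Mathlib

set_option autoImplicit false

namespace Pool.Agent.Helper434.HillCore

open MeasureTheory Filter Topology

/-- Picard iterates of a two-dimensional linear system. -/
noncomputable def it (b11 b12 b21 b22 : ℝ → ℂ) (w : ℂ × ℂ) : ℕ → ℝ → ℂ × ℂ
  | 0 => fun _ => w
  | (n + 1) => fun x =>
      (∫ t in (0 : ℝ)..x, (b11 t * (it b11 b12 b21 b22 w n t).1
        + b12 t * (it b11 b12 b21 b22 w n t).2),
       ∫ t in (0 : ℝ)..x, (b21 t * (it b11 b12 b21 b22 w n t).1
        + b22 t * (it b11 b12 b21 b22 w n t).2))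

variable {b11 b12 b21 b22 : ℝ → ℂ}

lemma it_cont (h11 : Continuous b11) (h12 : Continuous b12) (h21 : Continuous b21)
    (h22 : Continuous b22) (w : ℂ × ℂ) (n : ℕ) :
    Continuous (it b11 b12 b21 b22 w n) := by
  induction n with
  | zero => exact continuous_const
  | succ n ih =>
    have h1 : Continuous fun t => b11 t * (it b11 b12 b21 b22 w n t).1
        + b12 t * (it b11 b12 b21 b22 w n t).2 := by fun_prop
    have h2 : Continuous fun t => b21 t * (it b11 b12 b21 b22 w n t).1
        + b22 t * (it b11 b12 b21 b22 w n t).2 := by fun_prop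
    exact (intervalIntegral.continuous_primitive (fun a b => h1.intervalIntegrable a b) 0).prodMk
      (intervalIntegral.continuous_primitive (fun a b => h2.intervalIntegrable a b) 0)

lemma it_bound (h11 : Continuous b11) (h12 : Continuous b12) (h21 : Continuous b21)
    (h22 : Continuous b22) (w : ℂ × ℂ) (K : ℝ) (hK : 0 ≤ K)
    (k11 : ∀ x, ‖b11 x‖ ≤ K) (k12 : ∀ x, ‖b12 x‖ ≤ K) (k21 : ∀ x, ‖b21 x‖ ≤ K)
    (k22 : ∀ x, ‖b22 x‖ ≤ K) (n : ℕ) : ∀ x : ℝ,
    ‖(it b11 b12 b21 b22 w n x).1‖ ≤ ‖w‖ * (2 * K * |x|) ^ n / n.factorial ∧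
    ‖(it b11 b12 b21 b22 w n x).2‖ ≤ ‖w‖ * (2 * K * |x|) ^ n / n.factorial := by
  induction n with
  | zero => intro x; simp [it, norm_fst_le, norm_snd_le]
  | succ n ih =>
    intro x
    have hc := it_cont h11 h12 h21 h22 w n
    have key : ∀ b c : ℝ → ℂ, Continuous b → Continuous c → (∀ x, ‖b x‖ ≤ K) →
        (∀ x, ‖c x‖ ≤ K) →
        ‖∫ t in (0 : ℝ)..x, (b t * (it b11 b12 b21 b22 w n t).1
        + c t * (it b11 b12 b21 b22 w n t).2)‖ ≤
        ‖w‖ * (2 * K * |x|) ^ (n + 1) / (n + 1).factorial := by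
      intro b c hb hc' kb kc
      have hcont : Continuous fun t => b t * (it b11 b12 b21 b22 w n t).1
        + c t * (it b11 b12 b21 b22 w n t).2 := by fun_prop
      calc ‖∫ t in (0 : ℝ)..x, (b t * (it b11 b12 b21 b22 w n t).1
              + c t * (it b11 b12 b21 b22 w n t).2)‖
          ≤ ∫ t in Set.uIoc 0 x, ‖b t * (it b11 b12 b21 b22 w n t).1
              + c t * (it b11 b12 b21 b22 w n t).2‖ :=
            intervalIntegral.norm_integral_le_integral_norm_uIoc
        _ ≤ ∫ t in Set.uIoc 0 x, (‖w‖ * (2 * K) ^ (n + 1) / n.factorial) * |t - 0| ^ n := by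
            apply MeasureTheory.setIntegral_mono_on
            · exact (hcont.norm.integrableOn_Icc (a := min 0 x) (b := max 0 x)).mono_set
                Set.Ioc_subset_Icc_self
            · have : Continuous fun t : ℝ =>
                  (‖w‖ * (2 * K) ^ (n + 1) / n.factorial) * |t - 0| ^ n := by fun_prop
              exact (this.integrableOn_Icc (a := min 0 x) (b := max 0 x)).mono_set
                Set.Ioc_subset_Icc_self
            · exact measurableSet_uIoc
            · intro t _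
              have h1 := (ih t).1
              have h2 := (ih t).2
              have e1 : ‖b t * (it b11 b12 b21 b22 w n t).1‖ ≤
                  K * (‖w‖ * (2 * K * |t|) ^ n / n.factorial) := by
                rw [norm_mul]
                exact mul_le_mul (kb t) h1 (norm_nonneg _) hK
              have e2 : ‖c t * (it b11 b12 b21 b22 w n t).2‖ ≤
                  K * (‖w‖ * (2 * K * |t|) ^ n / n.factorial) := by
                rw [norm_mul]
                exact mul_le_mul (kc t) h2 (norm_nonneg _) hK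
              calc _ ≤ _ := norm_add_le _ _
                _ ≤ K * (‖w‖ * (2 * K * |t|) ^ n / n.factorial)
                    + K * (‖w‖ * (2 * K * |t|) ^ n / n.factorial) := add_le_add e1 e2
                _ = _ := by rw [sub_zero, mul_pow, mul_pow, mul_pow]; ring
        _ = (‖w‖ * (2 * K) ^ (n + 1) / n.factorial) * (|x - 0| ^ (n + 1) / (n + 1)) := by
            rw [MeasureTheory.integral_const_mul, integral_pow_abs_sub_uIoc]
        _ = ‖w‖ * (2 * K * |x|) ^ (n + 1) / (n + 1).factorial := by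
            rw [Nat.factorial_succ, sub_zero, mul_pow (2 * K)]
            push_cast
            field_simp
    exact ⟨key b11 b12 h11 h12 k11 k12, key b21 b22 h21 h22 k21 k22⟩

lemma it_deriv (h11 : Continuous b11) (h12 : Continuous b12) (h21 : Continuous b21)
    (h22 : Continuous b22) (w : ℂ × ℂ) (n : ℕ) (x : ℝ) :
    HasDerivAt (fun y => (it b11 b12 b21 b22 w (n + 1) y).1)
      (b11 x * (it b11 b12 b21 b22 w n x).1 + b12 x * (it b11 b12 b21 b22 w n x).2) x ∧
    HasDerivAt (fun y => (it b11 b12 b21 b22 w (n + 1) y).2)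
      (b21 x * (it b11 b12 b21 b22 w n x).1 + b22 x * (it b11 b12 b21 b22 w n x).2) x := by
  have hc := it_cont h11 h12 h21 h22 w n
  have h1 : Continuous fun t => b11 t * (it b11 b12 b21 b22 w n t).1
      + b12 t * (it b11 b12 b21 b22 w n t).2 := by fun_prop
  have h2 : Continuous fun t => b21 t * (it b11 b12 b21 b22 w n t).1
      + b22 t * (it b11 b12 b21 b22 w n t).2 := by fun_prop
  constructor
  · exact intervalIntegral.integral_hasDerivAt_right (h1.intervalIntegrable _ _)
      (h1.stronglyMeasurableAtFilter _ _) h1.continuousAt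
  · exact intervalIntegral.integral_hasDerivAt_right (h2.intervalIntegrable _ _)
      (h2.stronglyMeasurableAtFilter _ _) h2.continuousAt

lemma summable_bd (c y : ℝ) : Summable fun n : ℕ => c * (y ^ n / n.factorial) :=
  (Real.summable_pow_div_factorial y).mul_left c

/-- The perturbed linear system `W' = z B W`, `W(0) = w`, solved by `W = w + z R`,
with `R` entire in `z`. -/
theorem lin_sys (h11 : Continuous b11) (h12 : Continuous b12) (h21 : Continuous b21)
    (h22 : Continuous b22) (K : ℝ) (hK : 0 ≤ K)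
    (k11 : ∀ x, ‖b11 x‖ ≤ K) (k12 : ∀ x, ‖b12 x‖ ≤ K) (k21 : ∀ x, ‖b21 x‖ ≤ K)
    (k22 : ∀ x, ‖b22 x‖ ≤ K) (w1 w2 : ℂ) :
    ∃ r1 r2 : ℂ → ℝ → ℂ,
      (∀ x, Differentiable ℂ (fun z => r1 z x)) ∧ (∀ x, Differentiable ℂ (fun z => r2 z x)) ∧
      (∀ z x, HasDerivAt (r1 z)
        (b11 x * (w1 + z * r1 z x) + b12 x * (w2 + z * r2 z x)) x) ∧
      (∀ z x, HasDerivAt (r2 z)
        (b21 x * (w1 + z * r1 z x) + b22 x * (w2 + z * r2 z x)) x) ∧
      (∀ z, r1 z 0 = 0) ∧ (∀ z, r2 z 0 = 0) := by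
  set w : ℂ × ℂ := (w1, w2) with hw
  set W := it b11 b12 b21 b22 w with hW
  have bd := it_bound h11 h12 h21 h22 w K hK k11 k12 k21 k22
  -- summability at each point
  have bdz : ∀ (z : ℂ) (x : ℝ) (n : ℕ),
      ‖z ^ n * (W n x).1‖ ≤ ‖w‖ * ((‖z‖ * (2 * K * |x|)) ^ n / n.factorial) ∧
      ‖z ^ n * (W n x).2‖ ≤ ‖w‖ * ((‖z‖ * (2 * K * |x|)) ^ n / n.factorial) := by
    intro z x n
    have h := bd n x
    constructor
    · rw [norm_mul, norm_pow]
      calc _ ≤ ‖z‖ ^ n * (‖w‖ * (2 * K * |x|) ^ n / n.factorial) := by gcongr; exact h.1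
        _ = _ := by rw [mul_pow ‖z‖]; ring
    · rw [norm_mul, norm_pow]
      calc _ ≤ ‖z‖ ^ n * (‖w‖ * (2 * K * |x|) ^ n / n.factorial) := by gcongr; exact h.2
        _ = _ := by rw [mul_pow ‖z‖]; ring
  have sm1 : ∀ (z : ℂ) (x : ℝ), Summable fun n => z ^ n * (W n x).1 := fun z x =>
    Summable.of_norm_bounded (summable_bd _ _) (fun n => (bdz z x n).1)
  have sm2 : ∀ (z : ℂ) (x : ℝ), Summable fun n => z ^ n * (W n x).2 := fun z x =>
    Summable.of_norm_bounded (summable_bd _ _) (fun n => (bdz z x n).2)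
  -- bounds for the shifted iterates
  have bds : ∀ (z : ℂ) (x : ℝ) (n : ℕ) (ρ R : ℝ), ‖z‖ ≤ ρ → |x| ≤ R →
      ‖z ^ n * (W (n + 1) x).1‖ ≤ (‖w‖ * (2 * K * R)) * ((ρ * (2 * K * R)) ^ n / n.factorial) ∧
      ‖z ^ n * (W (n + 1) x).2‖ ≤
        (‖w‖ * (2 * K * R)) * ((ρ * (2 * K * R)) ^ n / n.factorial) := by
    intro z x n ρ R hz hx
    have h := bd (n + 1) x
    have hρ : 0 ≤ ρ := (norm_nonneg _).trans hz
    have hR : 0 ≤ R := (abs_nonneg _).trans hx
    have hf : ‖w‖ * (2 * K * |x|) ^ (n + 1) / (n + 1).factorial ≤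
        ‖w‖ * (2 * K * R) ^ (n + 1) / n.factorial := by
      gcongr
      exact Nat.le_succ n
    constructor
    · rw [norm_mul, norm_pow]
      calc _ ≤ ρ ^ n * (‖w‖ * (2 * K * R) ^ (n + 1) / n.factorial) := by
            gcongr; exact h.1.trans hf
        _ = _ := by rw [mul_pow ρ]; ring
    · rw [norm_mul, norm_pow]
      calc _ ≤ ρ ^ n * (‖w‖ * (2 * K * R) ^ (n + 1) / n.factorial) := by
            gcongr; exact h.2.trans hf
        _ = _ := by rw [mul_pow ρ]; ring
  have sh1 : ∀ (z : ℂ) (x : ℝ), Summable fun n => z ^ n * (W (n + 1) x).1 := fun z x =>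
    Summable.of_norm_bounded (summable_bd _ _) (fun n => (bds z x n ‖z‖ |x| le_rfl le_rfl).1)
  have sh2 : ∀ (z : ℂ) (x : ℝ), Summable fun n => z ^ n * (W (n + 1) x).2 := fun z x =>
    Summable.of_norm_bounded (summable_bd _ _) (fun n => (bds z x n ‖z‖ |x| le_rfl le_rfl).2)
  have W0 : ∀ x, W 0 x = w := fun x => rfl
  have t1 : ∀ z x, ∑' n, z ^ n * (W n x).1 = w1 + z * ∑' n, z ^ n * (W (n + 1) x).1 := by
    intro z x
    rw [(sm1 z x).tsum_eq_zero_add, ← tsum_mul_left]
    congr 1
    · simp [W0, hw]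
    · congr 1; ext n; rw [pow_succ]; ring
  have t2 : ∀ z x, ∑' n, z ^ n * (W n x).2 = w2 + z * ∑' n, z ^ n * (W (n + 1) x).2 := by
    intro z x
    rw [(sm2 z x).tsum_eq_zero_add, ← tsum_mul_left]
    congr 1
    · simp [W0, hw]
    · congr 1; ext n; rw [pow_succ]; ring
  have hz0 : ∀ n, W (n + 1) 0 = 0 := by
    intro n
    simp [hW, it]
  refine ⟨fun z x => ∑' n, z ^ n * (W (n + 1) x).1, fun z x => ∑' n, z ^ n * (W (n + 1) x).2,
    ?_, ?_, ?_, ?_, ?_, ?_⟩
  · intro x z₀
    have := Complex.differentiableOn_tsum_of_summable_norm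
      (F := fun n z => z ^ n * (W (n + 1) x).1) (U := Metric.ball 0 (‖z₀‖ + 1))
      (summable_bd (‖w‖ * (2 * K * |x|)) ((‖z₀‖ + 1) * (2 * K * |x|)))
      (fun i => by fun_prop) Metric.isOpen_ball
      (fun i z hz => (bds z x i (‖z₀‖ + 1) |x| (mem_ball_zero_iff.mp hz).le le_rfl).1)
    exact this.differentiableAt (Metric.isOpen_ball.mem_nhds (by simp))
  · intro x z₀
    have := Complex.differentiableOn_tsum_of_summable_norm
      (F := fun n z => z ^ n * (W (n + 1) x).2) (U := Metric.ball 0 (‖z₀‖ + 1))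
      (summable_bd (‖w‖ * (2 * K * |x|)) ((‖z₀‖ + 1) * (2 * K * |x|)))
      (fun i => by fun_prop) Metric.isOpen_ball
      (fun i z hz => (bds z x i (‖z₀‖ + 1) |x| (mem_ball_zero_iff.mp hz).le le_rfl).2)
    exact this.differentiableAt (Metric.isOpen_ball.mem_nhds (by simp))
  · intro z x
    have hd := hasDerivAt_tsum_of_isPreconnected
      (g := fun n y => z ^ n * (W (n + 1) y).1)
      (g' := fun n y => z ^ n * (b11 y * (W n y).1 + b12 y * (W n y).2))
      (t := Metric.ball (0 : ℝ) (|x| + 1)) (y₀ := x) (y := x)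
      (summable_bd (2 * K * ‖w‖) (‖z‖ * (2 * K * (|x| + 1)))) Metric.isOpen_ball
      (convex_ball _ _).isPreconnected
      (fun n y _ => ((it_deriv h11 h12 h21 h22 w n y).1).const_mul _)
      (fun n y hy => by
        have hy' : |y| ≤ |x| + 1 := (mem_ball_zero_iff.mp hy).le
        have h1 := (bdz z y n).1
        have h2 := (bdz z y n).2
        have e : z ^ n * (b11 y * (W n y).1 + b12 y * (W n y).2) =
            b11 y * (z ^ n * (W n y).1) + b12 y * (z ^ n * (W n y).2) := by ring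
        have hb : ‖w‖ * ((‖z‖ * (2 * K * |y|)) ^ n / n.factorial) ≤
            ‖w‖ * ((‖z‖ * (2 * K * (|x| + 1))) ^ n / n.factorial) := by gcongr
        rw [e]
        calc _ ≤ ‖b11 y * (z ^ n * (W n y).1)‖ + ‖b12 y * (z ^ n * (W n y).2)‖ :=
              norm_add_le _ _
          _ ≤ K * (‖w‖ * ((‖z‖ * (2 * K * (|x| + 1))) ^ n / n.factorial)) +
              K * (‖w‖ * ((‖z‖ * (2 * K * (|x| + 1))) ^ n / n.factorial)) := by
              rw [norm_mul (b11 y), norm_mul (b12 y)]
              exact add_le_add (mul_le_mul (k11 y) (h1.trans hb) (norm_nonneg _) hK)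
                (mul_le_mul (k12 y) (h2.trans hb) (norm_nonneg _) hK)
          _ = _ := by ring)
      (by simp) (sh1 z x) (by simp)
    have e : b11 x * (w1 + z * ∑' n, z ^ n * (W (n + 1) x).1)
        + b12 x * (w2 + z * ∑' n, z ^ n * (W (n + 1) x).2) =
        ∑' n, z ^ n * (b11 x * (W n x).1 + b12 x * (W n x).2) := by
      rw [← t1, ← t2, ← tsum_mul_left, ← tsum_mul_left,
        ← ((sm1 z x).mul_left _).tsum_add ((sm2 z x).mul_left _)]
      congr 1; ext n; ring
    rw [e]
    exact hd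
  · intro z x
    have hd := hasDerivAt_tsum_of_isPreconnected
      (g := fun n y => z ^ n * (W (n + 1) y).2)
      (g' := fun n y => z ^ n * (b21 y * (W n y).1 + b22 y * (W n y).2))
      (t := Metric.ball (0 : ℝ) (|x| + 1)) (y₀ := x) (y := x)
      (summable_bd (2 * K * ‖w‖) (‖z‖ * (2 * K * (|x| + 1)))) Metric.isOpen_ball
      (convex_ball _ _).isPreconnected
      (fun n y _ => ((it_deriv h11 h12 h21 h22 w n y).2).const_mul _)
      (fun n y hy => by
        have hy' : |y| ≤ |x| + 1 := (mem_ball_zero_iff.mp hy).le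
        have h1 := (bdz z y n).1
        have h2 := (bdz z y n).2
        have e : z ^ n * (b21 y * (W n y).1 + b22 y * (W n y).2) =
            b21 y * (z ^ n * (W n y).1) + b22 y * (z ^ n * (W n y).2) := by ring
        have hb : ‖w‖ * ((‖z‖ * (2 * K * |y|)) ^ n / n.factorial) ≤
            ‖w‖ * ((‖z‖ * (2 * K * (|x| + 1))) ^ n / n.factorial) := by gcongr
        rw [e]
        calc _ ≤ ‖b21 y * (z ^ n * (W n y).1)‖ + ‖b22 y * (z ^ n * (W n y).2)‖ :=
              norm_add_le _ _
          _ ≤ K * (‖w‖ * ((‖z‖ * (2 * K * (|x| + 1))) ^ n / n.factorial)) +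
              K * (‖w‖ * ((‖z‖ * (2 * K * (|x| + 1))) ^ n / n.factorial)) := by
              rw [norm_mul (b21 y), norm_mul (b22 y)]
              exact add_le_add (mul_le_mul (k21 y) (h1.trans hb) (norm_nonneg _) hK)
                (mul_le_mul (k22 y) (h2.trans hb) (norm_nonneg _) hK)
          _ = _ := by ring)
      (by simp) (sh2 z x) (by simp)
    have e : b21 x * (w1 + z * ∑' n, z ^ n * (W (n + 1) x).1)
        + b22 x * (w2 + z * ∑' n, z ^ n * (W (n + 1) x).2) =
        ∑' n, z ^ n * (b21 x * (W n x).1 + b22 x * (W n x).2) := by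
      rw [← t1, ← t2, ← tsum_mul_left, ← tsum_mul_left,
        ← ((sm1 z x).mul_left _).tsum_add ((sm2 z x).mul_left _)]
      congr 1; ext n; ring
    rw [e]
    exact hd
  · intro z; simp [hz0]
  · intro z; simp [hz0]

end Pool.Agent.Helper434.HillCore
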