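import Mathlib

set_option autoImplicit false

namespace Pool.Agent.Helper434.HillFun

open MeasureTheory Filter Topology

/-- square root of three -/
noncomputable def r : ℝ := Real.sqrt 3

lemma r_sq : r * r = 3 := by
  unfold r
  exact Real.mul_self_sqrt (by norm_num)

lemma r_pos : 0 < r := Real.sqrt_pos.mpr (by norm_num)

lemma r_lt_two : r < 2 := by
  nlinarith [r_sq, r_pos]

/-- denominator -/
noncomputable def D (x : ℝ) : ℝ := 1 + 3 * Real.sin x ^ 2

lemma D_pos (x : ℝ) : 0 < D x := by unfold D; positivity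

noncomputable def psi (x : ℝ) : ℝ := Real.arctan (r * Real.sin x)
noncomputable def dpsi (x : ℝ) : ℝ := r * Real.cos x / D x
noncomputable def ddpsi (x : ℝ) : ℝ :=
  (-(r * Real.sin x) * D x - r * Real.cos x * (6 * Real.sin x * Real.cos x)) / D x ^ 2

lemma hasDeriv_D (x : ℝ) : HasDerivAt D (6 * Real.sin x * Real.cos x) x := by
  have h := (((Real.hasDerivAt_sin x).pow 2).const_mul 3).const_add 1
  refine HasDerivAt.congr_deriv h ?_
  simp; ring

lemma hasDeriv_psi (x : ℝ) : HasDerivAt psi (dpsi x) x := by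
  have h := ((Real.hasDerivAt_sin x).const_mul r).arctan
  refine HasDerivAt.congr_deriv h ?_
  unfold dpsi D
  have : (1 : ℝ) + (r * Real.sin x) ^ 2 = 1 + 3 * Real.sin x ^ 2 := by
    rw [mul_pow, pow_two r, r_sq]
  rw [this]; ring

lemma hasDeriv_dpsi (x : ℝ) : HasDerivAt dpsi (ddpsi x) x := by
  have h := ((Real.hasDerivAt_cos x).const_mul r).div (hasDeriv_D x) (D_pos x).ne'
  refine HasDerivAt.congr_deriv h ?_
  unfold ddpsi
  ring

/-- real part of the antiderivative of `exp (-2 i psi)` -/
noncomputable def A (x : ℝ) : ℝ := Real.arctan (Real.sin x * Real.cos x / (1 + Real.sin x ^ 2))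
/-- imaginary part of the antiderivative of `exp (-2 i psi)` -/
noncomputable def B (x : ℝ) : ℝ :=
  (1 / 2) * (Real.log (2 + r * Real.cos x) - Real.log (2 - r * Real.cos x))
noncomputable def dA (x : ℝ) : ℝ := (1 - 3 * Real.sin x ^ 2) / D x
noncomputable def dB (x : ℝ) : ℝ := -(2 * r * Real.sin x) / D x

lemma pos1 (x : ℝ) : 0 < 2 + r * Real.cos x := by
  have := Real.neg_one_le_cos x
  nlinarith [r_pos, r_lt_two]

lemma pos2 (x : ℝ) : 0 < 2 - r * Real.cos x := by
  have := Real.cos_le_one x
  nlinarith [r_pos, r_lt_two]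

lemma hasDeriv_A (x : ℝ) : HasDerivAt A (dA x) x := by
  have hd : (1 : ℝ) + Real.sin x ^ 2 ≠ 0 := by positivity
  have h1 : HasDerivAt (fun y => Real.sin y * Real.cos y)
      (Real.cos x * Real.cos x + Real.sin x * (-Real.sin x)) x :=
    (Real.hasDerivAt_sin x).mul (Real.hasDerivAt_cos x)
  have h2 : HasDerivAt (fun y => 1 + Real.sin y ^ 2) (2 * Real.sin x * Real.cos x) x := by
    have h := ((Real.hasDerivAt_sin x).pow 2).const_add 1
    refine HasDerivAt.congr_deriv h ?_
    simp
  have h := (h1.fun_div h2 hd).arctan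
  refine HasDerivAt.congr_deriv h ?_
  unfold dA D
  have hs : Real.cos x ^ 2 = 1 - Real.sin x ^ 2 := by
    have := Real.sin_sq_add_cos_sq x; linarith
  have e1 : 1 + (Real.sin x * Real.cos x / (1 + Real.sin x ^ 2)) ^ 2 =
      (1 + 3 * Real.sin x ^ 2) / (1 + Real.sin x ^ 2) ^ 2 := by
    rw [div_pow, mul_pow, hs]
    field_simp
    ring
  have hD : (1 : ℝ) + 3 * Real.sin x ^ 2 ≠ 0 := by positivity
  rw [e1]
  field_simp
  linear_combination (1 - Real.sin x ^ 2) * hs

lemma hasDeriv_B (x : ℝ) : HasDerivAt B (dB x) x := by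
  have h1 : HasDerivAt (fun y => 2 + r * Real.cos y) (r * (-Real.sin x)) x :=
    ((Real.hasDerivAt_cos x).const_mul r).const_add 2
  have h2 : HasDerivAt (fun y => 2 - r * Real.cos y) (-(r * (-Real.sin x))) x :=
    ((Real.hasDerivAt_cos x).const_mul r).const_sub 2
  have h := ((h1.log (pos1 x).ne').sub (h2.log (pos2 x).ne')).const_mul (1 / 2)
  refine HasDerivAt.congr_deriv h ?_
  unfold dB D
  have hs : Real.cos x ^ 2 = 1 - Real.sin x ^ 2 := by
    have := Real.sin_sq_add_cos_sq x; linarith
  have hD : (1 : ℝ) + 3 * Real.sin x ^ 2 ≠ 0 := by positivity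
  have p1 := (pos1 x).ne'
  have p2 := (pos2 x).ne'
  have e : (2 + r * Real.cos x) * (2 - r * Real.cos x) = 1 + 3 * Real.sin x ^ 2 := by
    linear_combination (-(Real.cos x ^ 2)) * r_sq - 3 * hs
  rw [← e]
  field_simp
  ring

lemma per_sin (x : ℝ) : Real.sin (x + 2 * Real.pi) = Real.sin x := Real.sin_add_two_pi x
lemma per_cos (x : ℝ) : Real.cos (x + 2 * Real.pi) = Real.cos x := Real.cos_add_two_pi x

lemma per_D (x : ℝ) : D (x + 2 * Real.pi) = D x := by simp only [D, per_sin]
lemma per_psi (x : ℝ) : psi (x + 2 * Real.pi) = psi x := by simp only [psi, per_sin]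
lemma per_dpsi (x : ℝ) : dpsi (x + 2 * Real.pi) = dpsi x := by simp only [dpsi, per_cos, per_D]
lemma per_ddpsi (x : ℝ) : ddpsi (x + 2 * Real.pi) = ddpsi x := by
  simp only [ddpsi, per_cos, per_D, per_sin]
lemma per_A (x : ℝ) : A (x + 2 * Real.pi) = A x := by simp only [A, per_sin, per_cos]
lemma per_B (x : ℝ) : B (x + 2 * Real.pi) = B x := by simp only [B, per_cos]
lemma per_dA (x : ℝ) : dA (x + 2 * Real.pi) = dA x := by simp only [dA, per_sin, per_D]
lemma per_dB (x : ℝ) : dB (x + 2 * Real.pi) = dB x := by simp only [dB, per_sin, per_D]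

lemma sym_A (x : ℝ) : A (Real.pi - x) = - A x := by
  unfold A
  rw [← Real.arctan_neg]
  congr 1
  rw [Real.sin_pi_sub, Real.cos_pi_sub]
  ring

lemma sym_B (x : ℝ) : B (Real.pi - x) = - B x := by
  unfold B
  rw [Real.cos_pi_sub]
  have e1 : 2 + r * -Real.cos x = 2 - r * Real.cos x := by ring
  have e2 : 2 - r * -Real.cos x = 2 + r * Real.cos x := by ring
  rw [e1, e2]; ring

lemma sym_dA (x : ℝ) : dA (Real.pi - x) = dA x := by
  unfold dA D
  rw [Real.sin_pi_sub]

lemma sym_dB (x : ℝ) : dB (Real.pi - x) = dB x := by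
  unfold dB D
  rw [Real.sin_pi_sub]

lemma cont_sin : Continuous Real.sin := Real.continuous_sin
lemma cont_D : Continuous D := by unfold D; fun_prop
lemma cont_psi : Continuous psi := by
  exact continuous_iff_continuousAt.mpr fun x => (hasDeriv_psi x).continuousAt
lemma cont_dpsi : Continuous dpsi :=
  continuous_iff_continuousAt.mpr fun x => (hasDeriv_dpsi x).continuousAt
lemma cont_ddpsi : Continuous ddpsi := by
  unfold ddpsi
  refine Continuous.div ?_ ?_ fun x => pow_ne_zero 2 (D_pos x).ne'
  · have := cont_D; fun_prop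
  · have := cont_D; fun_prop
lemma cont_A : Continuous A :=
  continuous_iff_continuousAt.mpr fun x => (hasDeriv_A x).continuousAt
lemma cont_B : Continuous B :=
  continuous_iff_continuousAt.mpr fun x => (hasDeriv_B x).continuousAt
lemma cont_dA : Continuous dA := by
  unfold dA
  refine Continuous.div (by fun_prop) cont_D fun x => (D_pos x).ne'
lemma cont_dB : Continuous dB := by
  unfold dB
  refine Continuous.div (by fun_prop) cont_D fun x => (D_pos x).ne'

/-- The cross term has zero mean. -/
lemma int_cross : ∫ x in (0 : ℝ)..(2 * Real.pi), (B x * dA x - A x * dB x) = 0 := by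
  set g : ℝ → ℝ := fun x => B x * dA x - A x * dB x with hg
  have hper : Function.Periodic g (2 * Real.pi) := by
    intro x
    simp only [hg, per_A, per_B, per_dA, per_dB]
  have hsym : ∀ x, g (Real.pi - x) = - g x := by
    intro x
    simp only [hg, sym_A, sym_B, sym_dA, sym_dB]
    ring
  have h1 : ∫ x in (0 : ℝ)..(2 * Real.pi), g (Real.pi - x) =
      ∫ x in (Real.pi - 2 * Real.pi)..(Real.pi - 0), g x :=
    intervalIntegral.integral_comp_sub_left (fun x => g x) Real.pi
  have h2 : ∫ x in (Real.pi - 2 * Real.pi)..(Real.pi - 0), g x =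
      ∫ x in (0 : ℝ)..(2 * Real.pi), g x := by
    have := hper.intervalIntegral_add_eq (Real.pi - 2 * Real.pi) 0
    simpa using this
  have h3 : ∫ x in (0 : ℝ)..(2 * Real.pi), g (Real.pi - x) =
      - ∫ x in (0 : ℝ)..(2 * Real.pi), g x := by
    rw [← intervalIntegral.integral_neg]
    congr 1
    ext x
    exact hsym x
  linarith

lemma sign_nonpos (x : ℝ) : A x * B x * dB x ≤ 0 := by
  have hA : 0 ≤ A x * (Real.sin x * Real.cos x) := by
    unfold A
    rcases le_total 0 (Real.sin x * Real.cos x) with h | h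
    · have : 0 ≤ Real.arctan (Real.sin x * Real.cos x / (1 + Real.sin x ^ 2)) := by
        apply Real.arctan_nonneg.mpr; positivity
      positivity
    · have : Real.arctan (Real.sin x * Real.cos x / (1 + Real.sin x ^ 2)) ≤ 0 := by
        rw [← Real.arctan_zero]
        exact Real.arctan_strictMono.monotone
          (div_nonpos_of_nonpos_of_nonneg h (by positivity))
      exact mul_nonneg_of_nonpos_of_nonpos this h
  have hB : 0 ≤ B x * Real.cos x := by
    unfold B
    rcases le_total 0 (Real.cos x) with h | h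
    · have : Real.log (2 - r * Real.cos x) ≤ Real.log (2 + r * Real.cos x) := by
        apply Real.log_le_log (pos2 x)
        nlinarith [r_pos]
      have h' : 0 ≤ Real.log (2 + r * Real.cos x) - Real.log (2 - r * Real.cos x) := by linarith
      positivity
    · have : Real.log (2 + r * Real.cos x) ≤ Real.log (2 - r * Real.cos x) := by
        apply Real.log_le_log (pos1 x)
        nlinarith [r_pos]
      have h' : Real.log (2 + r * Real.cos x) - Real.log (2 - r * Real.cos x) ≤ 0 := by linarith
      nlinarith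
  have hdB : dB x = -(2 * r / D x) * Real.sin x := by unfold dB; ring
  rw [hdB]
  have hc : 0 < 2 * r / D x := div_pos (by linarith [r_pos]) (D_pos x)
  by_cases hcos : Real.cos x = 0
  · have : A x = 0 := by unfold A; simp [hcos]
    simp [this]
  · have hcc : 0 < Real.cos x ^ 2 := by positivity
    have hprod : 0 ≤ (A x * (Real.sin x * Real.cos x)) * (B x * Real.cos x) := mul_nonneg hA hB
    have : 0 ≤ A x * B x * Real.sin x := by
      by_contra hneg
      push Not at hneg
      have : (A x * (Real.sin x * Real.cos x)) * (B x * Real.cos x) =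
        (A x * B x * Real.sin x) * Real.cos x ^ 2 := by ring
      rw [this] at hprod
      nlinarith
    nlinarith

lemma sign_neg : A (Real.pi / 4) * B (Real.pi / 4) * dB (Real.pi / 4) < 0 := by
  have hs : 0 < Real.sin (Real.pi / 4) := by
    rw [Real.sin_pi_div_four]; positivity
  have hc : 0 < Real.cos (Real.pi / 4) := by
    rw [Real.cos_pi_div_four]; positivity
  have hA : 0 < A (Real.pi / 4) := by
    unfold A
    apply Real.arctan_pos.mpr
    positivity
  have hB : 0 < B (Real.pi / 4) := by
    unfold B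
    have : Real.log (2 - r * Real.cos (Real.pi / 4)) < Real.log (2 + r * Real.cos (Real.pi / 4)) := by
      apply Real.log_lt_log (pos2 _)
      nlinarith [r_pos, mul_pos r_pos hc]
    linarith
  have hdB : dB (Real.pi / 4) < 0 := by
    unfold dB
    apply div_neg_of_neg_of_pos _ (D_pos _)
    have := mul_pos r_pos hs
    linarith
  exact mul_neg_of_pos_of_neg (mul_pos hA hB) hdB

lemma int_neg : ∫ x in (0 : ℝ)..(2 * Real.pi), (A x * B x * dB x) < 0 := by
  have hcont : Continuous fun x => A x * B x * dB x := by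
    have := cont_A; have := cont_B; have := cont_dB; fun_prop
  have h := intervalIntegral.integral_lt_integral_of_continuousOn_of_le_of_exists_lt
    (a := 0) (b := 2 * Real.pi) (f := fun x => A x * B x * dB x) (g := fun _ => (0 : ℝ))
    (by positivity) hcont.continuousOn continuousOn_const
    (fun x _ => sign_nonpos x)
    ⟨Real.pi / 4, ⟨by positivity, by linarith [Real.pi_pos]⟩, sign_neg⟩
  simpa using h

end Pool.Agent.Helper434.HillFun
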