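import Mathlib
import Pool.Agent.Helper434.HillCore
import Pool.Agent.Helper434.HillFun

set_option autoImplicit false

namespace Pool.Agent.Helper434.HillMain

open MeasureTheory Filter Topology
open Pool.Agent.Helper434.HillCore Pool.Agent.Helper434.HillFun

/-- first solution at `z = 0` -/
noncomputable def u1 (x : ℝ) : ℂ := Complex.exp (Complex.I * (psi x : ℂ))
/-- its derivative -/
noncomputable def v1 (x : ℝ) : ℂ := Complex.I * (dpsi x : ℂ) * u1 x
/-- the potential -/
noncomputable def q (x : ℝ) : ℂ := Complex.I * (ddpsi x : ℂ) - (dpsi x : ℂ) ^ 2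
/-- inverse of the first solution -/
noncomputable def w1 (x : ℝ) : ℂ := Complex.exp (-(Complex.I * (psi x : ℂ)))
/-- antiderivative of `w1 ^ 2` -/
noncomputable def F (x : ℝ) : ℂ := (A x : ℂ) + Complex.I * (B x : ℂ)
/-- second solution at `z = 0` -/
noncomputable def u2 (x : ℝ) : ℂ := u1 x * F x
noncomputable def v2 (x : ℝ) : ℂ := v1 x * F x + w1 x

lemma u1_w1 (x : ℝ) : u1 x * w1 x = 1 := by
  unfold u1 w1; rw [← Complex.exp_add]; simp

lemma hasDeriv_ofReal {f : ℝ → ℝ} {f' x : ℝ} (h : HasDerivAt f f' x) :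
    HasDerivAt (fun y => (f y : ℂ)) (f' : ℂ) x := h.ofReal_comp

lemma hasDeriv_u1 (x : ℝ) : HasDerivAt u1 (v1 x) x := by
  have h := ((hasDeriv_ofReal (hasDeriv_psi x)).const_mul Complex.I).cexp
  refine HasDerivAt.congr_deriv h ?_
  unfold v1 u1; ring

lemma hasDeriv_w1 (x : ℝ) : HasDerivAt w1 (-(Complex.I * (dpsi x : ℂ) * w1 x)) x := by
  have h := ((hasDeriv_ofReal (hasDeriv_psi x)).const_mul Complex.I).neg.cexp
  refine HasDerivAt.congr_deriv h ?_
  simp only [w1, Pi.neg_apply]; ring

lemma hasDeriv_v1 (x : ℝ) : HasDerivAt v1 (q x * u1 x) x := by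
  have h := ((hasDeriv_ofReal (hasDeriv_dpsi x)).const_mul Complex.I).fun_mul (hasDeriv_u1 x)
  refine HasDerivAt.congr_deriv h ?_
  unfold q v1
  linear_combination ((dpsi x : ℂ) ^ 2 * u1 x) * Complex.I_sq

lemma cos_two_psi (x : ℝ) : Real.cos (2 * psi x) = dA x := by
  unfold dA D psi
  rw [Real.cos_two_mul, Real.cos_sq_arctan, mul_pow, pow_two r, r_sq]
  have : (1 : ℝ) + 3 * Real.sin x ^ 2 ≠ 0 := by positivity
  field_simp
  ring

lemma sin_two_psi (x : ℝ) : Real.sin (2 * psi x) = - dB x := by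
  unfold dB D psi
  rw [Real.sin_two_mul]
  have h1 : Real.sin (Real.arctan (r * Real.sin x)) * Real.cos (Real.arctan (r * Real.sin x)) =
      r * Real.sin x / (1 + 3 * Real.sin x ^ 2) := by
    have h := Real.cos_sq_arctan (r * Real.sin x)
    have ht := Real.tan_arctan (r * Real.sin x)
    rw [Real.tan_eq_sin_div_cos] at ht
    have hc := (Real.cos_arctan_pos (r * Real.sin x)).ne'
    rw [div_eq_iff hc] at ht
    rw [ht, mul_assoc, ← pow_two, h, mul_pow, pow_two r, r_sq]
    ring
  rw [mul_assoc, h1]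
  ring

lemma w1_sq (x : ℝ) : w1 x * w1 x = (dA x : ℂ) + Complex.I * (dB x : ℂ) := by
  unfold w1
  rw [← Complex.exp_add]
  have e : -(Complex.I * (psi x : ℂ)) + -(Complex.I * (psi x : ℂ)) =
      ((-(2 * psi x) : ℝ) : ℂ) * Complex.I := by push_cast; ring
  rw [e, Complex.exp_mul_I, ← Complex.ofReal_cos, ← Complex.ofReal_sin, Real.cos_neg, Real.sin_neg,
    cos_two_psi, sin_two_psi]
  push_cast; ring

lemma u1_sq (x : ℝ) : u1 x * u1 x = (dA x : ℂ) - Complex.I * (dB x : ℂ) := by
  unfold u1
  rw [← Complex.exp_add]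
  have e : (Complex.I * (psi x : ℂ)) + (Complex.I * (psi x : ℂ)) =
      ((2 * psi x : ℝ) : ℂ) * Complex.I := by push_cast; ring
  rw [e, Complex.exp_mul_I, ← Complex.ofReal_cos, ← Complex.ofReal_sin,
    cos_two_psi, sin_two_psi]
  push_cast; ring

lemma hasDeriv_F (x : ℝ) : HasDerivAt F (w1 x * w1 x) x := by
  have h := (hasDeriv_ofReal (hasDeriv_A x)).fun_add
    ((hasDeriv_ofReal (hasDeriv_B x)).const_mul Complex.I)
  refine HasDerivAt.congr_deriv h ?_
  rw [w1_sq]

lemma hasDeriv_u2 (x : ℝ) : HasDerivAt u2 (v2 x) x := by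
  have h := (hasDeriv_u1 x).fun_mul (hasDeriv_F x)
  refine HasDerivAt.congr_deriv h ?_
  unfold v2
  linear_combination (w1 x) * u1_w1 x

lemma hasDeriv_v2 (x : ℝ) : HasDerivAt v2 (q x * u2 x) x := by
  have h := ((hasDeriv_v1 x).fun_mul (hasDeriv_F x)).fun_add (hasDeriv_w1 x)
  refine HasDerivAt.congr_deriv h ?_
  unfold u2 v1
  linear_combination (Complex.I * (dpsi x : ℂ) * w1 x) * u1_w1 x

lemma wronsk (x : ℝ) : u1 x * v2 x - u2 x * v1 x = 1 := by
  unfold u2 v2
  linear_combination u1_w1 x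

lemma per_u1 (x : ℝ) : u1 (x + 2 * Real.pi) = u1 x := by simp only [u1, per_psi]
lemma per_w1 (x : ℝ) : w1 (x + 2 * Real.pi) = w1 x := by simp only [w1, per_psi]
lemma per_v1 (x : ℝ) : v1 (x + 2 * Real.pi) = v1 x := by simp only [v1, per_u1, per_dpsi]
lemma per_F (x : ℝ) : F (x + 2 * Real.pi) = F x := by simp only [F, per_A, per_B]
lemma per_u2 (x : ℝ) : u2 (x + 2 * Real.pi) = u2 x := by simp only [u2, per_u1, per_F]
lemma per_v2 (x : ℝ) : v2 (x + 2 * Real.pi) = v2 x := by simp only [v2, per_v1, per_w1, per_F]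
lemma per_q (x : ℝ) : q (x + 2 * Real.pi) = q x := by simp only [q, per_dpsi, per_ddpsi]

lemma cont_u1 : Continuous u1 :=
  continuous_iff_continuousAt.mpr fun x => (hasDeriv_u1 x).continuousAt
lemma cont_v1 : Continuous v1 :=
  continuous_iff_continuousAt.mpr fun x => (hasDeriv_v1 x).continuousAt
lemma cont_u2 : Continuous u2 :=
  continuous_iff_continuousAt.mpr fun x => (hasDeriv_u2 x).continuousAt
lemma cont_v2 : Continuous v2 :=
  continuous_iff_continuousAt.mpr fun x => (hasDeriv_v2 x).continuousAt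
lemma cont_q : Continuous q := by
  unfold q
  have h1 := Complex.continuous_ofReal.comp cont_ddpsi
  have h2 := Complex.continuous_ofReal.comp cont_dpsi
  exact (continuous_const.mul h1).sub (h2.pow 2)

/-- A continuous periodic function is bounded. -/
lemma bdd_of_per {f : ℝ → ℂ} (hf : Continuous f) (hp : ∀ x, f (x + 2 * Real.pi) = f x) :
    ∃ K : ℝ, 0 ≤ K ∧ ∀ x, ‖f x‖ ≤ K := by
  obtain ⟨K, hK⟩ := (Function.Periodic.isBounded_of_continuous (f := f) (c := 2 * Real.pi)
    hp (by positivity) hf).exists_norm_le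
  exact ⟨max K 0, le_max_right _ _, fun x => (hK _ ⟨x, rfl⟩).trans (le_max_left _ _)⟩

/-- Integrals over a period of the quadratic expressions. -/
lemma F_conj_deriv (x : ℝ) : HasDerivAt (fun y => (A y : ℂ) - Complex.I * (B y : ℂ))
    (u1 x * u1 x) x := by
  have h := (hasDeriv_ofReal (hasDeriv_A x)).fun_sub
    ((hasDeriv_ofReal (hasDeriv_B x)).const_mul Complex.I)
  refine HasDerivAt.congr_deriv h ?_
  rw [u1_sq]

lemma A_two_pi : A (2 * Real.pi) = A 0 := by simpa using per_A 0
lemma B_two_pi : B (2 * Real.pi) = B 0 := by simpa using per_B 0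

lemma int_u1_sq : ∫ x in (0 : ℝ)..(2 * Real.pi), u1 x * u1 x = 0 := by
  rw [intervalIntegral.integral_eq_sub_of_hasDerivAt (fun x _ => F_conj_deriv x)
    ((cont_u1.mul cont_u1).intervalIntegrable _ _), A_two_pi, B_two_pi]
  ring

lemma int_u1_u2 : ∫ x in (0 : ℝ)..(2 * Real.pi), u1 x * u2 x = 0 := by
  have hA := cont_A
  have hB := cont_B
  have hdA := cont_dA
  have hdB := cont_dB
  have e : ∀ x, u1 x * u2 x = ((A x * dA x + B x * dB x : ℝ) : ℂ)
      + Complex.I * ((B x * dA x - A x * dB x : ℝ) : ℂ) := by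
    intro x
    unfold u2 F
    push_cast
    linear_combination ((A x : ℂ) + Complex.I * (B x : ℂ)) * u1_sq x
      - ((B x : ℂ) * (dB x : ℂ)) * Complex.I_sq
  simp_rw [e]
  rw [intervalIntegral.integral_add, intervalIntegral.integral_const_mul,
    intervalIntegral.integral_ofReal, intervalIntegral.integral_ofReal, int_cross]
  · have hd : ∀ x, HasDerivAt (fun y => (A y ^ 2 + B y ^ 2) / 2)
        (A x * dA x + B x * dB x) x := by
      intro x
      have h := (((hasDeriv_A x).fun_pow 2).fun_add ((hasDeriv_B x).fun_pow 2)).div_const 2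
      refine HasDerivAt.congr_deriv h ?_
      simp; ring
    rw [intervalIntegral.integral_eq_sub_of_hasDerivAt (fun x _ => hd x)
      ((by fun_prop : Continuous fun x => A x * dA x + B x * dB x).intervalIntegrable _ _),
      A_two_pi, B_two_pi]
    simp
  · exact (Complex.continuous_ofReal.comp
      (by fun_prop : Continuous fun x => A x * dA x + B x * dB x)).intervalIntegrable _ _
  · exact (continuous_const.mul (Complex.continuous_ofReal.comp
      (by fun_prop : Continuous fun x => B x * dA x - A x * dB x))).intervalIntegrable _ _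

lemma int_u2_sq_ne : ∫ x in (0 : ℝ)..(2 * Real.pi), u2 x * u2 x ≠ 0 := by
  have hA := cont_A
  have hB := cont_B
  have hdA := cont_dA
  have hdB := cont_dB
  have e : ∀ x, u2 x * u2 x = (((A x ^ 2 * dA x - (dA x * B x ^ 2 + A x * (2 * B x * dB x))
        + 4 * (A x * B x * dB x)) : ℝ) : ℂ)
      + Complex.I * ((2 * A x * B x * dA x - (A x ^ 2 - B x ^ 2) * dB x : ℝ) : ℂ) := by
    intro x
    unfold u2 F
    push_cast
    linear_combination ((A x : ℂ) + Complex.I * (B x : ℂ)) ^ 2 * u1_sq x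
      + ((B x : ℂ) ^ 2 * (dA x : ℂ) - 2 * (A x : ℂ) * (B x : ℂ) * (dB x : ℂ)
        - Complex.I * (B x : ℂ) ^ 2 * (dB x : ℂ)) * Complex.I_sq
  intro h0
  have hre : (∫ x in (0 : ℝ)..(2 * Real.pi), u2 x * u2 x).re = 0 := by rw [h0]; simp
  simp_rw [e] at hre
  rw [intervalIntegral.integral_add, intervalIntegral.integral_const_mul,
    intervalIntegral.integral_ofReal, intervalIntegral.integral_ofReal] at hre
  · simp only [Complex.add_re, Complex.ofReal_re, Complex.mul_re, Complex.I_re, Complex.ofReal_im,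
      Complex.I_im, zero_mul, mul_zero, sub_zero, add_zero] at hre
    have hd : ∀ x, HasDerivAt (fun y => A y ^ 3 / 3 - A y * B y ^ 2)
        (A x ^ 2 * dA x - (dA x * B x ^ 2 + A x * (2 * B x * dB x))) x := by
      intro x
      have h := (((hasDeriv_A x).fun_pow 3).div_const 3).fun_sub
        ((hasDeriv_A x).fun_mul ((hasDeriv_B x).fun_pow 2))
      refine HasDerivAt.congr_deriv h ?_
      simp; ring
    rw [intervalIntegral.integral_add, intervalIntegral.integral_const_mul,
      intervalIntegral.integral_eq_sub_of_hasDerivAt (fun x _ => hd x)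
      ((by fun_prop : Continuous fun x =>
        A x ^ 2 * dA x - (dA x * B x ^ 2 + A x * (2 * B x * dB x))).intervalIntegrable _ _),
      A_two_pi, B_two_pi] at hre
    · have := int_neg
      linarith
    · exact (by fun_prop : Continuous fun x =>
        A x ^ 2 * dA x - (dA x * B x ^ 2 + A x * (2 * B x * dB x))).intervalIntegrable _ _
    · exact (by fun_prop : Continuous fun x => 4 * (A x * B x * dB x)).intervalIntegrable _ _
  · exact (Complex.continuous_ofReal.comp
      (by fun_prop : Continuous fun x =>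
        A x ^ 2 * dA x - (dA x * B x ^ 2 + A x * (2 * B x * dB x))
        + 4 * (A x * B x * dB x))).intervalIntegrable _ _
  · exact (continuous_const.mul (Complex.continuous_ofReal.comp
      (by fun_prop : Continuous fun x =>
        2 * A x * B x * dA x - (A x ^ 2 - B x ^ 2) * dB x))).intervalIntegrable _ _

end Pool.Agent.Helper434.HillMain
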