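import Mathlib

set_option autoImplicit false

namespace Pool.Agent.Helper434.PSWin

open ENNReal

/-- three term expression -/
def op (A f : ℤ → ℝ) (j : ℤ) : ℝ := f (j + 1) + f (j - 1) + A j * f j

/-- sum of squares -/
noncomputable def NN (f : ℤ → ℝ) : ℝ≥0∞ := ∑' j, ENNReal.ofReal (f j ^ 2)

/-- tent -/
noncomputable def chi (M : ℕ) (k : ℤ) : ℝ := max 0 ((2 * M : ℝ) - |(k : ℝ)|)

lemma chi_zero {M : ℕ} {k : ℤ} (h : 2 * (M : ℤ) ≤ |k|) : chi M k = 0 := by
  unfold chi
  have : (2 * (M : ℝ)) ≤ |(k : ℝ)| := by exact_mod_cast h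
  rw [max_eq_left]; linarith

lemma chi_diff {M : ℕ} (k l : ℤ) (h : |k - l| ≤ 1) : (chi M k - chi M l) ^ 2 ≤ 1 := by
  have h1 : |chi M k - chi M l| ≤ |(k : ℝ) - l| := by
    unfold chi
    have h2 := abs_max_sub_max_le_abs ((2 * M : ℝ) - |(k : ℝ)|) ((2 * M : ℝ) - |(l : ℝ)|) 0
    rw [max_comm, max_comm (0 : ℝ)]
    refine h2.trans ?_
    rw [show (2 * M : ℝ) - |(k : ℝ)| - ((2 * M : ℝ) - |(l : ℝ)|) = |(l : ℝ)| - |(k : ℝ)| by ring]
    rw [abs_sub_comm (k : ℝ) l]
    exact abs_abs_sub_abs_le _ _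
  have h3 : |(k : ℝ) - l| ≤ 1 := by exact_mod_cast h
  have h4 : |chi M k - chi M l| ≤ 1 := h1.trans h3
  rw [← sq_abs]
  have := abs_nonneg (chi M k - chi M l)
  nlinarith

lemma chi_large {M : ℕ} {k : ℤ} (h : |k| ≤ M) : (M : ℝ) ≤ chi M k := by
  unfold chi
  have : |(k : ℝ)| ≤ M := by exact_mod_cast h
  apply le_max_of_le_right
  linarith

lemma diff_tsum {M : ℕ} (e : ℤ) (he : |e| = 1) :
    ∑' k : ℤ, ENNReal.ofReal ((chi M (k + e) - chi M k) ^ 2) ≤ ENNReal.ofReal (4 * M + 1) := by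
  have h0 : ∀ k ∉ Finset.Icc (-(2 * M : ℤ)) (2 * M), 
      ENNReal.ofReal ((chi M (k + e) - chi M k) ^ 2) = 0 := by
    intro k hk
    rw [Finset.mem_Icc] at hk
    have h1 : 2 * (M : ℤ) ≤ |k| := by
      by_contra hcon
      push Not at hcon
      rw [abs_lt] at hcon
      exact hk ⟨by omega, by omega⟩
    have h2 : 2 * (M : ℤ) ≤ |k + e| := by
      by_contra hcon
      push Not at hcon
      rw [abs_lt] at hcon
      have h3 := neg_abs_le e
      have h4 := le_abs_self e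
      exact hk ⟨by omega, by omega⟩
    rw [chi_zero h1, chi_zero h2]; simp
  rw [tsum_eq_sum h0]
  calc _ ≤ ∑ k ∈ Finset.Icc (-(2 * M : ℤ)) (2 * M), (1 : ℝ≥0∞) := by
        apply Finset.sum_le_sum
        intro k _
        rw [← ENNReal.ofReal_one]
        apply ENNReal.ofReal_le_ofReal
        apply chi_diff
        rw [add_sub_cancel_left, he]
    _ = ENNReal.ofReal (4 * M + 1) := by
        rw [Finset.sum_const, Int.card_Icc, nsmul_eq_mul, mul_one]
        rw [show (2 * (M : ℤ) + 1 - -(2 * (M : ℤ))).toNat = 4 * M + 1 by omega]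
        rw [← ENNReal.ofReal_natCast]
        push_cast; ring_nf

/-- total mass of the tent -/
noncomputable def SS (M : ℕ) : ℝ≥0∞ := ∑' k : ℤ, ENNReal.ofReal (chi M k ^ 2)

lemma SS_ge {M : ℕ} : ENNReal.ofReal (2 * M ^ 3) ≤ SS M := by
  unfold SS
  calc ENNReal.ofReal (2 * M ^ 3) ≤
      ∑ k ∈ Finset.Icc (-(M : ℤ)) M, ENNReal.ofReal ((M : ℝ) ^ 2) := by
        rw [Finset.sum_const, Int.card_Icc, nsmul_eq_mul]
        rw [show ((M : ℤ) + 1 - -(M : ℤ)).toNat = 2 * M + 1 by omega]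
        rw [← ENNReal.ofReal_natCast, ← ENNReal.ofReal_mul (by positivity)]
        apply ENNReal.ofReal_le_ofReal
        push_cast
        nlinarith [sq_nonneg (M : ℝ)]
    _ ≤ ∑ k ∈ Finset.Icc (-(M : ℤ)) M, ENNReal.ofReal (chi M k ^ 2) := by
        apply Finset.sum_le_sum
        intro k hk
        rw [Finset.mem_Icc] at hk
        apply ENNReal.ofReal_le_ofReal
        have := chi_large (M := M) (k := k) (abs_le.mpr ⟨by omega, by omega⟩)
        gcongr
    _ ≤ _ := ENNReal.sum_le_tsum _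

lemma SS_ne_top {M : ℕ} : SS M ≠ ⊤ := by
  unfold SS
  have h0 : ∀ k ∉ Finset.Icc (-(2 * M : ℤ)) (2 * M), ENNReal.ofReal (chi M k ^ 2) = 0 := by
    intro k hk
    rw [Finset.mem_Icc] at hk
    have h1 : 2 * (M : ℤ) ≤ |k| := by
      by_contra hcon
      push Not at hcon
      rw [abs_lt] at hcon
      exact hk ⟨by omega, by omega⟩
    rw [chi_zero h1]; simp
  rw [tsum_eq_sum h0]
  exact ENNReal.sum_ne_top.mpr fun k _ => ENNReal.ofReal_ne_top

lemma conv_tsum (u v : ℤ → ℝ≥0∞) :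
    ∑' a : ℤ, ∑' j : ℤ, u (j - a) * v j = (∑' k, u k) * ∑' j, v j := by
  rw [ENNReal.tsum_comm]
  rw [← ENNReal.tsum_mul_left]
  congr 1
  ext j
  rw [ENNReal.tsum_mul_right]
  congr 1
  exact (Equiv.subLeft j).tsum_eq u

lemma NN_shift (f : ℤ → ℝ) (a : ℤ) : NN (fun j => f (j + a)) = NN f := by
  unfold NN
  exact (Equiv.addRight a).tsum_eq fun j => ENNReal.ofReal (f j ^ 2)

lemma three_sq (x y z : ℝ) : (x + y + z) ^ 2 ≤ 2 * x ^ 2 + 4 * y ^ 2 + 4 * z ^ 2 := by
  nlinarith [sq_nonneg (x - (y + z)), sq_nonneg (y - z)]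

theorem window {A B : ℤ → ℝ} {c : ℝ} (hc : 0 < c)
    (hA : ∀ f : ℤ → ℝ, (Function.support f).Finite → ENNReal.ofReal c * NN f ≤ NN (op A f))
    {M : ℕ} (hM : 40 ≤ c * M ^ 2) (hM1 : 1 ≤ M)
    (hw : ∀ a : ℤ, ∃ b : ℤ, ∀ m : ℤ, |m| ≤ 2 * M → B (a + m) = A (b + m)) (f : ℤ → ℝ)
    (hf : NN f ≠ ⊤) : ENNReal.ofReal (c / 4) * NN f ≤ NN (op B f) := by
  -- local estimates
  have h1 : ∀ a : ℤ, ENNReal.ofReal c * ∑' j, ENNReal.ofReal (chi M (j - a) ^ 2) *
      ENNReal.ofReal (f j ^ 2) ≤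
      ∑' j, (2 * (ENNReal.ofReal (chi M (j - a) ^ 2) * ENNReal.ofReal (op B f j ^ 2)) +
        4 * (ENNReal.ofReal ((chi M (j - a + 1) - chi M (j - a)) ^ 2) *
          ENNReal.ofReal (f (j + 1) ^ 2)) +
        4 * (ENNReal.ofReal ((chi M (j - a + -1) - chi M (j - a)) ^ 2) *
          ENNReal.ofReal (f (j - 1) ^ 2))) := by
    intro a
    obtain ⟨b, hb⟩ := hw a
    set fa : ℤ → ℝ := fun j => chi M (j - a) * f j with hfa
    set h : ℤ → ℝ := fun j => fa (j + (a - b)) with hh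
    have hsupp : (Function.support h).Finite := by
      apply Set.Finite.subset (Set.finite_Icc (b - 2 * M) (b + 2 * M))
      intro j hj
      rw [Function.mem_support] at hj
      have h2 : |j + (a - b) - a| < 2 * (M : ℤ) := by
        by_contra hcon
        push Not at hcon
        apply hj
        simp only [hh, hfa]
        rw [chi_zero hcon, zero_mul]
      rw [abs_lt] at h2
      exact ⟨by omega, by omega⟩
    have h2 := hA h hsupp
    have h3 : NN h = NN fa := NN_shift fa (a - b)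
    have h4 : op A h = fun j => op B fa (j + (a - b)) := by
      ext j
      unfold op
      simp only [hh]
      rw [show j + 1 + (a - b) = j + (a - b) + 1 by ring,
        show j - 1 + (a - b) = j + (a - b) - 1 by ring]
      congr 1
      by_cases hj : |j - b| ≤ 2 * M
      · rw [show j + (a - b) = a + (j - b) by ring, hb _ hj]
        congr 2
        ring
      · push Not at hj
        simp only [hfa]
        rw [chi_zero (show 2 * (M : ℤ) ≤ |j + (a - b) - a| by
          rw [show j + (a - b) - a = j - b by ring]; exact hj.le)]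
        ring
    rw [h3, h4, NN_shift (op B fa) (a - b)] at h2
    have h5 : NN fa = ∑' j, ENNReal.ofReal (chi M (j - a) ^ 2) * ENNReal.ofReal (f j ^ 2) := by
      unfold NN
      congr 1
      ext j
      simp only [hfa]
      rw [mul_pow, ENNReal.ofReal_mul (sq_nonneg _)]
    rw [← h5]
    refine h2.trans ?_
    unfold NN
    apply ENNReal.tsum_le_tsum
    intro j
    have h6 : op B fa j = chi M (j - a) * op B f j +
        (chi M (j - a + 1) - chi M (j - a)) * f (j + 1) +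
        (chi M (j - a + -1) - chi M (j - a)) * f (j - 1) := by
      unfold op
      simp only [hfa]
      rw [show j + 1 - a = j - a + 1 by ring, show j - 1 - a = j - a + -1 by ring]
      ring
    have h7 := three_sq (chi M (j - a) * op B f j)
      ((chi M (j - a + 1) - chi M (j - a)) * f (j + 1))
      ((chi M (j - a + -1) - chi M (j - a)) * f (j - 1))
    rw [← h6] at h7
    refine (ENNReal.ofReal_le_ofReal h7).trans ?_
    rw [ENNReal.ofReal_add (by positivity) (by positivity),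
      ENNReal.ofReal_add (by positivity) (by positivity)]
    rw [ENNReal.ofReal_mul (by norm_num), ENNReal.ofReal_mul (by norm_num),
      ENNReal.ofReal_mul (by norm_num)]
    rw [mul_pow, mul_pow, mul_pow, ENNReal.ofReal_mul (sq_nonneg _),
      ENNReal.ofReal_mul (sq_nonneg _), ENNReal.ofReal_mul (sq_nonneg _)]
    norm_num
  -- sum over centres
  have h2 := ENNReal.tsum_le_tsum h1
  rw [ENNReal.tsum_mul_left] at h2
  rw [conv_tsum (fun k => ENNReal.ofReal (chi M k ^ 2)) fun j => ENNReal.ofReal (f j ^ 2)] at h2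
  have h3 : ∑' a : ℤ, ∑' j, (2 * (ENNReal.ofReal (chi M (j - a) ^ 2) *
      ENNReal.ofReal (op B f j ^ 2)) +
        4 * (ENNReal.ofReal ((chi M (j - a + 1) - chi M (j - a)) ^ 2) *
          ENNReal.ofReal (f (j + 1) ^ 2)) +
        4 * (ENNReal.ofReal ((chi M (j - a + -1) - chi M (j - a)) ^ 2) *
          ENNReal.ofReal (f (j - 1) ^ 2))) =
      2 * (SS M * NN (op B f)) +
      4 * ((∑' k, ENNReal.ofReal ((chi M (k + 1) - chi M k) ^ 2)) * NN f) +
      4 * ((∑' k, ENNReal.ofReal ((chi M (k + -1) - chi M k) ^ 2)) * NN f) := by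
    simp_rw [ENNReal.tsum_add, ENNReal.tsum_mul_left]
    rw [conv_tsum (fun k => ENNReal.ofReal (chi M k ^ 2)) fun j => ENNReal.ofReal (op B f j ^ 2)]
    rw [conv_tsum (fun k => ENNReal.ofReal ((chi M (k + 1) - chi M k) ^ 2))
      fun j => ENNReal.ofReal (f (j + 1) ^ 2)]
    rw [conv_tsum (fun k => ENNReal.ofReal ((chi M (k + -1) - chi M k) ^ 2))
      fun j => ENNReal.ofReal (f (j - 1) ^ 2)]
    have e1 := NN_shift f 1
    have e2 := NN_shift f (-1)
    unfold NN at e1 e2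
    simp only [← sub_eq_add_neg] at e2
    rw [e1, e2]
    rfl
  rw [h3] at h2
  have hd1 := diff_tsum (M := M) 1 (by norm_num)
  have hd2 := diff_tsum (M := M) (-1) (by norm_num)
  have hS1 := SS_ge (M := M)
  have hS2 := SS_ne_top (M := M)
  change ENNReal.ofReal c * (SS M * NN f) ≤ _ at h2
  -- to real numbers
  by_cases hop : NN (op B f) = ⊤
  · rw [hop]; exact le_top
  set n := (NN f).toReal with hn
  set o := (NN (op B f)).toReal with ho
  set S := (SS M).toReal with hS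
  have en : NN f = ENNReal.ofReal n := (ENNReal.ofReal_toReal hf).symm
  have eo : NN (op B f) = ENNReal.ofReal o := (ENNReal.ofReal_toReal hop).symm
  have eS : SS M = ENNReal.ofReal S := (ENNReal.ofReal_toReal hS2).symm
  have n0 : 0 ≤ n := ENNReal.toReal_nonneg
  have o0 : 0 ≤ o := ENNReal.toReal_nonneg
  have S0 : 0 ≤ S := ENNReal.toReal_nonneg
  have h4 : ENNReal.ofReal c * (SS M * NN f) ≤ 2 * (SS M * NN (op B f)) +
      4 * (ENNReal.ofReal (4 * M + 1) * NN f) + 4 * (ENNReal.ofReal (4 * M + 1) * NN f) := by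
    refine h2.trans ?_
    gcongr
  rw [en, eo, eS] at h4
  have M1 : (1 : ℝ) ≤ M := by exact_mod_cast hM1
  have e2 : (2 : ℝ≥0∞) = ENNReal.ofReal 2 := by norm_num
  have e4 : (4 : ℝ≥0∞) = ENNReal.ofReal 4 := by norm_num
  rw [e2, e4, ← ENNReal.ofReal_mul S0, ← ENNReal.ofReal_mul S0, ← ENNReal.ofReal_mul hc.le,
    ← ENNReal.ofReal_mul (by positivity : (0 : ℝ) ≤ 4 * M + 1),
    ← ENNReal.ofReal_mul (by norm_num), ← ENNReal.ofReal_mul (by norm_num),
    ← ENNReal.ofReal_add (by positivity) (by positivity),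
    ← ENNReal.ofReal_add (by positivity) (by positivity),
    ENNReal.ofReal_le_ofReal_iff (by positivity)] at h4
  rw [eS, ENNReal.ofReal_le_ofReal_iff S0] at hS1
  rw [en, eo, ← ENNReal.ofReal_mul (by positivity), ENNReal.ofReal_le_ofReal_iff o0]
  have h5 : 8 * (4 * (M : ℝ) + 1) ≤ c / 2 * S := by
    have h6 : 40 * (M : ℝ) ≤ c * M ^ 2 * M := by nlinarith
    have h7 : c / 2 * (2 * (M : ℝ) ^ 3) ≤ c / 2 * S := by gcongr
    nlinarith
  have h6 : 8 * (4 * (M : ℝ) + 1) * n ≤ c / 2 * S * n := by gcongr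
  have Spos : 0 < S := by
    have : (0 : ℝ) < 2 * (M : ℝ) ^ 3 := by positivity
    linarith
  have h7 : S * (c / 4 * n) ≤ S * o := by nlinarith
  exact le_of_mul_le_mul_left h7 Spos

end Pool.Agent.Helper434.PSWin
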