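import Mathlib
import Pool.Agent.Helper434.PSWin

set_option autoImplicit false

namespace Pool.Agent.Helper434.PSHilb

open ENNReal Pool.Agent.Helper434.PSWin

/-- real square summable sequences -/
abbrev EE : Type := lp (fun _ : ℤ => ℝ) 2

lemma sq_summable (f : EE) : Summable fun j => f j ^ 2 := by
  have h := (lp.memℓp f).summable (by norm_num)
  refine h.congr fun j => ?_
  norm_num

lemma norm_sq_eq (f : EE) : ‖f‖ ^ 2 = ∑' j, f j ^ 2 := by
  have h := lp.norm_rpow_eq_tsum (p := 2) (by norm_num) f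
  have h2 : ‖f‖ ^ 2 = ‖f‖ ^ (2 : ℝ≥0∞).toReal := by norm_num
  rw [h2, h]
  congr 1
  ext j
  norm_num

lemma NN_lp (f : EE) : NN f = ENNReal.ofReal (‖f‖ ^ 2) := by
  unfold NN
  rw [norm_sq_eq, ENNReal.ofReal_tsum_of_nonneg (fun j => sq_nonneg _) (sq_summable f)]

lemma NN_lp_ne_top (f : EE) : NN f ≠ ⊤ := by rw [NN_lp]; exact ENNReal.ofReal_ne_top

lemma memE {f : ℤ → ℝ} (h : NN f ≠ ⊤) : Memℓp f 2 := by
  apply memℓp_gen
  have h1 : Summable fun j => f j ^ 2 := by
    have := ENNReal.summable_toReal h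
    refine this.congr fun j => ?_
    rw [ENNReal.toReal_ofReal (sq_nonneg _)]
  refine h1.congr fun j => ?_
  norm_num

/-- sequence as vector -/
def toE (f : ℤ → ℝ) (h : NN f ≠ ⊤) : EE := ⟨f, memE h⟩

@[simp] lemma toE_coe (f : ℤ → ℝ) (h : NN f ≠ ⊤) : (toE f h : ℤ → ℝ) = f := rfl

lemma NN_add3 (f g h : ℤ → ℝ) : NN (fun j => f j + g j + h j) ≤ 2 * NN f + 4 * NN g + 4 * NN h := by
  unfold NN
  rw [← ENNReal.tsum_mul_left, ← ENNReal.tsum_mul_left, ← ENNReal.tsum_mul_left,
    ← ENNReal.tsum_add, ← ENNReal.tsum_add]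
  apply ENNReal.tsum_le_tsum
  intro j
  refine (ENNReal.ofReal_le_ofReal (three_sq (f j) (g j) (h j))).trans ?_
  rw [ENNReal.ofReal_add (by positivity) (by positivity),
      ENNReal.ofReal_add (by positivity) (by positivity)]
  rw [ENNReal.ofReal_mul (by norm_num), ENNReal.ofReal_mul (by norm_num),
      ENNReal.ofReal_mul (by norm_num)]
  norm_num

lemma NN_mul {A : ℤ → ℝ} {K : ℝ} (hA : ∀ j, |A j| ≤ K) (f : ℤ → ℝ) :
    NN (fun j => A j * f j) ≤ ENNReal.ofReal (K ^ 2) * NN f := by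
  unfold NN
  rw [← ENNReal.tsum_mul_left]
  apply ENNReal.tsum_le_tsum
  intro j
  rw [← ENNReal.ofReal_mul (sq_nonneg _)]
  apply ENNReal.ofReal_le_ofReal
  rw [mul_pow]
  have h1 : A j ^ 2 ≤ K ^ 2 := by
    rw [← sq_abs (A j)]
    exact pow_le_pow_left₀ (abs_nonneg _) (hA j) 2
  have h2 := sq_nonneg (f j)
  nlinarith

lemma NN_op {A : ℤ → ℝ} {K : ℝ} (hA : ∀ j, |A j| ≤ K) (f : ℤ → ℝ) :
    NN (op A f) ≤ ENNReal.ofReal (6 + 4 * K ^ 2) * NN f := by
  have h := NN_add3 (fun j => f (j + 1)) (fun j => f (j + -1)) (fun j => A j * f j)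
  have e : op A f = fun j => f (j + 1) + f (j + -1) + A j * f j := by
    ext j
    unfold op
    rw [← sub_eq_add_neg]
  rw [e]
  refine h.trans ?_
  rw [NN_shift, NN_shift]
  have h2 := NN_mul hA f
  calc 2 * NN f + 4 * NN f + 4 * NN (fun j => A j * f j)
      ≤ 2 * NN f + 4 * NN f + 4 * (ENNReal.ofReal (K ^ 2) * NN f) := by gcongr
    _ = ENNReal.ofReal (6 + 4 * K ^ 2) * NN f := by
        rw [ENNReal.ofReal_add (by norm_num) (by positivity), ENNReal.ofReal_mul (by norm_num)]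
        have e6 : ENNReal.ofReal 6 = 2 + 4 := by
          rw [show (6 : ℝ) = 2 + 4 by norm_num, ENNReal.ofReal_add (by norm_num) (by norm_num)]
          norm_num
        have e4 : ENNReal.ofReal 4 = 4 := by norm_num
        rw [e6, e4]
        ring

lemma NN_op_ne_top {A : ℤ → ℝ} (hA : ∃ K, ∀ j, |A j| ≤ K) {f : ℤ → ℝ} (hf : NN f ≠ ⊤) :
    NN (op A f) ≠ ⊤ := by
  obtain ⟨K, hK⟩ := hA
  exact ne_top_of_le_ne_top (ENNReal.mul_ne_top ENNReal.ofReal_ne_top hf) (NN_op hK f)

lemma norm_le_of_NN {f g : EE} {C : ℝ} (hC : 0 ≤ C) (h : NN f ≤ ENNReal.ofReal (C ^ 2) * NN g) :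
    ‖f‖ ≤ C * ‖g‖ := by
  rw [NN_lp, NN_lp, ← ENNReal.ofReal_mul (sq_nonneg _), ← mul_pow,
    ENNReal.ofReal_le_ofReal_iff (sq_nonneg _)] at h
  exact abs_le_of_sq_le_sq' h (by positivity) |>.2

lemma NN_of_norm_le {f g : EE} {C : ℝ} (hC : 0 ≤ C) (h : C * ‖g‖ ≤ ‖f‖) :
    ENNReal.ofReal (C ^ 2) * NN g ≤ NN f := by
  rw [NN_lp, NN_lp, ← ENNReal.ofReal_mul (sq_nonneg _), ← mul_pow]
  apply ENNReal.ofReal_le_ofReal
  exact pow_le_pow_left₀ (by positivity) h 2

/-- Schroedinger operator as bounded operator on real sequences -/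
noncomputable def TT (A : ℤ → ℝ) (hA : ∃ K, ∀ j, |A j| ≤ K) : EE →L[ℝ] EE :=
  LinearMap.mkContinuousOfExistsBound
    { toFun := fun f => toE (op A f) (NN_op_ne_top hA (NN_lp_ne_top f))
      map_add' := by
        intro f g
        ext j
        simp only [toE_coe, lp.coeFn_add, Pi.add_apply]
        unfold op
        simp only [lp.coeFn_add, Pi.add_apply]
        ring
      map_smul' := by
        intro r f
        ext j
        simp only [toE_coe, lp.coeFn_smul, Pi.smul_apply, RingHom.id_apply]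
        unfold op
        simp only [lp.coeFn_smul, Pi.smul_apply, smul_eq_mul]
        ring }
    (by
      obtain ⟨K, hK⟩ := hA
      refine ⟨Real.sqrt (6 + 4 * K ^ 2), fun f => ?_⟩
      apply norm_le_of_NN (Real.sqrt_nonneg _)
      rw [Real.sq_sqrt (by positivity)]
      exact NN_op hK f)

lemma TT_coe (A : ℤ → ℝ) (hA : ∃ K, ∀ j, |A j| ≤ K) (f : EE) : (TT A hA f : ℤ → ℝ) = op A f := rfl

lemma inner_eq (f g : EE) : inner ℝ f g = ∑' j, f j * g j := by
  rw [lp.inner_eq_tsum]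
  congr 1
  ext j
  simp [mul_comm]

lemma mul_summable (f g : EE) : Summable fun j => f j * g j := by
  have h := lp.summable_inner (𝕜 := ℝ) f g
  refine h.congr fun j => ?_
  simp [mul_comm]

lemma NN_shift_ne_top (f : EE) (a : ℤ) : NN (fun j => f (j + a)) ≠ ⊤ := by
  rw [NN_shift]; exact NN_lp_ne_top f

lemma shift_summable (f g : EE) (a : ℤ) : Summable fun j => f (j + a) * g j :=
  mul_summable (toE _ (NN_shift_ne_top f a)) g

lemma shift_tsum (f g : EE) (a : ℤ) : ∑' j, f (j + a) * g j = ∑' j, f j * g (j - a) := by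
  rw [← (Equiv.subRight a).tsum_eq fun j => f (j + a) * g j]
  congr 1
  ext j
  simp

lemma TT_symm (A : ℤ → ℝ) (hA : ∃ K, ∀ j, |A j| ≤ K) (f g : EE) :
    inner ℝ (TT A hA f) g = inner ℝ f (TT A hA g) := by
  have hA' := hA
  obtain ⟨K, hK⟩ := hA'
  have hs : ∀ f g : EE, Summable fun j => A j * f j * g j := by
    intro f g
    have h1 : NN (fun j => A j * f j) ≠ ⊤ :=
      ne_top_of_le_ne_top (ENNReal.mul_ne_top ENNReal.ofReal_ne_top (NN_lp_ne_top f)) (NN_mul hK f)
    exact mul_summable (toE _ h1) g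
  have e1 : inner ℝ (TT A hA f) g =
      ∑' j, f (j + 1) * g j + ∑' j, f (j + -1) * g j + ∑' j, A j * f j * g j := by
    rw [inner_eq, ← (shift_summable f g 1).tsum_add (shift_summable f g (-1)),
      ← ((shift_summable f g 1).add (shift_summable f g (-1))).tsum_add (hs f g)]
    congr 1
    ext j
    rw [TT_coe]
    unfold op
    rw [sub_eq_add_neg]
    ring
  have e2 : inner ℝ f (TT A hA g) =
      ∑' j, g (j + 1) * f j + ∑' j, g (j + -1) * f j + ∑' j, A j * g j * f j := by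
    rw [inner_eq, ← (shift_summable g f 1).tsum_add (shift_summable g f (-1)),
      ← ((shift_summable g f 1).add (shift_summable g f (-1))).tsum_add (hs g f)]
    congr 1
    ext j
    rw [TT_coe]
    unfold op
    rw [sub_eq_add_neg]
    ring
  rw [e1, e2, shift_tsum f g 1, shift_tsum f g (-1)]
  have e3 : ∑' j, f j * g (j - 1) = ∑' j, g (j + -1) * f j := by
    congr 1; ext j; rw [sub_eq_add_neg]; ring
  have e4 : ∑' j, f j * g (j - -1) = ∑' j, g (j + 1) * f j := by
    congr 1; ext j; rw [sub_neg_eq_add]; ring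
  have e5 : ∑' j, A j * f j * g j = ∑' j, A j * g j * f j := by
    congr 1; ext j; ring
  rw [e3, e4, e5]
  ring

lemma surj_of_bdd {T : EE →L[ℝ] EE} (hs : ∀ f g, inner ℝ (T f) g = inner ℝ f (T g)) {c : ℝ}
    (hc : 0 < c) (hb : ∀ f, c * ‖f‖ ≤ ‖T f‖) : Function.Surjective T := by
  have h1 : AntilipschitzWith (Real.toNNReal c)⁻¹ T := by
    apply AddMonoidHomClass.antilipschitz_of_bound
    intro f
    rw [NNReal.coe_inv, Real.coe_toNNReal _ hc.le]
    rw [inv_mul_eq_div, le_div_iff₀ hc, mul_comm]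
    exact hb f
  have h2 : IsClosed (Set.range T) := h1.isClosed_range T.uniformContinuous
  have h3 : (LinearMap.range T.toLinearMap)ᗮ = ⊥ := by
    rw [Submodule.eq_bot_iff]
    intro g hg
    rw [Submodule.mem_orthogonal] at hg
    have h4 : T g = 0 := by
      have h5 := hg (T (T g)) ⟨T g, rfl⟩
      rw [hs] at h5
      exact inner_self_eq_zero.mp h5
    have h6 := hb g
    rw [h4, norm_zero] at h6
    have : ‖g‖ ≤ 0 := by
      by_contra hcon
      push Not at hcon
      nlinarith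
    exact norm_le_zero_iff.mp this
  have h4 : (LinearMap.range T.toLinearMap).topologicalClosure = ⊤ := by
    rw [Submodule.topologicalClosure_eq_top_iff]; exact h3
  have h5 : IsClosed ((LinearMap.range T.toLinearMap : Submodule ℝ EE) : Set EE) := h2
  rw [h5.submodule_topologicalClosure_eq] at h4
  intro g
  have : g ∈ LinearMap.range T.toLinearMap := by rw [h4]; trivial
  exact this

end Pool.Agent.Helper434.PSHilb
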