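import Mathlib
import Pool.Agent.Helper434.PSWin
import Pool.Agent.Helper434.PSHilb

set_option autoImplicit false

namespace Pool.Agent.Helper434.PSStep

open ENNReal Pool.Agent.Helper434.PSWin Pool.Agent.Helper434.PSHilb

/-- unit vector -/
noncomputable def dd (i : ℤ) : EE := lp.single 2 i (1 : ℝ)

lemma dd_apply (i j : ℤ) : dd i j = if j = i then 1 else 0 := by
  unfold dd
  rw [lp.coeFn_single]
  by_cases h : j = i
  · subst h; simp
  · simp [h]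

lemma inner_dd (i : ℤ) (f : EE) : inner ℝ (dd i) f = f i := by
  unfold dd
  rw [lp.inner_single_left]
  simp

lemma norm_dd (i : ℤ) : ‖dd i‖ = 1 := by
  unfold dd
  rw [lp.norm_single (by norm_num)]
  simp

/-- truncation approximates -/
lemma trunc (f : EE) {δ : ℝ} (hδ : 0 < δ) : ∃ R : ℕ, ∃ g : EE, ‖f - g‖ < δ ∧
    ∀ j : ℤ, (R : ℤ) < |j| → g j = 0 := by
  have h := lp.hasSum_single (E := fun _ : ℤ => ℝ) (p := 2) (by norm_num) f
  have h1 := h.eventually (Metric.ball_mem_nhds f hδ)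
  obtain ⟨s, hs'⟩ := h1.exists
  have hs : ‖f - ∑ b ∈ s, lp.single 2 b (f b)‖ < δ := by
    rw [← dist_eq_norm, dist_comm]; exact hs'
  obtain ⟨R, hR⟩ : ∃ R : ℕ, ∀ j ∈ s, |j| ≤ R := by
    refine ⟨∑ j ∈ s, j.natAbs, fun j hj => ?_⟩
    have := Finset.single_le_sum (f := fun j : ℤ => j.natAbs) (fun i _ => Nat.zero_le _) hj
    rw [Int.abs_eq_natAbs]
    exact_mod_cast this
  refine ⟨R, _, hs, ?_⟩
  intro j hj
  rw [lp.coeFn_sum, Finset.sum_apply]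
  apply Finset.sum_eq_zero
  intro i hi
  rw [lp.coeFn_single]
  have : j ≠ i := by
    rintro rfl
    have := hR _ hi
    omega
  simp [this]

lemma diff_small {A : ℤ → ℝ} {K : ℝ} (hA : ∀ j, |A j| ≤ K) (f : EE) {δ : ℝ} (hδ : 0 < δ) :
    ∃ R : ℕ, ∀ (B : ℤ → ℝ) (hB : ∀ j, |B j| ≤ K), (∀ j : ℤ, |j| ≤ R → B j = A j) →
      ‖TT B ⟨K, hB⟩ f - TT A ⟨K, hA⟩ f‖ ≤ δ := by
  have K0 : 0 ≤ K := (abs_nonneg _).trans (hA 0)
  obtain ⟨R, g, hg1, hg2⟩ := trunc f (δ := δ / (2 * K + 1)) (by positivity)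
  refine ⟨R, fun B hB hAB => ?_⟩
  have h1 : TT B ⟨K, hB⟩ f - TT A ⟨K, hA⟩ f =
      TT B ⟨K, hB⟩ (f - g) - TT A ⟨K, hA⟩ (f - g) := by
    have h2 : TT B ⟨K, hB⟩ g = TT A ⟨K, hA⟩ g := by
      ext j
      rw [TT_coe, TT_coe]
      unfold op
      by_cases hj : |j| ≤ R
      · rw [hAB j hj]
      · rw [hg2 j (not_le.mp hj)]; ring
    rw [map_sub, map_sub, h2]; abel
  rw [h1]
  have h3 : ‖TT B ⟨K, hB⟩ (f - g) - TT A ⟨K, hA⟩ (f - g)‖ ≤ (2 * K) * ‖f - g‖ := by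
    apply norm_le_of_NN (by positivity)
    have h4 : ((TT B ⟨K, hB⟩ (f - g) - TT A ⟨K, hA⟩ (f - g) : EE) : ℤ → ℝ) =
        fun j => (B j - A j) * (f - g) j := by
      ext j
      rw [lp.coeFn_sub, Pi.sub_apply, TT_coe, TT_coe]
      unfold op
      ring
    rw [h4]
    apply NN_mul
    intro j
    calc |B j - A j| ≤ |B j| + |A j| := abs_sub _ _
      _ ≤ 2 * K := by linarith [hA j, hB j]
  refine h3.trans ?_
  have h5 : (2 * K) * (δ / (2 * K + 1)) ≤ δ := by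
    rw [mul_div_assoc', div_le_iff₀ (by positivity)]
    nlinarith
  refine le_trans ?_ h5
  gcongr

lemma bdd_of_NN {A : ℤ → ℝ} (hA : ∃ K, ∀ j, |A j| ≤ K) {c : ℝ} (hc : 0 ≤ c)
    (h : ∀ f : ℤ → ℝ, NN f ≠ ⊤ → ENNReal.ofReal (c ^ 2) * NN f ≤ NN (op A f)) (f : EE) :
    c * ‖f‖ ≤ ‖TT A hA f‖ := by
  have h1 := h f (NN_lp_ne_top f)
  rw [← TT_coe A hA, NN_lp, NN_lp, ← ENNReal.ofReal_mul (sq_nonneg _), ← mul_pow,
    ENNReal.ofReal_le_ofReal_iff (sq_nonneg _)] at h1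
  exact (abs_le_of_sq_le_sq' h1 (norm_nonneg _)).2

lemma NN_of_bdd {A : ℤ → ℝ} (hA : ∃ K, ∀ j, |A j| ≤ K) {c : ℝ} (hc : 0 ≤ c)
    (h : ∀ f : EE, c * ‖f‖ ≤ ‖TT A hA f‖) (f : ℤ → ℝ) (hf : NN f ≠ ⊤) :
    ENNReal.ofReal (c ^ 2) * NN f ≤ NN (op A f) := by
  have h1 := NN_of_norm_le hc (h (toE f hf))
  exact h1

lemma bdd_shift {A : ℤ → ℝ} (hA : ∃ K, ∀ j, |A j| ≤ K) (μ : ℝ) :
    ∃ K, ∀ j, |A j - μ| ≤ K := by
  obtain ⟨K, hK⟩ := hA
  exact ⟨K + |μ|, fun j => (abs_sub _ _).trans (by linarith [hK j])⟩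

lemma TT_shift {A : ℤ → ℝ} (hA : ∃ K, ∀ j, |A j| ≤ K) (μ : ℝ) (f : EE) :
    TT (fun j => A j - μ) (bdd_shift hA μ) f = TT A hA f - μ • f := by
  ext j
  rw [lp.coeFn_sub, Pi.sub_apply, TT_coe, TT_coe, lp.coeFn_smul, Pi.smul_apply, smul_eq_mul]
  unfold op
  ring

theorem step {A : ℤ → ℝ} {K : ℝ} (hA : ∀ j, |A j| ≤ K) {c : ℝ} (hc : 0 < c)
    (hb : ∀ f : ℤ → ℝ, NN f ≠ ⊤ → ENNReal.ofReal (c ^ 2) * NN f ≤ NN (op A f)) (j0 : ℤ) (lam : ℝ)
    (φ : EE) (hφ : φ ≠ 0)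
    (heq : ∀ j, op A φ j + (if j = j0 then lam * φ j else 0) = 0) {ε : ℝ} (hε : 0 < ε) :
    ∃ (M R : ℕ), ∀ B : ℤ → ℝ, (∀ j, |B j| ≤ K) →
      (∀ a : ℤ, ∃ b : ℤ, ∀ m : ℤ, |m| ≤ 2 * M → B (a + m) = A (b + m)) →
      (∀ j : ℤ, |j| ≤ R → B j = A j) →
      ∃ μ : ℝ, |μ| < ε ∧ ∃ φ' : EE, ‖φ' - φ‖ < ε ∧
        (∀ j, op (fun j => B j - μ) φ' j + (if j = j0 then lam * φ' j else 0) = 0) ∧
        ∃ c' : ℝ, 0 < c' ∧ ∀ f : ℤ → ℝ, NN f ≠ ⊤ →
          ENNReal.ofReal (c' ^ 2) * NN f ≤ NN (op (fun j => B j - μ) f) := by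
  set T := TT A ⟨K, hA⟩ with hT
  have hTb : ∀ f : EE, c * ‖f‖ ≤ ‖T f‖ := bdd_of_NN _ hc.le hb
  have hTs : ∀ f g, inner ℝ (T f) g = inner ℝ f (T g) := TT_symm A _
  -- the vector
  have hTφ : T φ = -(lam * φ j0) • dd j0 := by
    ext j
    rw [hT, TT_coe, lp.coeFn_smul, Pi.smul_apply, dd_apply, smul_eq_mul]
    have := heq j
    split_ifs at this ⊢ with h
    · subst h; linarith
    · linarith
  set κ := lam * φ j0 with hκ
  have hκ0 : κ ≠ 0 := by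
    intro h0
    rw [h0, neg_zero, zero_smul] at hTφ
    have := hTb φ
    rw [hTφ, norm_zero] at this
    have h1 : 0 < ‖φ‖ := norm_pos_iff.mpr hφ
    nlinarith
  have hlam : lam ≠ 0 := left_ne_zero_of_mul hκ0
  set f0 : EE := -(1 / κ) • φ with hf0
  have hTf0 : T f0 = dd j0 := by
    rw [hf0, map_smul, hTφ, smul_smul]
    have : -(1 / κ) * -κ = 1 := by field_simp
    rw [this, one_smul]
  have hf0j : f0 j0 = -1 / lam := by
    rw [hf0, lp.coeFn_smul, Pi.smul_apply, smul_eq_mul, hκ]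
    have : φ j0 ≠ 0 := right_ne_zero_of_mul hκ0
    field_simp
  have hf0n : 0 < ‖f0‖ := by
    rw [norm_pos_iff, hf0]
    exact smul_ne_zero (neg_ne_zero.mpr (one_div_ne_zero hκ0)) hφ
  -- small parameter
  obtain ⟨η, hη0, hη1, hη2, hη3⟩ : ∃ η : ℝ, 0 < η ∧ η ≤ c / 8 ∧ η < ε ∧
      |κ| * (4 / c * (η + η * ‖f0‖)) < ε := by
    have h1 : 0 < |κ| * (4 / c * (1 + ‖f0‖)) := by
      have := abs_pos.mpr hκ0
      positivity
    refine ⟨min (c / 8) (min (ε / 2) (ε / (2 * (|κ| * (4 / c * (1 + ‖f0‖)))))), by positivity,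
      min_le_left _ _, ?_, ?_⟩
    · exact (min_le_right _ _).trans_lt ((min_le_left _ _).trans_lt (by linarith))
    · set η := min (c / 8) (min (ε / 2) (ε / (2 * (|κ| * (4 / c * (1 + ‖f0‖)))))) with hη
      have h2 : η ≤ ε / (2 * (|κ| * (4 / c * (1 + ‖f0‖)))) :=
        (min_le_right _ _).trans (min_le_right _ _)
      rw [le_div_iff₀ (by positivity)] at h2
      have h3 : |κ| * (4 / c * (η + η * ‖f0‖)) = η * (|κ| * (4 / c * (1 + ‖f0‖))) := by ring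
      rw [h3]
      linarith
  -- perturbed resolvent vectors of A
  have hAres : ∀ μ : ℝ, |μ| ≤ η → ∃ f : EE, T f - μ • f = dd j0 := by
    intro μ hμ
    have h1 : ∀ f : EE, (c / 2) * ‖f‖ ≤ ‖TT (fun j => A j - μ) (bdd_shift ⟨K, hA⟩ μ) f‖ := by
      intro f
      rw [TT_shift]
      have h2 : ‖T f‖ - ‖μ • f‖ ≤ ‖T f - μ • f‖ := norm_sub_norm_le _ _
      rw [norm_smul, Real.norm_eq_abs] at h2
      have h3 : |μ| * ‖f‖ ≤ (c / 8) * ‖f‖ := by gcongr; linarith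
      have h4 := hTb f
      have h5 := norm_nonneg f
      change _ ≤ ‖T f - μ • f‖
      nlinarith
    obtain ⟨f, hf⟩ := surj_of_bdd (TT_symm _ _) (by positivity) h1 (dd j0)
    rw [TT_shift ⟨K, hA⟩ μ] at hf
    exact ⟨f, hf⟩
  have hder : ∀ μ : ℝ, |μ| ≤ η → ∀ f : EE, T f - μ • f = dd j0 →
      3 / 4 * ‖f0‖ ^ 2 ≤ inner ℝ f0 f ∧ f j0 - f0 j0 = μ * inner ℝ f0 f := by
    intro μ hμ f hf
    have hTf : T f = dd j0 + μ • f := by rw [← hf]; abel
    constructor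
    · have h1 : T (f - f0) - μ • (f - f0) = μ • f0 := by
        rw [map_sub, hTf, hTf0, smul_sub]; abel
      have h2 : c * ‖f - f0‖ ≤ |μ| * ‖f0‖ + |μ| * ‖f - f0‖ := by
        have h3 := hTb (f - f0)
        have h4 : T (f - f0) = μ • f0 + μ • (f - f0) := by rw [← h1]; abel
        rw [h4] at h3
        refine h3.trans ((norm_add_le _ _).trans ?_)
        rw [norm_smul μ f0, norm_smul μ (f - f0), Real.norm_eq_abs]
      have h3 : ‖f - f0‖ ≤ 1 / 4 * ‖f0‖ := by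
        have h5 := norm_nonneg f0
        have h6 := norm_nonneg (f - f0)
        have h7 : |μ| ≤ c / 8 := hμ.trans hη1
        have h8 : |μ| * ‖f0‖ ≤ c / 8 * ‖f0‖ := by gcongr
        have h9 : |μ| * ‖f - f0‖ ≤ c / 8 * ‖f - f0‖ := by gcongr
        nlinarith
      have h4 : inner ℝ f0 f = ‖f0‖ ^ 2 + inner ℝ f0 (f - f0) := by
        rw [inner_sub_right, real_inner_self_eq_norm_sq]; ring
      have h5 := abs_real_inner_le_norm f0 (f - f0)
      have h6 := (abs_le.mp h5).1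
      rw [h4]
      nlinarith [norm_nonneg f0]
    · rw [← inner_dd j0 f, ← inner_dd j0 f0, ← inner_sub_right, ← hTf0, hTs, map_sub, hTf, hTf0]
      rw [add_sub_cancel_left, inner_smul_right]
  obtain ⟨fp, hfp⟩ := hAres η (by rw [abs_of_pos hη0])
  obtain ⟨fm, hfm⟩ := hAres (-η) (by rw [abs_neg, abs_of_pos hη0])
  have hp := hder η (by rw [abs_of_pos hη0]) fp hfp
  have hm := hder (-η) (by rw [abs_neg, abs_of_pos hη0]) fm hfm
  have hpv : fp j0 - f0 j0 ≥ η * (3 / 4 * ‖f0‖ ^ 2) := by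
    rw [hp.2]; exact mul_le_mul_of_nonneg_left hp.1 hη0.le
  have hmv : f0 j0 - fm j0 ≥ η * (3 / 4 * ‖f0‖ ^ 2) := by
    have : f0 j0 - fm j0 = η * inner ℝ f0 fm := by linarith [hm.2]
    rw [this]; exact mul_le_mul_of_nonneg_left hm.1 hη0.le
  -- size of window
  obtain ⟨M, hM1, hM⟩ : ∃ M : ℕ, 1 ≤ M ∧ 40 ≤ c ^ 2 * (M : ℝ) ^ 2 := by
    obtain ⟨M, hM⟩ := exists_nat_gt (40 / c ^ 2)
    refine ⟨M + 1, by omega, ?_⟩
    rw [div_lt_iff₀ (by positivity)] at hM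
    push_cast
    have : (M : ℝ) ≤ ((M : ℝ) + 1) ^ 2 := by nlinarith [(Nat.cast_nonneg M : (0 : ℝ) ≤ M)]
    have h2 : 0 < c ^ 2 := by positivity
    nlinarith
  set δ := c / 8 * (η * (3 / 4 * ‖f0‖ ^ 2)) with hδ
  have hδ0 : 0 < δ := by positivity
  obtain ⟨R1, hR1⟩ := diff_small hA fp hδ0
  obtain ⟨R2, hR2⟩ := diff_small hA fm hδ0
  obtain ⟨R3, hR3⟩ := diff_small hA f0 hη0
  refine ⟨M, max R1 (max R2 R3), ?_⟩
  intro B hB hw hAB
  have hBA1 := hR1 B hB (fun j hj => hAB j (hj.trans (by exact_mod_cast le_max_left _ _)))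
  have hBA2 := hR2 B hB (fun j hj => hAB j (hj.trans (by
    exact_mod_cast (le_max_left _ _).trans (le_max_right _ _))))
  have hBA3 := hR3 B hB (fun j hj => hAB j (hj.trans (by
    exact_mod_cast (le_max_right _ _).trans (le_max_right _ _))))
  set S := TT B ⟨K, hB⟩ with hS
  have hSb : ∀ f : EE, (c / 2) * ‖f‖ ≤ ‖S f‖ := by
    apply bdd_of_NN _ (by positivity)
    intro f hf
    have h1 := window (c := c ^ 2) (by positivity) (A := A) (B := B)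
      (fun f hf => hb f (by
        unfold NN
        rw [tsum_eq_sum (s := hf.toFinset) (by
          intro j hj
          rw [Set.Finite.mem_toFinset, Function.mem_support, not_not] at hj
          rw [hj]; simp)]
        exact ENNReal.sum_ne_top.mpr fun k _ => ENNReal.ofReal_ne_top)) hM hM1 hw f hf
    have e : (c / 2) ^ 2 = c ^ 2 / 4 := by ring
    rw [e]; exact h1
  have hSμ : ∀ μ : ℝ, |μ| ≤ η → ∀ f : EE, (c / 4) * ‖f‖ ≤ ‖S f - μ • f‖ := by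
    intro μ hμ f
    have h2 : ‖S f‖ - ‖μ • f‖ ≤ ‖S f - μ • f‖ := norm_sub_norm_le _ _
    rw [norm_smul, Real.norm_eq_abs] at h2
    have h3 : |μ| * ‖f‖ ≤ (c / 8) * ‖f‖ := by gcongr; linarith
    have h4 := hSb f
    have h5 := norm_nonneg f
    nlinarith
  have hSres : ∀ μ : ℝ, ∃ f : EE, |μ| ≤ η → S f - μ • f = dd j0 := by
    intro μ
    by_cases hμ : |μ| ≤ η
    · have h1 : ∀ f : EE, (c / 4) * ‖f‖ ≤ ‖TT (fun j => B j - μ) (bdd_shift ⟨K, hB⟩ μ) f‖ := by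
        intro f
        rw [TT_shift]
        exact hSμ μ hμ f
      obtain ⟨f, hf⟩ := surj_of_bdd (TT_symm _ _) (by positivity) h1 (dd j0)
      rw [TT_shift ⟨K, hB⟩ μ] at hf
      exact ⟨f, fun _ => hf⟩
    · exact ⟨0, fun h => absurd h hμ⟩
  choose h hh using hSres
  have hcmp : ∀ μ : ℝ, |μ| ≤ η → ∀ g : EE, ‖h μ - g‖ ≤ 4 / c * ‖dd j0 - (S g - μ • g)‖ := by
    intro μ hμ g
    have h1 := hSμ μ hμ (h μ - g)
    have h2 : S (h μ - g) - μ • (h μ - g) = dd j0 - (S g - μ • g) := by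
      rw [← hh μ hμ, map_sub, smul_sub]; abel
    rw [h2] at h1
    rw [div_mul_eq_mul_div, le_div_iff₀ hc]
    linarith
  -- continuity
  have hcont : ContinuousOn (fun μ => h μ j0) (Set.Icc (-η) η) := by
    have hLip : LipschitzOnWith (Real.toNNReal ((4 / c) ^ 2)) h (Set.Icc (-η) η) := by
      apply LipschitzOnWith.of_dist_le_mul
      intro μ hμ ν hν
      have hμ' : |μ| ≤ η := abs_le.mpr hμ
      have hν' : |ν| ≤ η := abs_le.mpr hν
      rw [dist_eq_norm, Real.dist_eq, Real.coe_toNNReal _ (by positivity)]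
      have h1 := hcmp μ hμ' (h ν)
      have h2 : dd j0 - (S (h ν) - μ • h ν) = (μ - ν) • h ν := by
        have h3 := hh ν hν'
        rw [← h3, sub_smul]; abel
      rw [h2, norm_smul, Real.norm_eq_abs] at h1
      have h3 := hSμ ν hν' (h ν)
      rw [hh ν hν', norm_dd] at h3
      have h4 : ‖h ν‖ ≤ 4 / c := by
        rw [le_div_iff₀ hc]; linarith
      calc ‖h μ - h ν‖ ≤ 4 / c * (|μ - ν| * ‖h ν‖) := h1
        _ ≤ 4 / c * (|μ - ν| * (4 / c)) := by gcongr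
        _ = (4 / c) ^ 2 * |μ - ν| := by ring
    have h1 : (fun μ => h μ j0) = fun μ => inner ℝ (dd j0) (h μ) := by
      ext μ; rw [inner_dd]
    rw [h1]
    exact continuousOn_const.inner hLip.continuousOn
  have hval : ∀ μ : ℝ, |μ| ≤ η → ∀ g : EE, |h μ j0 - g j0| ≤ ‖h μ - g‖ := by
    intro μ _ g
    have := lp.norm_apply_le_norm (p := 2) (by norm_num) (h μ - g) j0
    rw [lp.coeFn_sub, Pi.sub_apply, Real.norm_eq_abs] at this
    exact this
  have hplus : f0 j0 < h η j0 := by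
    have hη' : |η| ≤ η := by rw [abs_of_pos hη0]
    have h1 := hval η hη' fp
    have h2 := hcmp η hη' fp
    have h3 : dd j0 - (S fp - η • fp) = -(S fp - T fp) := by rw [← hfp]; abel
    rw [h3, norm_neg] at h2
    have h4 : 4 / c * ‖S fp - T fp‖ ≤ 4 / c * δ := by gcongr
    have h5 : 4 / c * δ = η * (3 / 4 * ‖f0‖ ^ 2) / 2 := by rw [hδ]; field_simp; norm_num
    have h6 := (abs_le.mp (h1.trans (h2.trans h4))).1
    have h7 : 0 < η * (3 / 4 * ‖f0‖ ^ 2) := by positivity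
    linarith
  have hminus : h (-η) j0 < f0 j0 := by
    have hη' : |(-η)| ≤ η := by rw [abs_neg, abs_of_pos hη0]
    have h1 := hval (-η) hη' fm
    have h2 := hcmp (-η) hη' fm
    have h3 : dd j0 - (S fm - (-η) • fm) = -(S fm - T fm) := by rw [← hfm]; abel
    rw [h3, norm_neg] at h2
    have h4 : 4 / c * ‖S fm - T fm‖ ≤ 4 / c * δ := by gcongr
    have h5 : 4 / c * δ = η * (3 / 4 * ‖f0‖ ^ 2) / 2 := by rw [hδ]; field_simp; norm_num
    have h6 := (abs_le.mp (h1.trans (h2.trans h4))).2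
    have h7 : 0 < η * (3 / 4 * ‖f0‖ ^ 2) := by positivity
    linarith
  obtain ⟨μ, hμI, hμv⟩ := intermediate_value_Icc (by linarith : -η ≤ η) hcont
    ⟨hminus.le, hplus.le⟩
  have hμ : |μ| ≤ η := abs_le.mpr hμI
  have hμv' : h μ j0 = -1 / lam := by rw [← hf0j]; exact hμv
  refine ⟨μ, hμ.trans_lt hη2, -κ • h μ, ?_, ?_, c / 4, by positivity, ?_⟩
  · have h1 : -κ • h μ - φ = -κ • (h μ - f0) := by
      have : φ = -κ • f0 := by
        rw [hf0, smul_smul]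
        have : -κ * -(1 / κ) = 1 := by field_simp
        rw [this, one_smul]
      rw [smul_sub, ← this]
    rw [h1, norm_smul, norm_neg, Real.norm_eq_abs]
    have h2 := hcmp μ hμ f0
    have h3 : dd j0 - (S f0 - μ • f0) = -(S f0 - T f0) + μ • f0 := by rw [← hTf0]; abel
    rw [h3] at h2
    have h4 : ‖-(S f0 - T f0) + μ • f0‖ ≤ η + η * ‖f0‖ := by
      refine (norm_add_le _ _).trans ?_
      rw [norm_neg, norm_smul, Real.norm_eq_abs]
      gcongr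
    have h5 : ‖h μ - f0‖ ≤ 4 / c * (η + η * ‖f0‖) := h2.trans (by gcongr)
    calc |κ| * ‖h μ - f0‖ ≤ |κ| * (4 / c * (η + η * ‖f0‖)) := by gcongr
      _ < ε := hη3
  · intro j
    have h1 : (S (h μ) - μ • h μ) j = dd j0 j := by rw [hh μ hμ]
    rw [lp.coeFn_sub, Pi.sub_apply, lp.coeFn_smul, Pi.smul_apply, smul_eq_mul, hS, TT_coe,
      dd_apply] at h1
    have h2 : op (fun j => B j - μ) (-κ • h μ : EE) j = -κ * (op B (h μ) j - μ * h μ j) := by
      unfold op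
      simp only [lp.coeFn_smul, Pi.smul_apply, smul_eq_mul]
      ring
    rw [h2, h1, lp.coeFn_smul, Pi.smul_apply, smul_eq_mul]
    split_ifs with hj
    · subst hj
      rw [hμv']
      field_simp
      ring
    · ring
  · intro f hf
    have h1 : ∀ f : EE, (c / 4) * ‖f‖ ≤ ‖TT (fun j => B j - μ) (bdd_shift ⟨K, hB⟩ μ) f‖ := by
      intro f
      rw [TT_shift]
      exact hSμ μ hμ f
    exact NN_of_bdd _ (by positivity) h1 f hf

end Pool.Agent.Helper434.PSStep
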