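import Mathlib
import Pool.Agent.Helper434.PSWin
import Pool.Agent.Helper434.PSHilb
import Pool.Agent.Helper434.PSStep

set_option autoImplicit false

namespace Pool.Agent.Helper434.PSPal

open ENNReal Pool.Agent.Helper434.PSWin Pool.Agent.Helper434.PSHilb Pool.Agent.Helper434.PSStep
open Filter Topology

lemma tendsto_cofinite (f : EE) : Tendsto (fun j => f j) cofinite (𝓝 0) := by
  have h := (sq_summable f).tendsto_cofinite_zero
  have h2 : Tendsto (fun j => Real.sqrt (f j ^ 2)) cofinite (𝓝 (Real.sqrt 0)) :=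
    (Real.continuous_sqrt.tendsto 0).comp h
  rw [Real.sqrt_zero] at h2
  rw [tendsto_zero_iff_abs_tendsto_zero]
  refine h2.congr fun j => ?_
  rw [Real.sqrt_sq_eq_abs]; rfl

lemma uniq {A : ℤ → ℝ} (f g : EE) (hf : ∀ j, op A f j = 0) (hg : ∀ j, op A g j = 0) (hf0 : f ≠ 0) :
    ∃ r : ℝ, ∀ j, g j = r * f j := by
  have hW : ∀ j : ℤ, f (j + 1) * g j - f j * g (j + 1) = f j * g (j - 1) - f (j - 1) * g j := by
    intro j
    have h1 := hf j
    have h2 := hg j
    unfold op at h1 h2
    linear_combination g j * h1 - f j * h2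
  have hW0 : ∀ n : ℤ, f (n + 1) * g n - f n * g (n + 1) = f 1 * g 0 - f 0 * g 1 := by
    intro n
    induction n using Int.induction_on with
    | zero => simp
    | succ n ih =>
      rw [← ih]
      have := hW (n + 1)
      rw [this, show (n : ℤ) + 1 - 1 = n by ring]
    | pred n ih =>
      rw [← ih]
      have := hW (-n)
      rw [this, show -(n : ℤ) - 1 + 1 = -n by ring]
  have hz : f 1 * g 0 - f 0 * g 1 = 0 := by
    have h1 : Tendsto (fun n : ℤ => f (n + 1) * g n - f n * g (n + 1)) cofinite (𝓝 0) := by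
      have hsh : Tendsto (fun n : ℤ => n + 1) cofinite cofinite :=
        (add_left_injective (1 : ℤ)).tendsto_cofinite
      have a1 := (tendsto_cofinite f).comp hsh
      have a2 := tendsto_cofinite g
      have a3 := tendsto_cofinite f
      have a4 := (tendsto_cofinite g).comp hsh
      have := (a1.mul a2).sub (a3.mul a4)
      simpa using this
    have h2 : Tendsto (fun n : ℤ => f (n + 1) * g n - f n * g (n + 1)) cofinite
        (𝓝 (f 1 * g 0 - f 0 * g 1)) := by
      refine tendsto_const_nhds.congr fun n => (hW0 n).symm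
    exact tendsto_nhds_unique h2 h1
  have hex : ∃ j0, f j0 ≠ 0 := by
    by_contra hcon
    push Not at hcon
    apply hf0
    ext j
    simpa using hcon j
  obtain ⟨j0, hj0⟩ := hex
  refine ⟨g j0 / f j0, ?_⟩
  set r := g j0 / f j0 with hr
  have h0 : g j0 - r * f j0 = 0 := by rw [hr]; field_simp; ring
  have h1 : g (j0 + 1) - r * f (j0 + 1) = 0 := by
    have h2 := hW0 j0
    rw [hz] at h2
    rw [hr]
    field_simp
    linarith
  have key : ∀ n : ℤ, g (j0 + n) - r * f (j0 + n) = 0 ∧
      g (j0 + n + 1) - r * f (j0 + n + 1) = 0 := by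
    intro n
    induction n using Int.induction_on with
    | zero => simpa using ⟨h0, h1⟩
    | succ n ih =>
      obtain ⟨a, b⟩ := ih
      have h2 := hf (j0 + n + 1)
      have h3 := hg (j0 + n + 1)
      unfold op at h2 h3
      rw [show j0 + (n : ℤ) + 1 - 1 = j0 + n by ring] at h2 h3
      rw [show j0 + ((n : ℤ) + 1) = j0 + n + 1 by ring]
      refine ⟨b, ?_⟩
      linear_combination h3 - r * h2 - a - A (j0 + n + 1) * b
    | pred n ih =>
      obtain ⟨a, b⟩ := ih
      have h2 := hf (j0 + -(n : ℤ))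
      have h3 := hg (j0 + -(n : ℤ))
      unfold op at h2 h3
      rw [show j0 + (-(n : ℤ) - 1) = j0 + -n - 1 by ring]
      refine ⟨?_, ?_⟩
      · linear_combination h3 - r * h2 - b - A (j0 + -n) * a
      · rw [show j0 + -(n : ℤ) - 1 + 1 = j0 + -n by ring]; exact a
  intro j
  have := (key (j - j0)).1
  rw [add_sub_cancel] at this
  linarith

lemma NN_reflect (f : ℤ → ℝ) (a : ℤ) : NN (fun j => f (a - j)) = NN f := by
  unfold NN
  exact (Equiv.subLeft a).tsum_eq fun j => ENNReal.ofReal (f j ^ 2)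

lemma abs_reflect {A : ℤ → ℝ} {a : ℤ} (hA : ∀ j, A (a - j) = A j) (f : EE)
    (hf : ∀ j, op A f j = 0) (hf0 : f ≠ 0) (j : ℤ) : |f (a - j)| = |f j| := by
  set g : EE := toE (fun j => f (a - j)) (by rw [NN_reflect]; exact NN_lp_ne_top f) with hg
  have hg1 : ∀ j, op A g j = 0 := by
    intro j
    have := hf (a - j)
    unfold op at this ⊢
    simp only [hg, toE_coe]
    rw [hA] at this
    rw [show a - (j + 1) = a - j - 1 by ring, show a - (j - 1) = a - j + 1 by ring]
    linarith
  obtain ⟨r, hr⟩ := uniq f g hf hg1 hf0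
  have hr' : ∀ j, f (a - j) = r * f j := hr
  have hex : ∃ j0, f j0 ≠ 0 := by
    by_contra hcon
    push Not at hcon
    apply hf0
    ext j
    simpa using hcon j
  obtain ⟨j0, hj0⟩ := hex
  have h1 := hr' j0
  have h2 := hr' (a - j0)
  have e0 : a - (a - j0) = j0 := by ring
  rw [e0, h1] at h2
  have h3 : (r * r - 1) * f j0 = 0 := by linear_combination -h2
  have h4 : r * r = 1 := by
    have := (mul_eq_zero.mp h3).resolve_right hj0
    linarith
  have h5 : |r| = 1 := by
    have h6 : |r| * |r| = 1 := by rw [← abs_mul, h4, abs_one]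
    have := abs_nonneg r
    nlinarith
  rw [hr' j, abs_mul, h5, one_mul]

lemma no_two_centres {A1 A2 : ℤ → ℝ} {a b : ℤ} (hab : a ≠ b) (h1 : ∀ j, A1 (a - j) = A1 j)
    (h2 : ∀ j, A2 (b - j) = A2 j) (f : EE) (hf1 : ∀ j, op A1 f j = 0) (hf2 : ∀ j, op A2 f j = 0) :
    f = 0 := by
  by_contra hf0
  have e1 := abs_reflect h1 f hf1 hf0
  have e2 := abs_reflect h2 f hf2 hf0
  have hex : ∃ j0, f j0 ≠ 0 := by
    by_contra hcon
    push Not at hcon
    apply hf0
    ext j
    simpa using hcon j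
  obtain ⟨j0, hj0⟩ := hex
  have e3 : ∀ j, |f (j + (a - b))| = |f j| := by
    intro j
    have := e1 (b - j)
    rw [show a - (b - j) = j + (a - b) by ring, e2] at this
    exact this
  have e4 : ∀ n : ℕ, |f (j0 + n * (a - b))| = |f j0| := by
    intro n
    induction n with
    | zero => simp
    | succ n ih =>
      rw [← ih, ← e3 (j0 + n * (a - b))]
      congr 2
      push_cast; ring_nf
  have hinj : Function.Injective fun n : ℕ => j0 + (n : ℤ) * (a - b) := by
    intro m n hmn
    have h3 : ((m : ℤ) - n) * (a - b) = 0 := by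
      simp only at hmn
      linarith
    have h4 := (mul_eq_zero.mp h3).resolve_right (sub_ne_zero.mpr hab)
    omega
  have h5 : Tendsto (fun n : ℕ => |f (j0 + (n : ℤ) * (a - b))|) cofinite (𝓝 0) := by
    have := ((tendsto_cofinite f).comp hinj.tendsto_cofinite).abs
    simpa using this
  have h6 : Tendsto (fun n : ℕ => |f (j0 + (n : ℤ) * (a - b))|) cofinite (𝓝 |f j0|) := by
    refine tendsto_const_nhds.congr fun n => (e4 n).symm
  have := tendsto_nhds_unique h6 h5
  exact hj0 (abs_eq_zero.mp this)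

theorem inj_of_sym {A1 A2 : ℤ → ℝ} (hA1 : ∃ K, ∀ j, |A1 j| ≤ K) {a b k : ℤ} {γ : ℝ} (hab : a ≠ b)
    (h1 : ∀ j, A1 (a - j) = A1 j) (h2 : ∀ j, A2 (b - j) = A2 j)
    (hdiff : ∀ j, A2 j = A1 j + (if j = k then γ else 0)) (φ : EE) (hφ0 : φ ≠ 0)
    (hφ : ∀ j, op A1 φ j = 0) (ψ : EE) (hψ : ∀ j, op A2 ψ j = 0) : ψ = 0 := by
  have hop : ∀ f : ℤ → ℝ, ∀ j, op A2 f j = op A1 f j + (if j = k then γ * f j else 0) := by
    intro f j
    unfold op
    rw [hdiff]
    split_ifs <;> ring
  have e1 : TT A1 hA1 φ = 0 := by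
    ext j
    rw [TT_coe, hφ]; rfl
  have e2 : TT A1 hA1 ψ = -(γ * ψ k) • dd k := by
    ext j
    rw [TT_coe, lp.coeFn_smul, Pi.smul_apply, dd_apply, smul_eq_mul]
    have := hop ψ j
    rw [hψ] at this
    split_ifs at this ⊢ with h
    · subst h; linarith
    · linarith
  have e3 := TT_symm A1 hA1 φ ψ
  rw [e1, e2, inner_zero_left, inner_smul_right, real_inner_comm, inner_dd] at e3
  have e4 : γ * ψ k = 0 ∨ φ k = 0 := by
    rcases mul_eq_zero.mp e3.symm with h | h
    · left; linarith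
    · right; exact h
  rcases e4 with h | h
  · apply no_two_centres hab h1 h2 ψ _ hψ
    intro j
    have := hop ψ j
    rw [hψ] at this
    split_ifs at this with hj
    · subst hj; linarith
    · linarith
  · exfalso
    apply hφ0
    apply no_two_centres hab h1 h2 φ hφ
    intro j
    rw [hop, hφ]
    split_ifs with hj
    · subst hj; rw [h]; ring
    · ring

theorem finite_rank {B B' : ℤ → ℝ} (hB : ∃ K, ∀ j, |B j| ≤ K) (hB' : ∃ K, ∀ j, |B' j| ≤ K)
    {c : ℝ} (hc : 0 < c)
    (hb : ∀ f : ℤ → ℝ, NN f ≠ ⊤ → ENNReal.ofReal (c ^ 2) * NN f ≤ NN (op B f))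
    (s : Finset ℤ) (hs : ∀ j ∉ s, B' j = B j)
    (hinj : ∀ f : EE, (∀ j, op B' f j = 0) → f = 0) :
    ∃ c' : ℝ, 0 < c' ∧ ∀ f : ℤ → ℝ, NN f ≠ ⊤ → ENNReal.ofReal (c' ^ 2) * NN f ≤ NN (op B' f) := by
  set T := TT B hB with hT
  set T' := TT B' hB' with hT'
  have hTb : ∀ f : EE, c * ‖f‖ ≤ ‖T f‖ := bdd_of_NN _ hc.le hb
  suffices h : ∃ c' : ℝ, 0 < c' ∧ ∀ f : EE, c' * ‖f‖ ≤ ‖T' f‖ by
    obtain ⟨c', hc', h⟩ := h
    exact ⟨c', hc', fun f hf => NN_of_bdd hB' hc'.le h f hf⟩
  by_contra hcon
  push Not at hcon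
  -- normalised sequence
  have h1 : ∀ n : ℕ, ∃ f : EE, ‖f‖ = 1 ∧ ‖T' f‖ ≤ 1 / ((n : ℝ) + 1) := by
    intro n
    obtain ⟨f, hf⟩ := hcon (1 / ((n : ℝ) + 1)) (by positivity)
    have hf0 : 0 < ‖f‖ := by
      rcases eq_or_lt_of_le (norm_nonneg f) with h | h
      · exfalso
        rw [← h, mul_zero] at hf
        exact absurd hf (not_lt.mpr (norm_nonneg _))
      · exact h
    refine ⟨‖f‖⁻¹ • f, ?_, ?_⟩
    · rw [norm_smul, norm_inv, norm_norm, inv_mul_cancel₀ hf0.ne']
    · rw [map_smul, norm_smul, norm_inv, norm_norm, inv_mul_eq_div, div_le_iff₀ hf0]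
      exact hf.le
  choose f hf1 hf2 using h1
  set L : (s → ℝ) → EE := fun v => ∑ j : s, ((B' j - B j) * v j) • dd j with hL
  have hLc : Continuous L := by
    apply continuous_finsetSum
    intro j _
    exact (continuous_const.mul (continuous_apply j)).smul continuous_const
  have hLf : ∀ g : EE, T g = T' g - L (fun j => g j) := by
    intro g
    ext i
    rw [lp.coeFn_sub, Pi.sub_apply, hT, hT', TT_coe, TT_coe, hL]
    simp only
    rw [lp.coeFn_sum, Finset.sum_apply]
    simp only [lp.coeFn_smul, Pi.smul_apply, dd_apply, smul_eq_mul, mul_ite, mul_one, mul_zero]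
    by_cases hi : i ∈ s
    · have e : ∑ x : s, (if i = (x : ℤ) then (B' x - B x) * g x else 0) = (B' i - B i) * g i := by
        rw [Finset.sum_eq_single (⟨i, hi⟩ : s)]
        · simp
        · intro b _ hb
          rw [if_neg]
          intro h
          apply hb
          exact Subtype.ext h.symm
        · intro h; exact absurd (Finset.mem_univ _) h
      rw [e]
      unfold op
      ring
    · have e : ∑ x : s, (if i = (x : ℤ) then (B' x - B x) * g x else 0) = 0 := by
        apply Finset.sum_eq_zero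
        intro x _
        rw [if_neg]
        rintro rfl
        exact hi x.2
      rw [e]
      unfold op
      rw [hs i hi]
      ring
  -- subsequence
  have hcomp : IsCompact (Set.pi Set.univ (fun _ : s => Set.Icc (-1 : ℝ) 1)) :=
    isCompact_univ_pi fun _ => isCompact_Icc
  have hmem : ∀ n, (fun j : s => f n j) ∈ Set.pi Set.univ (fun _ : s => Set.Icc (-1 : ℝ) 1) := by
    intro n j _
    have := lp.norm_apply_le_norm (p := 2) (by norm_num) (f n) j
    rw [hf1, Real.norm_eq_abs] at this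
    exact abs_le.mp this
  obtain ⟨u, _, ρ, hρ, hu⟩ := hcomp.tendsto_subseq hmem
  obtain ⟨g, hg⟩ := surj_of_bdd (TT_symm B hB) hc hTb (-(L u))
  have hT'0 : Tendsto (fun n => T' (f (ρ n))) atTop (𝓝 0) := by
    rw [tendsto_zero_iff_norm_tendsto_zero]
    apply squeeze_zero (fun _ => norm_nonneg _) (fun n => hf2 (ρ n))
    have := tendsto_one_div_add_atTop_nhds_zero_nat (𝕜 := ℝ)
    exact this.comp hρ.tendsto_atTop
  have hTlim : Tendsto (fun n => T (f (ρ n))) atTop (𝓝 (-(L u))) := by
    have h2 : Tendsto (fun n => L (fun j : s => f (ρ n) j)) atTop (𝓝 (L u)) :=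
      (hLc.tendsto u).comp hu
    have h3 := hT'0.sub h2
    rw [zero_sub] at h3
    refine h3.congr fun n => ?_
    rw [hLf]
  have hlim : Tendsto (fun n => f (ρ n)) atTop (𝓝 g) := by
    rw [tendsto_iff_norm_sub_tendsto_zero]
    have h2 : Tendsto (fun n => c⁻¹ * ‖T (f (ρ n)) - -(L u)‖) atTop (𝓝 0) := by
      have := (tendsto_iff_norm_sub_tendsto_zero.mp hTlim).const_mul c⁻¹
      simpa using this
    apply squeeze_zero (fun _ => norm_nonneg _) _ h2
    intro n
    have h3 := hTb (f (ρ n) - g)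
    rw [map_sub] at h3
    have h4 : T g = -(L u) := hg
    rw [h4] at h3
    rw [inv_mul_eq_div, le_div_iff₀ hc]
    linarith
  have hg1 : ‖g‖ = 1 := by
    have h2 := hlim.norm
    have h3 : Tendsto (fun n => ‖f (ρ n)‖) atTop (𝓝 1) := by
      simp_rw [hf1]; exact tendsto_const_nhds
    exact tendsto_nhds_unique h2 h3
  have hg2 : T' g = 0 := by
    have h2 := (T'.continuous.tendsto g).comp hlim
    exact tendsto_nhds_unique h2 hT'0
  have hg3 : g = 0 := by
    apply hinj
    intro j
    have : T' g j = 0 := by rw [hg2]; rfl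
    rw [hT', TT_coe] at this
    exact this
  rw [hg3, norm_zero] at hg1
  exact zero_ne_one hg1

end Pool.Agent.Helper434.PSPal
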