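import Mathlib

set_option autoImplicit false

namespace Pool.Agent.Helper434.PSStair

/-- staircase of a rational slope, read as slightly larger slope -/
def gst (p q j : ℤ) : ℤ := (j * p - (if j < 0 then 1 else 0)) / q

lemma ediv_eq_of {a b m : ℤ} (hb : 0 < b) (h1 : m * b ≤ a) (h2 : a < (m + 1) * b) : a / b = m := by
  apply le_antisymm
  · have := (Int.ediv_lt_iff_lt_mul hb).mpr h2
    omega
  · exact (Int.le_ediv_iff_mul_le hb).mpr h1

lemma gst_of_nonneg {p q j : ℤ} (hj : 0 ≤ j) : gst p q j = j * p / q := by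
  unfold gst
  rw [if_neg (not_lt.mpr hj), sub_zero]

lemma gst_of_neg {p q j : ℤ} (hj : j < 0) : gst p q j = (j * p - 1) / q := by
  unfold gst
  rw [if_pos hj]

@[simp] lemma gst_zero (p q : ℤ) : gst p q 0 = 0 := by simp [gst]

lemma sub_one_ediv {a q : ℤ} (hq : 0 < q) : (a - 1) / q = a / q - (if q ∣ a then 1 else 0) := by
  have h1 := Int.mul_ediv_add_emod a q
  have h2 := Int.emod_nonneg a hq.ne'
  have h3 := Int.emod_lt_of_pos a hq
  split_ifs with h
  · have h4 := Int.emod_eq_zero_of_dvd h
    apply ediv_eq_of hq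
    · nlinarith
    · nlinarith
  · have h4 : a % q ≠ 0 := fun h' => h (Int.dvd_of_emod_eq_zero h')
    have h5 : 1 ≤ a % q := by omega
    rw [sub_zero]
    apply ediv_eq_of hq
    · nlinarith
    · nlinarith

lemma neg_sub_one_ediv {a q : ℤ} (hq : 0 < q) : (-a - 1) / q = -(a / q) - 1 := by
  have h1 := Int.mul_ediv_add_emod a q
  have h2 := Int.emod_nonneg a hq.ne'
  have h3 := Int.emod_lt_of_pos a hq
  apply ediv_eq_of hq
  · nlinarith
  · nlinarith

lemma gst_neg_arg {p q j : ℤ} (hq : 0 < q) (hj : j ≠ 0) : gst p q (-j) = -gst p q j - 1 := by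
  rcases lt_or_gt_of_ne hj with h | h
  · rw [gst_of_nonneg (by omega), gst_of_neg h]
    have := neg_sub_one_ediv (a := -j * p) hq
    have e : (j * p - 1) = (-(-j * p) - 1) := by ring
    rw [e, this]; ring
  · rw [gst_of_neg (by omega), gst_of_nonneg h.le]
    have := neg_sub_one_ediv (a := j * p) hq
    have e : (-j * p - 1) = (-(j * p) - 1) := by ring
    rw [e, this]

lemma dvd_mul_iff {p q j : ℤ} (hc : IsCoprime p q) : q ∣ j * p ↔ q ∣ j :=
  ⟨fun h => hc.symm.dvd_of_dvd_mul_right h, fun h => Dvd.dvd.mul_right h p⟩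

lemma gst_add_q {p q : ℤ} (hq : 0 < q) (hc : IsCoprime p q) (j : ℤ) :
    gst p q (j + q) = gst p q j + p + (if j = -q then 1 else 0) := by
  rcases le_or_gt 0 j with h | h
  · rw [gst_of_nonneg (by omega), gst_of_nonneg h, if_neg (by omega)]
    rw [show (j + q) * p = j * p + q * p by ring, Int.add_mul_ediv_left _ _ hq.ne']
    ring
  · rcases lt_or_ge (j + q) 0 with h' | h'
    · rw [gst_of_neg h', gst_of_neg h, if_neg (by omega)]
      rw [show (j + q) * p - 1 = (j * p - 1) + q * p by ring, Int.add_mul_ediv_left _ _ hq.ne']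
      ring
    · rw [gst_of_nonneg h', gst_of_neg h, sub_one_ediv hq]
      rw [show (j + q) * p = j * p + q * p by ring, Int.add_mul_ediv_left _ _ hq.ne']
      have key : q ∣ j * p ↔ j = -q := by
        rw [dvd_mul_iff hc]
        constructor
        · rintro ⟨c, hc⟩
          have h1 : c < 0 := by
            by_contra hcon
            push Not at hcon
            nlinarith
          have h2 : -1 ≤ c := by
            by_contra hcon
            push Not at hcon
            nlinarith
          have : c = -1 := by omega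
          rw [hc, this]; ring
        · rintro rfl
          exact ⟨-1, by ring⟩
      simp only [key]
      split_ifs <;> ring

lemma gst_sub_q {p q : ℤ} (hq : 0 < q) (hc : IsCoprime p q) (j : ℤ) :
    gst p q (j - q) + p = gst p q j - (if j = 0 then 1 else 0) := by
  have h := gst_add_q hq hc (j - q)
  rw [sub_add_cancel] at h
  rw [h]
  have : (j - q = -q) ↔ j = 0 := by constructor <;> intro h <;> omega
  simp only [this]
  split_ifs <;> ring

lemma gst_level {p q p' q' k : ℤ} (hq : 0 < q) (hq' : 0 < q') (hdet : p' * q - p * q' = 1)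
    (hk1 : -q' < k) (hk2 : k < q') : gst p' q' k = gst p q k := by
  rcases le_or_gt 0 k with h | h
  · rw [gst_of_nonneg h, gst_of_nonneg h]
    have h1 := Int.mul_ediv_add_emod (k * p) q
    have h2 := Int.emod_nonneg (k * p) hq.ne'
    have h3 := Int.emod_lt_of_pos (k * p) hq
    set m := k * p / q
    set r := k * p % q
    have e : k * p' * q = k + q' * (q * m + r) := by
      rw [h1]; linear_combination k * hdet
    apply ediv_eq_of hq'
    · by_contra hcon
      push Not at hcon
      nlinarith
    · by_contra hcon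
      push Not at hcon
      nlinarith
  · rw [gst_of_neg h, gst_of_neg h]
    have h1 := Int.mul_ediv_add_emod (k * p - 1) q
    have h2 := Int.emod_nonneg (k * p - 1) hq.ne'
    have h3 := Int.emod_lt_of_pos (k * p - 1) hq
    set m := (k * p - 1) / q
    set r := (k * p - 1) % q
    have e : k * p' * q = k + q' * (q * m + r + 1) := by
      rw [h1]; linear_combination k * hdet
    apply ediv_eq_of hq'
    · have : m * q' < k * p' := by
        by_contra hcon
        push Not at hcon
        nlinarith
      omega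
    · have : k * p' ≤ (m + 1) * q' := by
        by_contra hcon
        push Not at hcon
        nlinarith
      omega

lemma coprime_of_det {p q p' q' : ℤ} (hdet : p' * q - p * q' = 1) : IsCoprime p' q' :=
  ⟨q, -p, by linear_combination hdet⟩

lemma gst_shift {p q p' q' : ℤ} (hq : 0 < q) (hq' : 0 < q') (hc : IsCoprime p q)
    (hdet : p' * q - p * q' = 1) (i k : ℤ) (hk1 : -q' < k) (hk2 : k < q') :
    gst p' q' (i * q' + k) = i * p' + (if 0 ≤ i then gst p q k else gst p q (k - q) + p) := by
  have hc' : IsCoprime p' q' := coprime_of_det hdet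
  have hlev := gst_level hq hq' hdet hk1 hk2
  have hnd : k ≠ 0 → ¬ q' ∣ k * p' := by
    intro h0 h
    rw [dvd_mul_iff hc'] at h
    have := Int.eq_zero_of_abs_lt_dvd h (abs_lt.mpr ⟨hk1, hk2⟩)
    exact h0 this
  split_ifs with hi
  · rw [← hlev]
    rcases le_or_gt 0 k with h | h
    · rw [gst_of_nonneg (by positivity), gst_of_nonneg h]
      rw [show (i * q' + k) * p' = k * p' + q' * (i * p') by ring,
        Int.add_mul_ediv_left _ _ hq'.ne']
      ring
    · rcases eq_or_lt_of_le hi with h0 | h0
      · rw [← h0]; simp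
      · have h1 : 0 ≤ i * q' + k := by nlinarith
        rw [gst_of_nonneg h1, gst_of_neg h, sub_one_ediv hq', if_neg (hnd h.ne)]
        rw [show (i * q' + k) * p' = k * p' + q' * (i * p') by ring,
          Int.add_mul_ediv_left _ _ hq'.ne']
        ring
  · push Not at hi
    have h1 : i * q' + k < 0 := by nlinarith
    rw [gst_of_neg h1, gst_sub_q hq hc, ← hlev]
    rw [show (i * q' + k) * p' - 1 = (k * p' - 1) + q' * (i * p') by ring,
      Int.add_mul_ediv_left _ _ hq'.ne']
    rcases lt_trichotomy k 0 with h | h | h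
    · rw [gst_of_neg h, if_neg h.ne]; ring
    · subst h
      simp only [zero_mul, gst_zero, if_true]
      rw [show (0 : ℤ) - 1 = -0 - 1 by ring, neg_sub_one_ediv hq']
      simp; ring
    · rw [gst_of_nonneg h.le, if_neg h.ne', sub_one_ediv hq', if_neg (hnd h.ne')]; ring

lemma gst_subadd {p q : ℤ} (hq : 0 < q) (a b : ℤ) :
    gst p q (a + b) - gst p q a - gst p q b = 0 ∨ gst p q (a + b) - gst p q a - gst p q b = 1 := by
  unfold gst
  have h1 := Int.mul_ediv_add_emod (a * p - (if a < 0 then 1 else 0)) q
  have h2 := Int.emod_nonneg (a * p - (if a < 0 then 1 else 0)) hq.ne'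
  have h3 := Int.emod_lt_of_pos (a * p - (if a < 0 then 1 else 0)) hq
  have h4 := Int.mul_ediv_add_emod (b * p - (if b < 0 then 1 else 0)) q
  have h5 := Int.emod_nonneg (b * p - (if b < 0 then 1 else 0)) hq.ne'
  have h6 := Int.emod_lt_of_pos (b * p - (if b < 0 then 1 else 0)) hq
  have h7 := Int.mul_ediv_add_emod ((a + b) * p - (if a + b < 0 then 1 else 0)) q
  have h8 := Int.emod_nonneg ((a + b) * p - (if a + b < 0 then 1 else 0)) hq.ne'
  have h9 := Int.emod_lt_of_pos ((a + b) * p - (if a + b < 0 then 1 else 0)) hq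
  generalize (a * p - (if a < 0 then 1 else 0)) / q = m1 at *
  generalize (a * p - (if a < 0 then 1 else 0)) % q = r1 at *
  generalize (b * p - (if b < 0 then 1 else 0)) / q = m2 at *
  generalize (b * p - (if b < 0 then 1 else 0)) % q = r2 at *
  generalize ((a + b) * p - (if a + b < 0 then 1 else 0)) / q = m3 at *
  generalize ((a + b) * p - (if a + b < 0 then 1 else 0)) % q = r3 at *
  have e1 : (a + b) * p = a * p + b * p := by ring
  rw [e1] at h7
  generalize a * p = A at *
  generalize b * p = B at *
  have key : q * (m3 - m1 - m2) < 2 * q ∧ -q < q * (m3 - m1 - m2) := by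
    constructor
    · have : q * (m3 - m1 - m2) = q * m3 - q * m1 - q * m2 := by ring
      rw [this]
      split_ifs at h1 h4 h7 <;> omega
    · have : q * (m3 - m1 - m2) = q * m3 - q * m1 - q * m2 := by ring
      rw [this]
      split_ifs at h1 h4 h7 <;> omega
  have k1 : m3 - m1 - m2 < 2 := by nlinarith [key.1]
  have k2 : -1 < m3 - m1 - m2 := by nlinarith [key.2]
  omega

/-- two jump sequence -/
def XX (p q s t j : ℤ) : ℤ := gst p q (j - s) - gst p q (j - t) - gst p q (t - s)

lemma XX_zero_or_one {p q : ℤ} (hq : 0 < q) (s t j : ℤ) : XX p q s t j = 0 ∨ XX p q s t j = 1 := by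
  have h := gst_subadd (p := p) hq (j - t) (t - s)
  rw [show j - t + (t - s) = j - s by ring] at h
  exact h

lemma XX_swap {p q : ℤ} (hq : 0 < q) {s t : ℤ} (hst : s ≠ t) (j : ℤ) :
    XX p q t s j = 1 - XX p q s t j := by
  unfold XX
  have h := gst_neg_arg (p := p) hq (sub_ne_zero.mpr hst)
  rw [neg_sub] at h
  rw [h]; ring

lemma XX_add_q {p q : ℤ} (hq : 0 < q) (hc : IsCoprime p q) {s t : ℤ} (hst : t - s ≠ -q) (j : ℤ) :
    XX p q s (t + q) j = XX p q s t j + (if j = t then 1 else 0) := by
  unfold XX
  have h1 := gst_add_q hq hc (t - s)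
  rw [if_neg hst] at h1
  have h2 := gst_sub_q hq hc (j - t)
  rw [show t + q - s = t - s + q by ring, h1, show j - (t + q) = j - t - q by ring]
  have : (j - t = 0) ↔ j = t := by constructor <;> intro h <;> omega
  simp only [this] at h2
  linarith

lemma XX_reflect {p q : ℤ} (hq : 0 < q) (hc : IsCoprime p q) (s t j : ℤ) :
    XX p q s t (s + t - q - j) = XX p q s t j := by
  have key : ∀ m : ℤ, gst p q (-m - q) = -gst p q m - 1 - p := by
    intro m
    have h1 := gst_sub_q hq hc (-m)
    by_cases hm : m = 0
    · subst hm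
      simp at h1 ⊢
      linarith
    · rw [gst_neg_arg hq hm, if_neg (by omega)] at h1
      linarith
  unfold XX
  rw [show s + t - q - j - s = -(j - t) - q by ring, show s + t - q - j - t = -(j - s) - q by ring,
    key, key]
  ring

lemma XX_window {p q p' q' : ℤ} (hq : 0 < q) (hq' : 0 < q') (hc : IsCoprime p q)
    (hdet : p' * q - p * q' = 1) (s N i k : ℤ) (hk1 : -q' < k) (hk2 : k < q')
    (hk3 : -q' < k - N) (hk4 : k - N < q') (hN1 : -q' < N) (hN2 : N < q') :
    XX p' q' s (s + N) (s + i * q' + k) =
      if 0 ≤ i then XX p q 0 N k else XX p q 0 N (k - q) := by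
  unfold XX
  rw [show s + i * q' + k - s = i * q' + k by ring,
    show s + i * q' + k - (s + N) = i * q' + (k - N) by ring,
    show s + N - s = N by ring, gst_level hq hq' hdet hN1 hN2,
    gst_shift hq hq' hc hdet i k hk1 hk2, gst_shift hq hq' hc hdet i (k - N) hk3 hk4]
  split_ifs with h
  · simp
  · simp only [sub_zero]
    rw [show k - q - N = k - N - q by ring]
    ring

lemma XX_translate (p q s t j a : ℤ) : XX p q (s + a) (t + a) (j + a) = XX p q s t j := by
  unfold XX
  rw [show j + a - (s + a) = j - s by ring, show j + a - (t + a) = j - t by ring,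
    show t + a - (s + a) = t - s by ring]

lemma XX_next {p q s t : ℤ} (hq : 0 < q) (hc : IsCoprime p q) (hst : s < t) (L R : ℤ)
    (hL : 0 ≤ L) (hR : 0 ≤ R) :
    ∃ Q0 : ℤ, ∀ p' q' : ℤ, Q0 < q' → p' * q - p * q' = 1 →
      (∀ a : ℤ, ∃ b : ℤ, ∀ m : ℤ, |m| ≤ L →
        XX p' q' (s + q' - q) (t + q') (a + m) = XX p q s (t + q) (b + m)) ∧
      (∀ j : ℤ, |j| ≤ R → XX p' q' (s + q' - q) (t + q') j = XX p q s (t + q) j) := by
  refine ⟨4 * (L + R + (t - s + q) + |s| + q + 10), ?_⟩
  intro p' q' hQ hdet
  have hs := abs_nonneg s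
  have hs1 := le_abs_self s
  have hs2 := neg_abs_le s
  have hq' : 0 < q' := by linarith
  set N := t - s + q with hN
  have hNpos : 0 < N := by omega
  have e1 : t + q' = (s + q' - q) + N := by rw [hN]; ring
  have e2 : t + q = s + N := by rw [hN]; ring
  rw [e1, e2]
  constructor
  · intro a
    set h := q' / 2 with hh
    have h1 : 2 * h ≤ q' := by omega
    have h2 : q' ≤ 2 * h + 1 := by omega
    set i := (a - (s + q' - q) + h) / q' with hi
    set k0 := (a - (s + q' - q) + h) % q' - h with hk0
    have h3 := Int.mul_ediv_add_emod (a - (s + q' - q) + h) q'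
    have h4 := Int.emod_nonneg (a - (s + q' - q) + h) hq'.ne'
    have h5 := Int.emod_lt_of_pos (a - (s + q' - q) + h) hq'
    have h6 : a = (s + q' - q) + i * q' + k0 := by
      rw [hk0]; linear_combination -h3
    refine ⟨if 0 ≤ i then s + k0 else s + k0 - q, ?_⟩
    intro m hm
    rw [abs_le] at hm
    have h7 : a + m = (s + q' - q) + i * q' + (k0 + m) := by rw [h6]; ring
    rw [h7, XX_window hq hq' hc hdet (s + q' - q) N i (k0 + m) (by omega) (by omega) (by omega)
      (by omega) (by omega) (by omega)]
    have tr := fun j => XX_translate p q 0 N j s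
    simp only [zero_add] at tr
    split_ifs with hi0
    · rw [← tr]
      congr 1 <;> ring
    · rw [← tr]
      congr 1 <;> ring
  · intro j hj
    rw [abs_le] at hj
    have h7 : j = (s + q' - q) + (-1) * q' + (j - s + q) := by ring
    have h8 := XX_window hq hq' hc hdet (s + q' - q) N (-1) (j - s + q) (by omega) (by omega)
      (by omega) (by omega) (by omega) (by omega)
    rw [← h7] at h8
    rw [h8, if_neg (by norm_num)]
    have tr := fun j => XX_translate p q 0 N j s
    simp only [zero_add] at tr
    rw [← tr]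
    congr 1 <;> ring

end Pool.Agent.Helper434.PSStair
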