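import Mathlib
import Pool.Agent.Helper434.PSStair
import Pool.Agent.Helper434.PSWin
import Pool.Agent.Helper434.PSHilb
import Pool.Agent.Helper434.PSStep
import Pool.Agent.Helper434.PSPal

set_option autoImplicit false

namespace Pool.Agent.Helper434.PSMain

open ENNReal Pool.Agent.Helper434.PSStair Pool.Agent.Helper434.PSWin
open Pool.Agent.Helper434.PSHilb Pool.Agent.Helper434.PSStep Pool.Agent.Helper434.PSPal
open Filter Topology

/-- the sequence of a level -/
def xseq (p q s t kap j : ℤ) : ℤ := (1 - 2 * kap) * XX p q s t j + kap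

lemma xseq_zero_or_one {p q s t kap : ℤ} (hq : 0 < q) (hk : kap = 0 ∨ kap = 1) (j : ℤ) :
    xseq p q s t kap j = 0 ∨ xseq p q s t kap j = 1 := by
  unfold xseq
  rcases XX_zero_or_one (p := p) hq s t j with h | h <;> rcases hk with h' | h' <;>
    rw [h, h'] <;> norm_num

lemma xseq_bdd {p q s t kap : ℤ} (hq : 0 < q) (hk : kap = 0 ∨ kap = 1) (lam E : ℝ) (j : ℤ) :
    |lam * (xseq p q s t kap j : ℝ) - E| ≤ |lam| + |E| := by
  refine (abs_sub _ _).trans ?_
  rcases xseq_zero_or_one (p := p) (s := s) (t := t) hq hk j with h | h <;> rw [h] <;> simp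

/-- a level of the construction -/
structure St (lam : ℝ) where
  p : ℤ
  q : ℤ
  s : ℤ
  t : ℤ
  kap : ℤ
  E : ℝ
  φ : EE
  hq : 0 < q
  hc : IsCoprime p q
  hst : s < t
  hk : kap = 0 ∨ kap = 1
  hφ : φ ≠ 0
  heq : ∀ j, op (fun j => lam * (xseq p q s t kap j : ℝ) - E) φ j = 0
  hbb : ∃ c : ℝ, 0 < c ∧ ∀ f : ℤ → ℝ, NN f ≠ ⊤ →
    ENNReal.ofReal (c ^ 2) * NN f ≤
      NN (op (fun j => lam * (xseq p q s (t + q) kap j : ℝ) - E) f)

lemma exists_next_pq {p q : ℤ} (hq : 0 < q) (hc : IsCoprime p q) (Q : ℤ) :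
    ∃ p' q' : ℤ, Q < q' ∧ p' * q - p * q' = 1 := by
  obtain ⟨a, b, hab⟩ := hc
  refine ⟨b + (|a| + |Q| + 1) * p, -a + (|a| + |Q| + 1) * q, ?_, ?_⟩
  · have h1 := le_abs_self a
    have h2 := le_abs_self Q
    have h3 := abs_nonneg a
    have h4 := abs_nonneg Q
    nlinarith
  · linear_combination hab

theorem next {lam : ℝ} (S : St lam) {ε : ℝ} (hε : 0 < ε) (R0 Q0 : ℤ) (hR0 : 0 ≤ R0) :
    ∃ S' : St lam, S'.p * S.q - S.p * S'.q = 1 ∧ Q0 < S'.q ∧ S'.s = S.t ∧
      S'.t = S.s + S'.q - S.q ∧ S'.kap = 1 - S.kap ∧ |S'.E - S.E| < ε ∧ ‖S'.φ - S.φ‖ < ε ∧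
      ∀ j : ℤ, |j| ≤ R0 → xseq S'.p S'.q S'.s S'.t S'.kap j = xseq S.p S.q S.s S.t S.kap j := by
  obtain ⟨p, q, s, t, kap, E, φ, hq, hc, hst, hk, hφ, heq, c, hc0, hbb⟩ := S
  simp only
  have hφn : 0 < ‖φ‖ := norm_pos_iff.mpr hφ
  set K := |lam| + |E| with hK
  -- common and rare
  have hxc : ∀ j, xseq p q s (t + q) kap j =
      xseq p q s t kap j + (if j = t then (1 - 2 * kap) else 0) := by
    intro j
    unfold xseq
    rw [XX_add_q hq hc (by omega)]
    split_ifs <;> ring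
  obtain ⟨M, R, hMR⟩ := step (A := fun j => lam * (xseq p q s (t + q) kap j : ℝ) - E)
    (fun j => xseq_bdd hq hk lam E j) hc0 hbb t (-(lam * (1 - 2 * (kap : ℝ)))) φ hφ
    (by
      intro j
      have h1 := heq j
      unfold op at h1 ⊢
      simp only [hxc]
      push_cast
      split_ifs with hj
      · push_cast
        linear_combination h1
      · push_cast
        linear_combination h1) (lt_min hε hφn)
  obtain ⟨Q1, hQ1⟩ := XX_next hq hc hst (2 * M) (max (R : ℤ) R0) (by positivity)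
    (le_max_of_le_right hR0)
  obtain ⟨p', q', hqq, hdet⟩ := exists_next_pq hq hc (max Q0 (max Q1 (|s| + |t| + q + 1)))
  have hqQ0 : Q0 < q' := (le_max_left _ _).trans_lt hqq
  have hqQ1 : Q1 < q' := ((le_max_left _ _).trans (le_max_right _ _)).trans_lt hqq
  have hqs : |s| + |t| + q + 1 < q' := ((le_max_right _ _).trans (le_max_right _ _)).trans_lt hqq
  have hs1 := neg_abs_le s
  have hs2 := abs_nonneg s
  have ht1 := le_abs_self t
  have ht2 := abs_nonneg t
  have hq'0 : 0 < q' := by omega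
  have hc' : IsCoprime p' q' := coprime_of_det hdet
  obtain ⟨hw, hag⟩ := hQ1 p' q' hqQ1 hdet
  set s' := s + q' - q with hs'
  have hts' : t < s' := by
    rw [hs']; omega
  set B : ℤ → ℝ := fun j => lam * (xseq p' q' s' (t + q') kap j : ℝ) - E with hB
  have hwin : ∀ a : ℤ, ∃ b : ℤ, ∀ m : ℤ, |m| ≤ 2 * M →
      B (a + m) = lam * (xseq p q s (t + q) kap (b + m) : ℝ) - E := by
    intro a
    obtain ⟨b, hb⟩ := hw a
    refine ⟨b, fun m hm => ?_⟩
    simp only [hB]
    unfold xseq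
    rw [hb m hm]
  have hagr : ∀ j : ℤ, |j| ≤ max (R : ℤ) R0 →
      xseq p' q' s' (t + q') kap j = xseq p q s (t + q) kap j := by
    intro j hj
    unfold xseq
    rw [hag j hj]
  obtain ⟨μ, hμ, φ', hφ', heq', c', hc'0, hbb'⟩ := hMR B
    (fun j => xseq_bdd hq'0 hk lam E j) hwin
    (fun j hj => by
      simp only [hB]
      rw [hagr j (hj.trans (le_max_left _ _))])
  have hk' : 1 - kap = 0 ∨ 1 - kap = 1 := by omega
  -- new rare sequence
  have hxr : ∀ j, xseq p' q' t s' (1 - kap) j =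
      xseq p' q' s' (t + q') kap j + (if j = t then -(1 - 2 * kap) else 0) := by
    intro j
    unfold xseq
    rw [XX_add_q hq'0 hc' (by omega), XX_swap hq'0 (by omega : s' ≠ t)]
    have : (1 - 2 * (1 - kap)) = -(1 - 2 * kap) := by ring
    rw [this]
    split_ifs
    · ring
    · ring
  have hxc' : ∀ j, xseq p' q' t (s' + q') (1 - kap) j =
      xseq p' q' t s' (1 - kap) j + (if j = s' then (1 - 2 * (1 - kap)) else 0) := by
    intro j
    unfold xseq
    rw [XX_add_q hq'0 hc' (by omega)]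
    split_ifs <;> ring
  have hφ'0 : φ' ≠ 0 := by
    rintro rfl
    rw [zero_sub, norm_neg] at hφ'
    exact lt_irrefl _ (hφ'.trans_le (min_le_right _ _))
  have heq'' : ∀ j, op (fun j => lam * (xseq p' q' t s' (1 - kap) j : ℝ) - (E + μ)) φ' j = 0 := by
    intro j
    have h1 := heq' j
    unfold op at h1 ⊢
    simp only [hB] at h1
    simp only [hxr]
    split_ifs at h1 ⊢ with hj
    · push_cast
      linear_combination h1
    · push_cast
      linear_combination h1
  have hsym : ∀ j, xseq p' q' t s' (1 - kap) (t + s' - q' - j) =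
      xseq p' q' t s' (1 - kap) j := by
    intro j
    unfold xseq
    rw [XX_reflect hq'0 hc']
  have hsym' : ∀ j, xseq p' q' t (s' + q') (1 - kap) (t + (s' + q') - q' - j) =
      xseq p' q' t (s' + q') (1 - kap) j := by
    intro j
    unfold xseq
    rw [XX_reflect hq'0 hc']
  refine ⟨⟨p', q', t, s', 1 - kap, E + μ, φ', hq'0, hc', hts', hk', hφ'0, heq'', ?_⟩, hdet, hqQ0,
    rfl, rfl, rfl, ?_, ?_, ?_⟩
  · have hbd1 : ∃ K, ∀ j, |(fun j => B j - μ) j| ≤ K :=
      bdd_shift ⟨K, fun j => xseq_bdd hq'0 hk lam E j⟩ μ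
    have hbd2 : ∃ K, ∀ j, |(fun j => lam * (xseq p' q' t (s' + q') (1 - kap) j : ℝ) - (E + μ)) j|
        ≤ K := ⟨_, fun j => xseq_bdd hq'0 hk' lam (E + μ) j⟩
    have hbd3 : ∃ K, ∀ j, |(fun j => lam * (xseq p' q' t s' (1 - kap) j : ℝ) - (E + μ)) j|
        ≤ K := ⟨_, fun j => xseq_bdd hq'0 hk' lam (E + μ) j⟩
    apply finite_rank hbd1 hbd2 hc'0 hbb' {t, s'}
    · intro j hj
      simp only [Finset.mem_insert, Finset.mem_singleton, not_or] at hj
      simp only [hB]
      rw [hxc', hxr, if_neg hj.1, if_neg hj.2]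
      push_cast
      ring
    · intro ψ hψ
      apply inj_of_sym hbd3 (a := t + s' - q') (b := t + (s' + q') - q') (k := s')
        (γ := lam * (1 - 2 * (1 - kap))) _ _ _ _ φ' hφ'0 heq'' ψ hψ
      · omega
      · intro j
        simp only [hsym]
      · intro j
        simp only [hsym']
      · intro j
        simp only [hxc']
        split_ifs
        · push_cast; ring
        · push_cast; ring
  · simp only
    rw [add_sub_cancel_left]
    exact hμ.trans_le (min_le_left _ _)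
  · exact hφ'.trans_le (min_le_left _ _)
  · intro j hj
    simp only
    rw [hxr, hagr j (hj.trans (le_max_right _ _)), hxc]
    split_ifs <;> ring

end Pool.Agent.Helper434.PSMain
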