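import Mathlib
import Pool.Agent.Helper434.PSMain

set_option autoImplicit false

namespace Pool.Agent.Helper434.PSBase

open ENNReal Pool.Agent.Helper434.PSStair Pool.Agent.Helper434.PSWin
open Pool.Agent.Helper434.PSHilb Pool.Agent.Helper434.PSStep Pool.Agent.Helper434.PSPal
open Pool.Agent.Helper434.PSMain
open Filter Topology

lemma exists_xi {lam : ℝ} (hlam : lam ≠ 0) : ∃ ξ : ℝ, ξ ≠ 0 ∧ |ξ| < 1 ∧ ξ * lam = 1 - ξ ^ 2 := by
  set D := Real.sqrt (lam ^ 2 + 4) with hD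
  have hD2 : D ^ 2 = lam ^ 2 + 4 := Real.sq_sqrt (by positivity)
  have hD0 : 0 < D := Real.sqrt_pos.mpr (by positivity)
  have hDl : |lam| < D := by
    apply abs_lt_of_sq_lt_sq _ hD0.le
    rw [hD2]; linarith
  have hDm : D < |lam| + 2 := by
    have h1 := abs_pos.mpr hlam
    have h2 := sq_abs lam
    nlinarith
  rcases lt_or_gt_of_ne hlam with h | h
  · rw [abs_of_neg h] at hDl hDm
    refine ⟨-(D + lam) / 2, ?_, ?_, ?_⟩
    · intro h0; linarith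
    · rw [abs_lt]; constructor <;> linarith
    · nlinarith
  · rw [abs_of_pos h] at hDl hDm
    refine ⟨(D - lam) / 2, ?_, ?_, ?_⟩
    · intro h0; linarith
    · rw [abs_lt]; constructor <;> linarith
    · nlinarith

lemma summable_geom {ξ : ℝ} (h : |ξ| < 1) : Summable fun j : ℤ => (ξ ^ j.natAbs) ^ 2 := by
  have h2 : |ξ ^ 2| < 1 := by
    rw [abs_pow]
    have := abs_nonneg ξ
    nlinarith
  have h1 : Summable fun n : ℕ => (ξ ^ 2) ^ n := summable_geometric_of_abs_lt_one h2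
  have e : (fun j : ℤ => (ξ ^ j.natAbs) ^ 2) = fun j : ℤ => (ξ ^ 2) ^ j.natAbs := by
    ext j
    rw [← pow_mul, ← pow_mul, mul_comm]
  rw [e]
  apply Summable.of_nat_of_neg
  · simpa using h1
  · simpa using h1

lemma NN_geom {ξ : ℝ} (h : |ξ| < 1) : NN (fun j : ℤ => ξ ^ j.natAbs) ≠ ⊤ := by
  unfold NN
  rw [← ENNReal.ofReal_tsum_of_nonneg (fun j => sq_nonneg _) (summable_geom h)]
  exact ENNReal.ofReal_ne_top

lemma gst01 (j : ℤ) : gst 0 1 j = if j < 0 then -1 else 0 := by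
  unfold gst
  split_ifs <;> simp

lemma XX01 (j : ℤ) : XX 0 1 0 1 j = if j = 0 then 1 else 0 := by
  unfold XX
  rw [gst01, gst01, gst01]
  split_ifs <;> omega

lemma xseq01 (j : ℤ) : xseq 0 1 0 1 0 j = if j = 0 then 1 else 0 := by
  unfold xseq
  rw [XX01]
  simp

lemma geom_eq {ξ lam : ℝ} (hξ : ξ ≠ 0) (hl : ξ * lam = 1 - ξ ^ 2) (j : ℤ) :
    op (fun j => lam * (xseq 0 1 0 1 0 j : ℝ) - (ξ + ξ⁻¹)) (fun j : ℤ => ξ ^ j.natAbs) j = 0 := by
  unfold op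
  simp only [xseq01]
  have hx : ξ * ξ⁻¹ = 1 := mul_inv_cancel₀ hξ
  rcases lt_trichotomy j 0 with h | h | h
  · obtain ⟨n, hn⟩ : ∃ n : ℕ, j = -(n + 1 : ℤ) := ⟨(-j - 1).toNat, by omega⟩
    subst hn
    rw [if_neg (by omega)]
    have e1 : (-(n + 1 : ℤ) + 1).natAbs = n := by omega
    have e2 : (-(n + 1 : ℤ) - 1).natAbs = n + 2 := by omega
    have e3 : (-(n + 1 : ℤ)).natAbs = n + 1 := by omega
    rw [e1, e2, e3]
    push_cast
    rw [pow_add, pow_succ]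
    linear_combination (-ξ ^ n) * hx
  · subst h
    rw [if_pos rfl]
    norm_num
    field_simp
    linear_combination hl
  · obtain ⟨n, hn⟩ : ∃ n : ℕ, j = (n + 1 : ℤ) := ⟨(j - 1).toNat, by omega⟩
    subst hn
    rw [if_neg (by omega)]
    have e1 : ((n + 1 : ℤ) + 1).natAbs = n + 2 := by omega
    have e2 : ((n + 1 : ℤ) - 1).natAbs = n := by omega
    have e3 : ((n + 1 : ℤ)).natAbs = n + 1 := by omega
    rw [e1, e2, e3]
    push_cast
    rw [pow_add, pow_succ]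
    linear_combination (-ξ ^ n) * hx

lemma norm_shift (f : EE) (a : ℤ) : ‖toE _ (NN_shift_ne_top f a)‖ = ‖f‖ := by
  have h := NN_shift f a
  rw [NN_lp f] at h
  have h2 := NN_lp (toE _ (NN_shift_ne_top f a))
  rw [toE_coe, h] at h2
  have h3 := (ENNReal.ofReal_eq_ofReal_iff (sq_nonneg _) (sq_nonneg _)).mp h2
  have h4 := (sq_eq_sq₀ (norm_nonneg _) (norm_nonneg _)).mp h3
  exact h4.symm

lemma free_bound {E : ℝ} (hE : 2 < |E|) (f : ℤ → ℝ) (hf : NN f ≠ ⊤) :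
    ENNReal.ofReal ((|E| - 2) ^ 2) * NN f ≤ NN (op (fun _ => -E) f) := by
  have hA : ∃ K, ∀ j : ℤ, |(fun _ : ℤ => -E) j| ≤ K := ⟨|E|, fun j => by simp⟩
  apply NN_of_bdd hA (by linarith) _ f hf
  intro f
  have e : E • f = toE _ (NN_shift_ne_top f 1) + toE _ (NN_shift_ne_top f (-1)) -
      TT (fun _ => -E) hA f := by
    ext j
    rw [lp.coeFn_sub, Pi.sub_apply, lp.coeFn_add, Pi.add_apply, TT_coe, lp.coeFn_smul,
      Pi.smul_apply, toE_coe, toE_coe]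
    unfold op
    simp only [smul_eq_mul]
    rw [sub_eq_add_neg]
    ring
  have h1 : ‖E • f‖ ≤ ‖f‖ + ‖f‖ + ‖TT (fun _ => -E) hA f‖ := by
    rw [e]
    refine (norm_sub_le _ _).trans ?_
    refine add_le_add ((norm_add_le _ _).trans ?_) le_rfl
    rw [norm_shift, norm_shift]
  rw [norm_smul, Real.norm_eq_abs] at h1
  linarith

theorem base {lam : ℝ} (hlam : lam ≠ 0) : ∃ S : St lam, S.p = 0 ∧ S.q = 1 ∧ S.s = 0 ∧ S.t = 1 ∧
    S.kap = 0 := by
  obtain ⟨ξ, hξ0, hξ1, hξ⟩ := exists_xi hlam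
  set φ : EE := toE (fun j : ℤ => ξ ^ j.natAbs) (NN_geom hξ1) with hφ
  have hφ0 : φ ≠ 0 := by
    intro h
    have h1 : φ 0 = 0 := by rw [h]; rfl
    rw [hφ] at h1
    simp at h1
  have heq : ∀ j, op (fun j => lam * (xseq 0 1 0 1 0 j : ℝ) - (ξ + ξ⁻¹)) φ j = 0 :=
    fun j => geom_eq hξ0 hξ j
  have hE : 2 < |ξ + ξ⁻¹| := by
    have hx : ξ * ξ⁻¹ = 1 := mul_inv_cancel₀ hξ0
    have h1 : 0 < |ξ| := abs_pos.mpr hξ0
    have h2 : |ξ + ξ⁻¹| * |ξ| = 1 + ξ ^ 2 := by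
      rw [← abs_mul]
      rw [abs_of_nonneg]
      · linear_combination hx
      · nlinarith [sq_nonneg ξ]
    have h3 : |ξ| ^ 2 = ξ ^ 2 := sq_abs ξ
    by_contra hcon
    push Not at hcon
    nlinarith [sq_pos_of_pos (sub_pos.mpr hξ1)]
  have hc : IsCoprime (0 : ℤ) 1 := isCoprime_one_right
  have h1 : (0 : ℤ) < 1 := by norm_num
  have hbd1 : ∃ K, ∀ j, |(fun j : ℤ => lam * (xseq 0 1 0 1 0 j : ℝ) - (ξ + ξ⁻¹)) j| ≤ K :=
    ⟨_, fun j => xseq_bdd h1 (Or.inl rfl) lam _ j⟩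
  have hbd2 : ∃ K, ∀ j, |(fun j : ℤ => lam * (xseq 0 1 0 (1 + 1) 0 j : ℝ) - (ξ + ξ⁻¹)) j| ≤ K :=
    ⟨_, fun j => xseq_bdd h1 (Or.inl rfl) lam _ j⟩
  have hxc' : ∀ j, xseq 0 1 0 (1 + 1) 0 j =
      xseq 0 1 0 1 0 j + (if j = 1 then 1 else 0) := by
    intro j
    unfold xseq
    rw [XX_add_q h1 hc (by omega)]
    split_ifs <;> ring
  refine ⟨⟨0, 1, 0, 1, 0, ξ + ξ⁻¹, φ, h1, hc, h1, Or.inl rfl, hφ0, heq, ?_⟩,
    rfl, rfl, rfl, rfl, rfl⟩
  refine finite_rank (B := fun _ => -(ξ + ξ⁻¹)) ⟨|ξ + ξ⁻¹|, fun j => by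
    simp only [abs_neg, le_refl]⟩ hbd2 (sub_pos.mpr hE)
    (fun f hf => free_bound hE f hf) {0, 1} ?_ ?_
  · intro j hj
    simp only [Finset.mem_insert, Finset.mem_singleton, not_or] at hj
    rw [hxc', xseq01, if_neg hj.1, if_neg hj.2]
    push_cast
    ring
  · intro ψ hψ
    apply inj_of_sym hbd1 (a := 0) (b := 1) (k := 1) (γ := lam) _ _ _ _ φ hφ0 heq ψ hψ
    · norm_num
    · intro j
      rw [show xseq 0 1 0 1 0 (0 - j) = xseq 0 1 0 1 0 j by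
        unfold xseq
        rw [← XX_reflect h1 hc 0 1 j]
        congr 3]
    · intro j
      rw [show xseq 0 1 0 (1 + 1) 0 (1 - j) = xseq 0 1 0 (1 + 1) 0 j by
        unfold xseq
        rw [← XX_reflect h1 hc 0 (1 + 1) j]
        congr 3]
    · intro j
      simp only [hxc']
      split_ifs
      · push_cast; ring
      · push_cast; ring

end Pool.Agent.Helper434.PSBase
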