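import Mathlib
import Pool.Agent.Helper434.PSBase

set_option autoImplicit false

namespace Pool.Agent.Helper434.PSLim

open ENNReal Pool.Agent.Helper434.PSStair Pool.Agent.Helper434.PSWin
open Pool.Agent.Helper434.PSHilb Pool.Agent.Helper434.PSStep Pool.Agent.Helper434.PSPal
open Pool.Agent.Helper434.PSMain Pool.Agent.Helper434.PSBase
open Filter Topology

lemma pow_half_pos {c : ℝ} (hc : 0 < c) (n : ℕ) : 0 < c / 4 / 2 ^ n := by positivity

/-- sequence of levels -/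
noncomputable def sq {lam : ℝ} (S0 : St lam) {c : ℝ} (hc : 0 < c) : ℕ → St lam
  | 0 => S0
  | n + 1 => (next (sq S0 hc n) (pow_half_pos hc n) (n : ℤ)
      (4 * ((sq S0 hc n).q + |(sq S0 hc n).s| + |(sq S0 hc n).t| + n + 10)) (by positivity)).choose

lemma sq_spec {lam : ℝ} (S0 : St lam) {c : ℝ} (hc : 0 < c) (n : ℕ) :
    (sq S0 hc (n + 1)).p * (sq S0 hc n).q - (sq S0 hc n).p * (sq S0 hc (n + 1)).q = 1 ∧
    4 * ((sq S0 hc n).q + |(sq S0 hc n).s| + |(sq S0 hc n).t| + n + 10) < (sq S0 hc (n + 1)).q ∧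
    (sq S0 hc (n + 1)).s = (sq S0 hc n).t ∧
    (sq S0 hc (n + 1)).t = (sq S0 hc n).s + (sq S0 hc (n + 1)).q - (sq S0 hc n).q ∧
    (sq S0 hc (n + 1)).kap = 1 - (sq S0 hc n).kap ∧
    |(sq S0 hc (n + 1)).E - (sq S0 hc n).E| < c / 4 / 2 ^ n ∧
    ‖(sq S0 hc (n + 1)).φ - (sq S0 hc n).φ‖ < c / 4 / 2 ^ n ∧
    ∀ j : ℤ, |j| ≤ n → xseq (sq S0 hc (n + 1)).p (sq S0 hc (n + 1)).q (sq S0 hc (n + 1)).s
      (sq S0 hc (n + 1)).t (sq S0 hc (n + 1)).kap j =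
      xseq (sq S0 hc n).p (sq S0 hc n).q (sq S0 hc n).s (sq S0 hc n).t (sq S0 hc n).kap j := by
  have h := (next (sq S0 hc n) (pow_half_pos hc n) (n : ℤ)
      (4 * ((sq S0 hc n).q + |(sq S0 hc n).s| + |(sq S0 hc n).t| + n + 10))
      (by positivity)).choose_spec
  exact h

theorem limit_exists {lam : ℝ} (hlam : lam ≠ 0) :
    ∃ (p q s t kap : ℕ → ℤ) (x : ℤ → ℤ) (E : ℝ) (φ : EE),
      p 0 = 0 ∧ q 0 = 1 ∧ s 0 = 0 ∧ t 0 = 1 ∧ kap 0 = 0 ∧
      (∀ n, p (n + 1) * q n - p n * q (n + 1) = 1) ∧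
      (∀ n, 4 * (q n + |s n| + |t n| + n + 10) < q (n + 1)) ∧
      (∀ n, s (n + 1) = t n) ∧ (∀ n, t (n + 1) = s n + q (n + 1) - q n) ∧
      (∀ n, kap (n + 1) = 1 - kap n) ∧
      (∀ j, x j = 0 ∨ x j = 1) ∧
      (∀ j : ℤ, ∀ n : ℕ, |j| ≤ n → xseq (p n) (q n) (s n) (t n) (kap n) j = x j) ∧
      φ ≠ 0 ∧ ∀ j, φ (j + 1) + φ (j - 1) + lam * (x j : ℝ) * φ j = E * φ j := by
  obtain ⟨S0, hp0, hq0, hs0, ht0, hk0⟩ := base hlam
  have hc : 0 < ‖S0.φ‖ := norm_pos_iff.mpr S0.hφ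
  set c := ‖S0.φ‖ with hcdef
  set σ := sq S0 hc with hσ
  have hspec := sq_spec S0 hc
  rw [← hσ] at hspec
  have hσ0 : σ 0 = S0 := rfl
  have hstab : ∀ j : ℤ, ∀ n : ℕ, |j| ≤ n →
      xseq (σ n).p (σ n).q (σ n).s (σ n).t (σ n).kap j =
      xseq (σ j.natAbs).p (σ j.natAbs).q (σ j.natAbs).s (σ j.natAbs).t (σ j.natAbs).kap j := by
    intro j n hn
    rw [← Int.natCast_natAbs] at hn
    obtain ⟨k, rfl⟩ : ∃ k : ℕ, n = j.natAbs + k := ⟨n - j.natAbs, by omega⟩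
    clear hn
    induction k with
    | zero => rfl
    | succ k ih =>
      rw [← ih]
      have h := (hspec (j.natAbs + k)).2.2.2.2.2.2.2 j (by
        rw [← Int.natCast_natAbs]; push_cast; omega)
      exact h
  -- limits
  have hgeo1 : ∀ n, dist (σ n).E (σ (n + 1)).E ≤ c / 2 / 2 / 2 ^ n := by
    intro n
    rw [dist_comm, Real.dist_eq, show c / 2 / 2 / 2 ^ n = c / 4 / 2 ^ n by ring]
    exact (hspec n).2.2.2.2.2.1.le
  have hgeo2 : ∀ n, dist (σ n).φ (σ (n + 1)).φ ≤ c / 2 / 2 / 2 ^ n := by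
    intro n
    rw [dist_comm, dist_eq_norm, show c / 2 / 2 / 2 ^ n = c / 4 / 2 ^ n by ring]
    exact (hspec n).2.2.2.2.2.2.1.le
  obtain ⟨E, hE⟩ := cauchySeq_tendsto_of_complete (cauchySeq_of_le_geometric_two hgeo1)
  obtain ⟨φ, hφ⟩ := cauchySeq_tendsto_of_complete (cauchySeq_of_le_geometric_two hgeo2)
  have hd := dist_le_of_le_geometric_two_of_tendsto₀ hgeo2 hφ
  have hφ0 : φ ≠ 0 := by
    rintro rfl
    rw [hσ0, dist_zero_right, ← hcdef] at hd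
    linarith
  refine ⟨fun n => (σ n).p, fun n => (σ n).q, fun n => (σ n).s, fun n => (σ n).t,
    fun n => (σ n).kap,
    fun j => xseq (σ j.natAbs).p (σ j.natAbs).q (σ j.natAbs).s (σ j.natAbs).t (σ j.natAbs).kap j,
    E, φ, hp0, hq0, hs0, ht0, hk0, fun n => (hspec n).1, fun n => (hspec n).2.1,
    fun n => (hspec n).2.2.1, fun n => (hspec n).2.2.2.1, fun n => (hspec n).2.2.2.2.1,
    fun j => xseq_zero_or_one (σ _).hq (σ _).hk j, hstab, hφ0, ?_⟩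
  intro j
  have hcoord : ∀ i : ℤ, Tendsto (fun n => (σ n).φ i) atTop (𝓝 (φ i)) := by
    intro i
    have h1 : Tendsto (fun n => inner ℝ (dd i) (σ n).φ) atTop (𝓝 (inner ℝ (dd i) φ)) :=
      (continuous_const.inner continuous_id).tendsto φ |>.comp hφ
    simpa only [inner_dd] using h1
  have hlim : Tendsto (fun n => (σ n).φ (j + 1) + (σ n).φ (j - 1) +
      (lam * ((xseq (σ j.natAbs).p (σ j.natAbs).q (σ j.natAbs).s (σ j.natAbs).t
        (σ j.natAbs).kap j : ℤ) : ℝ) - (σ n).E) * (σ n).φ j) atTop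
      (𝓝 (φ (j + 1) + φ (j - 1) +
      (lam * ((xseq (σ j.natAbs).p (σ j.natAbs).q (σ j.natAbs).s (σ j.natAbs).t
        (σ j.natAbs).kap j : ℤ) : ℝ) - E) * φ j)) :=
    ((hcoord _).add (hcoord _)).add ((tendsto_const_nhds.sub hE).mul (hcoord _))
  have hzero : Tendsto (fun n => (σ n).φ (j + 1) + (σ n).φ (j - 1) +
      (lam * ((xseq (σ j.natAbs).p (σ j.natAbs).q (σ j.natAbs).s (σ j.natAbs).t
        (σ j.natAbs).kap j : ℤ) : ℝ) - (σ n).E) * (σ n).φ j) atTop (𝓝 0) := by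
    apply tendsto_const_nhds.congr'
    filter_upwards [eventually_ge_atTop j.natAbs] with n hn
    have h1 := (σ n).heq j
    unfold op at h1
    simp only at h1
    rw [hstab j n (by rw [← Int.natCast_natAbs]; omega)] at h1
    exact h1.symm
  have h2 := tendsto_nhds_unique hlim hzero
  simp only
  linear_combination h2

end Pool.Agent.Helper434.PSLim
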