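import Mathlib
import Pool.Agent.Helper434.PSStair

set_option autoImplicit false

namespace Pool.Agent.Helper434.PSRot

open Pool.Agent.Helper434.PSStair
open Filter Topology

section conv

variable {p q : ℕ → ℤ} (hp0 : p 0 = 0) (hq0 : q 0 = 1)
  (hdet : ∀ n, p (n + 1) * q n - p n * q (n + 1) = 1) (hg : ∀ n, 4 * (q n + 10) < q (n + 1))

include hq0 hg in
lemma q_pos (n : ℕ) : 0 < q n := by
  induction n with
  | zero => rw [hq0]; norm_num
  | succ n ih => have := hg n; omega

include hq0 hg in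
lemma q_ge (n : ℕ) : (n : ℤ) + 1 ≤ q n := by
  induction n with
  | zero => rw [hq0]; norm_num
  | succ n ih => have := hg n; push_cast; omega

include hq0 hdet hg in
lemma exists_alpha : ∃ α : ℝ, ∀ n, 1 / (q (n + 1) : ℝ) < q n * α - p n ∧
    q n * α - p n ≤ 2 / (q (n + 1) : ℝ) := by
  have hQ : ∀ n, (0 : ℝ) < q n := fun n => by exact_mod_cast q_pos hq0 hg n
  have hG : ∀ n, 4 * (q n : ℝ) < q (n + 1) := fun n => by
    have := hg n
    have h2 : 4 * q n < q (n + 1) := by omega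
    exact_mod_cast h2
  have hD : ∀ n, (p (n + 1) : ℝ) * q n - p n * q (n + 1) = 1 := fun n => by exact_mod_cast hdet n
  set r : ℕ → ℝ := fun n => p n / q n with hr
  set R : ℕ → ℝ := fun n => r n + 2 / (q n * q (n + 1)) with hR
  have hstep : ∀ n, r (n + 1) = r n + 1 / (q n * q (n + 1)) := by
    intro n
    simp only [hr]
    have h1 := (hQ n).ne'
    have h2 := (hQ (n + 1)).ne'
    field_simp
    linear_combination hD n
  have hpos : ∀ n, 0 < 1 / ((q n : ℝ) * q (n + 1)) := fun n =>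
    one_div_pos.mpr (mul_pos (hQ n) (hQ (n + 1)))
  have hmono : StrictMono r := strictMono_nat_of_lt_succ fun n => by
    rw [hstep]; linarith [hpos n]
  have hanti : Antitone R := antitone_nat_of_succ_le fun n => by
    simp only [hR]
    rw [hstep]
    have h1 := hQ n
    have h2 := hQ (n + 1)
    have h3 := hQ (n + 2)
    have h4 := hG n
    have h5 := hG (n + 1)
    have h6 : 2 / ((q (n + 1) : ℝ) * q (n + 1 + 1)) ≤ 1 / (q n * q (n + 1)) := by
      rw [div_le_div_iff₀ (mul_pos h2 h3) (mul_pos h1 h2)]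
      have h7 : (2 : ℝ) * q n ≤ q (n + 1 + 1) := by linarith
      nlinarith
    have h8 : 2 / ((q n : ℝ) * q (n + 1)) = 1 / (q n * q (n + 1)) + 1 / (q n * q (n + 1)) := by
      ring
    rw [h8]
    linarith
  have hrR : ∀ n, r n ≤ R n := fun n => by
    simp only [hR]
    have := hpos n
    have h8 : 2 / ((q n : ℝ) * q (n + 1)) = 1 / (q n * q (n + 1)) + 1 / (q n * q (n + 1)) := by
      ring
    rw [h8]
    linarith
  have hcross : ∀ m n, r m ≤ R n := by
    intro m n
    rcases le_total m n with h | h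
    · exact (hmono.monotone h).trans (hrR n)
    · exact (hrR m).trans (hanti h)
  have hbdd : BddAbove (Set.range r) := ⟨R 0, by rintro _ ⟨m, rfl⟩; exact hcross m 0⟩
  refine ⟨⨆ n, r n, fun n => ?_⟩
  have h1 : r (n + 1) < ⨆ n, r n := (hmono (Nat.lt_succ_self (n + 1))).trans_le (le_ciSup hbdd _)
  have h2 : (⨆ n, r n) ≤ R n := ciSup_le fun m => hcross m n
  have e1 : (p n : ℝ) = q n * r n := by
    simp only [hr]; field_simp [(hQ n).ne']
  have e2 : 1 / (q (n + 1) : ℝ) = q n * (1 / (q n * q (n + 1))) := by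
    have h1 := (hQ n).ne'
    have h2 := (hQ (n + 1)).ne'
    field_simp
  have e3 : 2 / (q (n + 1) : ℝ) = q n * (2 / (q n * q (n + 1))) := by
    have h1 := (hQ n).ne'
    have h2 := (hQ (n + 1)).ne'
    field_simp
  rw [e1, e2, e3, ← mul_sub]
  constructor
  · apply mul_lt_mul_of_pos_left _ (hQ n)
    rw [hstep] at h1
    linarith
  · apply mul_le_mul_of_nonneg_left _ (hQ n).le
    simp only [hR] at h2
    linarith

end conv

section main

variable {p q : ℕ → ℤ} (hp0 : p 0 = 0) (hq0 : q 0 = 1)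
  (hdet : ∀ n, p (n + 1) * q n - p n * q (n + 1) = 1) (hg : ∀ n, 4 * (q n + 10) < q (n + 1))
  {α : ℝ} (hα : ∀ n, 1 / (q (n + 1) : ℝ) < q n * α - p n ∧
    q n * α - p n ≤ 2 / (q (n + 1) : ℝ))

include hq0 hg hα in
lemma eps_pos (n : ℕ) : 0 < q n * α - p n := by
  have h1 : (0 : ℝ) < q (n + 1) := by exact_mod_cast q_pos hq0 hg (n + 1)
  exact (one_div_pos.mpr h1).trans (hα n).1

include hq0 hg hα in
lemma eps_small (n : ℕ) : 2 * q (n + 1) * (q (n + 1) * α - p (n + 1)) < 1 := by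
  have h1 : (0 : ℝ) < q (n + 1) := by exact_mod_cast q_pos hq0 hg (n + 1)
  have h2 : (0 : ℝ) < q (n + 1 + 1) := by exact_mod_cast q_pos hq0 hg (n + 2)
  have h3 : 4 * (q (n + 1) : ℝ) < q (n + 1 + 1) := by
    have := hg (n + 1)
    have h2 : 4 * q (n + 1) < q (n + 1 + 1) := by omega
    exact_mod_cast h2
  have h4 := (hα (n + 1)).2
  rw [le_div_iff₀ h2] at h4
  have h5 := eps_pos hq0 hg hα (n + 1)
  nlinarith

include hq0 hg hα in
lemma eps_anti (n : ℕ) : q (n + 1) * α - p (n + 1) < q n * α - p n := by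
  have h1 : (0 : ℝ) < q (n + 1) := by exact_mod_cast q_pos hq0 hg (n + 1)
  have h2 := eps_small hq0 hg hα n
  refine lt_of_lt_of_le ?_ (hα n).1.le
  rw [lt_div_iff₀ h1]
  have h5 := eps_pos hq0 hg hα (n + 1)
  nlinarith

include hq0 hdet hg hα in
lemma gst_floor (n : ℕ) {k : ℤ} (h1 : -q (n + 1) < k) (h2 : k < q (n + 1)) :
    gst (p n) (q n) k = ⌊k * α⌋ := by
  rw [← gst_level (q_pos hq0 hg n) (q_pos hq0 hg (n + 1)) (hdet n) h1 h2]
  have hq := q_pos hq0 hg (n + 1)
  have hQ : (0 : ℝ) < q (n + 1) := by exact_mod_cast hq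
  have h3 := eps_pos hq0 hg hα (n + 1)
  have h4 := eps_small hq0 hg hα n
  set P := p (n + 1)
  set Q := q (n + 1)
  set ε := (Q : ℝ) * α - P with hε
  have hk1 : -(Q : ℝ) < k := by exact_mod_cast h1
  have hk2 : (k : ℝ) < Q := by exact_mod_cast h2
  have h5 := Int.mul_ediv_add_emod (k * P - (if k < 0 then 1 else 0)) Q
  have h6 := Int.emod_nonneg (k * P - (if k < 0 then 1 else 0)) hq.ne'
  have h7 := Int.emod_lt_of_pos (k * P - (if k < 0 then 1 else 0)) hq
  have hgst : gst P Q k = (k * P - (if k < 0 then 1 else 0)) / Q := rfl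
  rw [← hgst] at h5
  set w := gst P Q k
  have h8 : (w : ℝ) * Q ≤ k * P - (if k < 0 then 1 else 0) := by
    have : w * Q ≤ k * P - (if k < 0 then 1 else 0) := by linarith
    exact_mod_cast this
  have h9 : (k : ℝ) * P - (if k < 0 then 1 else 0) ≤ (w + 1) * Q - 1 := by
    have : k * P - (if k < 0 then 1 else 0) ≤ (w + 1) * Q - 1 := by
      have : (w + 1) * Q = Q * w + Q := by ring
      omega
    exact_mod_cast this
  symm
  rw [Int.floor_eq_iff]
  have hkα : (k : ℝ) * α * Q = k * P + k * ε := by rw [hε]; ring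
  constructor
  · rw [← mul_le_mul_iff_of_pos_right hQ, hkα]
    split_ifs at h8 with hk
    · have : (-1 : ℝ) ≤ k * ε := by nlinarith
      linarith
    · have : (0 : ℝ) ≤ k := by exact_mod_cast not_lt.mp hk
      have : 0 ≤ (k : ℝ) * ε := by positivity
      linarith
  · rw [← mul_lt_mul_iff_of_pos_right hQ, hkα]
    split_ifs at h9 with hk
    · have : (k : ℝ) < 0 := by exact_mod_cast hk
      have : (k : ℝ) * ε < 0 := mul_neg_of_neg_of_pos this h3
      linarith
    · have : (k : ℝ) * ε < 1 := by nlinarith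
      linarith

include hq0 hg hα in
lemma eps_tendsto {δ : ℝ} (hδ : 0 < δ) : ∃ N : ℕ, ∀ n ≥ N, q n * α - p n < δ := by
  obtain ⟨N, hN⟩ := exists_nat_gt (2 / δ)
  refine ⟨N, fun n hn => ?_⟩
  have h1 : (0 : ℝ) < q (n + 1) := by exact_mod_cast q_pos hq0 hg (n + 1)
  have h2 : ((n + 1 : ℕ) : ℝ) + 1 ≤ q (n + 1) := by exact_mod_cast q_ge hq0 hg (n + 1)
  refine (hα n).2.trans_lt ?_
  rw [div_lt_iff₀ h1]
  rw [div_lt_iff₀ hδ] at hN
  have h3 : (N : ℝ) ≤ n := by exact_mod_cast hn
  push_cast at h2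
  nlinarith

include hq0 hg hα in
lemma alpha_irrational : Irrational α := by
  rintro ⟨r, hr⟩
  have hd : (0 : ℝ) < r.den := by exact_mod_cast r.den_pos
  obtain ⟨N, hN⟩ := eps_tendsto hq0 hg hα (one_div_pos.mpr hd)
  have h1 := hN N le_rfl
  have h2 := eps_pos hq0 hg hα N
  rw [lt_div_iff₀ hd] at h1
  have h3 : α * r.den = r.num := by
    rw [← hr]
    exact_mod_cast r.mul_den_eq_num
  have h4 : (q N * α - p N) * r.den = ((q N * r.num - p N * r.den : ℤ) : ℝ) := by
    push_cast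
    linear_combination (q N : ℝ) * h3
  have h5 : 0 < (q N * α - p N) * r.den := mul_pos h2 hd
  rw [h4] at h1 h5
  have h6 : (q N * r.num - p N * r.den : ℤ) < 1 := by exact_mod_cast h1
  have h7 : 0 < (q N * r.num - p N * r.den : ℤ) := by exact_mod_cast h5
  omega

end main

end Pool.Agent.Helper434.PSRot
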