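import Mathlib
import Pool.Agent.Helper434.PSRot
import Pool.Agent.Helper434.PSLim

set_option autoImplicit false

namespace Pool.Agent.Helper434.PSCode

open Pool.Agent.Helper434.PSStair Pool.Agent.Helper434.PSRot Pool.Agent.Helper434.PSMain
open Filter Topology

lemma floor_to_ceil {a : ℕ → ℝ} {Θ : ℝ} (hmono : Monotone a) (hlt : ∀ n, a n < Θ)
    (hsup : ∀ c < Θ, ∃ n, c < a n) (y : ℝ) : ∃ N : ℕ, ∀ n ≥ N, ⌊y + a n⌋ = ⌈y + Θ⌉ - 1 := by
  have h1 : (⌈y + Θ⌉ : ℝ) - 1 < y + Θ := by linarith [Int.ceil_lt_add_one (y + Θ)]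
  have h2 := Int.le_ceil (y + Θ)
  obtain ⟨N, hN⟩ := hsup (⌈y + Θ⌉ - 1 - y) (by linarith)
  refine ⟨N, fun n hn => ?_⟩
  have h3 := hmono hn
  have h4 := hlt n
  rw [Int.floor_eq_iff]
  push_cast
  constructor
  · linarith
  · linarith

section

variable {p q s t kap : ℕ → ℤ} {x : ℤ → ℤ}

theorem coding (hp0 : p 0 = 0) (hq0 : q 0 = 1) (hs0 : s 0 = 0) (ht0 : t 0 = 1) (hk0 : kap 0 = 0)
    (hdet : ∀ n, p (n + 1) * q n - p n * q (n + 1) = 1)
    (hgr : ∀ n, 4 * (q n + |s n| + |t n| + n + 10) < q (n + 1))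
    (hs : ∀ n, s (n + 1) = t n) (ht : ∀ n, t (n + 1) = s n + q (n + 1) - q n)
    (hk : ∀ n, kap (n + 1) = 1 - kap n)
    (hx : ∀ j : ℤ, ∀ n : ℕ, |j| ≤ n → xseq (p n) (q n) (s n) (t n) (kap n) j = x j) :
    ∃ α β θ : ℝ, Irrational α ∧ 0 < β ∧ β < 1 ∧
      (∀ j : ℤ, x j = ⌈j * α + θ⌉ - ⌈j * α + θ - β⌉) ∧
      (∀ n, 0 < q n * α - p n) ∧ (∀ n, q (n + 1) * α - p (n + 1) < q n * α - p n) ∧
      (∀ δ > 0, ∃ N : ℕ, ∀ n ≥ N, q n * α - p n < δ) := by
  have hg : ∀ n, 4 * (q n + 10) < q (n + 1) := fun n => by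
    have h1 := hgr n
    have h2 := abs_nonneg (s n)
    have h3 := abs_nonneg (t n)
    linarith
  obtain ⟨α, hα⟩ := exists_alpha hq0 hdet hg
  have hpos := eps_pos hq0 hg hα
  have hanti := eps_anti hq0 hg hα
  have hkap : ∀ n, kap n = 0 ∨ kap n = 1 := by
    intro n
    induction n with
    | zero => exact Or.inl hk0
    | succ n ih => rw [hk]; omega
  have hst : ∀ n, s n ≠ t n := by
    intro n
    cases n with
    | zero => rw [hs0, ht0]; norm_num
    | succ n =>
      rw [hs, ht]
      have h1 := hgr n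
      have h2 := neg_abs_le (s n)
      have h3 := le_abs_self (t n)
      have h4 := abs_nonneg (s n)
      have h5 := q_pos hq0 hg n
      intro h
      linarith [abs_nonneg (t n)]
  set u : ℕ → ℤ := fun n => (1 - kap n) * s n + kap n * t n with hu
  set v : ℕ → ℤ := fun n => kap n * s n + (1 - kap n) * t n with hv
  have hu' : ∀ n, u (n + 1) = u n + (1 - kap n) * (q (n + 1) - q n) := by
    intro n
    simp only [hu]
    rw [hk, hs, ht]
    rcases hkap n with h | h <;> rw [h] <;> ring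
  have hv' : ∀ n, v (n + 1) = v n + kap n * (q (n + 1) - q n) := by
    intro n
    simp only [hv]
    rw [hk, hs, ht]
    rcases hkap n with h | h <;> rw [h] <;> ring
  have hu0 : u 0 = 0 := by simp only [hu]; rw [hk0, hs0, ht0]; norm_num
  have hv0 : v 0 = 1 := by simp only [hv]; rw [hk0, hs0, ht0]; norm_num
  have huv : ∀ n, |u n| ≤ |s n| + |t n| ∧ |v n| ≤ |s n| + |t n| ∧ |v n - u n| ≤ |s n| + |t n| := by
    intro n
    have h1 := abs_nonneg (s n)
    have h2 := abs_nonneg (t n)
    simp only [hu, hv]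
    rcases hkap n with h | h <;> rw [h]
    · refine ⟨?_, ?_, ?_⟩
      · norm_num
      · norm_num
      · norm_num
        rw [add_comm]
        exact abs_sub _ _
    · refine ⟨?_, ?_, ?_⟩
      · norm_num
      · norm_num
      · norm_num
        exact abs_sub _ _
  set A : ℕ → ℤ := fun n => ∑ i ∈ Finset.range n, (1 - kap i) * (p (i + 1) - p i) with hA
  set B : ℕ → ℤ := fun n => ∑ i ∈ Finset.range n, kap i * (p (i + 1) - p i) with hB
  set a : ℕ → ℝ := fun n => A n - u n * α with ha
  set b : ℕ → ℝ := fun n => B n - v n * α with hb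
  set ε : ℕ → ℝ := fun n => q n * α - p n with hε
  have ha' : ∀ n, a (n + 1) = a n + (1 - kap n) * (ε n - ε (n + 1)) := by
    intro n
    simp only [ha, hε, hA]
    rw [Finset.sum_range_succ, hu']
    push_cast
    ring
  have hb' : ∀ n, b (n + 1) = b n + kap n * (ε n - ε (n + 1)) := by
    intro n
    simp only [hb, hε, hB]
    rw [Finset.sum_range_succ, hv']
    push_cast
    ring
  have hε0 : ε 0 = α := by simp only [hε]; rw [hp0, hq0]; norm_num
  have ha0 : a 0 = 0 := by simp only [ha, hA]; rw [hu0]; norm_num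
  have hb0 : b 0 = -α := by simp only [hb, hB]; rw [hv0]; norm_num
  have hkR : ∀ n, ((kap n : ℤ) : ℝ) = 0 ∨ ((kap n : ℤ) : ℝ) = 1 := fun n => by
    rcases hkap n with h | h
    · left; exact_mod_cast h
    · right; exact_mod_cast h
  have hdε : ∀ n, 0 < ε n - ε (n + 1) := fun n => sub_pos.mpr (hanti n)
  have ham : Monotone a := monotone_nat_of_le_succ fun n => by
    rw [ha']
    have := hdε n
    rcases hkR n with h | h <;> rw [h] <;> linarith
  have hbm : Monotone b := monotone_nat_of_le_succ fun n => by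
    rw [hb']
    have := hdε n
    rcases hkR n with h | h <;> rw [h] <;> linarith
  have hab : ∀ n, a n + b n = -ε n := by
    intro n
    induction n with
    | zero => rw [ha0, hb0, hε0]; ring
    | succ n ih =>
      rw [ha', hb']
      linear_combination ih
  have ha2 : ∀ n, a n < a (n + 2) := by
    intro n
    have h1 : a (n + 2) = a n + (1 - kap n) * (ε n - ε (n + 1)) +
        kap n * (ε (n + 1) - ε (n + 2)) := by
      rw [ha' (n + 1), ha' n, hk]
      push_cast
      ring
    rw [h1]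
    have := hdε n
    have := hdε (n + 1)
    rcases hkR n with h | h <;> rw [h] <;> linarith
  have hb2 : ∀ n, b n < b (n + 2) := by
    intro n
    have h1 : b (n + 2) = b n + kap n * (ε n - ε (n + 1)) +
        (1 - kap n) * (ε (n + 1) - ε (n + 2)) := by
      rw [hb' (n + 1), hb' n, hk]
      push_cast
      ring
    rw [h1]
    have := hdε n
    have := hdε (n + 1)
    rcases hkR n with h | h <;> rw [h] <;> linarith
  have han : ∀ n, 0 ≤ a n := fun n => by rw [← ha0]; exact ham (Nat.zero_le n)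
  have hbn : ∀ n, b n ≤ 0 := fun n => by
    have h1 := hab n
    have h2 := han n
    have h3 := hpos n
    simp only [hε] at h1
    linarith
  have hbl : ∀ n, -α ≤ b n := fun n => by rw [← hb0]; exact hbm (Nat.zero_le n)
  have hau : ∀ n, a n ≤ α := fun n => by
    have h1 := hab n
    have h2 := hbl n
    have h3 := hpos n
    simp only [hε] at h1
    linarith
  have hα1 : 2 * α < 1 := by
    have h1 := (hα 0).2
    have h2 := hgr 0
    rw [hp0, hq0] at h1
    rw [hq0] at h2
    have h3 : 40 < q (0 + 1) := by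
      have := abs_nonneg (s 0)
      have := abs_nonneg (t 0)
      push_cast at h2
      linarith
    have h4 : (40 : ℝ) < q (0 + 1) := by exact_mod_cast h3
    rw [le_div_iff₀ (by linarith)] at h1
    push_cast at h1
    nlinarith
  have hbdda : BddAbove (Set.range a) := ⟨α, by rintro _ ⟨n, rfl⟩; exact hau n⟩
  have hbddb : BddAbove (Set.range b) := ⟨0, by rintro _ ⟨n, rfl⟩; exact hbn n⟩
  set Θa := ⨆ n, a n with hΘa
  set Θb := ⨆ n, b n with hΘb
  have hal : ∀ n, a n < Θa := fun n => (ha2 n).trans_le (le_ciSup hbdda _)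
  have hbl' : ∀ n, b n < Θb := fun n => (hb2 n).trans_le (le_ciSup hbddb _)
  have hfa := floor_to_ceil ham hal (fun c hc => exists_lt_of_lt_ciSup hc)
  have hfb := floor_to_ceil hbm hbl' (fun c hc => exists_lt_of_lt_ciSup hc)
  have hΘa1 : Θa ≤ α := ciSup_le hau
  have hΘb1 : Θb ≤ 0 := ciSup_le hbn
  have hΘa2 : 0 < Θa := by rw [← ha0]; exact hal 0
  have hΘb2 : -α < Θb := by rw [← hb0]; exact hbl' 0
  refine ⟨α, Θa - Θb, Θa, alpha_irrational hq0 hg hα, by linarith, by linarith, ?_, hpos, hanti,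
    fun δ hδ => eps_tendsto hq0 hg hα hδ⟩
  intro j
  obtain ⟨Na, hNa⟩ := hfa (j * α)
  obtain ⟨Nb, hNb⟩ := hfb (j * α)
  set n := max j.natAbs (max Na Nb) with hn
  have hn1 : j.natAbs ≤ n := le_max_left _ _
  have hn2 : Na ≤ n := (le_max_left _ _).trans (le_max_right _ _)
  have hn3 : Nb ≤ n := (le_max_right _ _).trans (le_max_right _ _)
  have hjn : |j| ≤ n := by rw [← Int.natCast_natAbs]; exact_mod_cast hn1
  rw [← hx j n hjn]
  have hXX : xseq (p n) (q n) (s n) (t n) (kap n) j = XX (p n) (q n) (u n) (v n) j := by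
    unfold xseq
    simp only [hu, hv]
    rcases hkap n with h | h <;> rw [h]
    · simp
    · simp only [sub_self, zero_mul, one_mul, zero_add, add_zero]
      rw [XX_swap (q_pos hq0 hg n) (hst n)]
      ring
  rw [hXX]
  unfold XX
  obtain ⟨hu1, hv1, huv1⟩ := huv n
  have hgrn := hgr n
  have hqn := q_pos hq0 hg n
  have hj1 := abs_le.mp hjn
  have hu2 := abs_le.mp hu1
  have hv2 := abs_le.mp hv1
  have huv2 := abs_le.mp huv1
  have hs3 := abs_nonneg (s n)
  have ht3 := abs_nonneg (t n)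
  rw [gst_floor hq0 hdet hg hα n (by linarith) (by linarith),
    gst_floor hq0 hdet hg hα n (by linarith) (by linarith),
    gst_floor hq0 hdet hg hα n (by linarith) (by linarith)]
  have e1 : (((j - u n : ℤ) : ℝ)) * α = j * α + a n - A n := by
    simp only [ha]; push_cast; ring
  have e2 : (((j - v n : ℤ) : ℝ)) * α = j * α + b n - B n := by
    simp only [hb]; push_cast; ring
  have e3 : (((v n - u n : ℤ) : ℝ)) * α = (a n - b n) - ((A n - B n : ℤ) : ℝ) := by
    simp only [ha, hb]; push_cast; ring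
  rw [e1, e2, e3, Int.floor_sub_intCast, Int.floor_sub_intCast, Int.floor_sub_intCast,
    hNa n hn2, hNb n hn3]
  have e4 : ⌊a n - b n⌋ = 0 := by
    rw [Int.floor_eq_zero_iff]
    constructor
    · linarith [han n, hbn n]
    · linarith [hau n, hbl n]
  rw [e4]
  have e5 : (j : ℝ) * α + Θa - (Θa - Θb) = j * α + Θb := by ring
  rw [e5]
  ring

end

end Pool.Agent.Helper434.PSCode
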