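import Mathlib

set_option autoImplicit false

namespace Pool.Agent.Helper434.PSCplx

open ENNReal MeasureTheory Topology Filter ComplexConjugate

/-- complex square summable sequences -/
abbrev L2 : Type := lp (fun _ : ℤ => ℂ) 2

lemma two_pos : 0 < (2 : ℝ≥0∞).toReal := by norm_num

lemma summ (ψ : L2) : Summable fun m => ‖ψ m‖ ^ (2 : ℝ≥0∞).toReal :=
  (lp.memℓp ψ).summable two_pos

lemma mem_shift (ψ : L2) (a : ℤ) : Memℓp (fun m => ψ (m + a)) 2 := by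
  apply memℓp_gen
  exact (Equiv.addRight a).summable_iff.mpr (summ ψ)

/-- shift -/
noncomputable def SS (a : ℤ) : L2 →L[ℂ] L2 :=
  LinearMap.mkContinuous
    { toFun := fun ψ => ⟨fun m => ψ (m + a), mem_shift ψ a⟩
      map_add' := fun ψ χ => by ext m; rfl
      map_smul' := fun c ψ => by ext m; rfl } 1 (by
      intro ψ
      rw [one_mul]
      apply le_of_eq
      have h1 := lp.norm_rpow_eq_tsum (p := 2) two_pos ψ
      have h2 := lp.norm_rpow_eq_tsum (p := 2) two_pos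
        (⟨fun m => ψ (m + a), mem_shift ψ a⟩ : L2)
      have h3 : ∑' m, ‖ψ (m + a)‖ ^ (2 : ℝ≥0∞).toReal = ∑' m, ‖ψ m‖ ^ (2 : ℝ≥0∞).toReal :=
        (Equiv.addRight a).tsum_eq fun m => ‖ψ m‖ ^ (2 : ℝ≥0∞).toReal
      have h4 : ‖(⟨fun m => ψ (m + a), mem_shift ψ a⟩ : L2)‖ ^ (2 : ℝ≥0∞).toReal =
          ‖ψ‖ ^ (2 : ℝ≥0∞).toReal := by
        rw [h1, h2]; exact h3
      have h5 : (2 : ℝ≥0∞).toReal = ((2 : ℕ) : ℝ) := by norm_num
      rw [h5, Real.rpow_natCast, Real.rpow_natCast] at h4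
      exact (sq_eq_sq₀ (norm_nonneg _) (norm_nonneg _)).mp h4)

lemma SS_apply (a : ℤ) (ψ : L2) (m : ℤ) : SS a ψ m = ψ (m + a) := rfl

lemma mem_mul (v : ℤ → ℝ) {C : ℝ} (hv : ∀ m, |v m| ≤ C) (ψ : L2) :
    Memℓp (fun m => (v m : ℂ) * ψ m) 2 := by
  have hC : 0 ≤ C := (abs_nonneg _).trans (hv 0)
  apply memℓp_gen
  refine Summable.of_nonneg_of_le (fun m => by positivity) (fun m => ?_)
    ((summ ψ).mul_left (C ^ (2 : ℝ≥0∞).toReal))
  rw [norm_mul, Complex.norm_real, Real.norm_eq_abs, Real.mul_rpow (abs_nonneg _) (norm_nonneg _)]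
  apply mul_le_mul_of_nonneg_right _ (by positivity)
  exact Real.rpow_le_rpow (abs_nonneg _) (hv m) two_pos.le

/-- multiplication -/
noncomputable def MM (v : ℤ → ℝ) {C : ℝ} (hv : ∀ m, |v m| ≤ C) : L2 →L[ℂ] L2 :=
  LinearMap.mkContinuous
    { toFun := fun ψ => ⟨fun m => (v m : ℂ) * ψ m, mem_mul v hv ψ⟩
      map_add' := fun ψ χ => by
        ext m
        change (v m : ℂ) * (ψ + χ) m = (v m : ℂ) * ψ m + (v m : ℂ) * χ m
        rw [lp.coeFn_add, Pi.add_apply]; ring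
      map_smul' := fun c ψ => by
        ext m
        change (v m : ℂ) * (c • ψ) m = c * ((v m : ℂ) * ψ m)
        rw [lp.coeFn_smul, Pi.smul_apply, smul_eq_mul]; ring } C (by
      intro ψ
      have hC : 0 ≤ C := (abs_nonneg _).trans (hv 0)
      apply lp.norm_le_of_forall_sum_le two_pos (by positivity)
      intro s
      rw [Real.mul_rpow hC (norm_nonneg _)]
      calc ∑ m ∈ s, ‖(v m : ℂ) * ψ m‖ ^ (2 : ℝ≥0∞).toReal
          ≤ ∑ m ∈ s, C ^ (2 : ℝ≥0∞).toReal * ‖ψ m‖ ^ (2 : ℝ≥0∞).toReal := by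
            apply Finset.sum_le_sum
            intro m _
            rw [norm_mul, Complex.norm_real, Real.norm_eq_abs,
              Real.mul_rpow (abs_nonneg _) (norm_nonneg _)]
            apply mul_le_mul_of_nonneg_right _ (by positivity)
            exact Real.rpow_le_rpow (abs_nonneg _) (hv m) two_pos.le
        _ = C ^ (2 : ℝ≥0∞).toReal * ∑ m ∈ s, ‖ψ m‖ ^ (2 : ℝ≥0∞).toReal := by
            rw [Finset.mul_sum]
        _ ≤ C ^ (2 : ℝ≥0∞).toReal * ‖ψ‖ ^ (2 : ℝ≥0∞).toReal := by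
            apply mul_le_mul_of_nonneg_left _ (by positivity)
            exact lp.sum_rpow_le_norm_rpow two_pos ψ s)

lemma MM_apply (v : ℤ → ℝ) {C : ℝ} (hv : ∀ m, |v m| ≤ C) (ψ : L2) (m : ℤ) :
    MM v hv ψ m = (v m : ℂ) * ψ m := rfl

lemma inner_eq (ψ χ : L2) : inner ℂ ψ χ = ∑' m, conj (ψ m) * χ m := by
  rw [lp.inner_eq_tsum]
  congr 1
  ext m
  rw [RCLike.inner_apply, mul_comm]

lemma SS_adj (a : ℤ) (ψ χ : L2) : inner ℂ (SS a ψ) χ = inner ℂ ψ (SS (-a) χ) := by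
  rw [inner_eq, inner_eq, ← (Equiv.addRight (-a)).tsum_eq fun m => conj (SS a ψ m) * χ m]
  congr 1
  ext m
  simp only [Equiv.coe_addRight, SS_apply]
  rw [neg_add_cancel_right]

lemma MM_adj (v : ℤ → ℝ) {C : ℝ} (hv : ∀ m, |v m| ≤ C) (ψ χ : L2) :
    inner ℂ (MM v hv ψ) χ = inner ℂ ψ (MM v hv χ) := by
  rw [inner_eq, inner_eq]
  congr 1
  ext m
  rw [MM_apply, MM_apply, map_mul, Complex.conj_ofReal]
  ring

lemma exists_H (v : ℤ → ℝ) {C : ℝ} (hv : ∀ m, |v m| ≤ C) :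
    ∃ H : L2 →L[ℂ] L2, (∀ (ψ : L2) (m : ℤ), H ψ m = ψ (m + 1) + ψ (m - 1) + (v m : ℂ) * ψ m) ∧
      IsSelfAdjoint H := by
  refine ⟨SS 1 + SS (-1) + MM v hv, ?_, ?_⟩
  · intro ψ m
    rfl
  · rw [ContinuousLinearMap.isSelfAdjoint_iff_isSymmetric]
    intro ψ χ
    change inner ℂ (SS 1 ψ + SS (-1) ψ + MM v hv ψ) χ = inner ℂ ψ (SS 1 χ + SS (-1) χ + MM v hv χ)
    rw [inner_add_left, inner_add_left, inner_add_right, inner_add_right, SS_adj, SS_adj, MM_adj,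
      neg_neg]
    ring

section hilbert

variable {X : Type*} [NormedAddCommGroup X] [InnerProductSpace ℂ X] [CompleteSpace X]

omit [CompleteSpace X] in
lemma mem_spectrum {H : X →L[ℂ] X} {E : ℝ} {ψ : X} (h0 : ψ ≠ 0) (h : H ψ = (E : ℂ) • ψ) :
    E ∈ spectrum ℝ H := by
  intro hu
  rw [spectrum.mem_resolventSet_iff] at hu
  obtain ⟨u, hu⟩ := hu
  have h1 : (algebraMap ℝ (X →L[ℂ] X) E - H) ψ = 0 := by
    rw [sub_apply, h]
    have : algebraMap ℝ (X →L[ℂ] X) E = E • (1 : X →L[ℂ] X) := Algebra.algebraMap_eq_smul_one E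
    rw [this, smul_apply, one_apply_eq_self]
    rw [show (E : ℂ) • ψ = E • ψ from (RCLike.real_smul_eq_coe_smul (K := ℂ) E ψ).symm, sub_self]
  rw [← hu] at h1
  have h2 : ((↑u⁻¹ : X →L[ℂ] X) * (u : X →L[ℂ] X)) ψ = ψ := by
    rw [Units.inv_mul, one_apply_eq_self]
  rw [mul_apply_eq_comp, h1, map_zero] at h2
  exact h0 h2.symm

lemma cfcHom_eigen {H : X →L[ℂ] X} (hH : IsSelfAdjoint H) {E : ℝ} {ψ : X} (h0 : ψ ≠ 0)
    (h : H ψ = (E : ℂ) • ψ) (f : C(spectrum ℝ H, ℝ)) :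
    (cfcHom (R := ℝ) hH f) ψ = ((f ⟨E, mem_spectrum h0 h⟩ : ℝ) : ℂ) • ψ := by
  have hcs : CompactSpace (spectrum ℝ H) := isCompact_iff_compactSpace.mp (spectrum.isCompact H)
  induction f using ContinuousMap.induction_on_of_compact with
  | const r =>
    have e : cfcHom (R := ℝ) hH (ContinuousMap.const (spectrum ℝ H) r) =
        algebraMap ℝ (X →L[ℂ] X) r := AlgHomClass.commutes (cfcHom (R := ℝ) hH) r
    rw [e, Algebra.algebraMap_eq_smul_one, smul_apply,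
      one_apply_eq_self, ContinuousMap.const_apply]
    exact RCLike.real_smul_eq_coe_smul (K := ℂ) r ψ
  | id =>
    have e := cfcHom_id (R := ℝ) hH
    rw [e, h]
    rfl
  | star_id =>
    have e := cfcHom_id (R := ℝ) hH
    have e2 : star (ContinuousMap.restrict (spectrum ℝ H) (ContinuousMap.id ℝ)) =
        ContinuousMap.restrict (spectrum ℝ H) (ContinuousMap.id ℝ) := by
      ext y; simp
    rw [e2, e, h]
    rfl
  | add f g hf hg =>
    rw [map_add, add_apply, hf, hg, ContinuousMap.add_apply, ← add_smul]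
    push_cast
    rfl
  | mul f g hf hg =>
    rw [map_mul, mul_apply_eq_comp, hg, map_smul, hf, ContinuousMap.mul_apply,
      smul_smul]
    push_cast
    rw [mul_comm]
  | frequently f hf =>
    have hc1 : Continuous fun g : C(spectrum ℝ H, ℝ) => (cfcHom (R := ℝ) hH g) ψ := by
      have h1 := cfcHom_continuous (R := ℝ) hH
      exact (ContinuousLinearMap.apply ℂ X ψ).continuous.comp h1
    have hc2 : Continuous fun g : C(spectrum ℝ H, ℝ) =>
        ((g ⟨E, mem_spectrum h0 h⟩ : ℝ) : ℂ) • ψ :=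
      (Complex.continuous_ofReal.comp (ContinuousEvalConst.continuous_eval_const _)).smul
        continuous_const
    have hcl : IsClosed {g : C(spectrum ℝ H, ℝ) | (cfcHom (R := ℝ) hH g) ψ =
        ((g ⟨E, mem_spectrum h0 h⟩ : ℝ) : ℂ) • ψ} := isClosed_eq hc1 hc2
    have hmem : f ∈ closure {g : C(spectrum ℝ H, ℝ) | (cfcHom (R := ℝ) hH g) ψ =
        ((g ⟨E, mem_spectrum h0 h⟩ : ℝ) : ℂ) • ψ} := mem_closure_iff_frequently.mpr hf
    rw [hcl.closure_eq] at hmem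
    exact hmem

theorem cfc_eigen {H : X →L[ℂ] X} (hH : IsSelfAdjoint H) {E : ℝ} {ψ : X} (h0 : ψ ≠ 0)
    (h : H ψ = (E : ℂ) • ψ) (f : ℝ → ℝ) (hf : Continuous f) :
    (cfc f H) ψ = ((f E : ℝ) : ℂ) • ψ := by
  rw [cfc_apply f H hH hf.continuousOn, cfcHom_eigen hH h0 h]
  rfl

theorem inner_cfc {H : X →L[ℂ] X} (hH : IsSelfAdjoint H) {E : ℝ} {ψ : X} (h0 : ψ ≠ 0)
    (h : H ψ = (E : ℂ) • ψ) (f : ℝ → ℝ) (hf : Continuous f) :
    inner ℂ ψ (cfc f H ψ) = ((‖ψ‖ ^ 2 * f E : ℝ) : ℂ) := by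
  rw [cfc_eigen hH h0 h f hf, inner_smul_right, inner_self_eq_norm_sq_to_K]
  push_cast
  rw [mul_comm]
  rfl

end hilbert

end Pool.Agent.Helper434.PSCplx
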