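import Mathlib

set_option autoImplicit false

namespace Pool.Agent.Helper434.TMBasis

open Complex ComplexConjugate MeasureTheory Metric Set

variable (a : ℕ → ℂ)

/-- elementary inner factor of degree two -/
noncomputable def bl (j : ℕ) (z : ℂ) : ℂ := z * ((z - a j) / (1 - conj (a j) * z))
/-- the normalising constant -/
noncomputable def sc (j : ℕ) : ℂ := (Real.sqrt (1 - ‖a j‖ ^ 2) : ℝ)
/-- the resonator function -/
noncomputable def kk (j : ℕ) (z : ℂ) : ℂ := z * (sc a j / (1 - conj (a j) * z))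
/-- product of the first inner factors -/
noncomputable def Ph (j : ℕ) (z : ℂ) : ℂ := ∏ i ∈ Finset.range j, bl a i z
/-- the basis functions with nonnegative index -/
noncomputable def gN (m : ℕ) (z : ℂ) : ℂ :=
  Ph a (m / 2) z * (if m % 2 = 0 then 1 else kk a (m / 2) z)
/-- the basis functions -/
noncomputable def g (m : ℤ) (z : ℂ) : ℂ :=
  match m with
  | Int.ofNat k => gN a k z
  | Int.negSucc k => z⁻¹ ^ (k + 1)

lemma g_nat (k : ℕ) (z : ℂ) : g a (k : ℤ) z = gN a k z := rfl
lemma g_neg (k : ℕ) (z : ℂ) : g a (Int.negSucc k) z = z⁻¹ ^ (k + 1) := rfl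

lemma gN_even (j : ℕ) (z : ℂ) : gN a (2 * j) z = Ph a j z := by
  unfold gN
  have h1 : 2 * j / 2 = j := by omega
  have h2 : 2 * j % 2 = 0 := by omega
  rw [h1, if_pos h2, mul_one]

lemma gN_odd (j : ℕ) (z : ℂ) : gN a (2 * j + 1) z = Ph a j z * kk a j z := by
  unfold gN
  have h1 : (2 * j + 1) / 2 = j := by omega
  have h2 : ¬ (2 * j + 1) % 2 = 0 := by omega
  rw [h1, if_neg h2]

lemma Ph_succ (j : ℕ) (z : ℂ) : Ph a (j + 1) z = Ph a j z * bl a j z := by
  unfold Ph; rw [Finset.prod_range_succ]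

variable {a} (ha : ∀ j, ‖a j‖ < 1)

include ha in
lemma den_ne {z : ℂ} (hz : ‖z‖ ≤ 1) (j : ℕ) : 1 - conj (a j) * z ≠ 0 := by
  intro h
  have h1 : conj (a j) * z = 1 := by linear_combination -h
  have h2 : ‖conj (a j) * z‖ = 1 := by rw [h1, norm_one]
  rw [norm_mul, RCLike.norm_conj] at h2
  have h3 := ha j
  nlinarith [norm_nonneg (a j), norm_nonneg z]

include ha in
lemma sc_sq (j : ℕ) : sc a j * sc a j = 1 - a j * conj (a j) := by
  unfold sc
  rw [← ofReal_mul, Real.mul_self_sqrt, mul_conj, normSq_eq_norm_sq]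
  · push_cast; ring
  · nlinarith [ha j, norm_nonneg (a j)]

lemma sc_conj (j : ℕ) : conj (sc a j) = sc a j := conj_ofReal _

lemma z_ne {z : ℂ} (hz : ‖z‖ = 1) : z ≠ 0 := by
  intro h; rw [h, norm_zero] at hz; exact zero_ne_one hz

lemma z_conj {z : ℂ} (hz : ‖z‖ = 1) : conj z = z⁻¹ := (inv_eq_conj hz).symm

include ha in
lemma mulz (k : ℤ) : ∃ c0 c1 c2 : ℂ, ∀ z : ℂ, ‖z‖ = 1 →
    z * g a k z = c0 * g a k z + c1 * g a (k + 1) z + c2 * g a (k + 2) z := by
  rcases k with k | k
  · rcases Nat.even_or_odd' k with ⟨j, rfl | rfl⟩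
    · refine ⟨0, sc a j, -conj (a j), fun z hz => ?_⟩
      have e1 : (Int.ofNat (2 * j) : ℤ) + 1 = ((2 * j + 1 : ℕ) : ℤ) := by simp
      have e2 : (Int.ofNat (2 * j) : ℤ) + 2 = ((2 * (j + 1) : ℕ) : ℤ) := by simp; ring
      have e0 : (Int.ofNat (2 * j) : ℤ) = ((2 * j : ℕ) : ℤ) := rfl
      rw [e1, e2, e0, g_nat, g_nat, g_nat, gN_even, gN_odd, gN_even, Ph_succ]
      have hd := den_ne ha hz.le j
      have hs := sc_sq ha j
      unfold kk bl
      obtain ⟨d, hdd⟩ : ∃ d, d = 1 - conj (a j) * z := ⟨_, rfl⟩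
      rw [← hdd] at hd ⊢
      field_simp
      linear_combination (Ph a j z * z) * hdd - (Ph a j z * z) * hs
    · refine ⟨a j, sc a j, 0, fun z hz => ?_⟩
      have e1 : (Int.ofNat (2 * j + 1) : ℤ) + 1 = ((2 * (j + 1) : ℕ) : ℤ) := by simp; ring
      have e0 : (Int.ofNat (2 * j + 1) : ℤ) = ((2 * j + 1 : ℕ) : ℤ) := rfl
      rw [e1, e0, g_nat, g_nat, gN_odd, gN_even, Ph_succ]
      have hd := den_ne ha hz.le j
      unfold kk bl
      field_simp
      ring
  · refine ⟨0, 1, 0, fun z hz => ?_⟩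
    have hz0 := z_ne hz
    rcases k with _ | k
    · have e1 : Int.negSucc 0 + 1 = ((2 * 0 : ℕ) : ℤ) := by simp
      rw [e1, g_nat, g_neg, gN_even]
      simp [Ph, hz0]
    · have e1 : Int.negSucc (k + 1) + 1 = Int.negSucc k := by
        rw [Int.negSucc_eq, Int.negSucc_eq]; push_cast; ring
      rw [e1, g_neg, g_neg, pow_succ]
      field_simp
      ring

include ha in
lemma mulzinv (k : ℤ) : ∃ c0 c1 c2 : ℂ, ∀ z : ℂ, ‖z‖ = 1 →
    z⁻¹ * g a k z = c0 * g a k z + c1 * g a (k - 1) z + c2 * g a (k - 2) z := by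
  rcases k with k | k
  · rcases Nat.even_or_odd' k with ⟨j, rfl | rfl⟩
    · rcases j with _ | j
      · refine ⟨0, 1, 0, fun z hz => ?_⟩
        have hz0 := z_ne hz
        have e1 : (Int.ofNat (2 * 0) : ℤ) - 1 = Int.negSucc 0 := by simp
        have e0 : (Int.ofNat (2 * 0) : ℤ) = ((2 * 0 : ℕ) : ℤ) := rfl
        rw [e1, e0, g_nat, g_neg, gN_even]
        simp [Ph]
      · refine ⟨0, sc a j, -a j, fun z hz => ?_⟩
        have hz0 := z_ne hz
        have e1 : (Int.ofNat (2 * (j + 1)) : ℤ) - 1 = ((2 * j + 1 : ℕ) : ℤ) := by simp; ring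
        have e2 : (Int.ofNat (2 * (j + 1)) : ℤ) - 2 = ((2 * j : ℕ) : ℤ) := by simp; ring
        have e0 : (Int.ofNat (2 * (j + 1)) : ℤ) = ((2 * (j + 1) : ℕ) : ℤ) := rfl
        rw [e1, e2, e0, g_nat, g_nat, g_nat, gN_even, gN_odd, gN_even, Ph_succ]
        have hd := den_ne ha hz.le j
        have hs := sc_sq ha j
        unfold kk bl
        obtain ⟨d, hdd⟩ : ∃ d, d = 1 - conj (a j) * z := ⟨_, rfl⟩
        rw [← hdd] at hd ⊢
        field_simp
        linear_combination (Ph a j z * a j) * hdd - (Ph a j z * z) * hs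
    · refine ⟨conj (a j), sc a j, 0, fun z hz => ?_⟩
      have hz0 := z_ne hz
      have e1 : (Int.ofNat (2 * j + 1) : ℤ) - 1 = ((2 * j : ℕ) : ℤ) := by simp
      have e0 : (Int.ofNat (2 * j + 1) : ℤ) = ((2 * j + 1 : ℕ) : ℤ) := rfl
      rw [e1, e0, g_nat, g_nat, gN_odd, gN_even]
      have hd := den_ne ha hz.le j
      unfold kk
      obtain ⟨d, hdd⟩ : ∃ d, d = 1 - conj (a j) * z := ⟨_, rfl⟩
      rw [← hdd] at hd ⊢
      field_simp
      linear_combination (-(Ph a j z * sc a j)) * hdd
  · refine ⟨0, 1, 0, fun z hz => ?_⟩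
    have e1 : Int.negSucc k - 1 = Int.negSucc (k + 1) := by
      rw [Int.negSucc_eq, Int.negSucc_eq]; push_cast; ring
    rw [e1, g_neg, g_neg, pow_succ _ (k + 1)]
    ring

/-- product of the inner factors between two indices -/
noncomputable def Qp (a : ℕ → ℂ) (j i : ℕ) (z : ℂ) : ℂ := ∏ r ∈ Finset.Ico j i, bl a r z

include ha in
lemma bl_diff (j : ℕ) : DifferentiableOn ℂ (bl a j) (closedBall 0 1) := by
  intro z hz
  have hd := den_ne ha (by simpa using hz) j
  unfold bl
  apply DifferentiableAt.differentiableWithinAt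
  refine DifferentiableAt.fun_mul differentiableAt_id (DifferentiableAt.fun_div ?_ ?_ hd)
  · fun_prop
  · fun_prop

include ha in
lemma kk_diff (j : ℕ) : DifferentiableOn ℂ (kk a j) (closedBall 0 1) := by
  intro z hz
  have hd := den_ne ha (by simpa using hz) j
  unfold kk
  apply DifferentiableAt.differentiableWithinAt
  refine DifferentiableAt.fun_mul differentiableAt_id (DifferentiableAt.fun_div ?_ ?_ hd)
  · fun_prop
  · fun_prop

include ha in
lemma Qp_diff (j i : ℕ) : DifferentiableOn ℂ (Qp a j i) (closedBall 0 1) := by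
  unfold Qp
  exact DifferentiableOn.fun_finsetProd fun r _ => bl_diff ha r

lemma Ph_mul_Qp {j i : ℕ} (h : j ≤ i) (z : ℂ) : Ph a i z = Ph a j z * Qp a j i z := by
  unfold Ph Qp
  rw [Finset.prod_range_mul_prod_Ico _ h]

lemma Qp_self (j : ℕ) (z : ℂ) : Qp a j j z = 1 := by simp [Qp]

lemma Qp_first {j i : ℕ} (h : j < i) (z : ℂ) : Qp a j i z = bl a j z * Qp a (j + 1) i z := by
  unfold Qp
  rw [Finset.prod_eq_prod_Ico_succ_bot h]

lemma bl_zero (j : ℕ) : bl a j 0 = 0 := by simp [bl]
lemma kk_zero (j : ℕ) : kk a j 0 = 0 := by simp [kk]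

include ha in
lemma bl_norm {z : ℂ} (hz : ‖z‖ = 1) (j : ℕ) : conj (bl a j z) * bl a j z = 1 := by
  have hd := den_ne ha hz.le j
  have hz0 := z_ne hz
  have hd2 : z - a j ≠ 0 := by
    intro h
    have : z = a j := by linear_combination h
    rw [this] at hz
    exact absurd hz (ha j).ne
  unfold bl
  simp only [map_mul, map_div₀, map_sub, map_one, conj_conj, z_conj hz]
  have hd3 : 1 - a j * z⁻¹ ≠ 0 := by
    intro h
    apply hd2
    field_simp at h
    linear_combination h
  obtain ⟨d, hdd⟩ : ∃ d, d = 1 - conj (a j) * z := ⟨_, rfl⟩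
  obtain ⟨d', hdd'⟩ : ∃ d', d' = 1 - a j * z⁻¹ := ⟨_, rfl⟩
  have e1 : z⁻¹ - conj (a j) = z⁻¹ * d := by rw [hdd]; field_simp
  have e2 : z - a j = z * d' := by rw [hdd']; field_simp
  rw [← hdd, ← hdd', e1, e2]
  rw [← hdd] at hd
  rw [← hdd'] at hd3
  field_simp

include ha in
lemma Ph_norm {z : ℂ} (hz : ‖z‖ = 1) (j : ℕ) : conj (Ph a j z) * Ph a j z = 1 := by
  induction j with
  | zero => simp [Ph]
  | succ j ih =>
    rw [Ph_succ, map_mul]
    have := bl_norm ha hz j
    linear_combination (conj (bl a j z) * bl a j z) * ih + this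

include ha in
lemma kk_bl {z : ℂ} (hz : ‖z‖ = 1) (j : ℕ) : conj (kk a j z) * bl a j z = kk a j z := by
  have hd := den_ne ha hz.le j
  have hz0 := z_ne hz
  have hd2 : z - a j ≠ 0 := by
    intro h
    have : z = a j := by linear_combination h
    rw [this] at hz
    exact absurd hz (ha j).ne
  unfold bl kk
  simp only [map_mul, map_div₀, map_sub, map_one, conj_conj, z_conj hz, sc_conj]
  have hd3 : 1 - a j * z⁻¹ ≠ 0 := by
    intro h
    apply hd2
    field_simp at h
    linear_combination h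
  obtain ⟨d, hdd⟩ : ∃ d, d = 1 - conj (a j) * z := ⟨_, rfl⟩
  obtain ⟨d', hdd'⟩ : ∃ d', d' = 1 - a j * z⁻¹ := ⟨_, rfl⟩
  have e2 : z - a j = z * d' := by rw [hdd']; field_simp
  rw [← hdd, ← hdd', e2]
  rw [← hdd] at hd
  rw [← hdd'] at hd3
  field_simp

lemma closure_ball_sub : closure (ball (0 : ℂ) 1) ⊆ closedBall 0 1 := closure_ball_subset_closedBall

include ha in
/-- products of distinct basis functions are boundary values of analytic functions vanishing
at the origin -/
lemma orth_lt (k l : ℤ) (h : k < l) : ∃ F : ℂ → ℂ, DiffContOnCl ℂ F (ball 0 1) ∧ F 0 = 0 ∧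
    ∀ z : ℂ, ‖z‖ = 1 → conj (g a k z) * g a l z = F z := by
  have key : ∀ F : ℂ → ℂ, DifferentiableOn ℂ F (closedBall 0 1) → DiffContOnCl ℂ F (ball 0 1) :=
    fun F hF => (hF.mono closure_ball_sub).diffContOnCl
  have last : ∀ i : ℕ, DifferentiableOn ℂ (fun z => if i % 2 = 0 then (1 : ℂ) else kk a (i / 2) z)
      (closedBall 0 1) := by
    intro i
    split_ifs
    · exact differentiableOn_const _
    · exact kk_diff ha _
  rcases l with l | l
  · rcases k with k | k
    · have hkl : k < l := by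
        have : (k : ℤ) < (l : ℤ) := h
        exact_mod_cast this
      rcases Nat.even_or_odd' k with ⟨j, rfl | rfl⟩
      · -- even
        rcases Nat.lt_or_ge (2 * j + 1) l with hl | hl
        · -- later block
          have hlt : j < l / 2 := by omega
          refine ⟨fun z => Qp a j (l / 2) z * (if l % 2 = 0 then (1 : ℂ) else kk a (l / 2) z),
            key _ ((Qp_diff ha _ _).fun_mul (last l)), ?_, fun z hz => ?_⟩
          · beta_reduce; rw [Qp_first hlt, bl_zero]; simp
          · have e0 : (Int.ofNat (2 * j) : ℤ) = ((2 * j : ℕ) : ℤ) := rfl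
            rw [e0, g_nat, gN_even]
            change conj (Ph a j z) * gN a l z = _
            unfold gN
            rw [Ph_mul_Qp hlt.le]
            have := Ph_norm ha hz j
            linear_combination (Qp a j (l / 2) z *
              (if l % 2 = 0 then (1 : ℂ) else kk a (l / 2) z)) * this
        · have hl' : l = 2 * j + 1 := by omega
          subst hl'
          refine ⟨kk a j, key _ (kk_diff ha j), kk_zero j, fun z hz => ?_⟩
          have e0 : (Int.ofNat (2 * j) : ℤ) = ((2 * j : ℕ) : ℤ) := rfl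
          have e1 : (Int.ofNat (2 * j + 1) : ℤ) = ((2 * j + 1 : ℕ) : ℤ) := rfl
          rw [e0, e1, g_nat, g_nat, gN_even, gN_odd]
          have := Ph_norm ha hz j
          linear_combination (kk a j z) * this
      · -- odd
        have hlt : j < l / 2 := by omega
        refine ⟨fun z => kk a j z * Qp a (j + 1) (l / 2) z *
          (if l % 2 = 0 then (1 : ℂ) else kk a (l / 2) z),
            key _ (((kk_diff ha j).fun_mul (Qp_diff ha _ _)).fun_mul (last l)), ?_, fun z hz => ?_⟩
        · beta_reduce; rw [kk_zero]; simp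
        · have e0 : (Int.ofNat (2 * j + 1) : ℤ) = ((2 * j + 1 : ℕ) : ℤ) := rfl
          rw [e0, g_nat, gN_odd]
          change conj (Ph a j z * kk a j z) * gN a l z = _
          unfold gN
          rw [Ph_mul_Qp hlt.le, Qp_first hlt, map_mul]
          have h1 := Ph_norm ha hz j
          have h2 := kk_bl ha hz j
          linear_combination (Qp a (j + 1) (l / 2) z *
              (if l % 2 = 0 then (1 : ℂ) else kk a (l / 2) z)) *
              ((conj (kk a j z) * bl a j z) * h1 + h2)
    · -- k negative, l nonnegative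
      refine ⟨fun z => z ^ (k + 1) * (Qp a 0 (l / 2) z *
        (if l % 2 = 0 then (1 : ℂ) else kk a (l / 2) z)),
        key _ ((differentiableOn_pow _).fun_mul ((Qp_diff ha _ _).fun_mul (last l))), ?_,
        fun z hz => ?_⟩
      · simp
      · rw [g_neg]
        change conj (z⁻¹ ^ (k + 1)) * gN a l z = _
        unfold gN
        rw [Ph_mul_Qp (Nat.zero_le _), map_pow, map_inv₀, z_conj hz, inv_inv]
        simp [Ph]
  · rcases k with k | k
    · exfalso
      have h1 : Int.negSucc l < 0 := Int.negSucc_lt_zero l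
      have h2 : (0 : ℤ) ≤ Int.ofNat k := Int.natCast_nonneg k
      omega
    · -- both negative
      have hkl : l < k := by
        rw [Int.negSucc_eq, Int.negSucc_eq] at h
        omega
      obtain ⟨r, rfl⟩ : ∃ r, k = l + 1 + r := ⟨k - (l + 1), by omega⟩
      refine ⟨fun z => z ^ (r + 1), key _ (differentiableOn_pow _), by simp, fun z hz => ?_⟩
      have hz0 := z_ne hz
      rw [g_neg, g_neg, map_pow, map_inv₀, z_conj hz, inv_inv]
      have : z ^ (l + 1 + r + 1) = z ^ (l + 1) * z ^ (r + 1) := by rw [← pow_add]; congr 1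
      rw [this, inv_pow]
      field_simp

include ha in
/-- the diagonal products -/
lemma norm_diag (k : ℤ) : ∃ F : ℂ → ℂ, DiffContOnCl ℂ F (ball 0 1) ∧ F 0 = 1 ∧
    ∀ z : ℂ, ‖z‖ = 1 → conj (g a k z) * g a k z = F z + conj (F z) - 1 := by
  have one : ∀ z : ℂ, ((1 : ℂ) = (fun _ : ℂ => (1 : ℂ)) z + conj ((fun _ : ℂ => (1 : ℂ)) z) - 1) := by
    intro z; simp
  rcases k with k | k
  · rcases Nat.even_or_odd' k with ⟨j, rfl | rfl⟩
    · refine ⟨fun _ => 1, diffContOnCl_const, rfl, fun z hz => ?_⟩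
      have e0 : (Int.ofNat (2 * j) : ℤ) = ((2 * j : ℕ) : ℤ) := rfl
      rw [e0, g_nat, gN_even, Ph_norm ha hz]
      exact one z
    · refine ⟨fun z => 1 / (1 - conj (a j) * z), ?_, by simp, fun z hz => ?_⟩
      · apply DifferentiableOn.diffContOnCl
        intro z hz
        have hd := den_ne ha (by simpa using closure_ball_sub hz) j
        apply DifferentiableAt.differentiableWithinAt
        refine DifferentiableAt.fun_div (differentiableAt_const _) (by fun_prop) hd
      · have e0 : (Int.ofNat (2 * j + 1) : ℤ) = ((2 * j + 1 : ℕ) : ℤ) := rfl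
        rw [e0, g_nat, gN_odd, map_mul]
        have h1 := Ph_norm ha hz j
        have hd := den_ne ha hz.le j
        have hz0 := z_ne hz
        have hs := sc_sq ha j
        have h2 : conj (kk a j z) * kk a j z = 1 / (1 - conj (a j) * z) +
            conj (1 / (1 - conj (a j) * z)) - 1 := by
          unfold kk
          simp only [map_mul, map_div₀, map_sub, map_one, conj_conj, z_conj hz, sc_conj]
          have hd2 : z - a j ≠ 0 := by
            intro h
            have : z = a j := by linear_combination h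
            rw [this] at hz
            exact absurd hz (ha j).ne
          have hd3 : 1 - a j * z⁻¹ ≠ 0 := by
            intro h
            apply hd2
            field_simp at h
            linear_combination h
          obtain ⟨d, hdd⟩ : ∃ d, d = 1 - conj (a j) * z := ⟨_, rfl⟩
          obtain ⟨d', hdd'⟩ : ∃ d', d' = 1 - a j * z⁻¹ := ⟨_, rfl⟩
          rw [← hdd, ← hdd']
          rw [← hdd] at hd
          rw [← hdd'] at hd3
          have hzz : z * z⁻¹ = 1 := mul_inv_cancel₀ hz0
          field_simp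
          have e3 : d * d' = d + d' - 1 + a j * conj (a j) := by
            rw [hdd, hdd']
            linear_combination (a j * conj (a j)) * hzz
          linear_combination hs + e3
        linear_combination (conj (kk a j z) * kk a j z) * h1 + h2
  · refine ⟨fun _ => 1, diffContOnCl_const, rfl, fun z hz => ?_⟩
    have hz0 := z_ne hz
    rw [g_neg, map_pow, map_inv₀, z_conj hz, inv_inv, ← one z, inv_pow]
    field_simp

end Pool.Agent.Helper434.TMBasis
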