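import Mathlib
import Pool.Agent.Helper434.TMBasis

set_option autoImplicit false

namespace Pool.Agent.Helper434.TMCircle

open MeasureTheory AddCircle Complex ComplexConjugate Metric Set
open Pool.Agent.Helper434.TMBasis

/-- the circle -/
abbrev TT : Type := AddCircle (2 * Real.pi)

instance fpi : Fact (0 < 2 * Real.pi) := ⟨Real.two_pi_pos⟩

/-- normalised Haar measure -/
noncomputable abbrev hm : Measure TT := haarAddCircle

/-- the coordinate on the unit circle -/
noncomputable def ee (x : TT) : ℂ := (toCircle x : ℂ)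

lemma ee_norm (x : TT) : ‖ee x‖ = 1 := Circle.norm_coe _

lemma ee_cont : Continuous ee := continuous_induced_dom.comp continuous_toCircle

lemma ee_coe (θ : ℝ) : ee (θ : TT) = circleMap 0 1 θ := by
  unfold ee circleMap
  rw [toCircle_apply_mk, Circle.coe_exp]
  have hpi : (2 * Real.pi) / (2 * Real.pi) = 1 := div_self (by positivity)
  rw [hpi]
  simp

lemma ee_neg (x : TT) : ee (-x) = conj (ee x) := by
  unfold ee
  rw [toCircle_neg, Circle.coe_inv_eq_conj]

lemma fourier_ee (n : ℤ) (x : TT) : fourier n x = ee x ^ n := by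
  unfold ee
  rw [fourier_apply, toCircle_zsmul, Circle.coe_zpow]

lemma avg_eq (F : ℂ → ℂ) : ∫ x, F (ee x) ∂hm = Real.circleAverage F 0 1 := by
  rw [integral_haarAddCircle, Real.circleAverage_def]
  congr 1
  rw [← AddCircle.intervalIntegral_preimage (2 * Real.pi) 0 (fun x => F (ee x)), zero_add]
  congr 1
  ext θ
  rw [ee_coe]

lemma avg_analytic {F : ℂ → ℂ} (hF : DiffContOnCl ℂ F (ball 0 1)) :
    ∫ x, F (ee x) ∂hm = F 0 := by
  rw [avg_eq]
  have := DiffContOnCl.circleAverage (R := 1) (c := 0) (f := F) (by rwa [abs_one])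
  exact this

lemma integrable_cl {F : ℂ → ℂ} (hF : DiffContOnCl ℂ F (ball 0 1)) :
    Integrable (fun x => F (ee x)) hm := by
  apply Continuous.integrable_of_hasCompactSupport
  · apply ContinuousOn.comp_continuous hF.continuousOn ee_cont
    intro x
    rw [closure_ball _ one_ne_zero]
    simp [ee_norm]
  · exact HasCompactSupport.of_compactSpace _

section orth
variable {a : ℕ → ℂ} (ha : ∀ j, ‖a j‖ < 1)
include ha

lemma orth (k l : ℤ) : ∫ x, conj (g a k (ee x)) * g a l (ee x) ∂hm = if k = l then 1 else 0 := by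
  rcases lt_trichotomy k l with h | h | h
  · rw [if_neg h.ne]
    obtain ⟨F, hF, hF0, hF1⟩ := orth_lt ha k l h
    simp_rw [hF1 _ (ee_norm _)]
    rw [avg_analytic hF, hF0]
  · subst h
    rw [if_pos rfl]
    obtain ⟨F, hF, hF0, hF1⟩ := norm_diag ha k
    simp_rw [hF1 _ (ee_norm _)]
    have h1 : Integrable (fun x => conj (F (ee x))) hm := by
      have := (integrable_cl hF)
      exact (Complex.conjLIE.toContinuousLinearEquiv.toContinuousLinearMap.integrable_comp this)
    have h2 : ∫ x, conj (F (ee x)) ∂hm = 1 := by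
      rw [integral_conj, avg_analytic hF, hF0, map_one]
    have h3 : Integrable (fun x => F (ee x) + conj (F (ee x))) hm := (integrable_cl hF).add h1
    rw [integral_sub h3 (integrable_const _),
      integral_add (integrable_cl hF) h1, avg_analytic hF, hF0, h2]
    simp
  · rw [if_neg h.ne']
    obtain ⟨F, hF, hF0, hF1⟩ := orth_lt ha l k h
    have h3 : ∀ x : TT, conj (g a k (ee x)) * g a l (ee x) = conj (F (ee x)) := by
      intro x
      rw [← hF1 _ (ee_norm _), map_mul, conj_conj, mul_comm]
    simp_rw [h3]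
    rw [integral_conj, avg_analytic hF, hF0, map_zero]

end orth

instance : Nontrivial TT := by
  refine ⟨⟨((Real.pi : ℝ) : TT), ((0 : ℝ) : TT), fun h => ?_⟩⟩
  have h1 := congrArg ee h
  rw [ee_coe, ee_coe] at h1
  simp [circleMap] at h1
  norm_num at h1

lemma ee_im_zero_null : hm {x : TT | (ee x).im = 0} = 0 := by
  have h : {x : TT | (ee x).im = 0} ⊆ {x | toCircle x = 1} ∪ {x | toCircle x = -1} := by
    intro x hx
    have hx' : (ee x).im = 0 := hx
    have h1 := ee_norm x
    have h2 : ee x = ((ee x).re : ℂ) := by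
      apply Complex.ext <;> simp [hx']
    rw [h2, Complex.norm_real, Real.norm_eq_abs] at h1
    rcases (abs_eq zero_le_one).mp h1 with h3 | h3
    · left
      rw [h3] at h2
      exact Circle.ext (by simpa [ee] using h2)
    · right
      rw [h3] at h2
      exact Circle.ext (by simpa [ee] using h2)
  have hinj : Function.Injective (toCircle : TT → Circle) :=
    injective_toCircle (by positivity)
  have fin1 : ∀ c : Circle, hm {x : TT | toCircle x = c} = 0 := by
    intro c
    have : ({x : TT | toCircle x = c}).Subsingleton := by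
      intro x hx y hy
      exact hinj (hx.trans hy.symm)
    exact this.measure_zero _
  refine measure_mono_null h (measure_union_null (fin1 _) (fin1 _))

/-- upper half circle -/
def Up : Set TT := {x | 0 < (ee x).im}
/-- lower half circle -/
def Lo : Set TT := {x | (ee x).im < 0}

lemma meas_im : Measurable fun x : TT => (ee x).im :=
  (Complex.continuous_im.comp ee_cont).measurable
lemma meas_re : Measurable fun x : TT => 2 * (ee x).re :=
  (continuous_const.mul (Complex.continuous_re.comp ee_cont)).measurable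

lemma meas_Up : MeasurableSet Up := measurableSet_lt measurable_const meas_im
lemma meas_Lo : MeasurableSet Lo := measurableSet_lt meas_im measurable_const

lemma re_lt {x : TT} (h : (ee x).im ≠ 0) : 2 * (ee x).re ∈ Ioo (-2 : ℝ) 2 := by
  have h1 : (ee x).re ^ 2 + (ee x).im ^ 2 = 1 := by
    have h1 := ee_norm x
    have h2 := Complex.sq_norm (ee x)
    rw [h1, Complex.normSq_apply] at h2
    nlinarith
  have h2 : 0 < (ee x).im ^ 2 := by positivity
  constructor <;> nlinarith

/-- the spectral measure -/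
noncomputable def rho : Measure ℝ := Measure.map (fun x : TT => 2 * (ee x).re) (hm.restrict Up)

/-- multiplicity -/
noncomputable def mult (E : ℝ) : ℕ∞ := if E ∈ Ioo (-2 : ℝ) 2 then 2 else 0

/-- the fibred measure -/
noncomputable def nu : Measure (ℝ × ℕ) :=
  (rho.prod Measure.count).restrict {p | (p.2 : ℕ∞) < mult p.1}

/-- the parametrisation -/
noncomputable def Psi (x : TT) : ℝ × ℕ := (2 * (ee x).re, if 0 ≤ (ee x).im then 0 else 1)

lemma meas_Psi : Measurable Psi := by
  unfold Psi
  apply Measurable.prodMk meas_re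
  exact Measurable.ite (measurableSet_le measurable_const meas_im) measurable_const
    measurable_const

lemma dom_eq : {p : ℝ × ℕ | (p.2 : ℕ∞) < mult p.1} =
    (Ioo (-2 : ℝ) 2) ×ˢ ({0, 1} : Set ℕ) := by
  ext ⟨E, n⟩
  simp only [mem_ofPred_eq, mult, mem_prod, mem_insert_iff, mem_singleton_iff]
  by_cases h : E ∈ Ioo (-2 : ℝ) 2
  · rw [if_pos h]
    have : ((n : ℕ∞) < 2) ↔ n < 2 := by exact_mod_cast Iff.rfl
    rw [this]
    constructor
    · intro h2; exact ⟨h, by omega⟩
    · rintro ⟨_, h2⟩; omega
  · rw [if_neg h]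
    simp [h]

lemma meas_dom : MeasurableSet {p : ℝ × ℕ | (p.2 : ℕ∞) < mult p.1} := by
  rw [dom_eq]
  exact measurableSet_Ioo.prod (Set.to_countable _).measurableSet

instance : IsFiniteMeasure rho := by unfold rho; infer_instance

lemma haar_neg (S : Set TT) (hS : MeasurableSet S) : hm (Neg.neg ⁻¹' S) = hm S := by
  have : MeasurePreserving (Neg.neg : TT → TT) hm hm := Measure.measurePreserving_neg hm
  exact this.measure_preimage hS.nullMeasurableSet

lemma mp_Psi : MeasurePreserving Psi hm nu := by
  refine ⟨meas_Psi, ?_⟩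
  ext S hS
  rw [Measure.map_apply meas_Psi hS]
  -- right-hand side
  have hS0 : MeasurableSet {x : TT | (2 * (ee x).re, 0) ∈ S} :=
    (meas_re.prodMk measurable_const) hS
  have hS1 : MeasurableSet {x : TT | (2 * (ee x).re, 1) ∈ S} :=
    (meas_re.prodMk measurable_const) hS
  have hR : nu S = hm (Up ∩ {x | (2 * (ee x).re, 0) ∈ S}) +
      hm (Up ∩ {x | (2 * (ee x).re, 1) ∈ S}) := by
    unfold nu
    rw [Measure.restrict_apply hS, Measure.prod_apply (hS.inter meas_dom)]
    unfold rho
    rw [lintegral_map (measurable_measure_prodMk_left (hS.inter meas_dom)) meas_re]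
    have h1 : ∀ x ∈ Up, Measure.count (Prod.mk (2 * (ee x).re) ⁻¹'
        (S ∩ {p : ℝ × ℕ | (p.2 : ℕ∞) < mult p.1})) =
        ({x : TT | (2 * (ee x).re, 0) ∈ S}.indicator 1 x : ENNReal) +
        ({x : TT | (2 * (ee x).re, 1) ∈ S}.indicator 1 x : ENNReal) := by
      intro x hx
      have hx' : (ee x).im ≠ 0 := ne_of_gt hx
      have hE := re_lt hx'
      have h2 : Prod.mk (2 * (ee x).re) ⁻¹' (S ∩ {p : ℝ × ℕ | (p.2 : ℕ∞) < mult p.1}) =
          {n : ℕ | n = 0 ∧ (2 * (ee x).re, 0) ∈ S} ∪ {n : ℕ | n = 1 ∧ (2 * (ee x).re, 1) ∈ S} := by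
        rw [dom_eq]
        ext n
        simp only [mem_preimage, mem_inter_iff, mem_prod, mem_insert_iff, mem_singleton_iff,
          mem_union, mem_ofPred_eq]
        constructor
        · rintro ⟨h3, _, rfl | rfl⟩
          · left; exact ⟨rfl, h3⟩
          · right; exact ⟨rfl, h3⟩
        · rintro (⟨rfl, h3⟩ | ⟨rfl, h3⟩)
          · exact ⟨h3, hE, Or.inl rfl⟩
          · exact ⟨h3, hE, Or.inr rfl⟩
      rw [h2, measure_union]
      · congr 1
        · by_cases h : (2 * (ee x).re, 0) ∈ S
          · have : {n : ℕ | n = 0 ∧ (2 * (ee x).re, 0) ∈ S} = {0} := by ext; simp [h]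
            rw [this, Measure.count_singleton, indicator_of_mem (by exact h)]; rfl
          · have : {n : ℕ | n = 0 ∧ (2 * (ee x).re, 0) ∈ S} = ∅ := by ext; simp [h]
            rw [this, measure_empty, indicator_of_notMem (by exact h)]
        · by_cases h : (2 * (ee x).re, 1) ∈ S
          · have : {n : ℕ | n = 1 ∧ (2 * (ee x).re, 1) ∈ S} = {1} := by ext; simp [h]
            rw [this, Measure.count_singleton, indicator_of_mem (by exact h)]; rfl
          · have : {n : ℕ | n = 1 ∧ (2 * (ee x).re, 1) ∈ S} = ∅ := by ext; simp [h]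
            rw [this, measure_empty, indicator_of_notMem (by exact h)]
      · rw [Set.disjoint_left]
        rintro n ⟨rfl, _⟩ ⟨h, _⟩
        exact absurd h (by norm_num)
      · exact (Set.to_countable _).measurableSet
    rw [setLIntegral_congr_fun meas_Up h1, lintegral_add_left (measurable_one.indicator hS0)]
    congr 1
    · rw [lintegral_indicator_one hS0, Measure.restrict_apply hS0, inter_comm]
    · rw [lintegral_indicator_one hS1, Measure.restrict_apply hS1, inter_comm]
  rw [hR]
  -- left-hand side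
  have hL : hm (Psi ⁻¹' S) = hm (Up ∩ {x | (2 * (ee x).re, 0) ∈ S}) +
      hm (Lo ∩ {x | (2 * (ee x).re, 1) ∈ S}) := by
    have hdec : Psi ⁻¹' S =ᵐ[hm] ((Up ∩ {x | (2 * (ee x).re, 0) ∈ S}) ∪
        (Lo ∩ {x | (2 * (ee x).re, 1) ∈ S}) : Set TT) := by
      have hne : ∀ᵐ x ∂hm, (ee x).im ≠ 0 := by
        rw [ae_iff]
        simpa using ee_im_zero_null
      filter_upwards [hne] with x hx
      apply propext
      change Psi x ∈ S ↔ (x ∈ Up ∧ (2 * (ee x).re, 0) ∈ S) ∨ (x ∈ Lo ∧ (2 * (ee x).re, 1) ∈ S)
      unfold Psi Up Lo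
      simp only [mem_ofPred_eq]
      rcases lt_or_gt_of_ne hx with h | h
      · rw [if_neg (not_le.mpr h)]
        simp [h, h.le.not_gt]
      · rw [if_pos h.le]
        simp [h, h.le.not_gt]
    rw [measure_congr hdec, measure_union _ (meas_Lo.inter hS1)]
    rw [Set.disjoint_left]
    rintro x ⟨h1, _⟩ ⟨h2, _⟩
    have h1' : 0 < (ee x).im := h1
    have h2' : (ee x).im < 0 := h2
    linarith
  rw [hL]
  congr 1
  rw [← haar_neg _ (meas_Lo.inter hS1)]
  congr 1
  ext x
  simp only [mem_preimage, mem_inter_iff, Up, Lo, mem_ofPred_eq, ee_neg, conj_im, conj_re]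
  rw [neg_lt_zero]

end Pool.Agent.Helper434.TMCircle
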