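import Mathlib
import Pool.Agent.Helper434.TMBasis
import Pool.Agent.Helper434.TMCircle

set_option autoImplicit false

namespace Pool.Agent.Helper434.TMHilbert

open MeasureTheory AddCircle Complex ComplexConjugate Metric Set
open Pool.Agent.Helper434.TMBasis Pool.Agent.Helper434.TMCircle

/-- point of the circle above an energy -/
noncomputable def zz (p : ℝ × ℕ) : ℂ :=
  ⟨p.1 / 2, if p.2 = 0 then Real.sqrt (1 - (p.1 / 2) ^ 2) else -Real.sqrt (1 - (p.1 / 2) ^ 2)⟩

lemma zz_re (p : ℝ × ℕ) : (zz p).re = p.1 / 2 := rfl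

lemma zz_norm {p : ℝ × ℕ} (hp : p.1 ∈ Ioo (-2 : ℝ) 2) : ‖zz p‖ = 1 := by
  have h0 : 0 ≤ 1 - (p.1 / 2) ^ 2 := by
    obtain ⟨h1, h2⟩ := hp
    nlinarith
  have h1 : ‖zz p‖ ^ 2 = 1 := by
    rw [Complex.sq_norm, Complex.normSq_apply]
    unfold zz
    simp only
    split_ifs
    · have := Real.mul_self_sqrt h0
      nlinarith
    · have := Real.mul_self_sqrt h0
      nlinarith
  exact (pow_eq_one_iff_of_nonneg (norm_nonneg _) two_ne_zero).mp h1

lemma zz_sum {p : ℝ × ℕ} (hp : p.1 ∈ Ioo (-2 : ℝ) 2) : zz p + (zz p)⁻¹ = (p.1 : ℂ) := by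
  rw [inv_eq_conj (zz_norm hp)]
  rw [Complex.add_conj, zz_re]
  push_cast; ring

lemma zz_Psi (x : TT) : zz (Psi x) = ee x := by
  have h1 : (ee x).re ^ 2 + (ee x).im ^ 2 = 1 := by
    have h1 := ee_norm x
    have h2 := Complex.sq_norm (ee x)
    rw [h1, Complex.normSq_apply] at h2
    nlinarith
  have h2 : 1 - (2 * (ee x).re / 2) ^ 2 = (ee x).im ^ 2 := by
    have : 2 * (ee x).re / 2 = (ee x).re := by ring
    rw [this]; linarith
  unfold zz Psi
  apply Complex.ext
  · simp
  · simp only [h2]
    by_cases h : 0 ≤ (ee x).im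
    · simp [h, Real.sqrt_sq h]
    · push Not at h
      rw [if_neg (not_le.mpr h)]
      simp only [one_ne_zero, if_false]
      rw [Real.sqrt_sq_eq_abs, abs_of_neg h, neg_neg]

lemma meas_zz : Measurable zz := by
  have h1 : Measurable fun p : ℝ × ℕ => p.1 / 2 := measurable_fst.div_const 2
  have h2 : Measurable fun p : ℝ × ℕ => Real.sqrt (1 - (p.1 / 2) ^ 2) :=
    (measurable_const.sub (h1.pow_const 2)).sqrt
  have h3 : Measurable fun p : ℝ × ℕ =>
      (if p.2 = 0 then Real.sqrt (1 - (p.1 / 2) ^ 2) else -Real.sqrt (1 - (p.1 / 2) ^ 2)) :=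
    Measurable.ite (measurableSet_eq_fun measurable_snd measurable_const) h2 h2.neg
  have h4 : zz = fun p : ℝ × ℕ => Complex.equivRealProdCLM.symm (p.1 / 2,
      (if p.2 = 0 then Real.sqrt (1 - (p.1 / 2) ^ 2) else -Real.sqrt (1 - (p.1 / 2) ^ 2))) := by
    ext p
    · rfl
  rw [h4]
  exact Complex.equivRealProdCLM.symm.continuous.measurable.comp (h1.prodMk h3)

variable {a : ℕ → ℂ}

lemma meas_bl (j : ℕ) : Measurable (bl a j) := by
  unfold bl; fun_prop

lemma meas_kk (j : ℕ) : Measurable (kk a j) := by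
  unfold kk; fun_prop

lemma meas_Ph (j : ℕ) : Measurable (Ph a j) := by
  unfold Ph
  exact Finset.measurable_fun_prod _ fun i _ => meas_bl i

lemma meas_g (k : ℤ) : Measurable (g a k) := by
  rcases k with k | k
  · change Measurable (gN a k)
    unfold gN
    apply (meas_Ph _).mul
    split_ifs
    · exact measurable_const
    · exact meas_kk _
  · change Measurable fun z : ℂ => z⁻¹ ^ (k + 1)
    fun_prop

variable (ha : ∀ j, ‖a j‖ < 1)
include ha

lemma cont_bl (j : ℕ) : Continuous fun x : TT => bl a j (ee x) := by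
  unfold bl
  refine ee_cont.mul (Continuous.div (by have := ee_cont; fun_prop) (by have := ee_cont; fun_prop) ?_)
  intro x
  exact den_ne ha (ee_norm x).le j

lemma cont_kk (j : ℕ) : Continuous fun x : TT => kk a j (ee x) := by
  unfold kk
  refine ee_cont.mul (Continuous.div (by have := ee_cont; fun_prop) (by have := ee_cont; fun_prop) ?_)
  intro x
  exact den_ne ha (ee_norm x).le j

lemma cont_g (k : ℤ) : Continuous fun x : TT => g a k (ee x) := by
  rcases k with k | k
  · change Continuous fun x : TT => gN a k (ee x)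
    unfold gN
    refine Continuous.mul ?_ ?_
    · unfold Ph
      exact continuous_finsetProd _ fun i _ => cont_bl ha i
    · by_cases h : k % 2 = 0
      · simp only [h, if_true]; exact continuous_const
      · simp only [h, if_false]; exact cont_kk ha _
  · change Continuous fun x : TT => (ee x)⁻¹ ^ (k + 1)
    refine Continuous.pow (ee_cont.inv₀ fun x => z_ne (ee_norm x)) _

/-- the basis functions as continuous functions on the circle -/
noncomputable def GG (k : ℤ) : C(TT, ℂ) := ⟨fun x => g a k (ee x), cont_g ha k⟩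

lemma GG_apply (k : ℤ) (x : TT) : GG ha k x = g a k (ee x) := rfl

lemma fourier_mul_span (φ : C(TT, ℂ)) (hφ : φ ∈ Submodule.span ℂ (range (GG ha))) :
    fourier 1 * φ ∈ Submodule.span ℂ (range (GG ha)) := by
  induction hφ using Submodule.span_induction with
  | mem φ h =>
    obtain ⟨k, rfl⟩ := h
    obtain ⟨c0, c1, c2, hc⟩ := mulz ha k
    have : fourier 1 * GG ha k = c0 • GG ha k + c1 • GG ha (k + 1) + c2 • GG ha (k + 2) := by
      ext x
      have h := hc _ (ee_norm x)
      simp only [ContinuousMap.mul_apply, ContinuousMap.add_apply, ContinuousMap.smul_apply,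
        GG_apply, smul_eq_mul, fourier_ee, zpow_one]
      exact h
    rw [this]
    refine Submodule.add_mem _ (Submodule.add_mem _ ?_ ?_) ?_ <;>
    exact Submodule.smul_mem _ _ (Submodule.subset_span ⟨_, rfl⟩)
  | zero => rw [mul_zero]; exact Submodule.zero_mem _
  | add φ ψ _ _ h1 h2 => rw [mul_add]; exact Submodule.add_mem _ h1 h2
  | smul c φ _ h => rw [mul_smul_comm]; exact Submodule.smul_mem _ _ h

lemma fourier_mem (n : ℤ) : fourier n ∈ Submodule.span ℂ (range (GG ha)) := by
  have hneg : ∀ k : ℕ, fourier (Int.negSucc k) ∈ Submodule.span ℂ (range (GG ha)) := by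
    intro k
    apply Submodule.subset_span
    refine ⟨Int.negSucc k, ?_⟩
    ext x
    rw [GG_apply, g_neg, fourier_ee, zpow_negSucc, inv_pow]
  rcases n with n | n
  · induction n with
    | zero =>
      have h := fourier_mul_span ha _ (hneg 0)
      have e : (fourier 1 : C(TT, ℂ)) * fourier (Int.negSucc 0) = fourier (Int.ofNat 0) := by
        ext x
        simp only [ContinuousMap.mul_apply, fourier_ee]
        have hz := z_ne (ee_norm x)
        simp [hz]
      rwa [e] at h
    | succ n ih =>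
      have h := fourier_mul_span ha _ ih
      have e : (fourier 1 : C(TT, ℂ)) * fourier (Int.ofNat n) = fourier (Int.ofNat (n + 1)) := by
        ext x
        simp only [ContinuousMap.mul_apply, fourier_ee]
        have e1 : (Int.ofNat (n + 1) : ℤ) = ((n + 1 : ℕ) : ℤ) := rfl
        have e2 : (Int.ofNat n : ℤ) = ((n : ℕ) : ℤ) := rfl
        rw [e1, e2, zpow_natCast, zpow_natCast, zpow_one, pow_succ]
        ring
      rwa [e] at h
  · exact hneg n

omit ha in
/-- the basis functions on the spectral side -/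
noncomputable def hh (a : ℕ → ℂ) (k : ℤ) (p : ℝ × ℕ) : ℂ := g a k (zz p)

omit ha in
lemma meas_hh (k : ℤ) : Measurable (hh a k) := (meas_g k).comp meas_zz

omit ha in
lemma hh_Psi (k : ℤ) (x : TT) : hh a k (Psi x) = g a k (ee x) := by
  unfold hh; rw [zz_Psi]

omit ha in
instance nu_fin : IsFiniteMeasure nu := by
  have h := mp_Psi
  refine ⟨?_⟩
  rw [← h.measure_preimage MeasurableSet.univ.nullMeasurableSet, preimage_univ]
  exact measure_lt_top _ _

lemma memLp_hh (k : ℤ) : MemLp (hh a k) 2 nu := by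
  have h := mp_Psi
  rw [← h.map_eq, memLp_map_measure_iff (meas_hh k).aestronglyMeasurable h.measurable.aemeasurable]
  have e : hh a k ∘ Psi = GG ha k := by
    ext x; exact hh_Psi k x
  rw [e]
  exact (GG ha k).continuous.memLp_of_hasCompactSupport (HasCompactSupport.of_compactSpace _)

/-- the basis vectors -/
noncomputable def vv (k : ℤ) : Lp ℂ 2 nu := (memLp_hh ha k).toLp

lemma vv_coe (k : ℤ) : vv ha k =ᵐ[nu] hh a k := MemLp.coeFn_toLp _

omit ha in
lemma integral_nu {F : ℝ × ℕ → ℂ} (hF : Measurable F) :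
    ∫ p, F p ∂nu = ∫ x, F (Psi x) ∂hm := by
  have h := mp_Psi
  rw [← h.map_eq, integral_map h.measurable.aemeasurable hF.aestronglyMeasurable]

lemma inner_vv (k l : ℤ) : inner ℂ (vv ha k) (vv ha l) = if k = l then (1 : ℂ) else 0 := by
  rw [L2.inner_def]
  have h1 : ∫ p, inner ℂ (vv ha k p) (vv ha l p) ∂nu =
      ∫ p, conj (hh a k p) * hh a l p ∂nu := by
    apply integral_congr_ae
    filter_upwards [vv_coe ha k, vv_coe ha l] with p h1 h2
    rw [h1, h2]
    simp [mul_comm]
  rw [h1, integral_nu]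
  · simp_rw [hh_Psi]
    exact orth ha k l
  · exact (Complex.continuous_conj.measurable.comp (meas_hh k)).mul (meas_hh l)

lemma vv_orthonormal : Orthonormal ℂ (vv ha) := by
  rw [orthonormal_iff_ite]
  exact inner_vv ha

lemma vv_total : (Submodule.span ℂ (range (vv ha)))ᗮ = ⊥ := by
  rw [Submodule.eq_bot_iff]
  intro f hf
  have hf' : ∀ k, inner ℂ (vv ha k) f = 0 := fun k =>
    hf _ (Submodule.subset_span ⟨k, rfl⟩)
  -- pull back to the circle
  set F : Lp ℂ 2 hm := Lp.compMeasurePreserving Psi mp_Psi f with hF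
  have hFc : F =ᵐ[hm] f ∘ Psi := Lp.coeFn_compMeasurePreserving f mp_Psi
  have hG : ∀ k, inner ℂ (ContinuousMap.toLp (E := ℂ) 2 hm ℂ (GG ha k)) F = 0 := by
    intro k
    rw [← hf' k, L2.inner_def, L2.inner_def]
    have e1 : ∫ x, inner ℂ ((ContinuousMap.toLp (E := ℂ) 2 hm ℂ (GG ha k)) x) (F x) ∂hm =
        ∫ x, conj (hh a k (Psi x)) * f (Psi x) ∂hm := by
      apply integral_congr_ae
      filter_upwards [hFc, ContinuousMap.coeFn_toLp (p := 2) (𝕜 := ℂ) hm (GG ha k)] with x h1 h2
      rw [h1, h2, GG_apply, hh_Psi]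
      simp [mul_comm]
    have e2 : ∫ p, inner ℂ (vv ha k p) (f p) ∂nu = ∫ p, conj (hh a k p) * f p ∂nu := by
      apply integral_congr_ae
      filter_upwards [vv_coe ha k] with p h1
      rw [h1]
      simp [mul_comm]
    rw [e1, e2]
    have h := mp_Psi
    have hm1 : AEStronglyMeasurable (fun p => conj (hh a k p) * f p) (Measure.map Psi hm) := by
      rw [h.map_eq]
      exact ((Complex.continuous_conj.measurable.comp (meas_hh k)).aestronglyMeasurable).mul
        (Lp.aestronglyMeasurable f)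
    have h3 := integral_map h.measurable.aemeasurable hm1
    rw [h.map_eq] at h3
    exact h3.symm
  have hspan : ∀ φ ∈ Submodule.span ℂ (range (GG ha)),
      inner ℂ (ContinuousMap.toLp (E := ℂ) 2 hm ℂ φ) F = 0 := by
    intro φ hφ
    induction hφ using Submodule.span_induction with
    | mem φ h => obtain ⟨k, rfl⟩ := h; exact hG k
    | zero => rw [map_zero, inner_zero_left]
    | add φ ψ _ _ h1 h2 => rw [map_add, inner_add_left, h1, h2, add_zero]
    | smul c φ _ h => rw [map_smul, inner_smul_left, h, mul_zero]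
  have hF0 : F = 0 := by
    apply (fourierBasis (T := 2 * Real.pi)).repr.injective
    ext n
    rw [map_zero, HilbertBasis.repr_apply_apply, coe_fourierBasis]
    exact hspan _ (fourier_mem ha n)
  have hn : ‖f‖ = 0 := by
    rw [← Lp.norm_compMeasurePreserving f mp_Psi, ← hF, hF0, norm_zero]
  exact norm_eq_zero.mp hn

/-- the Hilbert basis -/
noncomputable def bas : HilbertBasis ℤ ℂ (Lp ℂ 2 nu) :=
  HilbertBasis.mkOfOrthogonalEqBot (vv_orthonormal ha) (vv_total ha)

lemma bas_coe (k : ℤ) : bas ha k = vv ha k := by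
  unfold bas; rw [HilbertBasis.coe_mkOfOrthogonalEqBot]

end Pool.Agent.Helper434.TMHilbert
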