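import Mathlib
import Pool.Agent.Helper434.TMBasis
import Pool.Agent.Helper434.TMCircle
import Pool.Agent.Helper434.TMHilbert

set_option autoImplicit false

namespace Pool.Agent.Helper434.TMGrow

open MeasureTheory AddCircle Complex ComplexConjugate Metric Set
open Pool.Agent.Helper434.TMBasis Pool.Agent.Helper434.TMCircle Pool.Agent.Helper434.TMHilbert

/-- the poles: they wind slowly around the circle and tend to it -/
noncomputable def aa (j : ℕ) : ℂ :=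
  ((1 - 1 / ((j : ℝ) + 1) : ℝ) : ℂ) * exp ((Real.log ((j : ℝ) + 1) : ℝ) * I)

lemma aa_norm (j : ℕ) : ‖aa j‖ = 1 - 1 / ((j : ℝ) + 1) := by
  unfold aa
  rw [norm_mul, Complex.norm_exp_ofReal_mul_I, mul_one, Complex.norm_real, Real.norm_eq_abs,
    abs_of_nonneg]
  have : 1 / ((j : ℝ) + 1) ≤ 1 := by
    rw [div_le_one (by positivity)]
    have : (0 : ℝ) ≤ j := Nat.cast_nonneg j
    linarith
  linarith

lemma aa_lt (j : ℕ) : ‖aa j‖ < 1 := by
  rw [aa_norm]
  have : 0 < 1 / ((j : ℝ) + 1) := by positivity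
  linarith

lemma sc_norm_sq (j : ℕ) : ‖sc aa j‖ ^ 2 = 1 - ‖aa j‖ ^ 2 := by
  unfold sc
  rw [Complex.norm_real, Real.norm_eq_abs, sq_abs, Real.sq_sqrt]
  nlinarith [aa_lt j, norm_nonneg (aa j)]

lemma Ph_norm' {z : ℂ} (hz : ‖z‖ = 1) (j : ℕ) : ‖Ph aa j z‖ = 1 := by
  have h := Ph_norm aa_lt hz j
  rw [← Complex.normSq_eq_conj_mul_self] at h
  have h2 : Complex.normSq (Ph aa j z) = 1 := by exact_mod_cast h
  rw [Complex.normSq_eq_norm_sq] at h2
  exact (pow_eq_one_iff_of_nonneg (norm_nonneg _) two_ne_zero).mp h2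

lemma den_norm {z : ℂ} (hz : ‖z‖ = 1) (j : ℕ) : ‖1 - conj (aa j) * z‖ = ‖z - aa j‖ := by
  have h1 : 1 - conj (aa j) * z = z * conj (z - aa j) := by
    rw [map_sub, mul_sub, z_conj hz, mul_inv_cancel₀ (z_ne hz)]
    ring
  rw [h1, norm_mul, hz, one_mul, RCLike.norm_conj]

lemma kk_norm {z : ℂ} (hz : ‖z‖ = 1) (j : ℕ) : ‖kk aa j z‖ = ‖sc aa j‖ / ‖z - aa j‖ := by
  unfold kk
  rw [norm_mul, hz, one_mul, norm_div, den_norm hz]

lemma sub_norm_ge {z : ℂ} (hz : ‖z‖ = 1) (j : ℕ) : 1 / ((j : ℝ) + 1) ≤ ‖z - aa j‖ := by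
  have h1 := norm_sub_norm_le z (aa j)
  rw [hz, aa_norm] at h1
  linarith

lemma sc_le (j : ℕ) : ‖sc aa j‖ ≤ 1 := by
  have h := sc_norm_sq j
  nlinarith [norm_nonneg (sc aa j), norm_nonneg (aa j)]

lemma g_bound {z : ℂ} (hz : ‖z‖ = 1) (m : ℤ) : ‖g aa m z‖ ≤ 1 + |(m : ℝ)| := by
  rcases m with m | m
  · change ‖gN aa m z‖ ≤ _
    rcases Nat.even_or_odd' m with ⟨j, rfl | rfl⟩
    · rw [gN_even, Ph_norm' hz]
      have : (0 : ℝ) ≤ |((Int.ofNat (2 * j) : ℤ) : ℝ)| := abs_nonneg _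
      linarith
    · rw [gN_odd, norm_mul, Ph_norm' hz, one_mul, kk_norm hz]
      have h1 := sub_norm_ge hz j
      have h2 : (0 : ℝ) < 1 / ((j : ℝ) + 1) := by positivity
      have h3 : ‖sc aa j‖ / ‖z - aa j‖ ≤ 1 / (1 / ((j : ℝ) + 1)) := by
        apply div_le_div₀ zero_le_one (sc_le j) h2 h1
      have h4 : |((Int.ofNat (2 * j + 1) : ℤ) : ℝ)| = 2 * (j : ℝ) + 1 := by
        have : ((Int.ofNat (2 * j + 1) : ℤ) : ℝ) = 2 * (j : ℝ) + 1 := by
          simp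
        rw [this, abs_of_nonneg (by positivity)]
      rw [h4]
      rw [one_div_one_div] at h3
      have : (0 : ℝ) ≤ j := Nat.cast_nonneg j
      linarith
  · change ‖z⁻¹ ^ (m + 1)‖ ≤ _
    rw [norm_pow, norm_inv, hz, inv_one, one_pow]
    have : (0 : ℝ) ≤ |((Int.negSucc m : ℤ) : ℝ)| := abs_nonneg _
    linarith

/-- there are resonances close to every point of the circle -/
lemma near {z : ℂ} (hz : ‖z‖ = 1) (R : ℝ) : ∃ j : ℕ, R ≤ (j : ℝ) + 1 ∧
    ‖z - aa j‖ ≤ 2 / ((j : ℝ) + 1) := by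
  obtain ⟨θ, hθ⟩ : ∃ θ : ℝ, exp (θ * I) = z := ⟨Complex.arg z, by
    have := Complex.norm_mul_exp_arg_mul_I z
    rw [hz] at this
    simpa using this⟩
  -- a large representative of the angle
  obtain ⟨N, hN⟩ := exists_nat_gt ((max R 1 + 1 - θ) / (2 * Real.pi))
  set t : ℝ := θ + N * (2 * Real.pi) with ht
  have hpi : 0 < 2 * Real.pi := Real.two_pi_pos
  have ht1 : max R 1 + 1 < t := by
    rw [div_lt_iff₀ hpi] at hN
    linarith
  have hzt : exp (t * I) = z := by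
    rw [← hθ, ht]
    push_cast
    rw [add_mul, exp_add]
    have : (N : ℂ) * (2 * Real.pi) * I = N * (2 * Real.pi * I) := by ring
    rw [this, Complex.exp_nat_mul_two_pi_mul_I, mul_one]
  set x : ℝ := Real.exp t with hx
  have hxt : t + 1 ≤ x := Real.add_one_le_exp t
  have hR1 := le_max_left R 1
  have hR2 := le_max_right R 1
  set n : ℕ := ⌊x⌋₊ with hn
  have hx0 : 0 ≤ x := (Real.exp_pos t).le
  have hnle : (n : ℝ) ≤ x := Nat.floor_le hx0
  have hnlt : x < n + 1 := Nat.lt_floor_add_one x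
  have hn1 : 1 ≤ n := by
    have : (1 : ℝ) < n := by linarith
    have : (0 : ℝ) < n := by linarith
    exact_mod_cast this
  obtain ⟨j, hj⟩ : ∃ j, n = j + 1 := ⟨n - 1, by omega⟩
  have hjn : (j : ℝ) + 1 = n := by rw [hj]; push_cast; ring
  refine ⟨j, by rw [hjn]; linarith, ?_⟩
  rw [hjn]
  have hnpos : (0 : ℝ) < n := by exact_mod_cast hn1
  -- the nearby point on the circle
  set w : ℂ := exp ((Real.log (n : ℝ) : ℝ) * I) with hw
  have h1 : ‖z - w‖ ≤ 1 / n := by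
    rw [← hzt, hw]
    have e1 : exp (t * I) - exp ((Real.log (n : ℝ) : ℝ) * I) =
        exp ((Real.log (n : ℝ) : ℝ) * I) * (exp (((t - Real.log n : ℝ) : ℂ) * I) - 1) := by
      rw [mul_sub, mul_one, ← exp_add]
      congr 2
      push_cast; ring
    rw [e1, norm_mul, Complex.norm_exp_ofReal_mul_I, one_mul]
    have h2 : ‖exp (((t - Real.log n : ℝ) : ℂ) * I) - 1‖ ≤ |t - Real.log n| := by
      have := Real.norm_exp_I_mul_ofReal_sub_one_le (x := t - Real.log n)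
      rw [mul_comm, ← Real.norm_eq_abs]
      exact this
    refine h2.trans ?_
    have h3 : t = Real.log x := by rw [hx, Real.log_exp]
    have h4 : 0 ≤ t - Real.log n := by
      rw [h3]
      have := Real.log_le_log hnpos hnle
      linarith
    rw [abs_of_nonneg h4, h3, ← Real.log_div (by linarith) hnpos.ne']
    have h5 := Real.log_le_sub_one_of_pos (show 0 < x / n by
      apply div_pos _ hnpos; linarith)
    refine h5.trans ?_
    rw [div_sub_one hnpos.ne']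
    gcongr
    linarith
  have h2 : ‖w - aa j‖ = 1 / n := by
    have e1 : w - aa j = ((1 / (n : ℝ) : ℝ) : ℂ) * w := by
      unfold aa
      rw [hjn, hw]
      push_cast; ring
    rw [e1, norm_mul, hw, Complex.norm_exp_ofReal_mul_I, mul_one, Complex.norm_real,
      Real.norm_eq_abs, abs_of_pos (by positivity)]
  calc ‖z - aa j‖ = ‖(z - w) + (w - aa j)‖ := by congr 1; ring
    _ ≤ ‖z - w‖ + ‖w - aa j‖ := norm_add_le _ _
    _ ≤ 1 / n + 1 / n := by rw [h2]; gcongr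
    _ = 2 / n := by ring

/-- every nonzero combination of the two solutions over an energy is unbounded -/
lemma unbdd {z z' : ℂ} (hz : ‖z‖ = 1) (hz' : ‖z'‖ = 1) (hne : z ≠ z') {c c' : ℂ} (hc : c ≠ 0) :
    ¬ ∃ R : ℝ, ∀ m : ℤ, ‖c * conj (g aa m z) + c' * conj (g aa m z')‖ ≤ R := by
  rintro ⟨R, hR⟩
  set d : ℝ := ‖z' - z‖ with hd
  have hdpos : 0 < d := by rw [hd, norm_pos_iff, sub_ne_zero]; exact hne.symm
  have hcpos : 0 < ‖c‖ := norm_pos_iff.mpr hc
  have hR0 : 0 ≤ R := (norm_nonneg _).trans (hR 0)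
  -- a good index
  set B : ℝ := R + ‖c'‖ * (2 / d) + 1 with hB
  have hBpos : 0 < B := by positivity
  obtain ⟨j, hj1, hj2⟩ := near hz (max (4 / d) (4 * (B / ‖c‖) ^ 2))
  have hj3 : 4 / d ≤ (j : ℝ) + 1 := (le_max_left _ _).trans hj1
  have hj4 : 4 * (B / ‖c‖) ^ 2 ≤ (j : ℝ) + 1 := (le_max_right _ _).trans hj1
  set n : ℝ := (j : ℝ) + 1 with hn
  have hnpos : 0 < n := by positivity
  have hn1 : 1 ≤ n := by
    rw [hn]; have : (0 : ℝ) ≤ j := Nat.cast_nonneg j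
    linarith
  have h := hR ((2 * j + 1 : ℕ) : ℤ)
  rw [g_nat, g_nat, gN_odd, gN_odd] at h
  -- lower bound for the first term
  have hzpos : 0 < ‖z - aa j‖ := lt_of_lt_of_le (by positivity) (sub_norm_ge hz j)
  have hs : 1 / n ≤ ‖sc aa j‖ ^ 2 := by
    rw [sc_norm_sq, aa_norm, ← hn]
    have h1 : 1 - (1 - 1 / n) ^ 2 = 1 / n + (1 / n) * (1 - 1 / n) := by ring
    rw [h1]
    have h2 : 0 ≤ 1 - 1 / n := by
      have : 1 / n ≤ 1 := by rw [div_le_one hnpos]; exact hn1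
      linarith
    have h3 : 0 ≤ (1 / n) * (1 - 1 / n) := mul_nonneg (by positivity) h2
    linarith
  have hk : B / ‖c‖ ≤ ‖kk aa j z‖ := by
    rw [kk_norm hz]
    have h1 : (B / ‖c‖) ^ 2 ≤ (‖sc aa j‖ / ‖z - aa j‖) ^ 2 := by
      rw [div_pow ‖sc aa j‖]
      have h2 : ‖z - aa j‖ ^ 2 ≤ (2 / n) ^ 2 := by gcongr
      calc (B / ‖c‖) ^ 2 ≤ n / 4 := by linarith
        _ = (1 / n) / (2 / n) ^ 2 := by field_simp; norm_num
        _ ≤ ‖sc aa j‖ ^ 2 / ‖z - aa j‖ ^ 2 := by gcongr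
    exact (pow_le_pow_iff_left₀ (by positivity) (by positivity) two_ne_zero).mp h1
  -- upper bound for the second term
  have hk' : ‖kk aa j z'‖ ≤ 2 / d := by
    rw [kk_norm hz']
    have h1 : d / 2 ≤ ‖z' - aa j‖ := by
      have h2 : d ≤ ‖z' - aa j‖ + ‖z - aa j‖ := by
        rw [hd]
        calc ‖z' - z‖ = ‖(z' - aa j) - (z - aa j)‖ := by congr 1; ring
          _ ≤ _ := norm_sub_le _ _
      have h3 : 2 / n ≤ d / 2 := by
        rw [div_le_div_iff₀ hnpos two_pos]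
        rw [div_le_iff₀ hdpos] at hj3
        linarith
      linarith
    calc ‖sc aa j‖ / ‖z' - aa j‖ ≤ 1 / (d / 2) :=
          div_le_div₀ zero_le_one (sc_le j) (by positivity) h1
      _ = 2 / d := by field_simp
  have e1 : ‖c * conj (Ph aa j z * kk aa j z)‖ = ‖c‖ * ‖kk aa j z‖ := by
    rw [norm_mul, RCLike.norm_conj, norm_mul, Ph_norm' hz, one_mul]
  have e2 : ‖c' * conj (Ph aa j z' * kk aa j z')‖ = ‖c'‖ * ‖kk aa j z'‖ := by
    rw [norm_mul, RCLike.norm_conj, norm_mul, Ph_norm' hz', one_mul]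
  have h5 : ‖c‖ * ‖kk aa j z‖ - ‖c'‖ * ‖kk aa j z'‖ ≤ R := by
    rw [← e1, ← e2]
    refine le_trans ?_ h
    have := norm_sub_norm_le (c * conj (Ph aa j z * kk aa j z))
      (-(c' * conj (Ph aa j z' * kk aa j z')))
    rw [norm_neg, sub_neg_eq_add] at this
    exact this
  have h6 : B ≤ ‖c‖ * ‖kk aa j z‖ := by
    rw [div_le_iff₀ hcpos] at hk
    linarith
  have h7 : ‖c'‖ * ‖kk aa j z'‖ ≤ ‖c'‖ * (2 / d) := by gcongr
  linarith

end Pool.Agent.Helper434.TMGrow
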