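import Mathlib
import Pool.Agent.Helper434.TMBasis
import Pool.Agent.Helper434.TMCircle
import Pool.Agent.Helper434.TMHilbert

set_option autoImplicit false

namespace Pool.Agent.Helper434.TMOper

open MeasureTheory AddCircle Complex ComplexConjugate Metric Set
open Pool.Agent.Helper434.TMBasis Pool.Agent.Helper434.TMCircle Pool.Agent.Helper434.TMHilbert

lemma dom_ae : ∀ᵐ p ∂nu, p.1 ∈ Ioo (-2 : ℝ) 2 := by
  unfold nu
  filter_upwards [ae_restrict_mem meas_dom] with p hp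
  have hp' : p ∈ {p : ℝ × ℕ | (p.2 : ℕ∞) < mult p.1} := hp
  rw [dom_eq] at hp'
  exact hp'.1

lemma memLp_coord : MemLp (fun p : ℝ × ℕ => (p.1 : ℂ)) ⊤ nu := by
  apply memLp_top_of_bound (C := 2)
  · exact (Complex.continuous_ofReal.measurable.comp measurable_fst).aestronglyMeasurable
  · filter_upwards [dom_ae] with p hp
    rw [Complex.norm_real, Real.norm_eq_abs]
    exact abs_le.mpr ⟨hp.1.le, hp.2.le⟩

/-- the coordinate as a bounded function -/
noncomputable def coordE : Lp ℂ ⊤ nu := memLp_coord.toLp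

/-- multiplication by the coordinate -/
noncomputable def MM : Lp ℂ 2 nu →L[ℂ] Lp ℂ 2 nu :=
  (ContinuousLinearMap.mul ℂ ℂ).holderL nu ⊤ 2 2 coordE

lemma MM_coe (f : Lp ℂ 2 nu) : MM f =ᵐ[nu] fun p => (p.1 : ℂ) * f p := by
  have h1 : MM f =ᵐ[nu] fun p => coordE p * f p :=
    ContinuousLinearMap.coeFn_holder (r := 2) (ContinuousLinearMap.mul ℂ ℂ) coordE f
  have h2 : coordE =ᵐ[nu] fun p : ℝ × ℕ => (p.1 : ℂ) := MemLp.coeFn_toLp _
  filter_upwards [h1, h2] with p h1 h2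
  rw [h1, h2]

lemma MM_symm (f g : Lp ℂ 2 nu) : inner ℂ (MM f) g = inner ℂ f (MM g) := by
  rw [L2.inner_def, L2.inner_def]
  apply integral_congr_ae
  filter_upwards [MM_coe f, MM_coe g] with p h1 h2
  rw [h1, h2]
  simp only [RCLike.inner_apply, map_mul, conj_ofReal]
  ring

variable {a : ℕ → ℂ}

lemma exists_coeff (ha : ∀ j, ‖a j‖ < 1) (k : ℤ) : ∃ c : ℤ →₀ ℂ, (∀ l, 3 ≤ |l - k| → c l = 0) ∧
    ∀ z : ℂ, ‖z‖ = 1 → (z + z⁻¹) * g a k z = ∑ l ∈ c.support, c l * g a l z := by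
  obtain ⟨c0, c1, c2, hc⟩ := mulz ha k
  obtain ⟨d0, d1, d2, hd⟩ := mulzinv ha k
  refine ⟨Finsupp.single k (c0 + d0) + Finsupp.single (k + 1) c1 + Finsupp.single (k + 2) c2 +
    Finsupp.single (k - 1) d1 + Finsupp.single (k - 2) d2, ?_, ?_⟩
  · intro l hl
    have hne : l ≠ k ∧ l ≠ k + 1 ∧ l ≠ k + 2 ∧ l ≠ k - 1 ∧ l ≠ k - 2 := by
      refine ⟨?_, ?_, ?_, ?_, ?_⟩ <;> rintro rfl <;> revert hl <;>
      · ring_nf; norm_num
    simp only [Finsupp.add_apply]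
    rw [Finsupp.single_eq_of_ne hne.1, Finsupp.single_eq_of_ne hne.2.1,
      Finsupp.single_eq_of_ne hne.2.2.1, Finsupp.single_eq_of_ne hne.2.2.2.1,
      Finsupp.single_eq_of_ne hne.2.2.2.2]
    simp
  · intro z hz
    have key : ∀ c : ℤ →₀ ℂ, ∑ l ∈ c.support, c l * g a l z = c.sum fun l x => x * g a l z :=
      fun c => rfl
    rw [key]
    rw [Finsupp.sum_add_index' (by intros; simp) (by intros; ring),
      Finsupp.sum_add_index' (by intros; simp) (by intros; ring),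
      Finsupp.sum_add_index' (by intros; simp) (by intros; ring),
      Finsupp.sum_add_index' (by intros; simp) (by intros; ring)]
    rw [Finsupp.sum_single_index (by simp), Finsupp.sum_single_index (by simp),
      Finsupp.sum_single_index (by simp), Finsupp.sum_single_index (by simp),
      Finsupp.sum_single_index (by simp)]
    rw [add_mul, hc z hz, hd z hz]
    ring

variable (ha : ∀ j, ‖a j‖ < 1)
include ha

lemma sum_coe (s : Finset ℤ) (c : ℤ → ℂ) :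
    ((∑ m ∈ s, c m • vv ha m : Lp ℂ 2 nu) : ℝ × ℕ → ℂ) =ᵐ[nu]
      fun p => ∑ m ∈ s, c m * hh a m p := by
  induction s using Finset.induction_on with
  | empty =>
    simp only [Finset.sum_empty]
    exact Lp.coeFn_zero _ _ _
  | insert m s hm ih =>
    rw [Finset.sum_insert hm]
    filter_upwards [ih, Lp.coeFn_add (c m • vv ha m) (∑ m ∈ s, c m • vv ha m),
      Lp.coeFn_smul (c m) (vv ha m), vv_coe ha m] with p h1 h2 h3 h4
    rw [h2, Pi.add_apply, h3, Pi.smul_apply, h4, h1, Finset.sum_insert hm, smul_eq_mul]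

lemma MM_vv (k : ℤ) (c : ℤ →₀ ℂ)
    (hc : ∀ z : ℂ, ‖z‖ = 1 → (z + z⁻¹) * g a k z = ∑ l ∈ c.support, c l * g a l z) :
    MM (vv ha k) = ∑ l ∈ c.support, c l • vv ha l := by
  apply Lp.ext
  filter_upwards [MM_coe (vv ha k), vv_coe ha k, sum_coe ha c.support c, dom_ae] with p h1 h2 h3 h4
  rw [h1, h2, h3, ← zz_sum h4]
  exact hc _ (zz_norm h4)

/-- the unitary -/
noncomputable def UU : lp (fun _ : ℤ => ℂ) 2 ≃ₗᵢ[ℂ] Lp ℂ 2 nu := (bas ha).repr.symm

lemma UU_single (k : ℤ) : UU ha (lp.single 2 k (1 : ℂ)) = vv ha k := by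
  unfold UU
  rw [HilbertBasis.repr_symm_single, bas_coe]

/-- the operator -/
noncomputable def AA : lp (fun _ : ℤ => ℂ) 2 →L[ℂ] lp (fun _ : ℤ => ℂ) 2 :=
  ((UU ha).symm.toContinuousLinearEquiv.toContinuousLinearMap).comp
    (MM.comp (UU ha).toContinuousLinearEquiv.toContinuousLinearMap)

lemma AA_apply (x : lp (fun _ : ℤ => ℂ) 2) : AA ha x = (UU ha).symm (MM (UU ha x)) := rfl

lemma UU_AA (x : lp (fun _ : ℤ => ℂ) 2) : UU ha (AA ha x) = MM (UU ha x) := by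
  rw [AA_apply, LinearIsometryEquiv.apply_symm_apply]

lemma AA_selfAdjoint : IsSelfAdjoint (AA ha) := by
  rw [ContinuousLinearMap.isSelfAdjoint_iff_isSymmetric]
  intro x y
  change inner ℂ (AA ha x) y = inner ℂ x (AA ha y)
  rw [← (UU ha).inner_map_map (AA ha x) y, ← (UU ha).inner_map_map x (AA ha y), UU_AA, UU_AA,
    MM_symm]

lemma entry (k : ℤ) (c : ℤ →₀ ℂ)
    (hc : ∀ z : ℂ, ‖z‖ = 1 → (z + z⁻¹) * g a k z = ∑ l ∈ c.support, c l * g a l z) (i : ℤ) :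
    inner ℂ (lp.single 2 i (1 : ℂ) : lp (fun _ : ℤ => ℂ) 2) (AA ha (lp.single 2 k (1 : ℂ))) =
      c i := by
  rw [← (UU ha).inner_map_map, UU_AA, UU_single, UU_single, MM_vv ha k c hc, inner_sum]
  simp_rw [inner_smul_right, inner_vv]
  simp only [mul_ite, mul_one, mul_zero, Finset.sum_ite_eq, Finsupp.mem_support_iff, ne_eq,
    ite_not]
  split_ifs with h
  · exact h.symm
  · rfl

lemma entry_symm (i k : ℤ) :
    inner ℂ (lp.single 2 i (1 : ℂ) : lp (fun _ : ℤ => ℂ) 2) (AA ha (lp.single 2 k (1 : ℂ))) =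
    conj (inner ℂ (lp.single 2 k (1 : ℂ) : lp (fun _ : ℤ => ℂ) 2)
      (AA ha (lp.single 2 i (1 : ℂ)))) := by
  have h := (ContinuousLinearMap.isSelfAdjoint_iff_isSymmetric.mp (AA_selfAdjoint ha))
    (lp.single 2 i (1 : ℂ)) (lp.single 2 k (1 : ℂ))
  rw [inner_conj_symm]
  exact h.symm

lemma banded (i k : ℤ) (h : 3 ≤ |i - k|) :
    inner ℂ (lp.single 2 i (1 : ℂ) : lp (fun _ : ℤ => ℂ) 2) (AA ha (lp.single 2 k (1 : ℂ))) = 0 := by
  obtain ⟨c, h1, h2⟩ := exists_coeff ha k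
  rw [entry ha k c h2, h1 i h]

lemma eigen (p : ℝ × ℕ) (hp : p.1 ∈ Ioo (-2 : ℝ) 2) (i : ℤ) :
    HasSum (fun j : ℤ => inner ℂ (lp.single 2 i (1 : ℂ) : lp (fun _ : ℤ => ℂ) 2)
      (AA ha (lp.single 2 j (1 : ℂ))) * conj (hh a j p)) ((p.1 : ℂ) * conj (hh a i p)) := by
  obtain ⟨c, h1, h2⟩ := exists_coeff ha i
  have h3 : ∀ j : ℤ, inner ℂ (lp.single 2 i (1 : ℂ) : lp (fun _ : ℤ => ℂ) 2)
      (AA ha (lp.single 2 j (1 : ℂ))) = conj (c j) := by
    intro j
    rw [entry_symm, entry ha i c h2]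
  simp_rw [h3]
  have h4 : (p.1 : ℂ) * conj (hh a i p) = ∑ j ∈ c.support, conj (c j) * conj (hh a j p) := by
    have h5 := congrArg conj (h2 (zz p) (zz_norm hp))
    rw [zz_sum hp, map_mul, conj_ofReal, map_sum] at h5
    simp_rw [map_mul] at h5
    exact h5
  rw [h4]
  apply hasSum_sum_of_ne_finset_zero
  intro j hj
  rw [Finsupp.notMem_support_iff.mp hj, map_zero, zero_mul]

end Pool.Agent.Helper434.TMOper
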