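import Mathlib
import Pool.Agent.Helper434.TMBasis
import Pool.Agent.Helper434.TMCircle
import Pool.Agent.Helper434.TMHilbert
import Pool.Agent.Helper434.TMOper
import Pool.Agent.Helper434.TMGrow

set_option autoImplicit false

namespace Pool.Agent.Helper434.TMRows

open MeasureTheory AddCircle Complex ComplexConjugate Metric Set
open Pool.Agent.Helper434.TMBasis Pool.Agent.Helper434.TMCircle Pool.Agent.Helper434.TMHilbert
open Pool.Agent.Helper434.TMOper Pool.Agent.Helper434.TMGrow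

variable {a : ℕ → ℂ} (ha : ∀ j, ‖a j‖ < 1)

section ident
include ha

lemma mulz_even (j : ℕ) {z : ℂ} (hz : ‖z‖ = 1) :
    z * gN a (2 * j) z = sc a j * gN a (2 * j + 1) z - conj (a j) * gN a (2 * (j + 1)) z := by
  rw [gN_even, gN_odd, gN_even, Ph_succ]
  have hd := den_ne ha hz.le j
  have hs := sc_sq ha j
  unfold kk bl
  obtain ⟨d, hdd⟩ : ∃ d, d = 1 - conj (a j) * z := ⟨_, rfl⟩
  rw [← hdd] at hd ⊢
  field_simp
  linear_combination (Ph a j z * z) * hdd - (Ph a j z * z) * hs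

lemma mulz_odd (j : ℕ) {z : ℂ} (hz : ‖z‖ = 1) :
    z * gN a (2 * j + 1) z = a j * gN a (2 * j + 1) z + sc a j * gN a (2 * (j + 1)) z := by
  rw [gN_odd, gN_even, Ph_succ]
  have hd := den_ne ha hz.le j
  unfold kk bl
  field_simp
  ring

lemma mulzinv_even (j : ℕ) {z : ℂ} (hz : ‖z‖ = 1) :
    z⁻¹ * gN a (2 * (j + 1)) z = sc a j * gN a (2 * j + 1) z - a j * gN a (2 * j) z := by
  have hz0 := z_ne hz
  rw [gN_even, gN_odd, gN_even, Ph_succ]
  have hd := den_ne ha hz.le j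
  have hs := sc_sq ha j
  unfold kk bl
  obtain ⟨d, hdd⟩ : ∃ d, d = 1 - conj (a j) * z := ⟨_, rfl⟩
  rw [← hdd] at hd ⊢
  field_simp
  linear_combination (Ph a j z * a j) * hdd - (Ph a j z * z) * hs

lemma mulzinv_odd (j : ℕ) {z : ℂ} (hz : ‖z‖ = 1) :
    z⁻¹ * gN a (2 * j + 1) z = conj (a j) * gN a (2 * j + 1) z + sc a j * gN a (2 * j) z := by
  have hz0 := z_ne hz
  rw [gN_odd, gN_even]
  have hd := den_ne ha hz.le j
  unfold kk
  obtain ⟨d, hdd⟩ : ∃ d, d = 1 - conj (a j) * z := ⟨_, rfl⟩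
  rw [← hdd] at hd ⊢
  field_simp
  linear_combination (-(Ph a j z * sc a j)) * hdd

end ident

lemma gN_zero (z : ℂ) : gN a 0 z = 1 := by simp [gN, Ph]

/-- the matrix row equation -/
def Row (ha : ∀ j, ‖a j‖ < 1) (E : ℝ) (w : ℤ → ℂ) (i : ℤ) : Prop :=
  HasSum (fun j : ℤ => inner ℂ (lp.single 2 i (1 : ℂ) : lp (fun _ : ℤ => ℂ) 2)
      (AA ha (lp.single 2 j (1 : ℂ))) * w j) ((E : ℂ) * w i)

lemma row_sum {E : ℝ} {w : ℤ → ℂ} {i : ℤ} (h : Row ha E w i) (c : ℤ →₀ ℂ)
    (hc : ∀ z : ℂ, ‖z‖ = 1 → (z + z⁻¹) * g a i z = c.sum fun l x => x * g a l z) :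
    (E : ℂ) * w i = c.sum fun l x => conj x * w l := by
  have h3 : ∀ j : ℤ, inner ℂ (lp.single 2 i (1 : ℂ) : lp (fun _ : ℤ => ℂ) 2)
      (AA ha (lp.single 2 j (1 : ℂ))) = conj (c j) := by
    intro j
    rw [entry_symm, entry ha i c hc]
  unfold Row at h
  simp_rw [h3] at h
  have h4 : HasSum (fun j : ℤ => conj (c j) * w j) (∑ j ∈ c.support, conj (c j) * w j) := by
    apply hasSum_sum_of_ne_finset_zero
    intro j hj
    rw [Finsupp.notMem_support_iff.mp hj, map_zero, zero_mul]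
  exact h.unique h4

lemma R1 {E : ℝ} {w : ℤ → ℂ} (n : ℕ) (h : Row ha E w (Int.negSucc n)) :
    (E : ℂ) * w (Int.negSucc n) = w (Int.negSucc n + 1) + w (Int.negSucc (n + 1)) := by
  have := row_sum ha h (Finsupp.single (Int.negSucc n + 1) 1 +
    Finsupp.single (Int.negSucc (n + 1)) 1) (by
      intro z hz
      have hz0 := z_ne hz
      rw [Finsupp.sum_add_index' (by intros; simp) (by intros; ring),
        Finsupp.sum_single_index (by simp), Finsupp.sum_single_index (by simp)]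
      rw [g_neg, g_neg]
      rcases n with _ | n
      · have e1 : Int.negSucc 0 + 1 = ((0 : ℕ) : ℤ) := by simp
        rw [e1, g_nat, gN_zero]
        have hzz : z * z⁻¹ = 1 := mul_inv_cancel₀ hz0
        linear_combination hzz
      · have e1 : Int.negSucc (n + 1) + 1 = Int.negSucc n := by
          rw [Int.negSucc_eq, Int.negSucc_eq]; push_cast; ring
        rw [e1, g_neg, pow_succ, pow_succ (z⁻¹) (n + 1 + 1), pow_succ (z⁻¹) (n + 1)]
        field_simp)
  rw [Finsupp.sum_add_index' (by intros; simp) (by intros; rw [map_add]; ring),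
        Finsupp.sum_single_index (by simp), Finsupp.sum_single_index (by simp)] at this
  rw [this, map_one, one_mul, one_mul]

lemma R2 {E : ℝ} {w : ℤ → ℂ} (h : Row ha E w ((0 : ℕ) : ℤ)) :
    (E : ℂ) * w ((0 : ℕ) : ℤ) = sc a 0 * w ((2 * 0 + 1 : ℕ) : ℤ)
      - a 0 * w ((2 * (0 + 1) : ℕ) : ℤ) + w (Int.negSucc 0) := by
  have := row_sum ha h (Finsupp.single ((2 * 0 + 1 : ℕ) : ℤ) (sc a 0) +
    Finsupp.single ((2 * (0 + 1) : ℕ) : ℤ) (-conj (a 0)) + Finsupp.single (Int.negSucc 0) 1) (by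
      intro z hz
      have hz0 := z_ne hz
      rw [Finsupp.sum_add_index' (by intros; simp) (by intros; ring),
        Finsupp.sum_add_index' (by intros; simp) (by intros; ring),
        Finsupp.sum_single_index (by simp), Finsupp.sum_single_index (by simp),
        Finsupp.sum_single_index (by simp)]
      rw [g_neg, g_nat, g_nat, g_nat]
      have h1 := mulz_even ha 0 hz
      rw [Nat.mul_zero] at h1
      rw [add_mul, h1, gN_zero]
      ring)
  rw [Finsupp.sum_add_index' (by intros; simp) (by intros; rw [map_add]; ring),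
    Finsupp.sum_add_index' (by intros; simp) (by intros; rw [map_add]; ring),
    Finsupp.sum_single_index (by simp), Finsupp.sum_single_index (by simp),
    Finsupp.sum_single_index (by simp)] at this
  rw [this, map_one, one_mul, sc_conj, map_neg, conj_conj]
  ring

lemma R3 {E : ℝ} {w : ℤ → ℂ} (j : ℕ) (h : Row ha E w ((2 * (j + 1) : ℕ) : ℤ)) :
    (E : ℂ) * w ((2 * (j + 1) : ℕ) : ℤ) = sc a (j + 1) * w ((2 * (j + 1) + 1 : ℕ) : ℤ)
      - a (j + 1) * w ((2 * (j + 1 + 1) : ℕ) : ℤ) + sc a j * w ((2 * j + 1 : ℕ) : ℤ)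
      - conj (a j) * w ((2 * j : ℕ) : ℤ) := by
  have := row_sum ha h (Finsupp.single ((2 * (j + 1) + 1 : ℕ) : ℤ) (sc a (j + 1)) +
    Finsupp.single ((2 * (j + 1 + 1) : ℕ) : ℤ) (-conj (a (j + 1))) +
    Finsupp.single ((2 * j + 1 : ℕ) : ℤ) (sc a j) + Finsupp.single ((2 * j : ℕ) : ℤ) (-a j)) (by
      intro z hz
      have hz0 := z_ne hz
      rw [Finsupp.sum_add_index' (by intros; simp) (by intros; ring),
        Finsupp.sum_add_index' (by intros; simp) (by intros; ring),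
        Finsupp.sum_add_index' (by intros; simp) (by intros; ring),
        Finsupp.sum_single_index (by simp), Finsupp.sum_single_index (by simp),
        Finsupp.sum_single_index (by simp), Finsupp.sum_single_index (by simp)]
      rw [g_nat, g_nat, g_nat, g_nat, g_nat]
      rw [add_mul, mulz_even ha (j + 1) hz, mulzinv_even ha j hz]
      ring)
  rw [Finsupp.sum_add_index' (by intros; simp) (by intros; rw [map_add]; ring),
    Finsupp.sum_add_index' (by intros; simp) (by intros; rw [map_add]; ring),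
    Finsupp.sum_add_index' (by intros; simp) (by intros; rw [map_add]; ring),
    Finsupp.sum_single_index (by simp), Finsupp.sum_single_index (by simp),
    Finsupp.sum_single_index (by simp), Finsupp.sum_single_index (by simp)] at this
  rw [this, sc_conj, sc_conj, map_neg, conj_conj, map_neg]
  ring

lemma R4 {E : ℝ} {w : ℤ → ℂ} (j : ℕ) (h : Row ha E w ((2 * j + 1 : ℕ) : ℤ)) :
    (E : ℂ) * w ((2 * j + 1 : ℕ) : ℤ) = (a j + conj (a j)) * w ((2 * j + 1 : ℕ) : ℤ)
      + sc a j * w ((2 * (j + 1) : ℕ) : ℤ) + sc a j * w ((2 * j : ℕ) : ℤ) := by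
  have := row_sum ha h (Finsupp.single ((2 * j + 1 : ℕ) : ℤ) (a j + conj (a j)) +
    Finsupp.single ((2 * (j + 1) : ℕ) : ℤ) (sc a j) +
    Finsupp.single ((2 * j : ℕ) : ℤ) (sc a j)) (by
      intro z hz
      have hz0 := z_ne hz
      rw [Finsupp.sum_add_index' (by intros; simp) (by intros; ring),
        Finsupp.sum_add_index' (by intros; simp) (by intros; ring),
        Finsupp.sum_single_index (by simp), Finsupp.sum_single_index (by simp),
        Finsupp.sum_single_index (by simp)]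
      rw [g_nat, g_nat, g_nat]
      rw [add_mul, mulz_odd ha j hz, mulzinv_odd ha j hz]
      ring)
  rw [Finsupp.sum_add_index' (by intros; simp) (by intros; rw [map_add]; ring),
    Finsupp.sum_add_index' (by intros; simp) (by intros; rw [map_add]; ring),
    Finsupp.sum_single_index (by simp), Finsupp.sum_single_index (by simp),
    Finsupp.sum_single_index (by simp)] at this
  rw [this, sc_conj, map_add, conj_conj]
  ring

include ha in
lemma det_ne {E : ℝ} (hE : E ∈ Ioo (-2 : ℝ) 2) (j : ℕ) : 1 - a j * E + a j ^ 2 ≠ 0 := by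
  set z := zz (E, 0) with hz
  have h1 : ‖z‖ = 1 := zz_norm (p := (E, 0)) hE
  have h2 : z + z⁻¹ = (E : ℂ) := zz_sum (p := (E, 0)) hE
  have hz0 := z_ne h1
  have h3 : 1 - a j * E + a j ^ 2 = (1 - a j * z) * (1 - a j * z⁻¹) := by
    rw [← h2]
    have : z * z⁻¹ = 1 := mul_inv_cancel₀ hz0
    linear_combination (-(a j) ^ 2) * this
  rw [h3]
  have key : ∀ y : ℂ, ‖y‖ = 1 → 1 - a j * y ≠ 0 := by
    intro y hy h
    have h4 : a j * y = 1 := by linear_combination -h
    have h5 : ‖a j * y‖ = 1 := by rw [h4, norm_one]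
    rw [norm_mul, hy, mul_one] at h5
    exact absurd h5 (ha j).ne
  exact mul_ne_zero (key z h1) (key z⁻¹ (by rw [norm_inv, h1, inv_one]))

include ha in
lemma two_by_two {E : ℝ} (hE : E ∈ Ioo (-2 : ℝ) 2) (j : ℕ) {x y : ℂ}
    (h1 : sc a j * x - a j * y = 0) (h2 : (a j + conj (a j) - E) * x + sc a j * y = 0) :
    x = 0 ∧ y = 0 := by
  have hd := det_ne ha hE j
  have hs := sc_sq ha j
  constructor
  · have : (1 - a j * E + a j ^ 2) * x = 0 := by
      linear_combination (sc a j) * h1 + (a j) * h2 - x * hs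
    exact (mul_eq_zero.mp this).resolve_left hd
  · have : (1 - a j * E + a j ^ 2) * y = 0 := by
      linear_combination (sc a j) * h2 - (a j + conj (a j) - E) * h1 - y * hs
    exact (mul_eq_zero.mp this).resolve_left hd

/-- uniqueness for the recursion -/
lemma uniq {E : ℝ} (hE : E ∈ Ioo (-2 : ℝ) 2) {w : ℤ → ℂ} (h : ∀ i, Row ha E w i)
    (h1 : w (Int.negSucc 0) = 0) (h2 : w (Int.negSucc 1) = 0) : ∀ i, w i = 0 := by
  have hneg : ∀ n : ℕ, w (Int.negSucc n) = 0 ∧ w (Int.negSucc (n + 1)) = 0 := by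
    intro n
    induction n with
    | zero => exact ⟨h1, h2⟩
    | succ n ih =>
      refine ⟨ih.2, ?_⟩
      have := R1 ha (n + 1) (h _)
      have e1 : Int.negSucc (n + 1) + 1 = Int.negSucc n := by
        rw [Int.negSucc_eq, Int.negSucc_eq]; push_cast; ring
      rw [e1, ih.1, ih.2] at this
      rw [mul_zero, zero_add] at this
      exact this.symm
  have h0 : w ((0 : ℕ) : ℤ) = 0 := by
    have := R1 ha 0 (h _)
    have e1 : Int.negSucc 0 + 1 = ((0 : ℕ) : ℤ) := by simp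
    rw [e1, (hneg 0).1, (hneg 0).2] at this
    rw [mul_zero, add_zero] at this
    exact this.symm
  have hpos : ∀ j : ℕ, w ((2 * j : ℕ) : ℤ) = 0 ∧ w ((2 * j + 1 : ℕ) : ℤ) = 0 ∧
      w ((2 * (j + 1) : ℕ) : ℤ) = 0 := by
    intro j
    induction j with
    | zero =>
      have a1 := R2 ha (h _)
      have a2 := R4 ha 0 (h _)
      have e0 : ((2 * 0 : ℕ) : ℤ) = ((0 : ℕ) : ℤ) := rfl
      rw [e0, h0] at a2
      rw [h0, (hneg 0).1] at a1
      obtain ⟨b1, b2⟩ := two_by_two ha hE 0 (x := w ((2 * 0 + 1 : ℕ) : ℤ))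
        (y := w ((2 * (0 + 1) : ℕ) : ℤ)) (by linear_combination -a1) (by linear_combination -a2)
      exact ⟨by rw [e0]; exact h0, b1, b2⟩
    | succ j ih =>
      have a1 := R3 ha j (h _)
      have a2 := R4 ha (j + 1) (h _)
      rw [ih.2.2, ih.2.1, ih.1] at a1
      rw [ih.2.2] at a2
      obtain ⟨b1, b2⟩ := two_by_two ha hE (j + 1) (x := w ((2 * (j + 1) + 1 : ℕ) : ℤ))
        (y := w ((2 * (j + 1 + 1) : ℕ) : ℤ)) (by linear_combination -a1) (by linear_combination -a2)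
      exact ⟨ih.2.2, b1, b2⟩
  intro i
  rcases i with i | i
  · rcases Nat.even_or_odd' i with ⟨j, rfl | rfl⟩
    · exact (hpos j).1
    · exact (hpos j).2.1
  · exact (hneg i).1

lemma zz_ne {E : ℝ} (hE : E ∈ Ioo (-2 : ℝ) 2) : zz (E, 0) ≠ zz (E, 1) := by
  intro h
  have h1 := congrArg Complex.im h
  have h2 : 0 < 1 - (E / 2) ^ 2 := by
    obtain ⟨h3, h4⟩ := hE
    nlinarith
  have h3 := Real.sqrt_pos.mpr h2
  simp only [zz, if_true, one_ne_zero, if_false] at h1
  linarith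

/-- the two explicit solutions -/
noncomputable def sol (E : ℝ) (α : ℕ) (m : ℤ) : ℂ := conj (hh aa m (E, α))

lemma sol_row {E : ℝ} (hE : E ∈ Ioo (-2 : ℝ) 2) (α : ℕ) (i : ℤ) : Row aa_lt E (sol E α) i :=
  eigen aa_lt (E, α) hE i

lemma sol_neg {E : ℝ} (hE : E ∈ Ioo (-2 : ℝ) 2) (α : ℕ) (n : ℕ) :
    sol E α (Int.negSucc n) = zz (E, α) ^ (n + 1) := by
  have h1 : ‖zz (E, α)‖ = 1 := zz_norm (p := (E, α)) hE
  unfold sol hh
  rw [g_neg, map_pow, map_inv₀, z_conj h1, inv_inv]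

lemma comb_unbdd {E : ℝ} (hE : E ∈ Ioo (-2 : ℝ) 2) {c0 c1 : ℂ} (hc : ¬ (c0 = 0 ∧ c1 = 0)) :
    ¬ ∃ R : ℝ, ∀ m : ℤ, ‖c0 * sol E 0 m + c1 * sol E 1 m‖ ≤ R := by
  have h0 : ‖zz (E, 0)‖ = 1 := zz_norm (p := (E, 0)) hE
  have h1 : ‖zz (E, 1)‖ = 1 := zz_norm (p := (E, 1)) hE
  by_cases hc0 : c0 = 0
  · have hc1 : c1 ≠ 0 := fun h => hc ⟨hc0, h⟩
    have := unbdd h1 h0 (zz_ne hE).symm hc1 (c' := c0)
    intro hR
    apply this
    obtain ⟨R, hR⟩ := hR
    refine ⟨R, fun m => ?_⟩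
    rw [add_comm]
    exact hR m
  · exact unbdd h0 h1 (zz_ne hE) hc0 (c' := c1)

/-- every nonzero solution of the eigenvalue equation is unbounded -/
lemma sol_unbdd {E : ℝ} (hE : E ∈ Ioo (-2 : ℝ) 2) {w : ℤ → ℂ} (h : ∀ i, Row aa_lt E w i)
    (hw : w ≠ 0) : ¬ ∃ R : ℝ, ∀ m : ℤ, ‖w m‖ ≤ R := by
  set z := zz (E, 0) with hz
  set z' := zz (E, 1) with hz'
  have h0 : ‖z‖ = 1 := zz_norm (p := (E, 0)) hE
  have h1 : ‖z'‖ = 1 := zz_norm (p := (E, 1)) hE
  have hne : z - z' ≠ 0 := sub_ne_zero.mpr (zz_ne hE)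
  have hz0 := z_ne h0
  have hz1 := z_ne h1
  set c0 : ℂ := (w (Int.negSucc 1) - z' * w (Int.negSucc 0)) / (z * (z - z')) with hc0
  set c1 : ℂ := (z * w (Int.negSucc 0) - w (Int.negSucc 1)) / (z' * (z - z')) with hc1
  have hlin : ∀ i, Row aa_lt E (fun m => w m - (c0 * sol E 0 m + c1 * sol E 1 m)) i := by
    intro i
    have a1 := h i
    have a2 := sol_row hE 0 i
    have a3 := sol_row hE 1 i
    unfold Row at a1 a2 a3 ⊢
    have a4 := a1.sub ((a2.mul_left c0).add (a3.mul_left c1))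
    beta_reduce
    have e2 : (E : ℂ) * (w i - (c0 * sol E 0 i + c1 * sol E 1 i)) =
      (E : ℂ) * w i - (c0 * ((E : ℂ) * sol E 0 i) + c1 * ((E : ℂ) * sol E 1 i)) := by ring
    rw [e2]
    refine a4.congr_fun (fun j => ?_)
    ring
  have hall := uniq aa_lt hE hlin (by
    rw [sol_neg hE, sol_neg hE, ← hz, ← hz', hc0, hc1]
    field_simp
    ring) (by
    rw [sol_neg hE, sol_neg hE, ← hz, ← hz', hc0, hc1]
    field_simp
    ring)
  have hw' : ∀ m, w m = c0 * sol E 0 m + c1 * sol E 1 m := fun m => sub_eq_zero.mp (hall m)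
  have hc : ¬ (c0 = 0 ∧ c1 = 0) := by
    rintro ⟨b0, b1⟩
    apply hw
    ext m
    rw [hw', b0, b1]
    simp
  intro hR
  apply comb_unbdd hE hc
  obtain ⟨R, hR⟩ := hR
  refine ⟨R, fun m => ?_⟩
  rw [← hw']
  exact hR m

/-- image of a far left basis vector -/
lemma AA_left (ha : ∀ j, ‖a j‖ < 1) : AA ha (lp.single 2 (Int.negSucc 1) (1 : ℂ)) =
    lp.single 2 (Int.negSucc 0) (1 : ℂ) + lp.single 2 (Int.negSucc 2) (1 : ℂ) := by
  apply (UU ha).injective
  rw [UU_AA, map_add, UU_single, UU_single, UU_single]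
  rw [MM_vv ha (Int.negSucc 1) (Finsupp.single (Int.negSucc 0) 1 +
    Finsupp.single (Int.negSucc 2) 1)]
  · change (Finsupp.single (Int.negSucc 0) (1 : ℂ) +
      Finsupp.single (Int.negSucc 2) 1).sum (fun l x => x • vv ha l) = _
    rw [Finsupp.sum_add_index' (by intros; simp) (by intros; rw [add_smul]),
        Finsupp.sum_single_index (by simp), Finsupp.sum_single_index (by simp), one_smul, one_smul]
  · intro z hz
    have hz0 := z_ne hz
    change _ = (Finsupp.single (Int.negSucc 0) (1 : ℂ) +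
      Finsupp.single (Int.negSucc 2) 1).sum (fun l x => x * g a l z)
    rw [Finsupp.sum_add_index' (by intros; simp) (by intros; ring),
        Finsupp.sum_single_index (by simp), Finsupp.sum_single_index (by simp)]
    rw [g_neg, g_neg, g_neg]
    have hzz : z * z⁻¹ = 1 := mul_inv_cancel₀ hz0
    linear_combination (z⁻¹) * hzz

lemma AA_left_norm (ha : ∀ j, ‖a j‖ < 1) :
    ‖AA ha (lp.single 2 (Int.negSucc 1) (1 : ℂ))‖ < 2 := by
  have h1 : ‖AA ha (lp.single 2 (Int.negSucc 1) (1 : ℂ))‖ ^ 2 = 2 := by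
    rw [AA_left, ← (UU ha).norm_map, map_add, UU_single, UU_single]
    have h2 : ‖vv ha (Int.negSucc 0) + vv ha (Int.negSucc 2)‖ ^ 2 = 2 := by
      rw [@norm_add_sq ℂ]
      have o := vv_orthonormal ha
      rw [o.1, o.1, inner_vv, if_neg (by decide)]
      norm_num
    exact h2
  nlinarith [norm_nonneg (AA ha (lp.single 2 (Int.negSucc 1) (1 : ℂ)))]

end Pool.Agent.Helper434.TMRows
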